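import Pool.Agent.MP_418f02_an.Ker

open MeasureTheory Set
open scoped ENNReal RealInnerProductSpace

namespace Pool.Agent.MP_418f02_an

variable {d : ℕ}

theorem cv_pos (j : ℤ) : (0 : ℝ) < 2 ^ (j - 2) := zpow_pos (by norm_num) _

theorem cv_four (j : ℤ) : (4 : ℝ) * 2 ^ (j - 2) = 2 ^ j := by
  rw [zpow_sub₀ (by norm_num : (2 : ℝ) ≠ 0)]
  norm_num
  ring

theorem cv_size (j : ℤ) : (((2 : ℝ) ^ (j - 2)) ^ d)⁻¹ = 4 ^ d / sz d j := by
  have h := cv_pos j
  unfold sz
  rw [← cv_four j, mul_pow]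
  field_simp

/-- the kernel at level `j` lives in the dilated cube -/
theorem cv_off {k : E d → ℝ} (h : IsKer k) {j : ℤ} {x y : E d} (hy : y ∉ big (cb j x)) :
    KK k (2 ^ (j - 2)) (x - y) = 0 := by
  apply KK_supp h (cv_pos j)
  rw [cv_four]
  by_contra hn
  exact hy (mem_big_of_norm (not_lt.mp hn))

theorem cv_neg {K : E d → ℝ} (h : Nice K) : Nice fun y => K (-y) := by
  obtain ⟨hm, ⟨M, hM⟩, ⟨R, hR⟩⟩ := h
  refine ⟨hm.comp measurable_neg, ⟨M, fun x => hM _⟩, ⟨R, fun x hx => hR _ ?_⟩⟩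
  rwa [norm_neg]

theorem cv_refl {K : E d → ℝ} (h : Nice K) (x : E d) : Nice fun y => K (x - y) := by
  have h1 := (cv_neg h).shift x
  simpa only [neg_sub] using h1

theorem cv_int {K g : E d → ℝ} (hK : Nice K) (hg : Nice g) (x : E d) :
    Integrable fun y => K (x - y) * g y :=
  ((cv_refl hK x).mul hg).integrable

theorem cv_meas2 {K g : E d → ℝ} (hK : Measurable K) (hg : Measurable g) :
    Measurable fun p : E d × E d => K (p.1 - p.2) * g p.2 :=
  (hK.comp (measurable_fst.sub measurable_snd)).mul (hg.comp measurable_snd)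

/-- convolution of nice functions is nice -/
theorem cv_conv {K g : E d → ℝ} (hK : Nice K) (hg : Nice g) :
    Nice fun x => ∫ y, K (x - y) * g y := by
  have hgi := hg.integrable
  have hi := cv_int hK hg
  obtain ⟨hm, ⟨M, hM⟩, ⟨R, hR⟩⟩ := hK
  obtain ⟨gm, -, ⟨S, hS⟩⟩ := hg
  refine ⟨?_, ⟨∫ y, M * |g y|, fun x => ?_⟩, ⟨R + S, fun x hx => ?_⟩⟩
  · exact ((cv_meas2 hm gm).stronglyMeasurable.integral_prod_right' (ν := volume)).measurable
  · refine (abs_integral_le_integral_abs).trans ?_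
    refine integral_mono (hi x).abs (hgi.abs.const_mul M) fun y => ?_
    show |K (x - y) * g y| ≤ M * |g y|
    rw [abs_mul]
    exact mul_le_mul_of_nonneg_right (hM _) (abs_nonneg _)
  · have h0 : (fun y => K (x - y) * g y) = fun _ => 0 := by
      funext y
      by_cases hy : S < ‖y‖
      · rw [hS y hy, mul_zero]
      · have h1 : ‖x‖ ≤ ‖x - y‖ + ‖y‖ := by
          have := norm_add_le (x - y) y
          rwa [sub_add_cancel] at this
        rw [hR (x - y) (by linarith [not_lt.mp hy]), zero_mul]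
    rw [h0, integral_zero]

theorem cv_prod {K f g : E d → ℝ} (hK : Nice K) (hf : Nice f) (hg : Nice g) :
    Integrable (fun p : E d × E d => K (p.1 - p.2) * f p.2 * g p.1) (volume.prod volume) := by
  have hfi := hf.integrable
  have hgi := hg.integrable
  obtain ⟨M, hM⟩ := hK.bdd
  have hb : Integrable (fun p : E d × E d => M * (|g p.1| * |f p.2|)) (volume.prod volume) :=
    (hgi.abs.mul_prod hfi.abs).const_mul M
  refine hb.mono' ?_ (Filter.Eventually.of_forall fun p => ?_)
  · exact ((cv_meas2 hK.meas hf.meas).mul (hg.meas.comp measurable_fst)).aestronglyMeasurable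
  · rw [Real.norm_eq_abs, abs_mul, abs_mul, mul_assoc, mul_comm |f p.2|]
    exact mul_le_mul_of_nonneg_right (hM _) (mul_nonneg (abs_nonneg _) (abs_nonneg _))

/-- exchange of the order of integration -/
theorem cv_swap {K f g : E d → ℝ} (hK : Nice K) (hf : Nice f) (hg : Nice g) :
    ∫ x, (∫ y, K (x - y) * f y) * g x = ∫ y, f y * ∫ x, K (x - y) * g x := by
  have h1 : ∀ x, (∫ y, K (x - y) * f y) * g x = ∫ y, K (x - y) * f y * g x :=
    fun x => (integral_mul_const _ _).symm
  have h2 : ∀ y, f y * ∫ x, K (x - y) * g x = ∫ x, K (x - y) * f y * g x := by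
    intro y
    rw [← integral_const_mul]
    congr 1
    funext x
    ring
  simp only [h1, h2]
  exact integral_integral_swap (f := fun x y => K (x - y) * f y * g x) (cv_prod hK hf hg)

theorem cv_nice {k g : E d → ℝ} (h : IsKer k) (hg : Nice g) (j : ℤ) : Nice (cv k j g) :=
  cv_conv (KK_nice h (cv_pos j)) hg

theorem cv_congr {k f g : E d → ℝ} (h : IsKer k) {j : ℤ} {x : E d}
    (e : ∀ y ∈ big (cb j x), f y = g y) : cv k j f x = cv k j g x := by
  unfold cv
  congr 1
  funext y
  by_cases hy : y ∈ big (cb j x)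
  · rw [e y hy]
  · rw [cv_off h hy, zero_mul, zero_mul]

theorem cv_le {k g : E d → ℝ} (h : IsKer k) (hg : Nice g) (j : ℤ) (x : E d) :
    |cv k j g x| ≤ 4 ^ d / sz d j * ∫ y in big (cb j x), |g y| := by
  have hi := cv_int (KK_nice h (cv_pos j)) hg x
  have hm := measurableSet_big (cb j x)
  rw [← integral_const_mul, ← integral_indicator hm]
  refine (abs_integral_le_integral_abs).trans ?_
  refine integral_mono hi.abs ((hg.integrable.abs.const_mul _).indicator hm) fun y => ?_
  show |KK k (2 ^ (j - 2)) (x - y) * g y| ≤ _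
  by_cases hy : y ∈ big (cb j x)
  · rw [indicator_of_mem hy, abs_mul, ← cv_size]
    exact mul_le_mul_of_nonneg_right (KK_le h (cv_pos j) _) (abs_nonneg _)
  · rw [indicator_of_notMem hy, cv_off h hy, zero_mul, abs_zero]

theorem cv_add {k f g : E d → ℝ} (h : IsKer k) (hf : Nice f) (hg : Nice g) (j : ℤ) (x : E d) :
    cv k j (fun y => f y + g y) x = cv k j f x + cv k j g x := by
  have hK := KK_nice h (cv_pos j)
  unfold cv
  rw [← integral_add (cv_int hK hf x) (cv_int hK hg x)]
  simp only [mul_add]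

theorem cv_const_mul (k g : E d → ℝ) (c : ℝ) (j : ℤ) (x : E d) :
    cv k j (fun y => c * g y) x = c * cv k j g x := by
  unfold cv
  rw [← integral_const_mul]
  congr 1
  funext y
  ring

theorem cv_sum {ι : Type} {k : E d → ℝ} (h : IsKer k) {s : Finset ι} {g : ι → E d → ℝ}
    (hg : ∀ i ∈ s, Nice (g i)) (j : ℤ) (x : E d) :
    cv k j (fun y => ∑ i ∈ s, g i y) x = ∑ i ∈ s, cv k j (g i) x := by
  have hK := KK_nice h (cv_pos j)
  unfold cv
  rw [← integral_finsetSum s fun i hi => cv_int hK (hg i hi) x]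
  simp only [Finset.mul_sum]

theorem cv_dual {k f g : E d → ℝ} (h : IsKer k) (hf : Nice f) (hg : Nice g) (j : ℤ) :
    ∫ x, cv k j f x * g x = ∫ y, f y * cv (rf k) j g y := by
  unfold cv
  simp only [KK_rf, neg_sub]
  exact cv_swap (KK_nice h (cv_pos j)) hf hg

theorem cv_ind {k : E d → ℝ} (h : IsKer k) (j : ℤ) (c : Cb d) (y : E d) :
    |cv k j ((cube c).indicator fun _ => 1) y| ≤ (bd j c).indicator (fun _ => 8 ^ d) y := by
  have hK := KK_nice h (cv_pos j)
  by_cases hy : y ∈ bd j c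
  · rw [indicator_of_mem hy]
    unfold cv
    refine (abs_integral_le_integral_abs).trans ?_
    have h1 : ∫ z, |KK k (2 ^ (j - 2)) (y - z)| ≤ 8 ^ d := by
      rw [integral_sub_left_eq_self (fun z => |KK k (2 ^ (j - 2)) z|) volume y]
      exact KK_l1 h (cv_pos j)
    refine le_trans (integral_mono_of_nonneg (Filter.Eventually.of_forall fun z => abs_nonneg _)
      (cv_refl hK y).abs.integrable (Filter.Eventually.of_forall fun z => ?_)) h1
    show |KK k (2 ^ (j - 2)) (y - z) * (cube c).indicator (fun _ => (1 : ℝ)) z| ≤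
      |KK k (2 ^ (j - 2)) (y - z)|
    by_cases hz : z ∈ cube c
    · rw [indicator_of_mem hz, mul_one]
    · rw [indicator_of_notMem hz, mul_zero, abs_zero]
      exact abs_nonneg _
  · rw [indicator_of_notMem hy]
    by_cases h1 : ∃ x ∈ big (cb j y), x ∈ cube c
    · have h2 : ∀ x ∈ big (cb j y), x ∈ cube c := by
        intro x hx
        by_contra hn
        exact hy ⟨h1, x, hx, hn⟩
      rw [cv_congr (g := fun _ => 1) h fun x hx => indicator_of_mem (h2 x hx) _]
      unfold cv
      simp only [mul_one]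
      rw [integral_sub_left_eq_self (fun z => KK k (2 ^ (j - 2)) z) volume y,
        KK_zero h (cv_pos j), abs_zero]
    · have h2 : ∀ x ∈ big (cb j y), x ∉ cube c := fun x hx hc => h1 ⟨x, hx, hc⟩
      rw [cv_congr (g := fun _ => 0) h fun x hx => indicator_of_notMem (h2 x hx) _]
      unfold cv
      simp only [mul_zero, integral_zero, abs_zero, le_refl]

theorem cv_inner {k f g : E d → ℝ} (h : IsKer k) (hf : Nice f) (hg : Nice g) (j i : ℤ) :
    ∫ z, cv k j f z * cv k i g z =
      ∫ x, f x * ∫ a, g a * Psi k (2 ^ (j - 2)) (2 ^ (i - 2)) (a - x) := by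
  have hj := KK_nice h (cv_pos j)
  have hi := KK_nice h (cv_pos i)
  have h1 := cv_swap hj hf (cv_nice h hg i)
  refine h1.trans ?_
  congr 1
  funext x
  congr 1
  have h2 := cv_swap hi hg (hj.shift x)
  have h3 : ∀ z, KK k (2 ^ (j - 2)) (z - x) * cv k i g z =
      (∫ y, KK k (2 ^ (i - 2)) (z - y) * g y) * KK k (2 ^ (j - 2)) (z - x) :=
    fun z => mul_comm _ _
  simp only [h3]
  refine h2.trans ?_
  congr 1
  funext a
  congr 1
  unfold Psi
  rw [← integral_add_right_eq_self
    (fun z => KK k (2 ^ (i - 2)) (z - a) * KK k (2 ^ (j - 2)) (z - x)) x]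
  congr 1
  funext z
  rw [add_sub_cancel_right, mul_comm]
  congr 2
  abel

theorem ps_nice {φ : ℤ → E d → ℝ} (h : ∀ j, Nice (φ j)) (a b : ℤ) : Nice (ps φ a b) :=
  nice_sum fun j _ => h j

theorem TT_nice {k g : E d → ℝ} (h : IsKer k) (hg : Nice g) (a b : ℤ) : Nice (TT k a b g) :=
  ps_nice (fun j => cv_nice h hg j) a b

theorem TG_nice {k g : E d → ℝ} (h : IsKer k) (hg : Nice g) {G : ℤ → Set (E d)} (hG : Stop G)
    (a b : ℤ) : Nice (TG k G a b g) :=
  ps_nice (fun j => (cv_nice h hg j).indicator (hG.lm j).meas) a b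

theorem TT_dual {k f g : E d → ℝ} (h : IsKer k) (hf : Nice f) (hg : Nice g) (a b : ℤ) :
    ∫ x, TT k a b f x * g x = ∫ y, f y * TT (rf k) a b g y := by
  unfold TT ps
  simp only [Finset.sum_mul, Finset.mul_sum]
  rw [integral_finsetSum _ fun j _ => ((cv_nice h hf j).mul hg).integrable,
    integral_finsetSum _ fun j _ => (hf.mul (cv_nice h.rf hg j)).integrable]
  exact Finset.sum_congr rfl fun j _ => cv_dual h hf hg j

theorem TG_eq_TT (k g : E d → ℝ) {G : ℤ → Set (E d)} (hG : Stop G) (a b : ℤ) (x : E d) :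
    ∃ a', a ≤ a' ∧ TG k G a b g x = TT k a' b g x := by
  by_cases hx : ∃ j, a ≤ j ∧ x ∈ G j
  · obtain ⟨m, ⟨hm1, hm2⟩, hm3⟩ :=
      Int.exists_least_of_bdd (P := fun j => a ≤ j ∧ x ∈ G j) ⟨a, fun z hz => hz.1⟩ hx
    refine ⟨m, hm1, ?_⟩
    unfold TG TT ps
    symm
    refine Finset.sum_subset_zero_on_sdiff (Finset.Icc_subset_Icc_left hm1) ?_ ?_
    · intro j hj
      rw [Finset.mem_sdiff, Finset.mem_Icc, Finset.mem_Icc] at hj
      refine indicator_of_notMem (fun hc => hj.2 ⟨hm3 j ⟨hj.1.1, hc⟩, hj.1.2⟩) _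
    · intro j hj
      rw [Finset.mem_Icc] at hj
      exact (indicator_of_mem (hG.mono m j hj.1 hm2) _).symm
  · refine ⟨max a (b + 1), le_max_left _ _, ?_⟩
    unfold TG TT ps
    rw [Finset.Icc_eq_empty (a := max a (b + 1)) (by
      have := le_max_right a (b + 1)
      omega), Finset.sum_empty]
    refine Finset.sum_eq_zero fun j hj => ?_
    rw [Finset.mem_Icc] at hj
    exact indicator_of_notMem (fun hc => hx ⟨j, hj.1, hc⟩) _

theorem TG_add {k f g : E d → ℝ} (h : IsKer k) (hf : Nice f) (hg : Nice g) (G : ℤ → Set (E d))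
    (a b : ℤ) (x : E d) :
    TG k G a b (fun y => f y + g y) x = TG k G a b f x + TG k G a b g x := by
  unfold TG ps
  rw [← Finset.sum_add_distrib]
  refine Finset.sum_congr rfl fun j _ => ?_
  by_cases hx : x ∈ G j
  · simp only [indicator_of_mem hx]
    exact cv_add h hf hg j x
  · simp only [indicator_of_notMem hx, add_zero]

theorem TG_const_mul (k g : E d → ℝ) (c : ℝ) (G : ℤ → Set (E d)) (a b : ℤ) (x : E d) :
    TG k G a b (fun y => c * g y) x = c * TG k G a b g x := by
  unfold TG ps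
  rw [Finset.mul_sum]
  refine Finset.sum_congr rfl fun j _ => ?_
  by_cases hx : x ∈ G j
  · simp only [indicator_of_mem hx]
    exact cv_const_mul k g c j x
  · simp only [indicator_of_notMem hx, mul_zero]

theorem TG_sum {ι : Type} {k : E d → ℝ} (h : IsKer k) {s : Finset ι} {g : ι → E d → ℝ}
    (hg : ∀ i ∈ s, Nice (g i)) (G : ℤ → Set (E d)) (a b : ℤ) (x : E d) :
    TG k G a b (fun y => ∑ i ∈ s, g i y) x = ∑ i ∈ s, TG k G a b (g i) x := by
  unfold TG ps
  rw [Finset.sum_comm]
  refine Finset.sum_congr rfl fun j _ => ?_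
  by_cases hx : x ∈ G j
  · simp only [indicator_of_mem hx]
    exact cv_sum h hg j x
  · simp only [indicator_of_notMem hx, Finset.sum_const_zero]

theorem TG_congr {k f g : E d → ℝ} (h : IsKer k) (G : ℤ → Set (E d)) (a : ℤ) {W : Cb d}
    {x : E d} (hx : x ∈ cube W) (e : ∀ y ∈ big W, f y = g y) :
    TG k G a W.1 f x = TG k G a W.1 g x := by
  unfold TG ps
  refine Finset.sum_congr rfl fun j hj => ?_
  rw [Finset.mem_Icc] at hj
  by_cases hG : x ∈ G j
  · simp only [indicator_of_mem hG]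
    exact cv_congr h fun y hy => e y (big_subset_big hj.2 hx hy)
  · simp only [indicator_of_notMem hG]

end Pool.Agent.MP_418f02_an
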