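import Pool.Agent.MP_418f02_an.Cube2
import Pool.Agent.MP_418f02_an.Cv

open MeasureTheory Set
open scoped ENNReal RealInnerProductSpace

namespace Pool.Agent.MP_418f02_an

variable {d : ℕ}

open scoped Classical

theorem Atoms.subset {P P' : Finset (Cb d)} {b : Cb d → E d → ℝ} {c : ℝ} (h : Atoms P b c)
    (hP : P' ⊆ P) : Atoms P' b c := by
  exact ⟨h.dj.subset hP, fun Q hQ => h.nice Q (hP hQ), fun Q hQ => h.supp Q (hP hQ),
    fun Q hQ => h.zero Q (hP hQ), fun Q hQ => h.mass Q (hP hQ)⟩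

theorem Atoms.nice_Bl {P : Finset (Cb d)} {b : Cb d → E d → ℝ} {c : ℝ} (h : Atoms P b c)
    (e : ℤ) : Nice (Bl P b e) := by
  exact nice_sum (fun Q hQ => h.nice Q (Finset.mem_filter.1 hQ).1)

theorem Atoms.nice_Bw {P : Finset (Cb d)} {b : Cb d → E d → ℝ} {c : ℝ} (h : Atoms P b c)
    (a e : ℤ) : Nice (Bw P b a e) := by
  exact nice_sum (fun Q hQ => h.nice Q (Finset.mem_filter.1 hQ).1)

theorem Bl_split (P : Finset (Cb d)) (b : Cb d → E d → ℝ) {a e : ℤ} (h : a ≤ e) (x : E d) :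
    Bl P b e x = Bw P b a e x + Bl P b a x := by
  unfold Bl Bw
  simp only [Finset.sum_filter]
  rw [← Finset.sum_add_distrib]
  refine Finset.sum_congr rfl (fun Q _ => ?_)
  by_cases h1 : Q.1 < a
  · rw [if_pos (by omega), if_neg (by omega), if_pos h1, zero_add]
  · by_cases h2 : Q.1 < e
    · rw [if_pos h2, if_pos ⟨by omega, h2⟩, if_neg h1, add_zero]
    · rw [if_neg h2, if_neg (by omega), if_neg h1, add_zero]

theorem Atoms.abs_sum_le {P : Finset (Cb d)} {b : Cb d → E d → ℝ} {c M : ℝ} (h : Atoms P b c)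
    (hM : 0 ≤ M) (hb : ∀ Q ∈ P, ∀ x, |b Q x| ≤ M) (x : E d) : |∑ Q ∈ P, b Q x| ≤ M := by
  by_cases hx : ∃ Q ∈ P, x ∈ cube Q
  · obtain ⟨Q, hQ, hxQ⟩ := hx
    rw [Finset.sum_eq_single Q]
    · exact hb Q hQ x
    · intro Q' hQ' hne
      refine h.supp Q' hQ' x (fun hx' => ?_)
      exact Set.disjoint_left.1 (h.dj hQ' hQ hne) hx' hxQ
    · intro hn
      exact absurd hQ hn
  · push Not at hx
    rw [Finset.sum_eq_zero (fun Q hQ => h.supp Q hQ x (hx Q hQ)), abs_zero]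
    exact hM

theorem Atoms.mass_lm {P : Finset (Cb d)} {b : Cb d → E d → ℝ} {c : ℝ} (h : Atoms P b c)
    (hc : 0 ≤ c) {j : ℤ} {S : Set (E d)} (hS : LM j S) (hP : ∀ Q ∈ P, Q.1 ≤ j) :
    ∫ x in S, |∑ Q ∈ P, b Q x| ≤ c * ∑ Q ∈ P with (cube Q ∩ S).Nonempty, sz d Q.1 := by
  have _ := hc
  have _ := hP
  have hi : ∀ Q ∈ P, Integrable (fun x => |b Q x|) := fun Q hQ => (h.nice Q hQ).abs.integrable
  calc ∫ x in S, |∑ Q ∈ P, b Q x| ≤ ∫ x in S, ∑ Q ∈ P, |b Q x| := by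
        refine integral_mono (nice_sum h.nice).abs.integrable.integrableOn
          (integrable_finset_sum _ (fun Q hQ => (hi Q hQ).integrableOn)) (fun x => ?_)
        exact Finset.abs_sum_le_sum_abs _ _
    _ = ∑ Q ∈ P, ∫ x in S, |b Q x| :=
        integral_finset_sum _ (fun Q hQ => (hi Q hQ).integrableOn)
    _ ≤ ∑ Q ∈ P, if (cube Q ∩ S).Nonempty then c * sz d Q.1 else 0 := by
        refine Finset.sum_le_sum (fun Q hQ => ?_)
        split_ifs with hn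
        · refine le_trans ?_ (h.mass Q hQ)
          exact setIntegral_le_integral (hi Q hQ) (Filter.Eventually.of_forall fun x => abs_nonneg _)
        · refine le_of_eq (setIntegral_eq_zero_of_forall_eq_zero (fun x hx => ?_))
          rw [h.supp Q hQ x (fun hx' => hn ⟨x, hx', hx⟩), abs_zero]
    _ = c * ∑ Q ∈ P with (cube Q ∩ S).Nonempty, sz d Q.1 := by
        rw [Finset.mul_sum, Finset.sum_filter]

theorem atom_mass {P : Finset (Cb d)} {b : Cb d → E d → ℝ} {c : ℝ} (h : Atoms P b c)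
    (hc : 0 ≤ c) {e j : ℤ} {S : Set (E d)} (hS : LM j S) (he : e ≤ j) {v : ℝ} (hv : 0 ≤ v)
    (hvol : volume S ≤ ENNReal.ofReal v) : ∫ x in S, |Bl P b e x| ≤ c * v := by
  have hsub : P.filter (fun Q => Q.1 < e) ⊆ P := Finset.filter_subset _ _
  have h1 := (h.subset hsub).mass_lm hc hS (fun Q hQ => by
    have := (Finset.mem_filter.1 hQ).2
    omega)
  refine h1.trans (mul_le_mul_of_nonneg_left ?_ hc)
  refine (h.dj.subset ((Finset.filter_subset _ _).trans hsub)).sum_le hv hvol (fun Q hQ => ?_)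
  obtain ⟨hQ1, x, hx1, hx2⟩ := Finset.mem_filter.1 hQ
  have := (Finset.mem_filter.1 hQ1).2
  exact hS.cube_subset (by omega) hx1 hx2

theorem Atoms.mass_Bl {P : Finset (Cb d)} {b : Cb d → E d → ℝ} {c : ℝ} (h : Atoms P b c)
    (hc : 0 ≤ c) {e : ℤ} {Q : Cb d} (he : e ≤ Q.1) : ∫ x in cube Q, |Bl P b e x| ≤ c * sz d Q.1 := by
  exact atom_mass h hc (lm_cube Q) he (sz_pos _).le (volume_cube Q).le

theorem Atoms.cv_Bl_le {P : Finset (Cb d)} {b : Cb d → E d → ℝ} {c : ℝ} (h : Atoms P b c)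
    (hc : 0 ≤ c) {k : E d → ℝ} (hk : IsKer k) {e j : ℤ} (he : e ≤ j) (x : E d) :
    |cv k j (Bl P b e) x| ≤ 12 ^ d * c := by
  have h1 := cv_le hk (h.nice_Bl e) j x
  have h0 := sz_pos (d := d) j
  have h2 : ∫ y in big (cb j x), |Bl P b e y| ≤ c * (3 ^ d * sz d j) :=
    atom_mass h hc (lm_big (cb j x)) he (by positivity) (volume_big (cb j x)).le
  refine h1.trans ((mul_le_mul_of_nonneg_left h2 (by positivity)).trans (le_of_eq ?_))
  rw [show (12 : ℝ) = 4 * 3 by norm_num, mul_pow]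
  field_simp

theorem Atoms.cv_eq_Bl {P : Finset (Cb d)} {b : Cb d → E d → ℝ} {c : ℝ} (h : Atoms P b c)
    {k : E d → ℝ} (hk : IsKer k) {j : ℤ} {x : E d}
    (hx : ∀ Q ∈ P, (cube Q ∩ big (cb j x)).Nonempty → Q.1 < j) :
    cv k j (fun y => ∑ Q ∈ P, b Q y) x = cv k j (Bl P b j) x := by
  refine cv_congr hk (fun y hy => ?_)
  unfold Bl
  rw [Finset.sum_filter]
  refine Finset.sum_congr rfl (fun Q hQ => ?_)
  split_ifs with hj
  · rfl
  · exact h.supp Q hQ y (fun hy' => hj (hx Q hQ ⟨y, hy', hy⟩))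

theorem cz {g : E d → ℝ} (hg : Nice g) {W : Cb d} {j₀ : ℤ} {μ : ℝ} (hj : j₀ ≤ W.1) (hμ : 0 < μ)
    (hW : ∫ x in big W, |g x| ≤ μ * (3 ^ d * sz d W.1)) :
    ∃ P : Finset (Cb d), Dj P ∧ big W = ⋃ Q ∈ P, cube Q ∧
      (∀ Q ∈ P, ∫ x in cube Q, |g x| ≤ 6 ^ d * μ * sz d Q.1) ∧
      ∀ Q ∈ P, Q.1 < W.1 ∧ (j₀ ≤ Q.1 → μ * (3 ^ d * sz d Q.1) < ∫ x in cube Q, |g x|) := by
  have hi : Integrable (fun x => |g x|) := hg.abs.integrable
  have hmono : ∀ {A B : Set (E d)}, A ⊆ B → ∫ x in A, |g x| ≤ ∫ x in B, |g x| := fun hAB =>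
    setIntegral_mono_set hi.integrableOn (Filter.Eventually.of_forall fun x => abs_nonneg _)
      hAB.eventuallyLE
  let S : Set (Cb d) := {c | (j₀ - 1 ≤ c.1 ∧ c.1 ≤ W.1 ∧ cube c ⊆ big W) ∧
    (c.1 = j₀ - 1 ∨ μ * (3 ^ d * sz d c.1) < ∫ x in cube c, |g x|)}
  have hSf : S.Finite := (finite_sub (j₀ - 1) W).subset (fun c hc => hc.1)
  obtain ⟨T, hTS, hTd, hT1, hT2⟩ := exists_maximal S W.1 (fun c hc => hc.1.2.1)
  have hTf : T.Finite := hSf.subset hTS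
  have hlt : ∀ c ∈ S, c.1 < W.1 := by
    intro c hc
    refine lt_of_le_of_ne hc.1.2.1 (fun he => ?_)
    rcases hc.2 with h1 | h1
    · omega
    · rw [he] at h1
      exact absurd (h1.trans_le ((hmono hc.1.2.2).trans hW)) (lt_irrefl _)
  refine ⟨hTf.toFinset, ?_, ?_, ?_, ?_⟩
  · unfold Dj
    rw [hTf.coe_toFinset]
    exact hTd
  · ext x
    simp only [mem_iUnion, hTf.mem_toFinset, exists_prop]
    constructor
    · intro hx
      have h1 : cb (j₀ - 1) x ∈ S := by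
        refine ⟨⟨le_rfl, by simp only [cb]; omega, ?_⟩, Or.inl rfl⟩
        exact (lm_big W).cube_subset (by simp only [cb]; omega) (mem_cube_cb _ x) hx
      obtain ⟨c', hc', -, h2⟩ := hT1 _ h1
      exact ⟨c', hc', h2 (mem_cube_cb _ x)⟩
    · rintro ⟨Q, hQ, hx⟩
      exact (hTS hQ).1.2.2 hx
  · intro Q hQ
    rw [hTf.mem_toFinset] at hQ
    have hQS := hTS hQ
    have hQW := hlt Q hQS
    obtain ⟨x, hx⟩ := cube_nonempty Q
    have hl : (cb (Q.1 + 1) x).1 = Q.1 + 1 := rfl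
    have hsub : cube Q ⊆ cube (cb (Q.1 + 1) x) :=
      (lm_cube (cb (Q.1 + 1) x)).cube_subset (by omega) hx (mem_cube_cb _ x)
    have hin : cube (cb (Q.1 + 1) x) ⊆ big W :=
      (lm_big W).cube_subset (by omega) (mem_cube_cb _ x) (hQS.1.2.2 hx)
    have hle : ∫ y in cube (cb (Q.1 + 1) x), |g y| ≤ μ * (3 ^ d * sz d (Q.1 + 1)) := by
      by_contra hc
      have h1 : cb (Q.1 + 1) x ∈ S :=
        ⟨⟨by have := hQS.1.1; omega, by omega, hin⟩, Or.inr (not_le.1 hc)⟩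
      have h2 := congrArg Prod.fst (hT2 Q hQ _ h1 (by omega) hsub)
      omega
    refine (hmono hsub).trans (hle.trans (le_of_eq ?_))
    have h3 := sz_add (d := d) Q.1 1
    rw [Nat.cast_one] at h3
    rw [h3, show (6 : ℝ) = 3 * 2 ^ 1 by norm_num, mul_pow]
    ring
  · intro Q hQ
    rw [hTf.mem_toFinset] at hQ
    have hQS := hTS hQ
    exact ⟨hlt Q hQS, fun h1 => hQS.2.resolve_left (by omega)⟩

end Pool.Agent.MP_418f02_an
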