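import Pool.Agent.MP_418f02_an.Seeger

open MeasureTheory Set
open scoped ENNReal RealInnerProductSpace

namespace Pool.Agent.MP_418f02_an

variable {d : ℕ}

theorem bdry_geom_eq (r : ℤ) (n : ℕ) :
    ∑ j ∈ Finset.Ico (r - n) r, (2 : ℝ) ^ (j - r) = 1 - 2 ^ (-(n : ℤ)) := by
  induction n with
  | zero => simp
  | succ n ih =>
    have : Finset.Ico (r - (n + 1 : ℕ)) r = insert (r - (n + 1 : ℕ)) (Finset.Ico (r - n) r) := by
      ext j
      simp only [Finset.mem_Ico, Finset.mem_insert]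
      push_cast
      omega
    rw [this, Finset.sum_insert (by simp only [Finset.mem_Ico]; push_cast; omega), ih]
    have e1 : r - ((n + 1 : ℕ) : ℤ) - r = -(n : ℤ) + -1 := by push_cast; ring
    have e2 : -((n + 1 : ℕ) : ℤ) = -(n : ℤ) + -1 := by push_cast; ring
    rw [e1, e2, zpow_add₀ two_ne_zero, zpow_neg_one]
    ring

theorem bdry_geom (a r : ℤ) : ∑ j ∈ Finset.Ico a r, (2 : ℝ) ^ (j - r) ≤ 1 := by
  have h1 : Finset.Ico a r ⊆ Finset.Ico (r - ((r - a).toNat : ℕ)) r := by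
    intro j
    simp only [Finset.mem_Ico]
    omega
  refine (Finset.sum_le_sum_of_subset_of_nonneg h1 fun j _ _ => by positivity).trans ?_
  rw [bdry_geom_eq]
  have : (0 : ℝ) < 2 ^ (-(((r - a).toNat : ℕ) : ℤ)) := by positivity
  linarith

theorem bdry_bounded (c : Cb d) : Bornology.IsBounded (cube c) :=
  (isBounded_big c).subset (cube_subset_big c)

theorem bdry_real (c : Cb d) : volume.real (cube c) = sz d c.1 := by
  rw [Measure.real, volume_cube, ENNReal.toReal_ofReal (sz_pos _).le]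

theorem bdry_near {k H : E d → ℝ} (hk : IsKer k) (hH : Nice H) {c : ℝ} (hc : 0 ≤ c) {j : ℤ}
    (hm : ∀ Q : Cb d, Q.1 = j → ∫ x in cube Q, |H x| ≤ c * sz d j) (R : Cb d) :
    |∫ x in cube R, cv k j H x| ≤ 12 ^ d * c * sz d R.1 := by
  have h1 : ∀ x, |cv k j H x| ≤ 12 ^ d * c := fun x => by
    refine (cv_le hk hH j x).trans ?_
    have h2 := LM.integral_le (k := j) (lm_big (cb j x))
      (by rw [volume_big]; exact ENNReal.ofReal_ne_top) hH.integrable hc hm
    have hs := sz_pos (d := d) j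
    rw [volume_big, ENNReal.toReal_ofReal (by change 0 ≤ 3 ^ d * sz d j; positivity)] at h2
    calc 4 ^ d / sz d j * ∫ y in big (cb j x), |H y| ≤ 4 ^ d / sz d j * (c * (3 ^ d * sz d j)) :=
          mul_le_mul_of_nonneg_left h2 (by positivity)
      _ = 12 ^ d * c := by
          rw [show (12 : ℝ) = 4 * 3 by norm_num, mul_pow]
          field_simp
  have h3 := norm_setIntegral_le_of_norm_le_const (μ := volume) (s := cube R) (f := cv k j H)
    (C := 12 ^ d * c) (by rw [volume_cube]; exact ENNReal.ofReal_lt_top) fun x _ => h1 x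
  rwa [bdry_real] at h3

theorem bdry_far {k H : E d → ℝ} (hk : IsKer k) (hH : Nice H) {c : ℝ} (hc : 0 ≤ c) {j : ℤ}
    (hm : ∀ Q : Cb d, Q.1 = j → ∫ x in cube Q, |H x| ≤ c * sz d j) (R : Cb d) {v : ℝ}
    (hv : 0 ≤ v) (hb : volume (bd j R) ≤ ENNReal.ofReal v) :
    |∫ x in cube R, cv k j H x| ≤ 8 ^ d * (c * v) := by
  have hI : Nice ((cube R).indicator fun _ => (1 : ℝ)) :=
    nice_indicator (measurableSet_cube R) (bdry_bounded R) 1
  have e1 : ∫ x in cube R, cv k j H x = ∫ x, cv k j H x * (cube R).indicator (fun _ => 1) x := by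
    rw [← integral_indicator (measurableSet_cube R)]
    congr 1
    ext x
    by_cases hx : x ∈ cube R <;> simp [hx]
  have hmb : MeasurableSet (bd j R) := (lm_bd j R).meas
  rw [e1, cv_dual hk hH hI]
  have h2 := LM.integral_le (k := j) (lm_bd j R) (ne_top_of_le_ne_top ENNReal.ofReal_ne_top hb)
    hH.integrable hc hm
  have h3 : (volume (bd j R)).toReal ≤ v := ENNReal.toReal_le_of_le_ofReal hv hb
  calc |∫ y, H y * cv (rf k) j ((cube R).indicator fun _ => 1) y|
      ≤ ∫ y, |H y * cv (rf k) j ((cube R).indicator fun _ => 1) y| := abs_integral_le_integral_abs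
    _ ≤ ∫ y, (bd j R).indicator (fun y => 8 ^ d * |H y|) y := by
        refine integral_mono (hH.mul (cv_nice hk.rf hI j)).abs.integrable
          ((hH.abs.const_mul _).indicator hmb).integrable fun y => ?_
        have h4 := mul_le_mul_of_nonneg_left (cv_ind hk.rf j R y) (abs_nonneg (H y))
        rw [← abs_mul] at h4
        refine h4.trans (le_of_eq ?_)
        by_cases hy : y ∈ bd j R <;> simp [hy, mul_comm]
    _ = 8 ^ d * ∫ y in bd j R, |H y| := by rw [integral_indicator hmb, integral_const_mul]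
    _ ≤ 8 ^ d * (c * v) :=
        mul_le_mul_of_nonneg_left (h2.trans (mul_le_mul_of_nonneg_left h3 hc)) (by positivity)

theorem bdry : ∃ C : ℝ, 0 < C ∧ ∀ k : E d → ℝ, IsKer k → ∀ (H : ℤ → E d → ℝ) (c : ℝ),
    (∀ j, Nice (H j)) → 0 ≤ c → (∀ Q : Cb d, ∫ x in cube Q, |H Q.1 x| ≤ c * sz d Q.1) →
    ∀ (R : Cb d) (a : ℤ) (L : ℕ),
    |∑ j ∈ Finset.Ico a (R.1 + L), ∫ x in cube R, cv k j (H j) x| ≤ C * c * (L + 1) * sz d R.1 := by
  obtain ⟨C, hC, hb⟩ := volume_bd (d := d)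
  refine ⟨8 ^ d * C + 12 ^ d, by positivity, fun k hk H c hH hc hm R a L => ?_⟩
  have hm' : ∀ j, ∀ Q : Cb d, Q.1 = j → ∫ x in cube Q, |H j x| ≤ c * sz d j := by
    rintro j Q rfl
    exact hm Q
  have hs := sz_pos (d := d) R.1
  refine (Finset.abs_sum_le_sum_abs _ _).trans ?_
  have hsub : Finset.Ico a (R.1 + L) ⊆ Finset.Ico a R.1 ∪ Finset.Ico R.1 (R.1 + L) := by
    intro j
    simp only [Finset.mem_Ico, Finset.mem_union]
    omega
  refine (Finset.sum_le_sum_of_subset_of_nonneg hsub fun j _ _ => abs_nonneg _).trans ?_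
  rw [Finset.sum_union (Finset.Ico_disjoint_Ico_consecutive _ _ _)]
  have h1 : ∑ j ∈ Finset.Ico a R.1, |∫ x in cube R, cv k j (H j) x| ≤
      8 ^ d * C * c * sz d R.1 := by
    calc _ ≤ ∑ j ∈ Finset.Ico a R.1, 8 ^ d * C * c * sz d R.1 * 2 ^ (j - R.1) := by
          refine Finset.sum_le_sum fun j hj => ?_
          refine (bdry_far hk (hH j) hc (hm' j) R (by positivity)
            (hb j R (Finset.mem_Ico.1 hj).2.le)).trans (le_of_eq ?_)
          ring
      _ ≤ 8 ^ d * C * c * sz d R.1 := by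
          rw [← Finset.mul_sum]
          exact mul_le_of_le_one_right (by positivity) (bdry_geom _ _)
  have h2 : ∑ j ∈ Finset.Ico R.1 (R.1 + L), |∫ x in cube R, cv k j (H j) x| ≤
      L * (12 ^ d * c * sz d R.1) := by
    refine (Finset.sum_le_card_nsmul _ _ _ fun j _ => bdry_near hk (hH j) hc (hm' j) R).trans ?_
    simp
  have h3 : (0 : ℝ) ≤ 8 ^ d * C * c * sz d R.1 * L := by positivity
  have h4 : (0 : ℝ) ≤ 12 ^ d * c * sz d R.1 := by positivity
  nlinarith

theorem split_sum {φ : ℤ → E d → ℝ} (hφ : ∀ j, Nice (φ j)) (F : Finset (Cb d))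
    (σ : Cb d → ℝ) {j₀ b : ℤ} {L : ℕ} (h0 : ∀ R ∈ F, j₀ ≤ R.1 + L) (h1 : ∀ R ∈ F, R.1 + L ≤ b) :
    ∑ R ∈ F, σ R * (∫ x in cube R, ps φ (R.1 + L) b x) =
      (∫ x, (∑ R ∈ F, (cube R).indicator (fun _ => σ R) x) * ps φ j₀ b x) -
        ∑ R ∈ F, σ R * ∑ j ∈ Finset.Ico j₀ (R.1 + L), ∫ x in cube R, φ j x := by
  simp only [Finset.sum_mul]
  rw [integral_finsetSum _ fun R _ =>
    ((nice_indicator (measurableSet_cube R) (bdry_bounded R) (σ R)).mul
      (ps_nice hφ j₀ b)).integrable, ← Finset.sum_sub_distrib]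
  refine Finset.sum_congr rfl fun R hR => ?_
  have e1 : ∫ x, (cube R).indicator (fun _ => σ R) x * ps φ j₀ b x =
      σ R * ∫ x in cube R, ps φ j₀ b x := by
    rw [← integral_const_mul, ← integral_indicator (measurableSet_cube R)]
    congr 1
    ext x
    by_cases hx : x ∈ cube R <;> simp [hx]
  have e2 : ∀ x, ps φ j₀ b x = ∑ j ∈ Finset.Ico j₀ (R.1 + L), φ j x + ps φ (R.1 + L) b x := by
    intro x
    have a0 := h0 R hR
    have a1 := h1 R hR
    rw [ps, ps, ← Finset.sum_union]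
    · congr 1
      ext j
      simp only [Finset.mem_Ico, Finset.mem_union, Finset.mem_Icc]
      omega
    · rw [Finset.disjoint_left]
      intro j
      simp only [Finset.mem_Ico, Finset.mem_Icc]
      omega
  rw [e1]
  simp only [e2]
  rw [integral_add (nice_sum fun j _ => hφ j).integrable.integrableOn
    (ps_nice hφ _ _).integrable.integrableOn,
    integral_finsetSum _ fun j _ => (hφ j).integrable.integrableOn]
  ring

theorem far_sum (hd : 1 ≤ d) : ∃ C : ℝ, 0 < C ∧ ∀ k : E d → ℝ, IsKer k →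
    ∀ (P : Finset (Cb d)) (b : Cb d → E d → ℝ), Atoms P b 1 → ∀ (s₀ : ℕ) (c₀ : Cb d) (j₀ : ℤ)
    (ψ : E d → ℝ), Nice ψ → (∀ x, |ψ x| ≤ 1) → (∀ x, x ∉ cube c₀ → ψ x = 0) →
    |∫ x, ψ x * ps (fun j => cv k j (Bl P b (j - s₀))) j₀ c₀.1 x| ≤
      C * (9 / 10) ^ s₀ * sz d c₀.1 := by
  classical
  obtain ⟨C, hC, hs⟩ := seeger_pair hd
  refine ⟨9 * 3 ^ d * C, by positivity, fun k hk P b hP s₀ c₀ j₀ ψ hψ h1 h0 => ?_⟩
  have hz := sz_pos (d := d) c₀.1
  set T : ℤ → Cb d → ℝ := fun j Q => ∫ x, ψ x * cv k j (b Q) x with hT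
  have e1 : ∫ x, ψ x * ps (fun j => cv k j (Bl P b (j - s₀))) j₀ c₀.1 x =
      ∑ j ∈ Finset.Icc j₀ c₀.1, ∑ Q ∈ P with Q.1 < j - s₀, T j Q := by
    simp only [ps, Finset.mul_sum]
    rw [integral_finsetSum _ fun j _ => (hψ.mul (cv_nice hk (hP.nice_Bl _) j)).integrable]
    refine Finset.sum_congr rfl fun j _ => ?_
    have hn : ∀ Q ∈ P.filter fun Q => Q.1 < j - s₀, Nice (b Q) := fun Q hQ =>
      hP.nice Q (Finset.mem_filter.1 hQ).1
    rw [← integral_finsetSum _ fun Q hQ => (hψ.mul (cv_nice hk (hn Q hQ) j)).integrable]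
    congr 1
    ext x
    rw [← Finset.mul_sum, ← cv_sum hk hn]
    rfl
  have e0 : ∀ j, j ≤ c₀.1 → ∀ Q ∈ P, Q.1 ≤ c₀.1 → ¬ cube Q ⊆ big c₀ → T j Q = 0 := by
    intro j hj Q hQ hQ1 hQ2
    have : ∀ x, ψ x * cv k j (b Q) x = 0 := fun x => by
      by_cases hx : x ∈ cube c₀
      · have : cv k j (b Q) x = cv k j (fun _ => 0) x := cv_congr hk fun y hy =>
          hP.supp Q hQ y fun hyQ =>
            hQ2 ((lm_big c₀).cube_subset hQ1 hyQ (big_subset_big hj hx hy))
        rw [this]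
        simp [cv]
      · rw [h0 x hx, zero_mul]
    simp [hT, this]
  set S : ℕ := P.sup fun Q => (c₀.1 - Q.1).toNat + 1 with hS
  have e2 : ∑ j ∈ Finset.Icc j₀ c₀.1, ∑ Q ∈ P with Q.1 < j - s₀, T j Q =
      ∑ s ∈ Finset.Ico (s₀ + 1) S,
        ∑ Q ∈ P with cube Q ⊆ big c₀ ∧ j₀ ≤ Q.1 + s ∧ Q.1 + s ≤ c₀.1, T (Q.1 + s) Q := by
    simp only [Finset.sum_filter]
    rw [Finset.sum_comm, Finset.sum_comm (s := Finset.Ico (s₀ + 1) S)]
    refine Finset.sum_congr rfl fun Q hQ => ?_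
    by_cases hQ2 : cube Q ⊆ big c₀
    · have hle : (c₀.1 - Q.1).toNat + 1 ≤ S :=
        Finset.le_sup (f := fun Q : Cb d => (c₀.1 - Q.1).toNat + 1) hQ
      rw [← Finset.sum_filter, ← Finset.sum_filter]
      refine Finset.sum_nbij' (fun j => (j - Q.1).toNat) (fun s => Q.1 + s) ?_ ?_ ?_ ?_ ?_
      · intro j
        simp only [Finset.mem_filter, Finset.mem_Icc, Finset.mem_Ico, hQ2, true_and]
        omega
      · intro s
        simp only [Finset.mem_filter, Finset.mem_Icc, Finset.mem_Ico, hQ2, true_and]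
        omega
      · intro j
        simp only [Finset.mem_filter, Finset.mem_Icc]
        omega
      · intro s _
        simp
      · intro j hj
        simp only [Finset.mem_filter, Finset.mem_Icc] at hj
        congr 1
        omega
    · simp only [hQ2, false_and, if_false, Finset.sum_const_zero]
      refine Finset.sum_eq_zero fun j hj => ?_
      have hj' := (Finset.mem_Icc.1 hj).2
      split_ifs with h
      · exact e0 j hj' Q hQ (by omega) hQ2
      · rfl
  have hv : (0 : ℝ) ≤ 3 ^ d * sz d c₀.1 := by positivity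
  have hψ2 : ∫ x, ψ x ^ 2 ≤ 3 ^ d * sz d c₀.1 := by
    have hI := nice_indicator (measurableSet_big c₀) (isBounded_big c₀) (1 : ℝ)
    refine (integral_mono hψ.sq.integrable hI.integrable fun x => ?_).trans ?_
    · by_cases hx : x ∈ cube c₀
      · rw [indicator_of_mem (cube_subset_big c₀ hx)]
        exact (sq_le_one_iff_abs_le_one _).2 (h1 x)
      · simp only [h0 x hx]
        exact (le_of_eq (by norm_num)).trans (indicator_nonneg (fun _ _ => zero_le_one) x)
    · rw [integral_indicator (measurableSet_big c₀), setIntegral_const, Measure.real, volume_big,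
        ENNReal.toReal_ofReal hv, smul_eq_mul, mul_one]
  have hterm : ∀ s : ℕ,
      |∑ Q ∈ P with cube Q ⊆ big c₀ ∧ j₀ ≤ Q.1 + s ∧ Q.1 + s ≤ c₀.1, T (Q.1 + s) Q| ≤
        C * (3 ^ d * sz d c₀.1) * (9 / 10) ^ s := fun s => by
    have hA := hP.subset (Finset.filter_subset
      (fun Q => cube Q ⊆ big c₀ ∧ j₀ ≤ Q.1 + s ∧ Q.1 + s ≤ c₀.1) P)
    refine (hs k hk _ b 1 zero_le_one hA s ψ hψ).trans ?_
    have h2 := hA.dj.sum_le hv (volume_big c₀).le fun Q hQ => (Finset.mem_filter.1 hQ).2.1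
    calc _ ≤ C * 1 * (9 / 10) ^ s * √(3 ^ d * sz d c₀.1) * √(3 ^ d * sz d c₀.1) := by
          gcongr
      _ = C * (3 ^ d * sz d c₀.1) * (9 / 10) ^ s := by
          rw [mul_assoc _ (√_), Real.mul_self_sqrt hv]
          ring
  rw [e1, e2]
  refine (Finset.abs_sum_le_sum_abs _ _).trans
    ((Finset.sum_le_sum fun s _ => hterm s).trans ?_)
  rw [← Finset.mul_sum]
  refine (mul_le_mul_of_nonneg_left
    (geom_sum_Ico_le_of_lt_one (by norm_num) (by norm_num)) (by positivity)).trans (le_of_eq ?_)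
  rw [pow_succ]
  ring

end Pool.Agent.MP_418f02_an
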