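import Pool.Agent.MP_418f02_an.Defs

open MeasureTheory Set
open scoped ENNReal RealInnerProductSpace

namespace Pool.Agent.MP_418f02_an

variable {d : ℕ}

theorem cube_two (k : ℤ) : (0 : ℝ) < 2 ^ k := zpow_pos two_pos k

theorem cube_le_ix {k m : ℤ} {x : E d} {i : Fin d} : m ≤ ix k x i ↔ (m : ℝ) * 2 ^ k ≤ x i := by
  rw [ix, Int.le_floor, le_div_iff₀ (cube_two k)]

theorem cube_ix_lt {k m : ℤ} {x : E d} {i : Fin d} : ix k x i < m ↔ x i < (m : ℝ) * 2 ^ k := by
  rw [ix, Int.floor_lt, div_lt_iff₀ (cube_two k)]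

theorem cube_ix_up (k : ℤ) (n : ℕ) (x : E d) (i : Fin d) :
    ix (k + n) x i = ix k x i / ((2 ^ n : ℕ) : ℤ) := by
  rw [ix, ix, ← Int.floor_div_natCast, zpow_add₀ two_ne_zero, div_div, zpow_natCast]
  push_cast
  rfl

theorem cube_mem {c : Cb d} {x : E d} :
    x ∈ cube c ↔ ∀ i, x i ∈ Ico ((c.2 i : ℝ) * 2 ^ c.1) ((c.2 i + 1) * 2 ^ c.1) := by
  rw [cube, mem_ofPred_eq, funext_iff]
  refine forall_congr' fun i => ?_
  have h1 := cube_le_ix (k := c.1) (m := c.2 i) (x := x) (i := i)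
  have h2 := cube_ix_lt (k := c.1) (m := c.2 i + 1) (x := x) (i := i)
  push_cast at h2
  rw [mem_Ico, ← h1, ← h2]
  omega

theorem cube_mem_big {c : Cb d} {x : E d} :
    x ∈ big c ↔ ∀ i, x i ∈ Ico (((c.2 i : ℝ) - 1) * 2 ^ c.1) ((c.2 i + 2) * 2 ^ c.1) := by
  rw [big, mem_ofPred_eq]
  refine forall_congr' fun i => ?_
  have h1 := cube_le_ix (k := c.1) (m := c.2 i - 1) (x := x) (i := i)
  have h2 := cube_ix_lt (k := c.1) (m := c.2 i + 2) (x := x) (i := i)
  push_cast at h1 h2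
  rw [mem_Ico, ← h1, ← h2, abs_le]
  omega

theorem cube_vol_Ico (a b : Fin d → ℝ) :
    volume {x : E d | ∀ i, x i ∈ Ico (a i) (b i)} = ∏ i, ENNReal.ofReal (b i - a i) := by
  rw [← Real.volume_pi_Ico, ← (PiLp.volume_preserving_ofLp (Fin d)).measure_preimage
    (MeasurableSet.univ_pi fun i => measurableSet_Ico).nullMeasurableSet]
  congr 1
  ext x
  simp

theorem cube_vol_Icc (a b : Fin d → ℝ) :
    volume {x : E d | ∀ i, x i ∈ Icc (a i) (b i)} = ∏ i, ENNReal.ofReal (b i - a i) := by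
  rw [← Real.volume_Icc_pi, ← (PiLp.volume_preserving_ofLp (Fin d)).measure_preimage
    measurableSet_Icc.nullMeasurableSet]
  congr 1
  ext x
  simp only [mem_ofPred_eq, mem_preimage, mem_Icc, Pi.le_def, forall_and]

theorem cube_norm_le {x : E d} {r : ℝ} (hr : 0 ≤ r) (h : ∀ i, |x i| ≤ r) : ‖x‖ ≤ d * r := by
  rw [EuclideanSpace.norm_eq]
  refine Real.sqrt_le_iff.2 ⟨by positivity, ?_⟩
  calc ∑ i, ‖x i‖ ^ 2 ≤ ∑ _i : Fin d, r ^ 2 :=
        Finset.sum_le_sum fun i _ => pow_le_pow_left₀ (norm_nonneg _) (h i) 2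
    _ = d * r ^ 2 := by simp
    _ ≤ (d * r) ^ 2 := by
        rw [mul_pow]
        refine mul_le_mul_of_nonneg_right ?_ (sq_nonneg r)
        exact_mod_cast Nat.le_self_pow two_ne_zero d

theorem sz_pos (k : ℤ) : 0 < sz d k := pow_pos (cube_two k) d

theorem sz_add (k : ℤ) (n : ℕ) : sz d (k + n) = (2 ^ n) ^ d * sz d k := by
  rw [sz, sz, zpow_add₀ two_ne_zero, zpow_natCast, mul_pow, mul_comm]

theorem sz_mono {k l : ℤ} (h : k ≤ l) : sz d k ≤ sz d l :=
  pow_le_pow_left₀ (cube_two k).le (zpow_le_zpow_right₀ one_le_two h) d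

theorem ix_mono {k l : ℤ} {x y : E d} (h : k ≤ l) (e : ix k x = ix k y) : ix l x = ix l y := by
  obtain ⟨n, rfl⟩ := Int.le.dest h
  funext i
  rw [cube_ix_up, cube_ix_up, e]

theorem mem_cube_cb (k : ℤ) (x : E d) : x ∈ cube (cb k x) := rfl

theorem cb_eq_of_mem {c : Cb d} {x : E d} (h : x ∈ cube c) : cb c.1 x = c :=
  Prod.ext rfl h

theorem cube_nonempty (c : Cb d) : (cube c).Nonempty := by
  refine ⟨WithLp.toLp 2 fun i => (c.2 i : ℝ) * 2 ^ c.1, cube_mem.2 fun i => ⟨le_rfl, ?_⟩⟩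
  exact mul_lt_mul_of_pos_right (lt_add_one _) (cube_two _)

theorem cube_subset_big (c : Cb d) : cube c ⊆ big c := by
  intro x hx i
  rw [show ix c.1 x = c.2 from hx]
  simp

theorem lm_cube (c : Cb d) : LM c.1 (cube c) := fun _ _ e hx => e.symm.trans hx

theorem lm_big (c : Cb d) : LM c.1 (big c) := fun _ _ e hx i => by
  rw [← e]; exact hx i

theorem lm_bd (j : ℤ) (c : Cb d) : LM j (bd j c) := fun x y e hx => by
  have : cb j x = cb j y := Prod.ext rfl e
  rw [bd, mem_ofPred_eq] at hx ⊢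
  rwa [← this]

theorem LM.mono {k l : ℤ} {S : Set (E d)} (h : LM l S) (hkl : k ≤ l) : LM k S :=
  fun x y e hx => h x y (ix_mono hkl e) hx

theorem LM.cube_subset {k : ℤ} {S : Set (E d)} (h : LM k S) {c : Cb d} {x : E d} (hc : c.1 ≤ k)
    (hx : x ∈ cube c) (hS : x ∈ S) : cube c ⊆ S :=
  fun y hy => h.mono hc x y (Eq.trans hx (Eq.symm hy)) hS

theorem cube_meas_ix (k : ℤ) : Measurable (ix k : E d → Fin d → ℤ) := by
  refine measurable_pi_lambda _ fun i => ?_
  exact Int.measurable_floor.comp (by fun_prop)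

theorem measurableSet_cube (c : Cb d) : MeasurableSet (cube c) :=
  cube_meas_ix c.1 (measurableSet_singleton c.2)

theorem LM.meas {k : ℤ} {S : Set (E d)} (h : LM k S) : MeasurableSet S := by
  have : S = ix k ⁻¹' (ix k '' S) := by
    ext x
    exact ⟨fun hx => ⟨x, hx, rfl⟩, fun ⟨y, hy, e⟩ => h y x e hy⟩
  rw [this]
  exact cube_meas_ix k (Set.to_countable _).measurableSet

theorem measurableSet_big (c : Cb d) : MeasurableSet (big c) := (lm_big c).meas

theorem measurable_of_ix {β : Type} [MeasurableSpace β] {k : ℤ} {F : E d → β}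
    (h : ∀ x y, ix k x = ix k y → F x = F y) : Measurable F :=
  fun s _ => LM.meas (k := k) fun x y e hx => by
    rw [mem_preimage, ← h x y e]; exact hx

theorem volume_cube (c : Cb d) : volume (cube c) = ENNReal.ofReal (sz d c.1) := by
  have : cube c = {x : E d | ∀ i, x i ∈ Ico ((c.2 i : ℝ) * 2 ^ c.1) ((c.2 i + 1) * 2 ^ c.1)} :=
    Set.ext fun _ => cube_mem
  rw [this, cube_vol_Ico, sz, ENNReal.ofReal_pow (cube_two _).le,
    Finset.prod_congr rfl (g := fun _ => ENNReal.ofReal (2 ^ c.1)) fun i _ => by congr 1; ring]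
  simp

theorem volume_big (c : Cb d) : volume (big c) = ENNReal.ofReal (3 ^ d * sz d c.1) := by
  have : big c =
      {x : E d | ∀ i, x i ∈ Ico (((c.2 i : ℝ) - 1) * 2 ^ c.1) ((c.2 i + 2) * 2 ^ c.1)} :=
    Set.ext fun _ => cube_mem_big
  rw [this, cube_vol_Ico, sz, ← mul_pow,
    ENNReal.ofReal_pow (mul_pos three_pos (cube_two _)).le,
    Finset.prod_congr rfl (g := fun _ => ENNReal.ofReal (3 * 2 ^ c.1)) fun i _ => by
      congr 1; ring]
  simp

theorem cube_ediv {a b N : ℤ} (hN : 0 < N) (h : a - b ≤ 1) : a / N - b / N ≤ 1 := by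
  have h1 : a / N ≤ (b + 1 * N) / N := Int.ediv_le_ediv hN (by omega)
  rw [Int.add_mul_ediv_right _ _ hN.ne'] at h1
  omega

theorem big_mono {k l : ℤ} (h : k ≤ l) (x : E d) : big (cb k x) ⊆ big (cb l x) := by
  obtain ⟨n, rfl⟩ := Int.le.dest h
  intro y hy i
  have h1 : |ix k y i - ix k x i| ≤ 1 := hy i
  change |ix (k + n) y i - ix (k + n) x i| ≤ 1
  rw [cube_ix_up, cube_ix_up]
  have hN : (0 : ℤ) < ((2 ^ n : ℕ) : ℤ) := by positivity
  rw [abs_le] at h1 ⊢
  have h2 := cube_ediv hN h1.2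
  have h3 := cube_ediv (a := ix k x i) (b := ix k y i) hN (by omega)
  omega

theorem big_subset_big {j : ℤ} {c : Cb d} {x : E d} (h : j ≤ c.1) (hx : x ∈ cube c) :
    big (cb j x) ⊆ big c := by
  have := big_mono h x
  rwa [cb_eq_of_mem hx] at this

theorem mem_big_symm {k : ℤ} {x y : E d} : y ∈ big (cb k x) ↔ x ∈ big (cb k y) :=
  forall_congr' fun i => by
    change |ix k y i - ix k x i| ≤ 1 ↔ |ix k x i - ix k y i| ≤ 1
    rw [abs_sub_comm]

theorem mem_big_of_norm {k : ℤ} {x y : E d} (h : ‖x - y‖ ≤ 2 ^ k) : y ∈ big (cb k x) := by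
  refine cube_mem_big.2 fun i => ?_
  have h1 := cube_mem.1 (mem_cube_cb k x) i
  have h2 : |x i - y i| ≤ 2 ^ k := (PiLp.norm_apply_le (x - y) i).trans h
  rw [abs_le] at h2
  change _ ≤ _ ∧ _ < _ at h1
  simp only [cb] at h1 ⊢
  constructor <;> nlinarith [h1.1, h1.2, h2.1, h2.2]

theorem norm_sub_le_of_cube {c : Cb d} {x y : E d} (hx : x ∈ cube c) (hy : y ∈ cube c) :
    ‖x - y‖ ≤ d * 2 ^ c.1 := by
  refine cube_norm_le (cube_two _).le fun i => ?_
  have h1 := cube_mem.1 hx i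
  have h2 := cube_mem.1 hy i
  rw [PiLp.sub_apply, abs_le]
  constructor <;> nlinarith [h1.1, h1.2, h2.1, h2.2]

theorem norm_sub_le_of_big {c : Cb d} {x y : E d} (hx : x ∈ cube c) (hy : y ∈ big c) :
    ‖x - y‖ ≤ 2 * d * 2 ^ c.1 := by
  rw [mul_comm 2, mul_assoc]
  refine cube_norm_le (mul_pos two_pos (cube_two _)).le fun i => ?_
  have h1 := cube_mem.1 hx i
  have h2 := cube_mem_big.1 hy i
  rw [PiLp.sub_apply, abs_le]
  constructor <;> nlinarith [h1.1, h1.2, h2.1, h2.2]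

theorem isBounded_big (c : Cb d) : Bornology.IsBounded (big c) := by
  obtain ⟨x, hx⟩ := cube_nonempty c
  refine (Metric.isBounded_closedBall (x := x) (r := 2 * d * 2 ^ c.1)).subset fun y hy => ?_
  rw [mem_closedBall_iff_norm']
  exact norm_sub_le_of_big hx hy

theorem volume_norm_le (x : E d) {R : ℝ} (hR : 0 ≤ R) :
    volume {y : E d | ‖y - x‖ ≤ R} ≤ ENNReal.ofReal ((2 * R) ^ d) := by
  have : {y : E d | ‖y - x‖ ≤ R} ⊆ {y : E d | ∀ i, y i ∈ Icc (x i - R) (x i + R)} := by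
    intro y hy i
    have h2 : |y i - x i| ≤ R := (PiLp.norm_apply_le (y - x) i).trans hy
    rw [abs_le] at h2
    exact ⟨by linarith [h2.1], by linarith [h2.2]⟩
  refine (measure_mono this).trans (le_of_eq ?_)
  rw [cube_vol_Icc, ENNReal.ofReal_pow (by positivity),
    Finset.prod_congr rfl (g := fun _ => ENNReal.ofReal (2 * R)) fun i _ => by congr 1; ring]
  simp

end Pool.Agent.MP_418f02_an
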