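import Pool.Agent.MP_418f02_an.Cube

open MeasureTheory Set
open scoped ENNReal RealInnerProductSpace

namespace Pool.Agent.MP_418f02_an

variable {d : ℕ}

theorem cube2_ix_add (j : ℤ) (n : ℕ) (x : E d) (i : Fin d) :
    ix (j + n) x i = ix j x i / ((2 ^ n : ℕ) : ℤ) := by
  unfold ix
  rw [← Int.floor_div_natCast]
  congr 1
  rw [zpow_add₀ (by norm_num : (2 : ℝ) ≠ 0), zpow_natCast, div_div]
  push_cast
  rfl

theorem cube2_ediv_iff {N m a : ℤ} (hN : 0 < N) : m / N = a ↔ a * N ≤ m ∧ m < a * N + N := by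
  constructor
  · rintro rfl
    refine ⟨Int.ediv_mul_le m hN.ne', ?_⟩
    have := Int.lt_ediv_add_one_mul_self m hN
    linarith
  · rintro ⟨h1, h2⟩
    have h3 : a ≤ m / N := (Int.le_ediv_iff_mul_le hN).2 h1
    have h4 : m / N < a + 1 := (Int.ediv_lt_iff_lt_mul hN).2 (by linarith)
    omega

theorem cube2_disjoint {k : ℤ} {m m' : Fin d → ℤ} (h : m ≠ m') :
    Disjoint (cube ((k, m) : Cb d)) (cube (k, m')) := by
  rw [Set.disjoint_left]
  intro x hx hx'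
  exact h ((show ix k x = m from hx).symm.trans (show ix k x = m' from hx'))

theorem LM.lintegral_le {k : ℤ} {S : Set (E d)} (h : LM k S) {F H : E d → ℝ≥0∞}
    (hle : ∀ c : Cb d, c.1 = k → cube c ⊆ S → ∫⁻ x in cube c, F x ≤ ∫⁻ x in cube c, H x) :
    ∫⁻ x in S, F x ≤ ∫⁻ x in S, H x := by
  have hS : S = ⋃ m ∈ {m : Fin d → ℤ | cube ((k, m) : Cb d) ⊆ S}, cube ((k, m) : Cb d) := by
    apply Subset.antisymm
    · intro x hx
      refine mem_iUnion₂.2 ⟨ix k x, ?_, rfl⟩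
      exact h.cube_subset (c := (k, ix k x)) le_rfl rfl hx
    · exact iUnion₂_subset fun m hm => hm
  have hd : {m : Fin d → ℤ | cube ((k, m) : Cb d) ⊆ S}.PairwiseDisjoint
      fun m => cube ((k, m) : Cb d) := fun m _ m' _ hne => cube2_disjoint hne
  have hc : {m : Fin d → ℤ | cube ((k, m) : Cb d) ⊆ S}.Countable := Set.to_countable _
  have key : ∀ G : E d → ℝ≥0∞, ∫⁻ x in S, G x =
      ∑' m : {m : Fin d → ℤ | cube ((k, m) : Cb d) ⊆ S}, ∫⁻ x in cube ((k, m.1) : Cb d), G x := by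
    intro G
    conv_lhs => rw [hS]
    exact lintegral_biUnion hc (fun m _ => measurableSet_cube _) hd G
  rw [key F, key H]
  exact ENNReal.tsum_le_tsum fun m => hle (k, m.1) rfl m.2

theorem LM.integral_le {k : ℤ} {S : Set (E d)} (h : LM k S) (hS : volume S ≠ ∞) {F : E d → ℝ}
    (hF : Integrable F) {c : ℝ} (hc : 0 ≤ c)
    (hle : ∀ Q : Cb d, Q.1 = k → ∫ x in cube Q, |F x| ≤ c * sz d k) :
    ∫ x in S, |F x| ≤ c * (volume S).toReal := by
  have e : ∀ T : Set (E d), ENNReal.ofReal (∫ x in T, |F x|) =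
      ∫⁻ x in T, ENNReal.ofReal |F x| := fun T =>
    ofReal_integral_eq_lintegral_ofReal hF.abs.integrableOn
      (Filter.Eventually.of_forall fun x => abs_nonneg _)
  have h1 : ∫⁻ x in S, ENNReal.ofReal |F x| ≤ ∫⁻ _ in S, ENNReal.ofReal c := by
    refine h.lintegral_le fun Q hQ _ => ?_
    rw [← e, setLIntegral_const, volume_cube, ← ENNReal.ofReal_mul hc, hQ]
    exact ENNReal.ofReal_le_ofReal (hle Q hQ)
  rw [← e, setLIntegral_const, ← ENNReal.ofReal_toReal hS, ← ENNReal.ofReal_mul hc] at h1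
  exact (ENNReal.ofReal_le_ofReal_iff (mul_nonneg hc ENNReal.toReal_nonneg)).1 h1

theorem cube2_eq_of_level {c c' : Cb d} (h : c.1 = c'.1) (hs : cube c ⊆ cube c') : c' = c := by
  obtain ⟨x, hx⟩ := cube_nonempty c
  rw [← cb_eq_of_mem hx, ← cb_eq_of_mem (hs hx), h]

theorem exists_maximal (S : Set (Cb d)) (b : ℤ) (hb : ∀ c ∈ S, c.1 ≤ b) :
    ∃ T ⊆ S, T.PairwiseDisjoint cube ∧ (∀ c ∈ S, ∃ c' ∈ T, c.1 ≤ c'.1 ∧ cube c ⊆ cube c') ∧
      ∀ c ∈ T, ∀ c' ∈ S, c.1 ≤ c'.1 → cube c ⊆ cube c' → c' = c := by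
  refine ⟨{c ∈ S | ∀ c' ∈ S, c.1 ≤ c'.1 → cube c ⊆ cube c' → c' = c}, fun c hc => hc.1, ?_, ?_,
    fun c hc => hc.2⟩
  · intro c hc c' hc' hne
    change Disjoint (cube c) (cube c')
    rw [Set.disjoint_left]
    intro x hx hx'
    rcases le_total c.1 c'.1 with hl | hl
    · exact hne (hc.2 c' hc'.1 hl ((lm_cube c').cube_subset hl hx hx')).symm
    · exact hne (hc'.2 c hc.1 hl ((lm_cube c).cube_subset hl hx' hx))
  · intro c hc
    obtain ⟨l, ⟨c', hc'S, hl1, hsub, rfl⟩, hmax⟩ := Int.exists_greatest_of_bdd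
      (P := fun l => ∃ c' ∈ S, c.1 ≤ c'.1 ∧ cube c ⊆ cube c' ∧ c'.1 = l)
      ⟨b, by rintro z ⟨c', hc', -, -, rfl⟩; exact hb c' hc'⟩
      ⟨c.1, c, hc, le_rfl, Subset.rfl, rfl⟩
    refine ⟨c', ⟨hc'S, fun c'' hc'' hl hs => ?_⟩, hl1, hsub⟩
    have := hmax c''.1 ⟨c'', hc'', hl1.trans hl, hsub.trans hs, rfl⟩
    exact cube2_eq_of_level (le_antisymm hl this) hs

theorem finite_sub (a : ℤ) (c₀ : Cb d) :
    {c : Cb d | a ≤ c.1 ∧ c.1 ≤ c₀.1 ∧ cube c ⊆ big c₀}.Finite := by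
  have hfin : (⋃ l ∈ Icc a c₀.1, ({l} : Set ℤ) ×ˢ {m : Fin d → ℤ | ∀ i, m i ∈
      Icc ((c₀.2 i - 1) * ((2 ^ (c₀.1 - l).toNat : ℕ) : ℤ))
        ((c₀.2 i + 2) * ((2 ^ (c₀.1 - l).toNat : ℕ) : ℤ))}).Finite :=
    (finite_Icc a c₀.1).biUnion fun l _ =>
      (finite_singleton l).prod (Set.Finite.pi' fun i => finite_Icc _ _)
  refine hfin.subset ?_
  rintro ⟨l, m⟩ ⟨h1, h2, h3⟩
  refine mem_iUnion₂.2 ⟨l, ⟨h1, h2⟩, rfl, fun i => ?_⟩
  obtain ⟨x, hx⟩ := cube_nonempty ((l, m) : Cb d)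
  have hb := h3 hx i
  have hx' : ix l x = m := hx
  have e : c₀.1 = l + ((c₀.1 - l).toNat : ℤ) := by
    simp only at h2
    omega
  set n := (c₀.1 - l).toNat
  rw [e, cube2_ix_add, hx'] at hb
  have hN : (0 : ℤ) < ((2 ^ n : ℕ) : ℤ) := by positivity
  set N : ℤ := ((2 ^ n : ℕ) : ℤ)
  obtain ⟨h4, h5⟩ := (cube2_ediv_iff (m := m i) hN).1 rfl
  obtain ⟨h6, h7⟩ := abs_le.1 hb
  constructor
  · show (c₀.2 i - 1) * N ≤ m i
    nlinarith
  · show m i ≤ (c₀.2 i + 2) * N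
    nlinarith

theorem Dj.sum_sz {P : Finset (Cb d)} (h : Dj P) :
    ENNReal.ofReal (∑ c ∈ P, sz d c.1) = volume (⋃ c ∈ P, cube c) := by
  rw [measure_biUnion_finset h fun c _ => measurableSet_cube c,
    ENNReal.ofReal_sum_of_nonneg fun c _ => (sz_pos c.1).le]
  exact Finset.sum_congr rfl fun c _ => (volume_cube c).symm

theorem Dj.sum_le {P : Finset (Cb d)} (h : Dj P) {S : Set (E d)} {v : ℝ} (hv : 0 ≤ v)
    (hS : volume S ≤ ENNReal.ofReal v) (hP : ∀ c ∈ P, cube c ⊆ S) : ∑ c ∈ P, sz d c.1 ≤ v := by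
  rw [← ENNReal.ofReal_le_ofReal_iff hv, h.sum_sz]
  exact (measure_mono (iUnion₂_subset hP)).trans hS

theorem Dj.subset {P P' : Finset (Cb d)} (h : Dj P) (hP : P' ⊆ P) : Dj P' :=
  Set.PairwiseDisjoint.subset h (Finset.coe_subset.2 hP)

theorem exists_nbrs (c : Cb d) : ∃ N : Finset (Cb d), N.card = 3 ^ d ∧ Dj N ∧
    (∀ c' ∈ N, c'.1 = c.1) ∧ big c = ⋃ c' ∈ N, cube c' := by
  classical
  refine ⟨(Fintype.piFinset fun i => Finset.Icc (c.2 i - 1) (c.2 i + 1)).image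
    fun m => (c.1, m), ?_, ?_, ?_, ?_⟩
  · rw [Finset.card_image_of_injective _ (Prod.mk_right_injective c.1), Fintype.card_piFinset]
    have : ∀ i, (Finset.Icc (c.2 i - 1) (c.2 i + 1)).card = 3 := by
      intro i
      rw [Int.card_Icc]
      omega
    simp [this]
  · intro p hp q hq hne
    obtain ⟨m, -, rfl⟩ := Finset.mem_image.1 hp
    obtain ⟨m', -, rfl⟩ := Finset.mem_image.1 hq
    exact cube2_disjoint fun e => hne (by rw [e])
  · intro p hp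
    obtain ⟨m, -, rfl⟩ := Finset.mem_image.1 hp
    rfl
  · ext x
    simp only [mem_iUnion, Finset.mem_image, Fintype.mem_piFinset, Finset.mem_Icc]
    constructor
    · intro hx
      refine ⟨(c.1, ix c.1 x), ⟨ix c.1 x, fun i => ?_, rfl⟩, rfl⟩
      obtain ⟨h1, h2⟩ := abs_le.1 (hx i)
      constructor <;> omega
    · rintro ⟨p, ⟨m, hm, rfl⟩, hx⟩ i
      have hx' : ix c.1 x = m := hx
      rw [hx', abs_le]
      obtain ⟨h1, h2⟩ := hm i
      constructor <;> omega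

theorem cube2_volume_le (j : ℤ) (M : Finset (Fin d → ℤ)) :
    volume {x : E d | ix j x ∈ M} ≤ ENNReal.ofReal (M.card * sz d j) := by
  have : {x : E d | ix j x ∈ M} ⊆ ⋃ m ∈ M, cube ((j, m) : Cb d) := fun x hx =>
    mem_iUnion₂.2 ⟨ix j x, hx, rfl⟩
  refine (measure_mono this).trans ((measure_biUnion_finset_le M _).trans ?_)
  simp only [volume_cube, Finset.sum_const, nsmul_eq_mul]
  rw [ENNReal.ofReal_mul (Nat.cast_nonneg _), ENNReal.ofReal_natCast]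

theorem cube2_card_le (T : Fin d → Finset ℤ) (i : Fin d) (B : ℕ) (hi : (T i).card ≤ 4)
    (hT : ∀ l, l ≠ i → (T l).card ≤ B) : (Fintype.piFinset T).card * B ≤ 4 * B ^ d := by
  classical
  rw [Fintype.card_piFinset, ← Finset.mul_prod_erase Finset.univ _ (Finset.mem_univ i)]
  have h1 : ∏ l ∈ Finset.univ.erase i, (T l).card ≤ B ^ (Finset.univ.erase i).card :=
    Finset.prod_le_pow_card _ _ _ fun l hl => hT l (Finset.ne_of_mem_erase hl)
  have h2 : (Finset.univ.erase i).card + 1 = d := by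
    rw [Finset.card_erase_add_one (Finset.mem_univ i)]
    simp
  calc (T i).card * (∏ l ∈ Finset.univ.erase i, (T l).card) * B
      ≤ 4 * B ^ (Finset.univ.erase i).card * B := by gcongr
    _ = 4 * B ^ d := by rw [mul_assoc, ← pow_succ, h2]

theorem volume_bd : ∃ C : ℝ, 0 < C ∧ ∀ (j : ℤ) (c : Cb d), j ≤ c.1 →
    volume (bd j c) ≤ ENNReal.ofReal (C * 2 ^ (j - c.1) * sz d c.1) := by
  classical
  refine ⟨(d + 1) * (4 * 3 ^ d), by positivity, fun j c hj => ?_⟩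
  obtain ⟨n, e⟩ : ∃ n : ℕ, c.1 = j + n := ⟨(c.1 - j).toNat, by omega⟩
  have hN : (0 : ℤ) < ((2 ^ n : ℕ) : ℤ) := by positivity
  have hmem : ∀ x : E d, x ∈ cube c ↔ ∀ i, c.2 i * ((2 ^ n : ℕ) : ℤ) ≤ ix j x i ∧
      ix j x i < c.2 i * ((2 ^ n : ℕ) : ℤ) + ((2 ^ n : ℕ) : ℤ) := by
    intro x
    change ix c.1 x = c.2 ↔ _
    rw [funext_iff]
    refine forall_congr' fun i => ?_
    rw [e, cube2_ix_add, cube2_ediv_iff hN]
  set N : ℤ := ((2 ^ n : ℕ) : ℤ) with hNdef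
  let T : Fin d → Fin d → Finset ℤ := fun i l =>
    if l = i then {c.2 l * N - 1, c.2 l * N, c.2 l * N + N - 1, c.2 l * N + N}
    else Finset.Icc (c.2 l * N - 1) (c.2 l * N + N)
  have hsub : bd j c ⊆ ⋃ i, {x : E d | ix j x ∈ Fintype.piFinset (T i)} := by
    rintro y ⟨⟨x, hx, hxc⟩, ⟨z, hz, hzc⟩⟩
    rw [hmem] at hxc hzc
    obtain ⟨i, hi⟩ := not_forall.1 hzc
    refine mem_iUnion.2 ⟨i, Fintype.mem_piFinset.2 fun l => ?_⟩
    have h1 : |ix j x l - ix j y l| ≤ 1 := hx l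
    have h2 : |ix j z l - ix j y l| ≤ 1 := hz l
    obtain ⟨h3, h4⟩ := abs_le.1 h1
    obtain ⟨h5, h6⟩ := abs_le.1 h2
    obtain ⟨h7, h8⟩ := hxc l
    by_cases hl : l = i
    · subst hl
      simp only [T, if_true, Finset.mem_insert, Finset.mem_singleton]
      omega
    · simp only [T, if_neg hl, Finset.mem_Icc]
      omega
  have hcard : ∀ i, (Fintype.piFinset (T i)).card * (3 * 2 ^ n) ≤ 4 * (3 * 2 ^ n) ^ d := by
    intro i
    apply cube2_card_le (T i) i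
    · simp only [T, if_true]
      exact Finset.card_le_four
    · intro l hl
      simp only [T, if_neg hl, Int.card_Icc]
      have : (1 : ℕ) ≤ 2 ^ n := Nat.one_le_two_pow
      omega
  have hz : (2 : ℝ) ^ (j - c.1) = ((2 : ℝ) ^ n)⁻¹ := by
    rw [e, show j - (j + n) = -(n : ℤ) by ring, zpow_neg, zpow_natCast]
  have hp : (0 : ℝ) < 2 ^ n := by positivity
  have hone : ∀ i, ((Fintype.piFinset (T i)).card : ℝ) * sz d j ≤
      4 * 3 ^ d * 2 ^ (j - c.1) * sz d c.1 := by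
    intro i
    have h1 : ((Fintype.piFinset (T i)).card : ℝ) * (3 * 2 ^ n) ≤ 4 * (3 * 2 ^ n) ^ d := by
      exact_mod_cast hcard i
    have h2 : ((Fintype.piFinset (T i)).card : ℝ) ≤ 4 * 3 ^ d * (2 ^ n)⁻¹ * (2 ^ n) ^ d := by
      rw [mul_pow] at h1
      have h0 : (0 : ℝ) ≤ (Fintype.piFinset (T i)).card := Nat.cast_nonneg _
      rw [mul_right_comm, ← div_eq_mul_inv, le_div_iff₀ hp]
      nlinarith
    rw [hz]
    conv_rhs => rw [e, sz_add]
    have := sz_pos (d := d) j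
    calc ((Fintype.piFinset (T i)).card : ℝ) * sz d j
        ≤ 4 * 3 ^ d * (2 ^ n)⁻¹ * (2 ^ n) ^ d * sz d j := by gcongr
      _ = _ := by ring
  have hnn : (0 : ℝ) ≤ 4 * 3 ^ d * 2 ^ (j - c.1) * sz d c.1 := by
    have := sz_pos (d := d) c.1
    positivity
  calc volume (bd j c) ≤ ∑ i, volume {x : E d | ix j x ∈ Fintype.piFinset (T i)} :=
        (measure_mono hsub).trans (measure_iUnion_fintype_le _ _)
    _ ≤ ∑ _i : Fin d, ENNReal.ofReal (4 * 3 ^ d * 2 ^ (j - c.1) * sz d c.1) :=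
        Finset.sum_le_sum fun i _ => (cube2_volume_le j _).trans (ENNReal.ofReal_le_ofReal (hone i))
    _ = ENNReal.ofReal (d * (4 * 3 ^ d * 2 ^ (j - c.1) * sz d c.1)) := by
        simp only [Finset.sum_const, Finset.card_univ, Fintype.card_fin, nsmul_eq_mul]
        rw [ENNReal.ofReal_mul (Nat.cast_nonneg _), ENNReal.ofReal_natCast]
    _ ≤ _ := ENNReal.ofReal_le_ofReal (by nlinarith)

end Pool.Agent.MP_418f02_an
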