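import Mathlib

/-! Rough singular integrals on `A₁` weighted spaces: basic objects. -/

open MeasureTheory Set
open scoped ENNReal FourierTransform RealInnerProductSpace

namespace Pool.Agent.MP_418f02_an

abbrev E (d : ℕ) := EuclideanSpace ℝ (Fin d)

/-- a dyadic cube: level and integer position -/
abbrev Cb (d : ℕ) := ℤ × (Fin d → ℤ)

variable {d : ℕ}

noncomputable section

/-- position of the dyadic cube of side `2 ^ k` containing `x` -/
def ix (k : ℤ) (x : E d) : Fin d → ℤ := fun i => ⌊x i / 2 ^ k⌋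

/-- the dyadic cube of side `2 ^ k` containing `x` -/
def cb (k : ℤ) (x : E d) : Cb d := (k, ix k x)

def cube (c : Cb d) : Set (E d) := {x | ix c.1 x = c.2}

/-- the threefold dilate: the cube and its neighbours of the same level -/
def big (c : Cb d) : Set (E d) := {x | ∀ i, |ix c.1 x i - c.2 i| ≤ 1}

/-- volume of a cube of level `k` -/
def sz (d : ℕ) (k : ℤ) : ℝ := (2 ^ k) ^ d

/-- `S` is a union of cubes of level `k` -/
def LM (k : ℤ) (S : Set (E d)) : Prop := ∀ x y, ix k x = ix k y → x ∈ S → y ∈ S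

/-- pairwise disjoint cubes -/
def Dj (P : Finset (Cb d)) : Prop := (P : Set (Cb d)).PairwiseDisjoint cube

/-- points whose level `j` neighbourhood meets both the cube and its complement -/
def bd (j : ℤ) (c : Cb d) : Set (E d) :=
  {y | (∃ x ∈ big (cb j y), x ∈ cube c) ∧ ∃ x ∈ big (cb j y), x ∉ cube c}

/-- bounded, measurable, with bounded support -/
structure Nice (g : E d → ℝ) : Prop where
  meas : Measurable g
  bdd : ∃ M, ∀ x, |g x| ≤ M
  supp : ∃ R, ∀ x, R < ‖x‖ → g x = 0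

/-- a rough kernel at unit scale -/
structure IsKer (k : E d → ℝ) : Prop where
  meas : Measurable k
  bdd : ∀ y, |k y| ≤ 1
  supp : ∀ y, 2 < ‖y‖ → k y = 0
  zero : ∫ y, k y = 0

/-- the reflected kernel -/
def rf (k : E d → ℝ) : E d → ℝ := fun y => k (-y)

/-- the kernel at scale `l`, averaged over one octave of dilations -/
def KK (k : E d → ℝ) (l : ℝ) (y : E d) : ℝ :=
  ∫ s in (1 : ℝ)..2, ((l * s) ^ d)⁻¹ * k ((l * s)⁻¹ • y) / s

/-- the piece of the operator at level `j` -/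
def cv (k : E d → ℝ) (j : ℤ) (g : E d → ℝ) (x : E d) : ℝ :=
  ∫ y, KK k (2 ^ (j - 2)) (x - y) * g y

/-- sums over a range of levels -/
def ps (φ : ℤ → E d → ℝ) (a b : ℤ) (x : E d) : ℝ := ∑ j ∈ Finset.Icc a b, φ j x

/-- the truncated operator -/
def TT (k : E d → ℝ) (a b : ℤ) (g : E d → ℝ) : E d → ℝ := ps (fun j => cv k j g) a b

/-- the operator truncated along a family of sets -/
def TG (k : E d → ℝ) (G : ℤ → Set (E d)) (a b : ℤ) (g : E d → ℝ) : E d → ℝ :=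
  ps (fun j => (G j).indicator (cv k j g)) a b

/-- a stopping family: unions of cubes, increasing with the level -/
structure Stop (G : ℤ → Set (E d)) : Prop where
  lm : ∀ j, LM j (G j)
  mono : ∀ i j, i ≤ j → G i ⊆ G j

/-- Fourier transform of a real function -/
def FT (f : E d → ℝ) : E d → ℂ := 𝓕 fun y => (f y : ℂ)

/-- the character `exp (-2 π i t)` -/
def ee (t : ℝ) : ℂ := Complex.exp (((-2 * Real.pi * t : ℝ) : ℂ) * Complex.I)

/-- average along rays -/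
def ray (D : E d → ℝ) (y : E d) : ℝ := ∫ s in (1 : ℝ)..2, D (s • y) / s

/-- correlation of two scales of the kernel -/
def Psi (k : E d → ℝ) (l r : ℝ) (a : E d) : ℝ := ∫ z, KK k l z * KK k r (z - a)

/-- Fourier mass of the kernel near the hyperplane orthogonal to `a` -/
def Gam (k : E d → ℝ) (a : E d) (e : ℝ) : ℝ :=
  ∫ ζ, ‖FT k ζ‖ ^ 2 * (1 + |⟪a, ζ⟫| / (‖ζ‖ * e))⁻¹ ^ 2

/-- mean zero atoms on disjoint cubes -/
structure Atoms (P : Finset (Cb d)) (b : Cb d → E d → ℝ) (c : ℝ) : Prop where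
  dj : Dj P
  nice : ∀ Q ∈ P, Nice (b Q)
  supp : ∀ Q ∈ P, ∀ x, x ∉ cube Q → b Q x = 0
  zero : ∀ Q ∈ P, ∫ x, b Q x = 0
  mass : ∀ Q ∈ P, ∫ x, |b Q x| ≤ c * sz d Q.1

/-- the atoms of level below `e` -/
def Bl (P : Finset (Cb d)) (b : Cb d → E d → ℝ) (e : ℤ) (x : E d) : ℝ :=
  ∑ Q ∈ P with Q.1 < e, b Q x

/-- the atoms with level in `[a, e)` -/
def Bw (P : Finset (Cb d)) (b : Cb d → E d → ℝ) (a e : ℤ) (x : E d) : ℝ :=
  ∑ Q ∈ P with a ≤ Q.1 ∧ Q.1 < e, b Q x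

/-- the normalised `L^m` norm of `Y` on the cube is at most `B` -/
def Mom (Y : E d → ℝ) (Q : Cb d) (m B : ℝ) : Prop :=
  ∫⁻ x in cube Q, ENNReal.ofReal |Y x| ^ m ≤ ENNReal.ofReal (B ^ m * sz d Q.1)

/-- a family of cubes in `c₀` on which the delayed sums are large -/
structure Bad (φ : ℤ → E d → ℝ) (j₀ : ℤ) (L : ℕ) (A : ℝ) (c₀ : Cb d) (F : Finset (Cb d)) :
    Prop where
  dj : Dj F
  low : ∀ R ∈ F, j₀ ≤ R.1 + L
  up : ∀ R ∈ F, R.1 + L ≤ c₀.1
  sub : ∀ R ∈ F, cube R ⊆ cube c₀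
  ne : ∀ R ∈ F, ∃ y ∈ cube R, φ (R.1 + L) y ≠ 0
  pos : ∀ R ∈ F, 0 < volume {y ∈ cube R | A < |ps φ (R.1 + L) c₀.1 y|}

/-- the hypothesis of the John-Nirenberg iteration -/
def OneStep (φ : ℤ → E d → ℝ) (j₀ : ℤ) (L : ℕ) (A δ : ℝ) (Q : Cb d) : Prop :=
  ∀ c₀ : Cb d, c₀.1 ≤ Q.1 → cube c₀ ⊆ cube Q → ∀ F, Bad φ j₀ L A c₀ F →
    ∑ R ∈ F, sz d R.1 ≤ δ * sz d c₀.1

/-- average over the dilated cube -/
def av (j : ℤ) (F : E d → ℝ≥0∞) (x : E d) : ℝ≥0∞ :=
  (∫⁻ y in big (cb j x), F y) / ENNReal.ofReal (3 ^ d * sz d j)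

/-- maximal function over a range of levels -/
def mx (a b : ℤ) (F : E d → ℝ≥0∞) (x : E d) : ℝ≥0∞ := ⨆ j ∈ Finset.Icc a b, av j F x

/-- dyadic form of the `A₁` condition -/
structure A1 (w : E d → ℝ) (A : ℝ) : Prop where
  meas : Measurable w
  pos : ∀ x, 0 < w x
  loc : LocallyIntegrable w volume
  one_le : 1 ≤ A
  le : ∀ j : ℤ, ∀ᵐ x, ∫ y in big (cb j x), w y ≤ A * sz d j * w x

/-- on every cube the weight is comparable from above with its mean -/
def Flat (V : E d → ℝ≥0∞) (a b : ℤ) (M : ℝ) : Prop :=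
  ∀ W : Cb d, a ≤ W.1 → W.1 ≤ b → ∃ β : ℝ≥0∞, (∀ x ∈ cube W, V x ≤ β) ∧
    β * ENNReal.ofReal (sz d W.1) ≤ ENNReal.ofReal M * ∫⁻ x in cube W, V x

end

end Pool.Agent.MP_418f02_an
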