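import Pool.Agent.MP_418f02_an.Cv

open MeasureTheory Set
open scoped ENNReal RealInnerProductSpace

namespace Pool.Agent.MP_418f02_an

variable {d : ℕ}

theorem dual_abs {p : ℝ} (hp : 1 < p) (t : ℝ) : |t * |t| ^ (p - 2)| = |t| ^ (p - 1) := by
  rcases eq_or_ne t 0 with rfl | ht
  · simp [Real.zero_rpow (by linarith : p - 1 ≠ 0)]
  · rw [abs_mul, abs_of_nonneg (Real.rpow_nonneg (abs_nonneg t) _),
      show p - 1 = 1 + (p - 2) by ring, Real.rpow_add (abs_pos.2 ht), Real.rpow_one]

theorem dual_mul {p : ℝ} (hp : 1 < p) (t : ℝ) : t * (t * |t| ^ (p - 2)) = |t| ^ p := by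
  rcases eq_or_ne t 0 with rfl | ht
  · simp [Real.zero_rpow (by linarith : p ≠ 0)]
  · rw [← mul_assoc, ← abs_mul_abs_self, ← sq, ← Real.rpow_two, ← Real.rpow_add (abs_pos.2 ht)]
    congr 1
    ring

theorem dual_cancel {p q : ℝ} (hpq : p.HolderConjugate q) {I F B : ℝ≥0∞} (hI : I ≠ ∞)
    (h : I ≤ F ^ (1 / p) * (B ^ q * I) ^ (1 / q)) : I ≤ B ^ p * F := by
  have hp := hpq.pos
  have hq := hpq.symm.pos
  rcases eq_or_ne I 0 with rfl | h0
  · exact zero_le
  have h1 : I = I ^ (1 / p) * I ^ (1 / q) := by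
    rw [← ENNReal.rpow_add _ _ h0 hI, one_div, one_div, hpq.inv_add_inv_eq_one, ENNReal.rpow_one]
  rw [ENNReal.mul_rpow_of_nonneg _ _ (by positivity), ← ENNReal.rpow_mul,
    mul_one_div_cancel hq.ne', ENNReal.rpow_one, ← mul_assoc] at h
  nth_rewrite 1 [h1] at h
  have h2 : I ^ (1 / p) ≤ F ^ (1 / p) * B :=
    (ENNReal.mul_le_mul_iff_left (by simp [h0, hI]) (by simp [h0, hI])).1 h
  have h3 := ENNReal.rpow_le_rpow h2 hp.le
  rwa [ENNReal.mul_rpow_of_nonneg _ _ hp.le, ← ENNReal.rpow_mul, ← ENNReal.rpow_mul,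
    one_div_mul_cancel hp.ne', ENNReal.rpow_one, ENNReal.rpow_one, mul_comm] at h3

theorem dual_holder {w f T : E d → ℝ} {p q : ℝ} (hpq : p.HolderConjugate q)
    (hw : Measurable w) (hpos : ∀ x, 0 < w x) (hf : Measurable f) (hT : Measurable T) :
    ENNReal.ofReal (∫ x, f x * T x) ≤
      (∫⁻ x, ENNReal.ofReal |f x| ^ p * ENNReal.ofReal (w x)) ^ (1 / p) *
        (∫⁻ x, ENNReal.ofReal |T x| ^ q * ENNReal.ofReal (w x) ^ (-(q - 1))) ^ (1 / q) := by
  have hp := hpq.pos
  have hq := hpq.symm.pos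
  have h0 : ∀ x, ENNReal.ofReal (w x) ≠ 0 := fun x => by simpa using hpos x
  have h1 := ENNReal.lintegral_mul_le_Lp_mul_Lq (volume : Measure (E d)) hpq
    (f := fun x => ENNReal.ofReal |f x| * ENNReal.ofReal (w x) ^ (1 / p))
    (g := fun x => ENNReal.ofReal |T x| * ENNReal.ofReal (w x) ^ (-(1 / p)))
    (by fun_prop) (by fun_prop)
  refine (Real.ofReal_le_enorm _).trans ((enorm_integral_le_lintegral_enorm _).trans ?_)
  refine (lintegral_congr fun x => ?_).le.trans (h1.trans_eq ?_)
  · rw [Pi.mul_apply, mul_mul_mul_comm, ← ENNReal.rpow_add _ _ (h0 x) ENNReal.ofReal_ne_top,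
      add_neg_cancel, ENNReal.rpow_zero, mul_one, enorm_mul, Real.enorm_eq_ofReal_abs,
      Real.enorm_eq_ofReal_abs]
  · congr 2
    · refine lintegral_congr fun x => ?_
      rw [ENNReal.mul_rpow_of_nonneg _ _ hp.le, ← ENNReal.rpow_mul, one_div_mul_cancel hp.ne',
        ENNReal.rpow_one]
    · refine lintegral_congr fun x => ?_
      rw [ENNReal.mul_rpow_of_nonneg _ _ hq.le, ← ENNReal.rpow_mul]
      congr 2
      have := hpq.symm.sub_one_mul_conj
      field_simp
      linarith

theorem dual_bound {k w : E d → ℝ} {A p B : ℝ} (hk : IsKer k) (hw : A1 w A) (hp : 1 < p)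
    (hB : 0 ≤ B) (a b : ℤ) (h : ∀ g : E d → ℝ, Nice g →
      ∫⁻ x, ENNReal.ofReal |TT (rf k) a b g x| ^ (p / (p - 1)) *
          ENNReal.ofReal (w x) ^ (-(p / (p - 1) - 1)) ≤ ENNReal.ofReal (B ^ (p / (p - 1))) *
        ∫⁻ x, ENNReal.ofReal |g x| ^ (p / (p - 1)) * ENNReal.ofReal (w x) ^ (-(p / (p - 1) - 1)))
    {f : E d → ℝ} (hf : Nice f) :
    ∫⁻ x, ENNReal.ofReal |TT k a b f x| ^ p * ENNReal.ofReal (w x) ≤
      ENNReal.ofReal (B ^ p) * ∫⁻ x, ENNReal.ofReal |f x| ^ p * ENNReal.ofReal (w x) := by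
  have hpq : p.HolderConjugate (p / (p - 1)) := Real.HolderConjugate.conjExponent hp
  set q := p / (p - 1) with hqdef
  have hp0 := hpq.pos
  have hq0 := hpq.symm.pos
  have hu := TT_nice hk hf a b
  set u := TT k a b f with hudef
  have hum := hu.meas
  have hwm := hw.meas
  have hS : ∀ M : ℕ, MeasurableSet {x | w x ≤ M} := fun M => measurableSet_le hwm measurable_const
  have key : ∀ M : ℕ, ∫⁻ x, {x | w x ≤ M}.indicator
      (fun x => ENNReal.ofReal |u x| ^ p * ENNReal.ofReal (w x)) x ≤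
      ENNReal.ofReal (B ^ p) * ∫⁻ x, ENNReal.ofReal |f x| ^ p * ENNReal.ofReal (w x) := by
    intro M
    let g : E d → ℝ := {x | w x ≤ M}.indicator fun x => u x * |u x| ^ (p - 2) * w x
    have hg : Nice g := by
      obtain ⟨C, hC⟩ := hu.bdd
      obtain ⟨R, hR⟩ := hu.supp
      refine ⟨Measurable.indicator (by fun_prop) (hS M), ⟨C ^ (p - 1) * M, fun x => ?_⟩,
        ⟨R, fun x hx => ?_⟩⟩
      · have hC0 : 0 ≤ C := (abs_nonneg _).trans (hC x)
        by_cases hx : x ∈ {x | w x ≤ M}
        · rw [show g x = u x * |u x| ^ (p - 2) * w x from indicator_of_mem hx _, abs_mul,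
            dual_abs hp, abs_of_pos (hw.pos x)]
          have := hw.pos x
          have := hC x
          have : w x ≤ M := hx
          have : 0 ≤ p - 1 := by linarith
          gcongr
        · rw [show g x = 0 from indicator_of_notMem hx _, abs_zero]
          positivity
      · simp [g, indicator, hR x hx]
    have h1 : ∀ x, ENNReal.ofReal (u x * g x) = {x | w x ≤ M}.indicator
        (fun x => ENNReal.ofReal |u x| ^ p * ENNReal.ofReal (w x)) x := by
      intro x
      by_cases hx : x ∈ {x | w x ≤ M}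
      · rw [show g x = u x * |u x| ^ (p - 2) * w x from indicator_of_mem hx _, ← mul_assoc,
          dual_mul hp, indicator_of_mem hx, ENNReal.ofReal_mul (by positivity),
          ENNReal.ofReal_rpow_of_nonneg (abs_nonneg _) hp0.le]
      · rw [show g x = 0 from indicator_of_notMem hx _, indicator_of_notMem hx]
        simp
    have h2 : ∀ x, ENNReal.ofReal |g x| ^ q * ENNReal.ofReal (w x) ^ (-(q - 1)) =
        {x | w x ≤ M}.indicator (fun x => ENNReal.ofReal |u x| ^ p * ENNReal.ofReal (w x)) x := by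
      intro x
      by_cases hx : x ∈ {x | w x ≤ M}
      · have h0 : ENNReal.ofReal (w x) ≠ 0 := by simpa using hw.pos x
        rw [show g x = u x * |u x| ^ (p - 2) * w x from indicator_of_mem hx _, abs_mul,
          dual_abs hp, abs_of_pos (hw.pos x), indicator_of_mem hx,
          ENNReal.ofReal_mul (by positivity), ENNReal.mul_rpow_of_nonneg _ _ hq0.le,
          ← ENNReal.ofReal_rpow_of_nonneg (abs_nonneg _) (by linarith), ← ENNReal.rpow_mul,
          hpq.sub_one_mul_conj, mul_assoc, ← ENNReal.rpow_add _ _ h0 ENNReal.ofReal_ne_top,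
          show q + -(q - 1) = 1 by ring, ENNReal.rpow_one]
      · rw [show g x = 0 from indicator_of_notMem hx _, indicator_of_notMem hx]
        simp [hq0]
    have h3 : ENNReal.ofReal (∫ x, u x * g x) = ∫⁻ x, {x | w x ≤ M}.indicator
        (fun x => ENNReal.ofReal |u x| ^ p * ENNReal.ofReal (w x)) x := by
      rw [ofReal_integral_eq_lintegral_ofReal (hu.mul hg).integrable]
      · exact lintegral_congr h1
      · refine Filter.Eventually.of_forall fun x => ?_
        by_cases hx : x ∈ {x | w x ≤ M}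
        · have := hw.pos x
          change 0 ≤ u x * g x
          rw [show g x = u x * |u x| ^ (p - 2) * w x from indicator_of_mem hx _, ← mul_assoc,
            dual_mul hp]
          positivity
        · change 0 ≤ u x * g x
          rw [show g x = 0 from indicator_of_notMem hx _, mul_zero]
    have h4 := h g hg
    rw [lintegral_congr h2, ← h3, ← ENNReal.ofReal_rpow_of_nonneg hB hq0.le] at h4
    rw [← h3, ← ENNReal.ofReal_rpow_of_nonneg hB hp0.le]
    refine dual_cancel hpq ENNReal.ofReal_ne_top ?_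
    have h5 := dual_holder hpq hwm hw.pos hf.meas (TT_nice hk.rf hg a b).meas
    rw [← TT_dual hk hf hg a b] at h5
    refine h5.trans ?_
    gcongr
  have h6 : ∀ x, ENNReal.ofReal |u x| ^ p * ENNReal.ofReal (w x) = ⨆ M : ℕ,
      {x | w x ≤ M}.indicator (fun x => ENNReal.ofReal |u x| ^ p * ENNReal.ofReal (w x)) x := by
    intro x
    refine le_antisymm ?_ (iSup_le fun M => indicator_le_self _ _ x)
    obtain ⟨M, hM⟩ := exists_nat_ge (w x)
    refine le_iSup_of_le M ?_
    rw [indicator_of_mem (s := {x | w x ≤ M}) hM]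
  rw [lintegral_congr h6, lintegral_iSup]
  · exact iSup_le key
  · exact fun M => Measurable.indicator (by fun_prop) (hS M)
  · intro M N hMN x
    refine indicator_le_indicator_of_subset (fun y (hy : w y ≤ M) => ?_) (fun _ => zero_le) x
    exact hy.trans (Nat.cast_le.2 hMN)

end Pool.Agent.MP_418f02_an
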