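import Pool.Agent.MP_418f02_an.Cv

open MeasureTheory Set
open scoped ENNReal RealInnerProductSpace

namespace Pool.Agent.MP_418f02_an

variable {d : ℕ}

section
open FourierTransform
open scoped SchwartzMap ContDiff Convolution

/-- A real test function as a complex Schwartz function. -/
noncomputable def fourS (φ : E d → ℝ) (h₁ : ContDiff ℝ ∞ φ) (h₂ : HasCompactSupport φ) :
    𝓢(E d, ℂ) :=
  HasCompactSupport.toSchwartzMap (f := fun x => (φ x : ℂ))
    (h₂.comp_left (g := fun r : ℝ => (r : ℂ)) (by simp)) (Complex.ofRealCLM.contDiff.comp h₁)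

lemma fourS_apply (φ : E d → ℝ) (h₁ : ContDiff ℝ ∞ φ) (h₂ : HasCompactSupport φ) (x : E d) :
    fourS φ h₁ h₂ x = (φ x : ℂ) := rfl

lemma four_cont {g : E d → ℂ} (hg : Integrable g volume) : Continuous (𝓕 g) := by
  have := VectorFourier.fourierIntegral_continuous (e := Real.fourierChar) (μ := volume)
    (L := innerₗ (E d)) Real.continuous_fourierChar (by
      simp only [innerₗ_apply_apply]; fun_prop) hg
  exact this

/-- On `L¹ ∩ L²` the `L²` Fourier transform is given by the integral. -/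
lemma four_ae_eq (g : Lp ℂ 2 (volume : Measure (E d))) (hg : Integrable (g : E d → ℂ) volume) :
    ((𝓕 g : Lp ℂ 2 (volume : Measure (E d))) : E d → ℂ) =ᵐ[volume] 𝓕 (g : E d → ℂ) := by
  have hc : Continuous (𝓕 (g : E d → ℂ)) := four_cont hg
  refine ae_eq_of_integral_contDiff_smul_eq
    ((Lp.memLp _).locallyIntegrable (by norm_num)) hc.locallyIntegrable ?_
  intro φ h₁ h₂
  have key := Lp.fourier_toTemperedDistribution_eq g
  have k2 := congrArg (fun T : 𝓢'(E d, ℂ) => T (fourS φ h₁ h₂)) key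
  simp only [TemperedDistribution.fourier_apply, Lp.toTemperedDistribution_apply,
    fourS_apply] at k2
  have k3 := VectorFourier.integral_fourierIntegral_smul_eq_flip (e := Real.fourierChar)
    (μ := volume) (ν := volume) (L := innerₗ (E d)) (f := (fourS φ h₁ h₂ : E d → ℂ))
    (g := (g : E d → ℂ)) Real.continuous_fourierChar (by
        simp only [innerₗ_apply_apply]; fun_prop)
    (fourS φ h₁ h₂).integrable hg
  have hflip : (innerₗ (E d)).flip = innerₗ (E d) := by
    ext x y; simp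
  rw [hflip] at k3
  have e1 : ∀ x, φ x • (𝓕 g : Lp ℂ 2 (volume : Measure (E d))) x =
      (φ x : ℂ) • (𝓕 g : Lp ℂ 2 (volume : Measure (E d))) x := fun x => by simp
  have e2 : ∀ x, φ x • 𝓕 (g : E d → ℂ) x = (φ x : ℂ) • 𝓕 (g : E d → ℂ) x := fun x => by simp
  simp_rw [e1, e2]
  rw [← k2, SchwartzMap.fourier_coe]
  exact k3

lemma four_norm_sq (F : Lp ℂ 2 (volume : Measure (E d))) : ∫ x, ‖F x‖ ^ 2 = ‖F‖ ^ 2 := by
  have h := @L2.inner_def (E d) ℂ ℂ _ _ volume _ _ F F
  have h2 : ∀ x, (inner ℂ (F x) (F x) : ℂ) = ((‖F x‖ ^ 2 : ℝ) : ℂ) := fun x => by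
    rw [inner_self_eq_norm_sq_to_K]; push_cast; rfl
  simp_rw [h2] at h
  rw [integral_complex_ofReal, inner_self_eq_norm_sq_to_K] at h
  apply Complex.ofReal_injective
  rw [← h]; push_cast; rfl

theorem FT_apply (f : E d → ℝ) (η : E d) : FT f η = ∫ y, ee ⟪y, η⟫ * f y := by
  unfold FT ee
  rw [Real.fourier_eq']
  rfl

theorem FT_cont {f : E d → ℝ} (h : Nice f) : Continuous (FT f) :=
  four_cont h.integrable.ofReal

theorem planch {f : E d → ℝ} (h : Nice f) :
    Integrable (fun ξ => ‖FT f ξ‖ ^ 2) ∧ ∫ ξ, ‖FT f ξ‖ ^ 2 = ∫ x, f x ^ 2 := by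
  have hi : Integrable (fun y => (f y : ℂ)) volume := h.integrable.ofReal
  have hm : MemLp (fun y => (f y : ℂ)) 2 volume := by
    refine (memLp_two_iff_integrable_sq_norm hi.aestronglyMeasurable).2 ?_
    refine h.sq.integrable.congr (Filter.Eventually.of_forall fun y => ?_)
    simp
  set g := hm.toLp _ with hg
  have hgf : (g : E d → ℂ) =ᵐ[volume] fun y => (f y : ℂ) := hm.coeFn_toLp
  have h1 := four_ae_eq g (hi.congr hgf.symm)
  have h2 : ∀ ξ, 𝓕 (g : E d → ℂ) ξ = FT f ξ := fun ξ => Real.fourier_congr_ae hgf ξ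
  have h3 : (fun ξ => ‖(𝓕 g : Lp ℂ 2 (volume : Measure (E d))) ξ‖ ^ 2) =ᵐ[volume]
      fun ξ => ‖FT f ξ‖ ^ 2 := by
    filter_upwards [h1] with ξ hξ
    rw [hξ, h2]
  refine ⟨?_, ?_⟩
  · refine Integrable.congr ?_ h3
    exact (memLp_two_iff_integrable_sq_norm (Lp.aestronglyMeasurable _)).1 (Lp.memLp _)
  · rw [← integral_congr_ae h3, four_norm_sq, Lp.norm_fourier_eq, ← four_norm_sq]
    refine integral_congr_ae ?_
    filter_upwards [hgf] with x hx
    rw [hx]; simp

lemma four_ee_norm (t : ℝ) : ‖ee t‖ = 1 := Complex.norm_exp_ofReal_mul_I _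

lemma four_ee_cont : Continuous ee := by
  unfold ee; fun_prop

lemma four_ee_add (s t : ℝ) : ee (s + t) = ee s * ee t := by
  unfold ee
  rw [← Complex.exp_add]
  congr 1
  push_cast; ring

lemma four_int {f : E d → ℝ} (h : Integrable f) (η : E d) :
    Integrable fun y => ee ⟪y, η⟫ * (f y : ℂ) := by
  refine Integrable.bdd_mul (c := 1) h.ofReal ?_ (Filter.Eventually.of_forall fun y => ?_)
  · exact (four_ee_cont.comp (by fun_prop)).aestronglyMeasurable
  · exact (four_ee_norm _).le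

theorem FT_sub {f g : E d → ℝ} (hf : Nice f) (hg : Nice g) (η : E d) :
    FT (fun x => f x - g x) η = FT f η - FT g η := by
  simp only [FT_apply]
  rw [← integral_sub (four_int hf.integrable η) (four_int hg.integrable η)]
  congr 1; funext y; push_cast; ring

theorem FT_sum {ι : Type} {s : Finset ι} {g : ι → E d → ℝ} (h : ∀ i ∈ s, Nice (g i)) (η : E d) :
    FT (fun x => ∑ i ∈ s, g i x) η = ∑ i ∈ s, FT (g i) η := by
  simp only [FT_apply]
  rw [← integral_finsetSum _ fun i hi => four_int (h i hi).integrable η]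
  congr 1; funext y; push_cast; rw [Finset.mul_sum]

theorem FT_shift (f : E d → ℝ) (a η : E d) : FT (fun z => f (z - a)) η = ee ⟪a, η⟫ * FT f η := by
  simp only [FT_apply]
  rw [← integral_const_mul,
    ← integral_add_right_eq_self (fun y => ee ⟪y, η⟫ * (f (y - a) : ℂ)) a]
  congr 1; funext y
  rw [inner_add_left, four_ee_add, add_sub_cancel_right]; ring

lemma four_const (c : ℝ) (f : E d → ℝ) (η : E d) :
    FT (fun y => c * f y) η = c * FT f η := by
  simp only [FT_apply]
  rw [← integral_const_mul]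
  congr 1; funext y; push_cast; ring

lemma four_scale (f : E d → ℝ) {t : ℝ} (ht : 0 < t) (η : E d) :
    FT (fun y => f (t • y)) η = ((t ^ d)⁻¹ : ℝ) * FT f (t⁻¹ • η) := by
  simp only [FT_apply]
  have h := Measure.integral_comp_smul (volume : Measure (E d))
    (fun z => ee ⟪z, t⁻¹ • η⟫ * (f z : ℂ)) t
  rw [finrank_euclideanSpace_fin, abs_of_pos (by positivity), Complex.real_smul] at h
  rw [← h]
  congr 1; funext y
  rw [real_inner_smul_left, real_inner_smul_right, ← mul_assoc, mul_inv_cancel₀ ht.ne', one_mul]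

lemma four_fubini {F : ℝ → E d → ℝ} (hm : Measurable (Function.uncurry F)) {M R : ℝ}
    (hb : ∀ s ∈ Ioc (1 : ℝ) 2, ∀ y, |F s y| ≤ M)
    (hs : ∀ s ∈ Ioc (1 : ℝ) 2, ∀ y, R < ‖y‖ → F s y = 0) (η : E d) :
    FT (fun y => ∫ s in (1 : ℝ)..2, F s y) η = ∫ s in (1 : ℝ)..2, FT (F s) η := by
  simp only [FT_apply, intervalIntegral.integral_of_le (by norm_num : (1 : ℝ) ≤ 2)]
  have e : ∀ y : E d, ee ⟪y, η⟫ * ((∫ s in Ioc (1 : ℝ) 2, F s y : ℝ) : ℂ) =
      ∫ s in Ioc (1 : ℝ) 2, ee ⟪y, η⟫ * (F s y : ℂ) := fun y => by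
    rw [integral_const_mul, integral_complex_ofReal]
  simp_rw [e]
  refine (integral_integral_swap (f := fun s y => ee ⟪y, η⟫ * (F s y : ℂ)) ?_).symm
  have hI : Integrable ((Metric.closedBall (0 : E d) R).indicator fun _ => M) volume :=
    (nice_indicator Metric.isClosed_closedBall.measurableSet Metric.isBounded_closedBall
      M).integrable
  have hc : Integrable (fun _ : ℝ => (1 : ℝ)) (volume.restrict (Ioc (1 : ℝ) 2)) :=
    integrable_const _
  refine (hc.mul_prod hI).mono' ?_ ?_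
  · refine Measurable.aestronglyMeasurable ?_
    refine Measurable.mul ?_ (Complex.measurable_ofReal.comp hm)
    exact (four_ee_cont.comp (by fun_prop)).measurable
  · have hmem : ∀ᵐ p : ℝ × E d ∂((volume.restrict (Ioc (1 : ℝ) 2)).prod volume),
        p.1 ∈ Ioc (1 : ℝ) 2 :=
      Measure.quasiMeasurePreserving_fst.ae (ae_restrict_mem measurableSet_Ioc)
    filter_upwards [hmem] with p hp
    simp only [Function.uncurry, norm_mul, four_ee_norm, one_mul, Complex.norm_real,
      Real.norm_eq_abs]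
    by_cases hy : p.2 ∈ Metric.closedBall (0 : E d) R
    · rw [indicator_of_mem hy]; exact hb _ hp _
    · rw [indicator_of_notMem hy, hs _ hp _ (by simpa using hy), abs_zero]

theorem FT_KK {k : E d → ℝ} (h : IsKer k) {l : ℝ} (hl : 0 < l) (η : E d) :
    FT (KK k l) η = ∫ s in (1 : ℝ)..2, FT k ((l * s) • η) / s := by
  have hk := h.meas
  have h1 := four_fubini (F := fun s y => ((l * s) ^ d)⁻¹ * k ((l * s)⁻¹ • y) / s)
    (M := (l ^ d)⁻¹) (R := 4 * l) (by unfold Function.uncurry; fun_prop) ?_ ?_ η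
  · refine h1.trans ?_
    refine intervalIntegral.integral_congr fun s hs => ?_
    rw [uIcc_of_le (by norm_num)] at hs
    have hs0 : 0 < s := by linarith [hs.1]
    have hls : 0 < l * s := by positivity
    have e : (fun y => ((l * s) ^ d)⁻¹ * k ((l * s)⁻¹ • y) / s) =
        fun y => (((l * s) ^ d)⁻¹ / s) * k ((l * s)⁻¹ • y) := by
      funext y; ring
    simp only [e]
    rw [four_const, four_scale k (inv_pos.2 hls), inv_inv, inv_pow, inv_inv]
    have : ((l * s) ^ d : ℝ) ≠ 0 := by positivity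
    have h2 : (((l * s) ^ d : ℝ) : ℂ) ≠ 0 := by exact_mod_cast this
    have h3 : (s : ℂ) ≠ 0 := by exact_mod_cast hs0.ne'
    rw [Complex.ofReal_div, Complex.ofReal_inv]
    field_simp
  · intro s hs y
    have hs0 : 0 < s := by linarith [hs.1]
    have h2 : ((l * s) ^ d)⁻¹ ≤ (l ^ d)⁻¹ := by
      refine inv_anti₀ (by positivity) (pow_le_pow_left₀ hl.le ?_ _)
      nlinarith [hs.1]
    rw [abs_div, abs_mul, abs_of_pos hs0, abs_of_pos (by positivity), div_le_iff₀ hs0]
    have h3 := h.bdd ((l * s)⁻¹ • y)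
    have h4 : (0 : ℝ) ≤ (l ^ d)⁻¹ := by positivity
    calc _ ≤ (l ^ d)⁻¹ * 1 := mul_le_mul h2 h3 (abs_nonneg _) h4
      _ ≤ _ := mul_le_mul_of_nonneg_left hs.1.le h4
  · intro s hs y hy
    have hs0 : 0 < s := by linarith [hs.1]
    have hls : 0 < l * s := by positivity
    rw [h.supp, mul_zero, zero_div]
    rw [norm_smul, Real.norm_eq_abs, abs_of_pos (inv_pos.2 hls), ← div_eq_inv_mul,
      lt_div_iff₀ hls]
    nlinarith [hs.2]

theorem FT_ray {D : E d → ℝ} (h : Nice D) (η : E d) :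
    FT (ray D) η = ∫ s in (1 : ℝ)..2, ((s ^ d)⁻¹ : ℝ) * FT D (s⁻¹ • η) / s := by
  have hk := h.meas
  obtain ⟨M, hM⟩ := h.bdd
  obtain ⟨R, hR⟩ := h.supp
  have h1 := four_fubini (F := fun s y => D (s • y) / s)
    (M := M) (R := R) (by unfold Function.uncurry; fun_prop) ?_ ?_ η
  · refine h1.trans ?_
    refine intervalIntegral.integral_congr fun s hs => ?_
    rw [uIcc_of_le (by norm_num)] at hs
    have hs0 : 0 < s := by linarith [hs.1]
    have e : (fun y => D (s • y) / s) = fun y => s⁻¹ * D (s • y) := by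
      funext y; ring
    simp only [e]
    rw [four_const, four_scale D hs0, Complex.ofReal_inv s]
    ring
  · intro s hs y
    have hs0 : 0 < s := by linarith [hs.1]
    rw [abs_div, abs_of_pos hs0, div_le_iff₀ hs0]
    have h3 := hM (s • y)
    have h4 : 0 ≤ M := (abs_nonneg _).trans h3
    nlinarith [hs.1]
  · intro s hs y hy
    have hs0 : 0 < s := by linarith [hs.1]
    rw [hR, zero_div]
    rw [norm_smul, Real.norm_eq_abs, abs_of_pos hs0]
    nlinarith [hs.1, norm_nonneg y]

theorem FT_cv {k g : E d → ℝ} (h : IsKer k) (hg : Nice g) (j : ℤ) (η : E d) :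
    FT (cv k j g) η = FT (KK k (2 ^ (j - 2))) η * FT g η := by
  have hK : Nice (KK k (2 ^ (j - 2))) := KK_nice h (by positivity)
  have h1 := Real.fourier_mul_convolution_eq (f₁ := fun y => (g y : ℂ))
    (f₂ := fun y => (KK k (2 ^ (j - 2)) y : ℂ)) hg.integrable.ofReal hK.integrable.ofReal η
  rw [mul_comm]
  refine Eq.trans ?_ h1
  unfold FT
  refine congrArg (fun f : E d → ℂ => 𝓕 f η) (funext fun x => ?_)
  rw [convolution_def]
  unfold cv
  rw [← integral_complex_ofReal]
  congr 1; funext y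
  simp [mul_comm]

end

end Pool.Agent.MP_418f02_an
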