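import Pool.Agent.MP_418f02_an.Defs

open MeasureTheory Set
open scoped ENNReal RealInnerProductSpace

namespace Pool.Agent.MP_418f02_an

variable {d : ℕ}

theorem geo_pos {u : E d} (hu : ‖u‖ = 1) : 1 ≤ d := by
  rcases Nat.eq_zero_or_pos d with rfl | h
  · rw [Subsingleton.elim u 0, norm_zero] at hu
    exact absurd hu zero_ne_one
  · exact h

/-- a rotation taking a unit vector to a coordinate vector -/
theorem geo_rot {u : E d} (hu : ‖u‖ = 1) (i₀ : Fin d) :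
    ∃ T : E d ≃ₗᵢ[ℝ] E d, T u = EuclideanSpace.single i₀ 1 ∧ ∀ y, T y i₀ = ⟪y, u⟫ := by
  have h : ‖u‖ = ‖(EuclideanSpace.single i₀ (1 : ℝ) : E d)‖ := by simp [hu]
  refine ⟨_, Submodule.reflection_sub h, fun y => ?_⟩
  have h1 := Submodule.reflection_sub h
  generalize Submodule.reflection (ℝ ∙ (u - EuclideanSpace.single i₀ (1 : ℝ)))ᗮ = T at h1
  rw [← T.inner_map_map y u, h1, EuclideanSpace.inner_single_right]
  simp

theorem geo_box (T : E d ≃ₗᵢ[ℝ] E d) (i₀ : Fin d) (c : Fin d → ℝ) {p q : ℝ} (hp : 0 ≤ p)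
    (hq : 0 ≤ q) : volume {y : E d | |T y i₀ - c i₀| ≤ p ∧ ∀ i, i ≠ i₀ → |T y i - c i| ≤ q} =
      ENNReal.ofReal (2 * p * (2 * q) ^ (d - 1)) := by
  set r : Fin d → ℝ := fun i => if i = i₀ then p else q with hr
  have h1 : {y : E d | |T y i₀ - c i₀| ≤ p ∧ ∀ i, i ≠ i₀ → |T y i - c i| ≤ q} =
      T ⁻¹' (WithLp.ofLp ⁻¹' Icc (fun i => c i - r i) (fun i => c i + r i)) := by
    ext y
    simp only [mem_ofPred_eq, mem_preimage, mem_Icc, Pi.le_def]
    constructor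
    · rintro ⟨h0, h⟩
      have key : ∀ i, |T y i - c i| ≤ r i := fun i => by
        by_cases hi : i = i₀
        · rw [hi]; simpa [hr] using h0
        · simpa [hr, hi] using h i hi
      exact ⟨fun i => by linarith [(abs_le.1 (key i)).1], fun i => by linarith [(abs_le.1 (key i)).2]⟩
    · rintro ⟨h1, h2⟩
      have key : ∀ i, |T y i - c i| ≤ r i := fun i => abs_le.2 ⟨by linarith [h1 i], by linarith [h2 i]⟩
      exact ⟨by simpa [hr] using key i₀, fun i hi => by simpa [hr, hi] using key i⟩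
  have hm : MeasurableSet (Icc (fun i => c i - r i) (fun i => c i + r i)) := measurableSet_Icc
  rw [h1, T.measurePreserving.measure_preimage
    ((PiLp.volume_preserving_ofLp (Fin d)).measurable hm).nullMeasurableSet,
    (PiLp.volume_preserving_ofLp (Fin d)).measure_preimage hm.nullMeasurableSet, Real.volume_Icc_pi,
    ← Finset.mul_prod_erase _ _ (Finset.mem_univ i₀),
    Finset.prod_congr rfl (g := fun _ => ENNReal.ofReal (2 * q)) fun i hi => by
      rw [hr]; simp only [if_neg (Finset.ne_of_mem_erase hi)]; congr 1; ring,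
    Finset.prod_const, Finset.card_erase_of_mem (Finset.mem_univ _), Finset.card_univ,
    Fintype.card_fin, ENNReal.ofReal_mul (p := 2 * p) (by positivity),
    ENNReal.ofReal_pow (by positivity)]
  congr 2
  simp only [hr, if_true]; ring

theorem geo_coord (y : E d) (i : Fin d) : |y i| ≤ ‖y‖ := by
  simpa using PiLp.norm_apply_le y i

theorem geo_norm (y : E d) {t : ℝ} (ht : 0 ≤ t) (h : ∀ i, |y i| ≤ t) : ‖y‖ ≤ d * t := by
  rw [EuclideanSpace.norm_eq, Real.sqrt_le_left (by positivity)]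
  calc ∑ i, ‖y i‖ ^ 2 ≤ ∑ _i : Fin d, t ^ 2 :=
        Finset.sum_le_sum fun i _ => pow_le_pow_left₀ (norm_nonneg _) (h i) 2
    _ = d * t ^ 2 := by simp
    _ ≤ (d * t) ^ 2 := by
        rw [mul_pow]
        refine mul_le_mul_of_nonneg_right ?_ (by positivity)
        exact_mod_cast Nat.le_self_pow two_ne_zero d

theorem slab_le {u : E d} (hu : ‖u‖ = 1) {ρ R : ℝ} (hρ : 0 ≤ ρ) (hR : 0 ≤ R) :
    volume {y : E d | ‖y‖ ≤ R ∧ |⟪y, u⟫| ≤ ρ} ≤ ENNReal.ofReal (2 * ρ * (2 * R) ^ (d - 1)) := by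
  obtain ⟨T, -, hT⟩ := geo_rot hu ⟨0, geo_pos hu⟩
  rw [← geo_box T ⟨0, geo_pos hu⟩ 0 hρ hR]
  refine measure_mono fun y hy => ⟨?_, fun i _ => ?_⟩
  · rw [Pi.zero_apply, sub_zero, hT]; exact hy.2
  · rw [Pi.zero_apply, sub_zero]
    exact (geo_coord _ i).trans ((T.norm_map y).le.trans hy.1)

theorem slab_ge {u a : E d} (hu : ‖u‖ = 1) {e ρ : ℝ} (he : 0 < e) (heρ : e ≤ ρ)
    (ha : |⟪a, u⟫| ≤ ρ) : ENNReal.ofReal (e * ρ ^ (d - 1) / d ^ d) ≤
      volume {y : E d | ‖y - a‖ ≤ 2 * ρ ∧ |⟪y, u⟫| ≤ e} := by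
  have hd := geo_pos hu
  have hd' : (1 : ℝ) ≤ d := by exact_mod_cast hd
  have hρ : 0 < ρ := he.trans_le heρ
  set i₀ : Fin d := ⟨0, hd⟩
  obtain ⟨T, hTu, hT⟩ := geo_rot hu i₀
  have hb := geo_box T i₀ (fun i => if i = i₀ then 0 else T a i) (p := e / d) (q := ρ / d)
    (by positivity) (by positivity)
  refine le_trans (ENNReal.ofReal_le_ofReal ?_) (hb.symm.le.trans (measure_mono ?_))
  · obtain ⟨n, rfl⟩ : ∃ n, d = n + 1 := ⟨d - 1, by omega⟩
    rw [Nat.add_sub_cancel, mul_pow, div_pow, pow_succ, mul_comm (((n + 1 : ℕ) : ℝ) ^ n),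
      ← div_mul_div_comm]
    have h1 : (1 : ℝ) ≤ 2 ^ n := one_le_pow₀ one_le_two
    have h2 : 0 ≤ e / ((n + 1 : ℕ) : ℝ) * (ρ ^ n / ((n + 1 : ℕ) : ℝ) ^ n) := by positivity
    nlinarith
  · rintro y ⟨h0, h⟩
    simp only [if_true, sub_zero] at h0
    have h1 : e / d ≤ e := div_le_self he.le hd'
    have h2 : e / d ≤ ρ / d := by gcongr
    refine ⟨?_, by rw [← hT]; exact h0.trans h1⟩
    have h3 : ‖T (y - a + ⟪a, u⟫ • u)‖ ≤ d * (ρ / d) := by
      refine geo_norm _ (by positivity) fun i => ?_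
      rw [map_add, map_sub, map_smul, hTu, ← hT a]
      by_cases hi : i = i₀
      · rw [hi]; simpa using h0.trans h2
      · have := h i hi
        simpa [hi] using this
    rw [T.norm_map, mul_div_cancel₀ _ (by positivity)] at h3
    have h4 : ‖⟪a, u⟫ • u‖ ≤ ρ := by rw [norm_smul, hu, mul_one]; exact ha
    calc ‖y - a‖ = ‖(y - a + ⟪a, u⟫ • u) - ⟪a, u⟫ • u‖ := by rw [add_sub_cancel_right]
      _ ≤ ρ + ρ := (norm_sub_le _ _).trans (add_le_add h3 h4)
      _ = 2 * ρ := by ring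

theorem tube_le (hd : 1 ≤ d) (a : E d) {ρ : ℝ} (hρ : 0 ≤ ρ) :
    volume {y : E d | ∃ s ∈ Icc (1 : ℝ) 2, ‖s • y - a‖ ≤ ρ} ≤
      ENNReal.ofReal (2 * (‖a‖ + ρ) * (2 * ρ) ^ (d - 1)) := by
  set i₀ : Fin d := ⟨0, hd⟩
  obtain ⟨u, hu, hau⟩ : ∃ u : E d, ‖u‖ = 1 ∧ a = ‖a‖ • u := by
    by_cases ha : a = 0
    · exact ⟨EuclideanSpace.single i₀ 1, by simp, by simp [ha]⟩
    · have h := norm_ne_zero_iff.2 ha
      exact ⟨‖a‖⁻¹ • a, by simp [norm_smul, h], by rw [smul_smul, mul_inv_cancel₀ h, one_smul]⟩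
  obtain ⟨T, hTu, -⟩ := geo_rot hu i₀
  rw [← geo_box T i₀ 0 (by positivity) hρ]
  refine measure_mono ?_
  rintro y ⟨s, hs, hy⟩
  have key : ∀ i, |T y i| ≤ |T a i| + ρ := fun i => by
    have h1 : |s * T y i - T a i| ≤ ρ := by
      have := (geo_coord (T (s • y - a)) i).trans ((T.norm_map _).le.trans hy)
      simpa using this
    have h2 : |T y i| ≤ |s * T y i| := by
      rw [abs_mul, abs_of_pos (a := s) (by linarith [hs.1])]
      exact le_mul_of_one_le_left (abs_nonneg _) hs.1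
    have h3 := abs_sub_abs_le_abs_sub (s * T y i) (T a i)
    linarith
  refine ⟨?_, fun i hi => ?_⟩
  · rw [Pi.zero_apply, sub_zero]
    have := (geo_coord (T a) i₀).trans (T.norm_map a).le
    linarith [key i₀]
  · rw [Pi.zero_apply, sub_zero]
    have h1 : T a i = 0 := by
      rw [hau, map_smul, hTu]; simp [hi]
    simpa [h1] using key i

end Pool.Agent.MP_418f02_an
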