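import Pool.Agent.MP_418f02_an.Cube2

open MeasureTheory Set
open scoped ENNReal RealInnerProductSpace

namespace Pool.Agent.MP_418f02_an

variable {d : ℕ}

theorem av_congr {j : ℤ} (F : E d → ℝ≥0∞) {x y : E d} (h : ix j x = ix j y) :
    av j F x = av j F y := by
  unfold av cb
  rw [h]

theorem mx_congr {a : ℤ} (b : ℤ) (F : E d → ℝ≥0∞) {x y : E d} (h : ix a x = ix a y) :
    mx a b F x = mx a b F y := by
  unfold mx
  exact biSup_congr fun j hj => av_congr F (ix_mono (Finset.mem_Icc.1 hj).1 h)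

theorem mx_meas (a b : ℤ) (F : E d → ℝ≥0∞) : Measurable (mx a b F) :=
  measurable_of_ix (k := a) fun _ _ h => mx_congr b F h

theorem av_le_mx {a b j : ℤ} (ha : a ≤ j) (hb : j ≤ b) (F : E d → ℝ≥0∞) (x : E d) :
    av j F x ≤ mx a b F x :=
  le_iSup₂ (f := fun j (_ : j ∈ Finset.Icc a b) => av j F x) j (Finset.mem_Icc.2 ⟨ha, hb⟩)

theorem mx_le_iff {a b : ℤ} {F : E d → ℝ≥0∞} {x : E d} {t : ℝ≥0∞} :
    mx a b F x ≤ t ↔ ∀ j, a ≤ j → j ≤ b → av j F x ≤ t := by
  simp [mx, iSup₂_le_iff]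

theorem mx_anti {a a' : ℤ} (h : a ≤ a') (b : ℤ) (F : E d → ℝ≥0∞) (x : E d) :
    mx a' b F x ≤ mx a b F x :=
  mx_le_iff.2 fun _ h1 h2 => av_le_mx (h.trans h1) h2 F x

theorem stop_mx (b : ℤ) (F : E d → ℝ≥0∞) (t : ℝ≥0∞) : Stop fun j => {x | mx j b F x ≤ t} := by
  refine ⟨fun j x y h hx => ?_, fun i j h x hx => (mx_anti h b F x).trans hx⟩
  show mx j b F y ≤ t
  rw [← mx_congr b F h]
  exact hx

lemma weak_vol_ne (j : ℤ) : ENNReal.ofReal (3 ^ d * sz d j) ≠ 0 :=
  (ENNReal.ofReal_pos.2 (mul_pos (by positivity) (sz_pos j))).ne'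

lemma weak_vol_eq (j : ℤ) : ENNReal.ofReal (3 ^ d * sz d j) = 3 ^ d * ENNReal.ofReal (sz d j) := by
  rw [ENNReal.ofReal_mul (by positivity), ENNReal.ofReal_pow (by norm_num)]
  norm_num

lemma weak_nbr {j : ℤ} {F : E d → ℝ≥0∞} {x : E d} {t : ℝ≥0∞} (h : t < av j F x) :
    ∃ Q : Cb d, Q.1 = j ∧ x ∈ big Q ∧ t * ENNReal.ofReal (sz d Q.1) < ∫⁻ y in cube Q, F y := by
  obtain ⟨N, h1, h2, h3, h4⟩ := exists_nbrs (cb j x)
  by_contra hne
  push Not at hne
  refine absurd h (not_lt.2 (ENNReal.div_le_of_le_mul ?_))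
  rw [h4, lintegral_biUnion_finset h2 fun c _ => measurableSet_cube c, weak_vol_eq]
  have h5 : ∀ Q ∈ N, ∫⁻ y in cube Q, F y ≤ t * ENNReal.ofReal (sz d j) := fun Q hQ => by
    have e : Q.1 = j := h3 Q hQ
    obtain ⟨y, hy⟩ := cube_nonempty Q
    have h6 : y ∈ big (cb j x) := h4 ▸ mem_biUnion hQ hy
    have h7 := mem_big_symm.1 h6
    rw [← e, cb_eq_of_mem hy] at h7
    exact e ▸ hne Q e h7
  refine (Finset.sum_le_card_nsmul _ _ _ h5).trans (le_of_eq ?_)
  rw [h1, nsmul_eq_mul]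
  push_cast
  ring

theorem mx_weak (a b : ℤ) (F : E d → ℝ≥0∞) (t : ℝ≥0∞) :
    t * volume {x | t < mx a b F x} ≤ 3 ^ d * ∫⁻ x, F x := by
  obtain ⟨T, h1, h2, h3, -⟩ := exists_maximal
    {Q : Cb d | Q.1 ≤ b ∧ t * ENNReal.ofReal (sz d Q.1) < ∫⁻ y in cube Q, F y} b fun c hc => hc.1
  have hT : T.Countable := Set.to_countable T
  have h4 : {x | t < mx a b F x} ⊆ ⋃ Q ∈ T, big Q := by
    intro x hx
    obtain ⟨j, -, hj, h5⟩ : ∃ j, a ≤ j ∧ j ≤ b ∧ t < av j F x := by
      by_contra hne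
      push Not at hne
      exact absurd hx (not_lt.2 (mx_le_iff.2 hne))
    obtain ⟨Q, e, h6, h7⟩ := weak_nbr h5
    obtain ⟨Q', hQ', h8, h9⟩ := h3 Q ⟨e ▸ hj, h7⟩
    obtain ⟨y, hy⟩ := cube_nonempty Q
    refine mem_biUnion hQ' (big_subset_big h8 (h9 hy) ?_)
    rwa [cb_eq_of_mem hy]
  calc t * volume {x | t < mx a b F x} ≤ t * ∑' Q : T, volume (big (Q : Cb d)) :=
        mul_le_mul_right ((measure_mono h4).trans (measure_biUnion_le _ hT _)) _
    _ ≤ 3 ^ d * ∑' Q : T, ∫⁻ y in cube (Q : Cb d), F y := by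
        rw [← ENNReal.tsum_mul_left, ← ENNReal.tsum_mul_left]
        refine ENNReal.tsum_le_tsum fun Q => ?_
        rw [volume_big, weak_vol_eq, mul_left_comm]
        exact mul_le_mul_right (h1 Q.2).2.le _
    _ ≤ 3 ^ d * ∫⁻ x, F x := by
        rw [← lintegral_biUnion hT (fun c _ => measurableSet_cube c) h2]
        exact mul_le_mul_right (setLIntegral_le_lintegral _ _) _

lemma weak_layer_fin {r : ℝ} (hr : 0 < r) {v : ℝ} (hv : 0 ≤ v) :
    ∫⁻ t in Ioo (0 : ℝ) v, ENNReal.ofReal (r * t ^ (r - 1)) = ENNReal.ofReal v ^ r := by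
  have h1 : IntervalIntegrable (fun t : ℝ => r * t ^ (r - 1)) volume 0 v :=
    (intervalIntegral.intervalIntegrable_rpow' (by linarith)).const_mul r
  rw [← ofReal_integral_eq_lintegral_ofReal
    ((intervalIntegrable_iff_integrableOn_Ioo_of_le hv).1 h1)
    ((ae_restrict_iff' measurableSet_Ioo).2 (Filter.Eventually.of_forall fun t ht =>
      mul_nonneg hr.le (Real.rpow_nonneg ht.1.le _))),
    ← integral_Ioc_eq_integral_Ioo, ← intervalIntegral.integral_of_le hv,
    intervalIntegral.integral_const_mul, integral_rpow (Or.inl (by linarith)),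
    ENNReal.ofReal_rpow_of_nonneg hv hr.le, sub_add_cancel, Real.zero_rpow hr.ne', sub_zero,
    mul_div_cancel₀ _ hr.ne']

lemma weak_layer {r : ℝ} (hr : 0 < r) (u : ℝ≥0∞) :
    ∫⁻ t in Ioi (0 : ℝ), (if ENNReal.ofReal t < u then ENNReal.ofReal (r * t ^ (r - 1)) else 0) =
      u ^ r := by
  rcases eq_or_ne u ∞ with rfl | hu
  · simp only [ENNReal.ofReal_lt_top, if_true, ENNReal.top_rpow_of_pos hr]
    refine ENNReal.eq_top_of_forall_nnreal_le fun c => ?_
    have h := weak_layer_fin hr (v := (c : ℝ) ^ r⁻¹) (by positivity)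
    rw [ENNReal.ofReal_rpow_of_nonneg (by positivity) hr.le,
      Real.rpow_inv_rpow c.coe_nonneg hr.ne', ENNReal.ofReal_coe_nnreal] at h
    rw [← h]
    exact lintegral_mono_set Ioo_subset_Ioi_self
  · obtain ⟨v, hv, rfl⟩ : ∃ v : ℝ, 0 ≤ v ∧ u = ENNReal.ofReal v :=
      ⟨u.toReal, ENNReal.toReal_nonneg, (ENNReal.ofReal_toReal hu).symm⟩
    rw [← weak_layer_fin hr hv, ← lintegral_indicator measurableSet_Ioi,
      ← lintegral_indicator measurableSet_Ioo]
    refine lintegral_congr fun t => ?_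
    by_cases h0 : 0 < t
    · by_cases h1 : t < v
      · rw [indicator_of_mem (mem_Ioi.2 h0), indicator_of_mem (show t ∈ Ioo 0 v from ⟨h0, h1⟩),
          if_pos ((ENNReal.ofReal_lt_ofReal_iff_of_nonneg h0.le).2 h1)]
      · rw [indicator_of_mem (mem_Ioi.2 h0), indicator_of_notMem (fun h : t ∈ Ioo 0 v => h1 h.2),
          if_neg fun h => h1 ((ENNReal.ofReal_lt_ofReal_iff_of_nonneg h0.le).1 h)]
    · rw [indicator_of_notMem (fun h => h0 (mem_Ioi.1 h)),
        indicator_of_notMem fun h : t ∈ Ioo 0 v => h0 h.1]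

lemma weak_meas {G : E d → ℝ≥0∞} (hG : Measurable G) (r : ℝ) :
    Measurable fun z : E d × ℝ =>
      if ENNReal.ofReal z.2 < G z.1 then ENNReal.ofReal (r * z.2 ^ (r - 1)) else 0 :=
  Measurable.ite (measurableSet_lt (by fun_prop) (by fun_prop)) (by fun_prop) measurable_const

lemma weak_split (a b : ℤ) (F : E d → ℝ≥0∞) (τ : ℝ≥0∞) (x : E d) :
    mx a b F x ≤ τ + mx a b (fun y => if 2 * τ < 2 * F y then F y else 0) x := by
  refine mx_le_iff.2 fun j h1 h2 => le_trans ?_ (add_le_add_right (av_le_mx h1 h2 _ x) _)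
  unfold av
  have h3 : ∫⁻ y in big (cb j x), F y ≤ τ * ENNReal.ofReal (3 ^ d * sz d j) +
      ∫⁻ y in big (cb j x), if 2 * τ < 2 * F y then F y else 0 := by
    have e : volume (big (cb j x)) = ENNReal.ofReal (3 ^ d * sz d j) := volume_big _
    rw [← e, ← setLIntegral_const, ← lintegral_add_left measurable_const]
    refine lintegral_mono fun y => ?_
    simp only
    split_ifs with h
    · exact le_add_self
    · rw [add_zero]
      exact (ENNReal.mul_le_mul_iff_right two_ne_zero ENNReal.ofNat_ne_top).1 (not_lt.1 h)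
  refine (ENNReal.div_le_div_right h3 _).trans (le_of_eq ?_)
  rw [ENNReal.add_div, ENNReal.mul_div_cancel_right (weak_vol_ne j) ENNReal.ofReal_ne_top]

theorem mx_strong (a b : ℤ) {F : E d → ℝ≥0∞} (hF : Measurable F) {s : ℝ} (hs : 1 < s) :
    ∫⁻ x, mx a b F x ^ s ≤ ENNReal.ofReal (3 ^ d * 2 ^ s * (s / (s - 1))) * ∫⁻ x, F x ^ s := by
  have hs0 : 0 < s := by linarith
  have hs1 : 0 < s - 1 := by linarith
  have hF2 : Measurable fun x => 2 * F x := hF.const_mul 2
  have key : ∀ t ∈ Ioi (0 : ℝ), ∫⁻ x, (if ENNReal.ofReal t < mx a b F x then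
      ENNReal.ofReal (s * t ^ (s - 1)) else 0) ≤ ENNReal.ofReal (2 * (s / (s - 1))) * 3 ^ d *
      ∫⁻ x, (if ENNReal.ofReal t < 2 * F x then ENNReal.ofReal ((s - 1) * t ^ (s - 1 - 1))
        else 0) * F x := by
    intro t ht
    have ht0 : 0 < t := ht
    have e1 : ENNReal.ofReal t = 2 * ENNReal.ofReal (t / 2) := by
      rw [← ENNReal.ofReal_ofNat, ← ENNReal.ofReal_mul (by norm_num)]
      congr 1
      ring
    have e2 : ENNReal.ofReal (s * t ^ (s - 1)) = ENNReal.ofReal (2 * (s / (s - 1))) *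
        ENNReal.ofReal ((s - 1) * t ^ (s - 1 - 1)) * ENNReal.ofReal (t / 2) := by
      rw [← ENNReal.ofReal_mul (by positivity), ← ENNReal.ofReal_mul (by positivity)]
      congr 1
      rw [Real.rpow_sub_one ht0.ne' (s - 1)]
      field_simp
    have h1 := mx_weak a b (fun y => if 2 * ENNReal.ofReal (t / 2) < 2 * F y then F y else 0)
      (ENNReal.ofReal (t / 2))
    have h2 : {x | ENNReal.ofReal t < mx a b F x} ⊆ {x | ENNReal.ofReal (t / 2) < mx a b
        (fun y => if 2 * ENNReal.ofReal (t / 2) < 2 * F y then F y else 0) x} := by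
      intro x hx
      by_contra h
      refine absurd hx (not_lt.2 ((weak_split a b F (ENNReal.ofReal (t / 2)) x).trans ?_))
      rw [e1, two_mul (ENNReal.ofReal (t / 2))]
      rw [two_mul (ENNReal.ofReal (t / 2))] at h
      exact add_le_add_right (not_lt.1 h) _
    have e3 : ∫⁻ x, (if ENNReal.ofReal t < mx a b F x then ENNReal.ofReal (s * t ^ (s - 1))
        else 0) = ENNReal.ofReal (s * t ^ (s - 1)) *
          volume {x | ENNReal.ofReal t < mx a b F x} := by
      rw [← lintegral_indicator_const (measurableSet_lt measurable_const (mx_meas a b F))]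
      refine lintegral_congr fun x => ?_
      simp [indicator_apply]
    have e4 : ∫⁻ x, (if ENNReal.ofReal t < 2 * F x then
        ENNReal.ofReal ((s - 1) * t ^ (s - 1 - 1)) else 0) * F x =
        ENNReal.ofReal ((s - 1) * t ^ (s - 1 - 1)) *
          ∫⁻ y, if 2 * ENNReal.ofReal (t / 2) < 2 * F y then F y else 0 := by
      rw [← lintegral_const_mul' _ _ ENNReal.ofReal_ne_top, ← e1]
      refine lintegral_congr fun x => ?_
      split_ifs <;> simp
    rw [e3, e4, e2]
    calc _ ≤ ENNReal.ofReal (2 * (s / (s - 1))) * ENNReal.ofReal ((s - 1) * t ^ (s - 1 - 1)) *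
          (3 ^ d * ∫⁻ y, if 2 * ENNReal.ofReal (t / 2) < 2 * F y then F y else 0) := by
          rw [mul_assoc _ (ENNReal.ofReal (t / 2))]
          exact mul_le_mul_right ((mul_le_mul_right (measure_mono h2) _).trans h1) _
      _ = _ := by ring
  have hc : ENNReal.ofReal (2 * (s / (s - 1))) * 3 ^ d ≠ ∞ :=
    ENNReal.mul_ne_top ENNReal.ofReal_ne_top (ENNReal.pow_ne_top ENNReal.ofNat_ne_top)
  calc ∫⁻ x, mx a b F x ^ s = ∫⁻ x, ∫⁻ t in Ioi (0 : ℝ), (if ENNReal.ofReal t < mx a b F x then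
        ENNReal.ofReal (s * t ^ (s - 1)) else 0) := lintegral_congr fun x => (weak_layer hs0 _).symm
    _ = ∫⁻ t in Ioi (0 : ℝ), ∫⁻ x, (if ENNReal.ofReal t < mx a b F x then
        ENNReal.ofReal (s * t ^ (s - 1)) else 0) :=
        lintegral_lintegral_swap (weak_meas (mx_meas a b F) s).aemeasurable
    _ ≤ ∫⁻ t in Ioi (0 : ℝ), ENNReal.ofReal (2 * (s / (s - 1))) * 3 ^ d *
        ∫⁻ x, (if ENNReal.ofReal t < 2 * F x then ENNReal.ofReal ((s - 1) * t ^ (s - 1 - 1))
          else 0) * F x := setLIntegral_mono' measurableSet_Ioi key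
    _ = ENNReal.ofReal (2 * (s / (s - 1))) * 3 ^ d * ∫⁻ x, (2 * F x) ^ (s - 1) * F x := by
        rw [lintegral_const_mul' _ _ hc, ← lintegral_lintegral_swap
          ((weak_meas hF2 (s - 1)).mul (hF.comp measurable_fst)).aemeasurable]
        congr 1
        refine lintegral_congr fun x => ?_
        rw [← weak_layer hs1, ← lintegral_mul_const]
        exact (weak_meas hF2 (s - 1)).comp (measurable_prodMk_left (x := x))
    _ = _ := by
        have e : ∀ x, (2 * F x) ^ (s - 1) * F x = 2 ^ (s - 1) * F x ^ s := fun x => by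
          rw [ENNReal.mul_rpow_of_nonneg _ _ hs1.le, mul_assoc]
          congr 1
          conv_rhs => rw [show s = (s - 1) + 1 by ring]
          rw [ENNReal.rpow_add_of_nonneg _ _ hs1.le zero_le_one, ENNReal.rpow_one]
        simp only [e]
        rw [lintegral_const_mul' _ _ (ENNReal.rpow_ne_top_of_nonneg hs1.le ENNReal.ofNat_ne_top),
          ← mul_assoc]
        congr 1
        rw [← ENNReal.ofReal_ofNat 3, ← ENNReal.ofReal_ofNat 2,
          ← ENNReal.ofReal_pow (by norm_num), ENNReal.ofReal_rpow_of_pos two_pos,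
          ← ENNReal.ofReal_mul (by positivity), ← ENNReal.ofReal_mul (by positivity),
          Real.rpow_sub_one two_ne_zero]
        congr 1
        ring

end Pool.Agent.MP_418f02_an
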