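import Pool.Agent.MP_418f02_an.Four
import Pool.Agent.MP_418f02_an.Geo
import Pool.Agent.MP_418f02_an.Weak

open MeasureTheory Set
open scoped ENNReal RealInnerProductSpace

namespace Pool.Agent.MP_418f02_an

variable {d : ℕ}

/-- directions almost orthogonal to `a` -/
def gamS (a : E d) (ρ : ℝ) : Set (E d) := {ζ | |⟪a, ζ⟫| ≤ ρ * ‖ζ‖}

theorem gam_measT (ρ : ℝ) : MeasurableSet {p : E d × E d | |⟪p.1, p.2⟫| ≤ ρ * ‖p.2‖} := by
  apply IsClosed.measurableSet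
  apply isClosed_le
  · exact (continuous_fst.inner continuous_snd).abs
  · exact continuous_const.mul continuous_snd.norm

theorem gam_measS (a : E d) (ρ : ℝ) : MeasurableSet (gamS a ρ) := by
  apply IsClosed.measurableSet
  apply isClosed_le
  · exact (continuous_const.inner continuous_id).abs
  · exact continuous_const.mul continuous_norm

theorem gam_swap (μ : Measure (E d)) [SFinite μ] (B : Set (E d)) (ρ : ℝ) :
    ∫⁻ y in B, μ (gamS y ρ) = ∫⁻ ζ, volume ({y | |⟪y, ζ⟫| ≤ ρ * ‖ζ‖} ∩ B) ∂μ := by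
  have h1 := Measure.prod_apply (μ := (volume : Measure (E d)).restrict B) (ν := μ) (gam_measT ρ)
  have h2 := Measure.prod_apply_symm (μ := (volume : Measure (E d)).restrict B) (ν := μ)
    (gam_measT ρ)
  have h3 : ∫⁻ y in B, μ (gamS y ρ) = ∫⁻ y in B,
      μ (Prod.mk y ⁻¹' {p : E d × E d | |⟪p.1, p.2⟫| ≤ ρ * ‖p.2‖}) := rfl
  rw [h3, ← h1, h2]
  apply lintegral_congr
  intro ζ
  rw [Measure.restrict_apply]
  · rfl
  · exact measurable_prodMk_right (gam_measT ρ)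

theorem gam_unit {ζ : E d} (h : ζ ≠ 0) (y : E d) (ρ : ℝ) :
    |⟪y, ζ⟫| ≤ ρ * ‖ζ‖ ↔ |⟪y, (‖ζ‖⁻¹ : ℝ) • ζ⟫| ≤ ρ := by
  have hp : 0 < ‖ζ‖ := norm_pos_iff.2 h
  rw [real_inner_smul_right, abs_mul, abs_of_pos (inv_pos.2 hp), inv_mul_le_iff₀ hp, mul_comm]

theorem gam_norm_unit {ζ : E d} (h : ζ ≠ 0) : ‖(‖ζ‖⁻¹ : ℝ) • ζ‖ = 1 := by
  have hp : 0 < ‖ζ‖ := norm_pos_iff.2 h
  rw [norm_smul, Real.norm_eq_abs, abs_of_pos (inv_pos.2 hp), inv_mul_cancel₀ hp.ne']

theorem gam_upper (μ : Measure (E d)) [SFinite μ] (h0 : ∀ᵐ ζ ∂μ, ζ ≠ 0) {e R : ℝ} (he : 0 ≤ e)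
    (hR : 0 ≤ R) : ∫⁻ y in {y : E d | ‖y‖ ≤ R}, μ (gamS y e) ≤
      ENNReal.ofReal (2 * e * (2 * R) ^ (d - 1)) * μ univ := by
  rw [gam_swap, ← lintegral_const]
  apply lintegral_mono_ae
  filter_upwards [h0] with ζ hζ
  refine le_trans (measure_mono ?_) (slab_le (gam_norm_unit hζ) he hR)
  intro y hy
  exact ⟨hy.2, (gam_unit hζ y e).1 hy.1⟩

theorem gam_lower (μ : Measure (E d)) [SFinite μ] (h0 : ∀ᵐ ζ ∂μ, ζ ≠ 0) {e ρ : ℝ} (he : 0 < e)
    (heρ : e ≤ ρ) (a : E d) : ENNReal.ofReal (e * ρ ^ (d - 1) / d ^ d) * μ (gamS a ρ) ≤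
      ∫⁻ y in {y : E d | ‖y - a‖ ≤ 2 * ρ}, μ (gamS y e) := by
  rw [gam_swap, ← lintegral_indicator_const (gam_measS a ρ)]
  apply lintegral_mono_ae
  filter_upwards [h0] with ζ hζ
  by_cases hs : ζ ∈ gamS a ρ
  · rw [indicator_of_mem hs]
    refine le_trans (slab_ge (gam_norm_unit hζ) he heρ ((gam_unit hζ a ρ).1 hs))
      (measure_mono ?_)
    intro y hy
    exact ⟨(gam_unit hζ y e).2 hy.2, hy.1⟩
  · rw [indicator_of_notMem hs]
    exact zero_le

theorem gam_level {x : ℝ} (hx : 0 ≤ x) : ∃ n : ℕ, x ≤ 2 ^ n ∧ (1 + x)⁻¹ ^ 2 ≤ 4 / 4 ^ n := by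
  by_cases h : x ≤ 1
  · refine ⟨0, by simpa using h, ?_⟩
    have h1 : (1 + x)⁻¹ ≤ 1 := inv_le_one_of_one_le₀ (by linarith)
    have h2 : 0 ≤ (1 + x)⁻¹ := by positivity
    have : (1 + x)⁻¹ ^ 2 ≤ 1 := pow_le_one₀ h2 h1
    norm_num at this ⊢
    linarith
  · obtain ⟨n, h1, h2⟩ := exists_nat_pow_near (le_of_lt (not_le.1 h)) (one_lt_two (α := ℝ))
    refine ⟨n + 1, h2.le, ?_⟩
    have hp : (0 : ℝ) < 2 ^ n := by positivity
    have h3 : (1 + x)⁻¹ ≤ ((2 : ℝ) ^ n)⁻¹ := inv_anti₀ hp (by linarith)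
    have h4 : (1 + x)⁻¹ ^ 2 ≤ (((2 : ℝ) ^ n)⁻¹) ^ 2 := pow_le_pow_left₀ (by positivity) h3 2
    refine h4.trans (le_of_eq ?_)
    have h5 : (4 : ℝ) ^ n = (2 ^ n) ^ 2 := by
      rw [← pow_mul, mul_comm, pow_mul]; norm_num
    rw [pow_succ (4 : ℝ) n, h5]
    field_simp

theorem gam_point (a ζ : E d) {e : ℝ} (he : 0 < e) :
    ENNReal.ofReal ((1 + |⟪a, ζ⟫| / (‖ζ‖ * e))⁻¹ ^ 2) ≤
      ∑' n : ℕ, (gamS a (2 ^ n * e)).indicator (fun _ => ENNReal.ofReal (4 / 4 ^ n)) ζ := by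
  obtain ⟨n, h1, h2⟩ := gam_level (x := |⟪a, ζ⟫| / (‖ζ‖ * e)) (by positivity)
  refine le_trans ?_ (ENNReal.le_tsum n)
  have hm : ζ ∈ gamS a (2 ^ n * e) := by
    by_cases hζ : ζ = 0
    · simp [gamS, hζ]
    · have hp : 0 < ‖ζ‖ * e := mul_pos (norm_pos_iff.2 hζ) he
      rw [div_le_iff₀ hp] at h1
      show |⟪a, ζ⟫| ≤ 2 ^ n * e * ‖ζ‖
      calc _ ≤ _ := h1
        _ = _ := by ring
  rw [indicator_of_mem hm]
  exact ENNReal.ofReal_le_ofReal h2

/-- the Fourier mass measure -/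
noncomputable def gamM (k : E d → ℝ) : Measure (E d) :=
  volume.withDensity fun ζ => ENNReal.ofReal (‖FT k ζ‖ ^ 2)

theorem gam_dens {k : E d → ℝ} (h : IsKer k) :
    Measurable fun ζ => ENNReal.ofReal (‖FT k ζ‖ ^ 2) :=
  (((FT_cont h.nice).norm.pow 2).measurable).ennreal_ofReal

theorem gamM_univ {k : E d → ℝ} (h : IsKer k) : gamM k univ ≤ ENNReal.ofReal (4 ^ d) := by
  obtain ⟨h1, h2⟩ := planch h.nice
  rw [gamM, withDensity_apply _ MeasurableSet.univ, Measure.restrict_univ,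
    ← ofReal_integral_eq_lintegral_ofReal h1 (Filter.Eventually.of_forall fun _ => by positivity),
    h2]
  exact ENNReal.ofReal_le_ofReal h.sq_le

theorem gamM_zero (hd : 1 ≤ d) (k : E d → ℝ) : ∀ᵐ ζ ∂gamM k, ζ ≠ 0 := by
  have : Nonempty (Fin d) := ⟨⟨0, hd⟩⟩
  have h : ∀ᵐ ζ ∂(volume : Measure (E d)), ζ ≠ 0 := by
    rw [ae_iff]
    simp
  exact (withDensity_absolutelyContinuous _ _).ae_le h

theorem gam_le_sum {k : E d → ℝ} (h : IsKer k) (a : E d) {e : ℝ} (he : 0 < e) :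
    ENNReal.ofReal (Gam k a e) ≤
      ∑' n : ℕ, ENNReal.ofReal (4 / 4 ^ n) * gamM k (gamS a (2 ^ n * e)) := by
  have h1 : ENNReal.ofReal (Gam k a e) ≤ ∫⁻ ζ, ENNReal.ofReal (‖FT k ζ‖ ^ 2) *
      ∑' n : ℕ, (gamS a (2 ^ n * e)).indicator (fun _ => ENNReal.ofReal (4 / 4 ^ n)) ζ := by
    calc ENNReal.ofReal (Gam k a e) ≤ ‖Gam k a e‖ₑ := by
          rw [Real.enorm_eq_ofReal_abs]
          exact ENNReal.ofReal_le_ofReal (le_abs_self _)
      _ ≤ ∫⁻ ζ, ‖‖FT k ζ‖ ^ 2 * (1 + |⟪a, ζ⟫| / (‖ζ‖ * e))⁻¹ ^ 2‖ₑ :=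
          enorm_integral_le_lintegral_enorm _
      _ ≤ _ := by
          apply lintegral_mono
          intro ζ
          dsimp only
          rw [Real.enorm_eq_ofReal (by positivity), ENNReal.ofReal_mul (by positivity)]
          exact mul_le_mul_right (gam_point a ζ he) _
  refine h1.trans (le_of_eq ?_)
  have hm : ∀ n : ℕ, Measurable
      ((gamS a (2 ^ n * e)).indicator (fun _ => ENNReal.ofReal (4 / 4 ^ n))) :=
    fun n => measurable_const.indicator (gam_measS _ _)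
  have h2 := lintegral_withDensity_eq_lintegral_mul (volume : Measure (E d)) (gam_dens h)
    (Measurable.ennreal_tsum hm)
  have h3 : ∫⁻ ζ, ENNReal.ofReal (‖FT k ζ‖ ^ 2) *
      ∑' n : ℕ, (gamS a (2 ^ n * e)).indicator (fun _ => ENNReal.ofReal (4 / 4 ^ n)) ζ =
      ∫⁻ ζ, ∑' n : ℕ, (gamS a (2 ^ n * e)).indicator (fun _ => ENNReal.ofReal (4 / 4 ^ n)) ζ
        ∂gamM k := h2.symm
  rw [h3, lintegral_tsum fun n => (hm n).aemeasurable]
  congr 1
  funext n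
  rw [lintegral_indicator_const (gam_measS _ _)]

theorem gam_pick {k : E d → ℝ} (h : IsKer k) (a : E d) {e s : ℝ} (he : 0 < e) (hs : 0 < s)
    (hG : s * e < Gam k a e) :
    ∃ ρ, e ≤ ρ ∧ ENNReal.ofReal (s / 8 * ρ) < gamM k (gamS a ρ) := by
  by_contra hc
  have hc' : ∀ ρ, e ≤ ρ → gamM k (gamS a ρ) ≤ ENNReal.ofReal (s / 8 * ρ) := by
    intro ρ hρ
    by_contra h'
    exact hc ⟨ρ, hρ, not_le.1 h'⟩
  have h1 := gam_le_sum h a he
  have h2 : ∑' n : ℕ, ENNReal.ofReal (4 / 4 ^ n) * gamM k (gamS a (2 ^ n * e)) ≤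
      ∑' n : ℕ, ENNReal.ofReal (s * e / 2 / 2 ^ n) := by
    apply ENNReal.tsum_le_tsum
    intro n
    have h1n : (1 : ℝ) ≤ 2 ^ n := one_le_pow₀ one_le_two
    refine (mul_le_mul_right (hc' _ (by nlinarith)) _).trans (le_of_eq ?_)
    rw [← ENNReal.ofReal_mul (by positivity)]
    congr 1
    have h5 : (4 : ℝ) ^ n = 2 ^ n * 2 ^ n := by
      rw [← mul_pow]; norm_num
    rw [h5]
    field_simp
    norm_num
  have h3 : ∑' n : ℕ, ENNReal.ofReal (s * e / 2 / 2 ^ n) = ENNReal.ofReal (s * e) := by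
    rw [← ENNReal.ofReal_tsum_of_nonneg (fun n => by positivity) (summable_geometric_two' _),
      tsum_geometric_two']
  have h4 := h1.trans (h2.trans h3.le)
  rw [ENNReal.ofReal_le_ofReal_iff (by positivity)] at h4
  linarith

theorem gam_av (hd : 1 ≤ d) (μ : Measure (E d)) [SFinite μ] (h0 : ∀ᵐ ζ ∂μ, ζ ≠ 0)
    {e ρ s R : ℝ} (he : 0 < e) (heρ : e ≤ ρ) (hs : 0 < s) (a : E d) (hR : ‖a‖ + 2 * ρ ≤ R)
    (hm : ENNReal.ofReal (s * ρ) ≤ μ (gamS a ρ)) {j : ℤ} (h1 : 2 * ρ ≤ 2 ^ j)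
    (h2 : 2 ^ j ≤ 4 * ρ) : ENNReal.ofReal (s * e / (d ^ d * 12 ^ d)) ≤
      av j ({y : E d | ‖y‖ ≤ R}.indicator fun y => μ (gamS y e)) a := by
  have hρ : 0 < ρ := he.trans_le heρ
  have hdp : (0 : ℝ) < d := by exact_mod_cast hd
  have hsz : 0 < 3 ^ d * sz d j := mul_pos (by positivity) (sz_pos j)
  have hB : MeasurableSet {y : E d | ‖y - a‖ ≤ 2 * ρ} :=
    (isClosed_le (continuous_id.sub continuous_const).norm continuous_const).measurableSet
  have hl : ∫⁻ y in {y : E d | ‖y - a‖ ≤ 2 * ρ}, μ (gamS y e) ≤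
      ∫⁻ y in big (cb j a), ({y : E d | ‖y‖ ≤ R}.indicator fun y => μ (gamS y e)) y := by
    calc _ = ∫⁻ y in {y : E d | ‖y - a‖ ≤ 2 * ρ},
          ({y : E d | ‖y‖ ≤ R}.indicator fun y => μ (gamS y e)) y := by
          apply setLIntegral_congr_fun hB
          intro y hy
          have hy' : ‖y - a‖ ≤ 2 * ρ := hy
          have : y ∈ {y : E d | ‖y‖ ≤ R} := by
            have h3 : ‖y‖ ≤ ‖a‖ + ‖y - a‖ := by
              calc ‖y‖ = ‖a + (y - a)‖ := by simp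
                _ ≤ _ := norm_add_le _ _
            show ‖y‖ ≤ R
            linarith
          simp only [indicator_of_mem this]
      _ ≤ _ := by
          apply lintegral_mono_set
          intro y hy
          have hy' : ‖y - a‖ ≤ 2 * ρ := hy
          apply mem_big_of_norm
          rw [norm_sub_rev]
          linarith
  have hl2 := (mul_le_mul_right hm _).trans ((gam_lower μ h0 he heρ a).trans hl)
  rw [av, ENNReal.le_div_iff_mul_le (Or.inl (by simpa using hsz)) (Or.inl ENNReal.ofReal_ne_top)]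
  refine le_trans ?_ hl2
  rw [← ENNReal.ofReal_mul (by positivity), ← ENNReal.ofReal_mul (by positivity)]
  apply ENNReal.ofReal_le_ofReal
  have h3 : sz d j ≤ (4 * ρ) ^ d := pow_le_pow_left₀ (by positivity) h2 d
  have h4 : ρ ^ d = ρ ^ (d - 1) * ρ := by
    rw [← pow_succ, Nat.sub_add_cancel hd]
  have h5 : (12 : ℝ) ^ d = 3 ^ d * 4 ^ d := by
    rw [← mul_pow]; norm_num
  calc s * e / (d ^ d * 12 ^ d) * (3 ^ d * sz d j)
      ≤ s * e / (d ^ d * 12 ^ d) * (3 ^ d * (4 * ρ) ^ d) := by gcongr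
    _ = e * ρ ^ (d - 1) / d ^ d * (s * ρ) := by
      rw [mul_pow, h4, h5]
      field_simp

theorem gam_bad (hd : 1 ≤ d) : ∃ C : ℝ, 0 < C ∧ ∀ k : E d → ℝ, IsKer k → ∀ l t e₀ : ℝ,
    0 < l → 0 < t → 0 < e₀ →
    volume {a : E d | ‖a‖ ≤ (8 + 4 * d) * l ∧ ∃ e, e₀ ≤ e ∧ t * e / l < Gam k a e} ≤
      ENNReal.ofReal (C * l ^ d / t) := by
  have hdp : (0 : ℝ) < d := by exact_mod_cast hd
  set C1 : ℝ := (2 * (8 + 4 * d)) ^ d * (8 * 4 ^ d) with hC1
  set C2 : ℝ := 3 ^ d * (2 * (2 * (10 + 4 * d)) ^ (d - 1) * 4 ^ d) * (16 * (d ^ d * 12 ^ d))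
    with hC2
  have hC1p : 0 < C1 := by positivity
  have hC2p : 0 < C2 := by positivity
  refine ⟨C1 + C2, by positivity, ?_⟩
  intro k hk l t e₀ hl ht he₀
  by_cases hts : t ≤ 8 * 4 ^ d
  · have h1 := volume_norm_le (0 : E d) (R := (8 + 4 * d) * l) (by positivity)
    refine le_trans (measure_mono ?_) (h1.trans (ENNReal.ofReal_le_ofReal ?_))
    · intro a ha
      simpa using ha.1
    · rw [le_div_iff₀ ht]
      calc (2 * ((8 + 4 * d) * l)) ^ d * t ≤ (2 * ((8 + 4 * d) * l)) ^ d * (8 * 4 ^ d) := by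
            gcongr
        _ = C1 * l ^ d := by
            rw [hC1, ← mul_assoc 2 _ l, mul_pow _ l]
            ring
        _ ≤ (C1 + C2) * l ^ d := by
            gcongr
            linarith
  · have hts' : 8 * 4 ^ d < t := not_le.1 hts
    have : IsFiniteMeasure (gamM k) := ⟨(gamM_univ hk).trans_lt ENNReal.ofReal_lt_top⟩
    obtain ⟨a0, ha0, -⟩ := exists_mem_Ico_zpow (x := 2 * e₀) (y := (2 : ℝ)) (by positivity)
      one_lt_two
    obtain ⟨b0, -, hb0⟩ := exists_mem_Ico_zpow (x := 4 * l) (y := (2 : ℝ)) (by positivity)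
      one_lt_two
    set R : ℝ := (10 + 4 * d) * l with hR
    set φ : E d → ℝ≥0∞ := {y : E d | ‖y‖ ≤ R}.indicator fun y => gamM k (gamS y e₀) with hφ
    set τ : ℝ := t / l / 8 * e₀ / (d ^ d * 12 ^ d) / 2 with hτ
    have hτp : 0 < τ := by positivity
    have hsub : {a : E d | ‖a‖ ≤ (8 + 4 * d) * l ∧ ∃ e, e₀ ≤ e ∧ t * e / l < Gam k a e} ⊆
        {a | ENNReal.ofReal τ < mx a0 (b0 + 1) φ a} := by
      rintro a ⟨ha, e, he, hG⟩
      have hep : 0 < e := he₀.trans_le he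
      have hG' : t / l * e < Gam k a e := by
        rw [div_mul_eq_mul_div]; exact hG
      obtain ⟨ρ, heρ, hρ⟩ := gam_pick hk a hep (by positivity) hG'
      have hρp : 0 < ρ := hep.trans_le heρ
      have hρl : ρ ≤ l := by
        have h1 := hρ.trans_le ((measure_mono (subset_univ _)).trans (gamM_univ hk))
        rw [ENNReal.ofReal_lt_ofReal_iff (by positivity)] at h1
        by_contra hc
        have hc' : l < ρ := not_le.1 hc
        have h2 : t / 8 ≤ t / l / 8 * ρ := by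
          calc t / 8 = t / l / 8 * l := by field_simp
            _ ≤ _ := by gcongr
        linarith
      obtain ⟨n, hn1, hn2⟩ := exists_mem_Ioc_zpow (x := 2 * ρ) (y := (2 : ℝ)) (by positivity)
        one_lt_two
      have hn3 : (2 : ℝ) ^ (n + 1) ≤ 4 * ρ := by
        rw [zpow_add_one₀ two_ne_zero]; linarith
      have hav := gam_av hd (gamM k) (gamM_zero hd k) he₀ (he.trans heρ)
        (s := t / l / 8) (R := R) (by positivity) a (by rw [hR]; nlinarith) hρ.le hn2 hn3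
      have hj1 : a0 ≤ n + 1 := by
        rw [← zpow_le_zpow_iff_right₀ (one_lt_two (α := ℝ))]
        linarith
      have hj2 : n + 1 ≤ b0 + 1 := by
        rw [← zpow_le_zpow_iff_right₀ (one_lt_two (α := ℝ))]
        linarith
      refine lt_of_lt_of_le ?_ (hav.trans (av_le_mx hj1 hj2 φ a))
      rw [ENNReal.ofReal_lt_ofReal_iff (by positivity), hτ]
      exact half_lt_self (by positivity)
    have hB : MeasurableSet {y : E d | ‖y‖ ≤ R} :=
      (isClosed_le continuous_norm continuous_const).measurableSet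
    have hint : ∫⁻ y, φ y ≤ ENNReal.ofReal (2 * e₀ * (2 * R) ^ (d - 1) * 4 ^ d) := by
      rw [hφ, lintegral_indicator hB, ENNReal.ofReal_mul (by positivity)]
      exact (gam_upper (gamM k) (gamM_zero hd k) he₀.le (by positivity)).trans
        (mul_le_mul_right (gamM_univ hk) _)
    have hw := (mx_weak a0 (b0 + 1) φ (ENNReal.ofReal τ)).trans (mul_le_mul_right hint _)
    refine (measure_mono hsub).trans ?_
    have h3 : (3 : ℝ≥0∞) ^ d = ENNReal.ofReal (3 ^ d) := by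
      rw [ENNReal.ofReal_pow (by norm_num)]; simp
    rw [h3, ← ENNReal.ofReal_mul (by positivity), mul_comm,
      ← ENNReal.le_div_iff_mul_le (Or.inl (by simpa using hτp)) (Or.inl ENNReal.ofReal_ne_top),
      ← ENNReal.ofReal_div_of_pos hτp] at hw
    refine hw.trans (ENNReal.ofReal_le_ofReal ?_)
    have h4 : l ^ d = l ^ (d - 1) * l := by
      rw [← pow_succ, Nat.sub_add_cancel hd]
    calc 3 ^ d * (2 * e₀ * (2 * R) ^ (d - 1) * 4 ^ d) / τ = C2 * l ^ d / t := by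
          rw [hτ, hC2, hR, h4, ← mul_assoc 2 _ l, mul_pow _ l]
          field_simp
          norm_num
      _ ≤ (C1 + C2) * l ^ d / t := by
          gcongr
          linarith

end Pool.Agent.MP_418f02_an
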