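import Pool.Agent.MP_418f02_an.Glue1

open MeasureTheory Set
open scoped ENNReal RealInnerProductSpace

namespace Pool.Agent.MP_418f02_an

variable {d : ℕ}

theorem glue_mx_meas (j b : ℤ) (F : E d → ℝ≥0∞) : Measurable (mx j b F) := by
  refine measurable_of_ix (k := j) fun x y e => ?_
  unfold mx
  refine iSup_congr fun i => iSup_congr fun hi => ?_
  have h := ix_mono (Finset.mem_Icc.1 hi).1 e
  unfold av cb
  rw [h]

theorem glue_av_le {F : E d → ℝ≥0∞} {c : ℝ≥0∞} (h : ∀ y, F y ≤ c) (j : ℤ) (x : E d) :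
    av j F x ≤ c := by
  unfold av
  refine ENNReal.div_le_of_le_mul ?_
  calc ∫⁻ y in big (cb j x), F y ≤ ∫⁻ _ in big (cb j x), c := lintegral_mono fun y => h y
    _ = c * ENNReal.ofReal (3 ^ d * sz d j) := by
      rw [setLIntegral_const, volume_big]; rfl

theorem glue_mx_ne_top {g : E d → ℝ} (hg : Nice g) {r : ℝ} (hr : 0 < r) (j b : ℤ) (x : E d) :
    mx j b (fun y => ENNReal.ofReal |g y| ^ r) x ≠ ∞ := by
  obtain ⟨K, hK⟩ := hg.bdd
  have h : mx j b (fun y => ENNReal.ofReal |g y| ^ r) x ≤ ENNReal.ofReal K ^ r := by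
    unfold mx
    refine iSup₂_le fun i _ => glue_av_le (fun y => ?_) i x
    exact ENNReal.rpow_le_rpow (ENNReal.ofReal_le_ofReal (hK y)) hr.le
  exact ne_top_of_le_ne_top (ENNReal.rpow_ne_top_of_nonneg hr.le ENNReal.ofReal_ne_top) h

theorem glue_mx_anti {a j b : ℤ} (h : a ≤ j) (F : E d → ℝ≥0∞) (x : E d) :
    mx j b F x ≤ mx a b F x := by
  unfold mx
  refine iSup₂_le fun i hi => ?_
  have hi' : i ∈ Finset.Icc a b :=
    Finset.mem_Icc.2 ⟨h.trans (Finset.mem_Icc.1 hi).1, (Finset.mem_Icc.1 hi).2⟩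
  exact le_iSup₂ (f := fun i (_ : i ∈ Finset.Icc a b) => av i F x) i hi'

theorem glue_av_le_mx {j b : ℤ} (h : j ≤ b) (F : E d → ℝ≥0∞) (x : E d) :
    av j F x ≤ mx j b F x :=
  le_iSup₂ (f := fun i (_ : i ∈ Finset.Icc j b) => av i F x) j (Finset.mem_Icc.2 ⟨le_rfl, h⟩)

theorem glue_cv_zero {k g : E d → ℝ} (hk : IsKer k) (hg : Nice g) {r : ℝ} (hr : 0 < r) {j : ℤ}
    {x : E d} (h : av j (fun y => ENNReal.ofReal |g y| ^ r) x = 0) : cv k j g x = 0 := by
  unfold av at h
  rw [ENNReal.div_eq_zero_iff] at h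
  rcases h with h | h
  swap
  · exact absurd h ENNReal.ofReal_ne_top
  have hm : Measurable fun y => ENNReal.ofReal |g y| ^ r :=
    (ENNReal.measurable_ofReal.comp (continuous_abs.measurable.comp hg.meas)).pow_const r
  rw [lintegral_eq_zero_iff hm] at h
  have h0 : ∫ y in big (cb j x), |g y| = 0 := by
    refine integral_eq_zero_of_ae ?_
    filter_upwards [h] with y hy
    simp only [Pi.zero_apply] at hy ⊢
    rw [ENNReal.rpow_eq_zero_iff_of_pos hr, ENNReal.ofReal_eq_zero] at hy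
    exact le_antisymm hy (abs_nonneg _)
  have := cv_le hk hg j x
  rw [h0, mul_zero] at this
  exact abs_nonpos_iff.1 this

theorem glue_le_iff {u : ℝ≥0∞} (hu : u ≠ ∞) {r s : ℝ} (hr : 0 < r) (hs : 0 ≤ s) :
    u ≤ ENNReal.ofReal s ^ r ↔ u.toReal ^ (1 / r) ≤ s := by
  rw [ENNReal.ofReal_rpow_of_nonneg hs hr.le, ENNReal.le_ofReal_iff_toReal_le hu (by positivity),
    one_div, Real.rpow_inv_le_iff_of_pos ENNReal.toReal_nonneg hs hr]

theorem glue_pow_eq {u : ℝ≥0∞} (hu : u ≠ ∞) {r q : ℝ} (hr : 0 < r) (hq : 0 ≤ q) :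
    u ^ (q / r) = ENNReal.ofReal ((u.toReal ^ (1 / r)) ^ q) := by
  rw [← Real.rpow_mul ENNReal.toReal_nonneg, ← ENNReal.ofReal_rpow_of_nonneg ENNReal.toReal_nonneg
    (by positivity), ENNReal.ofReal_toReal hu]
  congr 1
  ring

/-- the real inequality behind the pointwise bound -/
theorem glue_real {τ q A P : ℝ} (hτ : 0 < τ) (hq : 1 ≤ q) (hA : 0 ≤ A) (hP : 0 < P)
    (hPA : P ≤ 2 * A) (z : ℕ → ℝ) (L : ℕ) :
    |∑ i ∈ Finset.range L, z i| ^ q ≤ (11 * τ) ^ q * (A ^ q +
      ∑ i ∈ Finset.range L, (P / 2 ^ i * (|z i| / (P / 2 ^ i * τ)) ^ 2) ^ q) := by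
  have hq0 : 0 < q := by linarith
  set S := ∑ i ∈ Finset.range L, (P / 2 ^ i * (|z i| / (P / 2 ^ i * τ)) ^ 2) ^ q with hS
  have hS0 : 0 ≤ S := Finset.sum_nonneg fun i _ => by positivity
  set B := S ^ q⁻¹ with hB
  have hB0 : 0 ≤ B := by positivity
  have hBq : B ^ q = S := by rw [hB, Real.rpow_inv_rpow hS0 hq0.ne']
  have hterm : ∀ i ∈ Finset.range L, P / 2 ^ i * (|z i| / (P / 2 ^ i * τ)) ^ 2 ≤ B := by
    intro i hi
    rw [hB, Real.le_rpow_inv_iff_of_pos (by positivity) hS0 hq0]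
    exact Finset.single_le_sum (f := fun i => (P / 2 ^ i * (|z i| / (P / 2 ^ i * τ)) ^ 2) ^ q)
      (fun i _ => by positivity) hi
  have hz : ∀ i ∈ Finset.range L, |z i| ≤ τ * (P * (3 / 4) ^ i + B * (2 / 3) ^ i) := by
    intro i hi
    have h1 := hterm i hi
    set Y := |z i| / (P / 2 ^ i * τ) with hY
    have hY0 : 0 ≤ Y := by positivity
    have e : |z i| = τ * (P / 2 ^ i * Y) := by rw [hY]; field_simp
    have hu : (0 : ℝ) < (3 / 2) ^ i := by positivity
    have hinv : ((2 : ℝ) / 3) ^ i = ((3 / 2) ^ i)⁻¹ := by rw [← inv_pow]; norm_num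
    have hYle : Y ≤ (3 / 2) ^ i + (2 / 3) ^ i * Y ^ 2 := by
      rw [hinv]
      set u : ℝ := (3 / 2) ^ i
      rcases le_total Y u with h | h
      · have : 0 ≤ u⁻¹ * Y ^ 2 := by positivity
        linarith
      · have : Y ≤ u⁻¹ * Y ^ 2 := by
          rw [le_inv_mul_iff₀ hu]; nlinarith
        linarith
    have h34 : P / 2 ^ i * (3 / 2) ^ i = P * (3 / 4) ^ i := by
      rw [div_eq_mul_inv, ← inv_pow, mul_assoc, ← mul_pow]; norm_num
    rw [e]
    refine mul_le_mul_of_nonneg_left ?_ hτ.le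
    calc P / 2 ^ i * Y ≤ P / 2 ^ i * ((3 / 2) ^ i + (2 / 3) ^ i * Y ^ 2) := by gcongr
      _ = P * (3 / 4) ^ i + (P / 2 ^ i * Y ^ 2) * (2 / 3) ^ i := by rw [← h34]; ring
      _ ≤ _ := by gcongr
  have g1 : ∑ i ∈ Finset.range L, ((3 : ℝ) / 4) ^ i ≤ 4 := by
    have := Summable.sum_le_tsum (Finset.range L) (fun i _ => by positivity)
      (summable_geometric_of_lt_one (r := (3 : ℝ) / 4) (by norm_num) (by norm_num))
    rw [tsum_geometric_of_lt_one (by norm_num) (by norm_num)] at this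
    linarith [show (1 - (3 : ℝ) / 4)⁻¹ = 4 by norm_num]
  have g2 : ∑ i ∈ Finset.range L, ((2 : ℝ) / 3) ^ i ≤ 3 := by
    have := Summable.sum_le_tsum (Finset.range L) (fun i _ => by positivity)
      (summable_geometric_of_lt_one (r := (2 : ℝ) / 3) (by norm_num) (by norm_num))
    rw [tsum_geometric_of_lt_one (by norm_num) (by norm_num)] at this
    linarith [show (1 - (2 : ℝ) / 3)⁻¹ = 3 by norm_num]
  have hsum : |∑ i ∈ Finset.range L, z i| ≤ 11 * τ * max A B := by
    calc |∑ i ∈ Finset.range L, z i| ≤ ∑ i ∈ Finset.range L, |z i| := Finset.abs_sum_le_sum_abs _ _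
      _ ≤ ∑ i ∈ Finset.range L, τ * (P * (3 / 4) ^ i + B * (2 / 3) ^ i) := Finset.sum_le_sum hz
      _ = τ * (P * ∑ i ∈ Finset.range L, ((3 : ℝ) / 4) ^ i +
          B * ∑ i ∈ Finset.range L, ((2 : ℝ) / 3) ^ i) := by
        rw [← Finset.mul_sum, Finset.sum_add_distrib, ← Finset.mul_sum, ← Finset.mul_sum]
      _ ≤ τ * (P * 4 + B * 3) := by gcongr
      _ ≤ τ * (11 * max A B) := by
        refine mul_le_mul_of_nonneg_left ?_ hτ.le
        linarith [le_max_left A B, le_max_right A B]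
      _ = _ := by ring
  calc |∑ i ∈ Finset.range L, z i| ^ q ≤ (11 * τ * max A B) ^ q :=
        Real.rpow_le_rpow (abs_nonneg _) hsum hq0.le
    _ = (11 * τ) ^ q * (max A B) ^ q := Real.mul_rpow (by positivity) (by positivity)
    _ ≤ (11 * τ) ^ q * (A ^ q + S) := by
        refine mul_le_mul_of_nonneg_left ?_ (by positivity)
        rcases le_total A B with h | h
        · rw [max_eq_right h, hBq]; have : 0 ≤ A ^ q := by positivity
          linarith
        · rw [max_eq_left h]; linarith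

/-- the truncations along the level sets of the maximal function -/
noncomputable def glueT (k g : E d → ℝ) (a b : ℤ) (r : ℝ) (n : ℤ) : E d → ℝ :=
  TG k (fun j => {x | mx j b (fun y => ENNReal.ofReal |g y| ^ r) x ≤
    ENNReal.ofReal ((2 : ℝ) ^ n) ^ r}) a b g

theorem glueT_meas {k g : E d → ℝ} (hk : IsKer k) (hg : Nice g) (a b : ℤ) (r : ℝ) (n : ℤ) :
    Measurable (glueT k g a b r n) := by
  unfold glueT TG ps
  refine Finset.measurable_fun_sum _ fun j _ => ?_
  exact (cv_nice hk hg j).meas.indicator (measurableSet_le (glue_mx_meas j b _) measurable_const)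

theorem glueT_low {k g : E d → ℝ} (hk : IsKer k) (hg : Nice g) (a b : ℤ) {r : ℝ} (hr : 0 < r)
    (x : E d) : ∀ᶠ n in Filter.atBot, glueT k g a b r n x = 0 := by
  have h : ∀ᶠ n : ℤ in Filter.atBot, ∀ j ∈ Finset.Icc a b,
      ({x | mx j b (fun y => ENNReal.ofReal |g y| ^ r) x ≤
        ENNReal.ofReal ((2 : ℝ) ^ n) ^ r} : Set (E d)).indicator (cv k j g) x = 0 := by
    rw [Filter.eventually_all_finset]
    intro j hj
    by_cases h0 : av j (fun y => ENNReal.ofReal |g y| ^ r) x = 0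
    · refine Filter.Eventually.of_forall fun n => ?_
      rw [Set.indicator_apply_eq_zero]
      exact fun _ => glue_cv_zero hk hg hr h0
    · have hu := glue_mx_ne_top hg hr j b x
      have hpos : mx j b (fun y => ENNReal.ofReal |g y| ^ r) x ≠ 0 := fun e =>
        h0 (le_zero_iff.1 (e ▸ glue_av_le_mx (Finset.mem_Icc.1 hj).2 _ x))
      have hw : 0 < (mx j b (fun y => ENNReal.ofReal |g y| ^ r) x).toReal ^ (1 / r) :=
        Real.rpow_pos_of_pos (ENNReal.toReal_pos hpos hu) _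
      obtain ⟨m, hm, -⟩ := exists_mem_Ioc_zpow hw (one_lt_two (α := ℝ))
      filter_upwards [Filter.eventually_le_atBot m] with n hn
      refine Set.indicator_of_notMem ?_ _
      simp only [Set.mem_ofPred_eq]
      rw [glue_le_iff hu hr (by positivity), not_le]
      exact (zpow_le_zpow_right₀ one_le_two hn).trans_lt hm
  filter_upwards [h] with n hn
  exact Finset.sum_eq_zero hn

theorem glueT_high (k g : E d → ℝ) (a b : ℤ) (r : ℝ) {n : ℤ} {x : E d}
    (h : mx a b (fun y => ENNReal.ofReal |g y| ^ r) x ≤ ENNReal.ofReal ((2 : ℝ) ^ n) ^ r) :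
    glueT k g a b r n x = TT k a b g x := by
  unfold glueT TG TT ps
  refine Finset.sum_congr rfl fun j hj => ?_
  exact Set.indicator_of_mem (by exact (glue_mx_anti (Finset.mem_Icc.1 hj).1 _ x).trans h) _

theorem glue_point {k g : E d → ℝ} (hk : IsKer k) (hg : Nice g) (a b : ℤ) {r q τ : ℝ} (hr : 0 < r)
    (hq : 1 ≤ q) (hτ : 0 < τ) (x : E d) :
    ENNReal.ofReal |TT k a b g x| ^ q ≤ ENNReal.ofReal ((11 * τ) ^ q) *
      (mx a b (fun y => ENNReal.ofReal |g y| ^ r) x ^ (q / r) +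
        ∑' n : ℤ, ENNReal.ofReal (((2 : ℝ) ^ n / ((2 : ℝ) ^ n * τ) ^ 2) ^ q) *
          ENNReal.ofReal |glueT k g a b r n x - glueT k g a b r (n - 1) x| ^ (2 * q)) := by
  have hq0 : 0 < q := by linarith
  have hu := glue_mx_ne_top hg hr a b x
  obtain ⟨n₀, hn₀⟩ := Filter.eventually_atBot.1 (glueT_low hk hg a b hr x)
  by_cases h0 : mx a b (fun y => ENNReal.ofReal |g y| ^ r) x = 0
  · have : TT k a b g x = 0 := by
      rw [← glueT_high k g a b r (n := n₀) (by rw [h0]; exact bot_le)]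
      exact hn₀ n₀ le_rfl
    rw [this, abs_zero, ENNReal.ofReal_zero, ENNReal.zero_rpow_of_pos hq0]
    exact bot_le
  set A := (mx a b (fun y => ENNReal.ofReal |g y| ^ r) x).toReal ^ (1 / r) with hA
  have hw : 0 < A := Real.rpow_pos_of_pos (ENNReal.toReal_pos h0 hu) _
  obtain ⟨m, hm1, hm2⟩ := exists_mem_Ioc_zpow hw (one_lt_two (α := ℝ))
  have hT : glueT k g a b r (m + 1) x = TT k a b g x :=
    glueT_high k g a b r ((glue_le_iff hu hr (by positivity)).2 hm2)
  set L := (m + 1 - n₀).toNat with hL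
  have hlow : glueT k g a b r (m + 1 - (L : ℕ)) x = 0 := hn₀ _ (by omega)
  have tel := Finset.sum_range_sub' (fun i : ℕ => glueT k g a b r (m + 1 - i) x) L
  simp only [Nat.cast_zero, sub_zero, hlow, hT] at tel
  have hP : (0 : ℝ) < 2 ^ (m + 1) := by positivity
  have hPA : (2 : ℝ) ^ (m + 1) ≤ 2 * A := by
    rw [zpow_add_one₀ two_ne_zero]; linarith
  have key := glue_real hτ hq hw.le hP hPA (fun i : ℕ => glueT k g a b r (m + 1 - i) x -
    glueT k g a b r (m + 1 - ((i + 1 : ℕ) : ℤ)) x) L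
  rw [tel] at key
  rw [ENNReal.ofReal_rpow_of_nonneg (abs_nonneg _) hq0.le, glue_pow_eq hu hr hq0.le, ← hA]
  refine (ENNReal.ofReal_le_ofReal key).trans ?_
  rw [ENNReal.ofReal_mul (by positivity), ENNReal.ofReal_add (by positivity)
    (Finset.sum_nonneg fun i _ => by positivity)]
  gcongr
  rw [ENNReal.ofReal_sum_of_nonneg fun i _ => by positivity]
  have hinj : Function.Injective fun i : ℕ => m + 1 - (i : ℤ) := fun i j h => by
    simp only at h; omega
  refine le_trans ?_ (ENNReal.tsum_comp_le_tsum_of_injective hinj _)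
  refine le_trans (Finset.sum_le_sum fun i _ => le_of_eq ?_) (ENNReal.sum_le_tsum (Finset.range L))
  have e1 : (2 : ℝ) ^ (m + 1) / 2 ^ i = 2 ^ (m + 1 - (i : ℤ)) := by
    rw [zpow_sub₀ two_ne_zero, zpow_natCast]
  have e2 : m + 1 - ((i + 1 : ℕ) : ℤ) = m + 1 - (i : ℤ) - 1 := by push_cast; ring
  rw [e1, e2, ENNReal.ofReal_rpow_of_nonneg (abs_nonneg _) (by positivity),
    ← ENNReal.ofReal_mul (by positivity), Real.rpow_mul (abs_nonneg _), Real.rpow_two,
    ← Real.mul_rpow (by positivity) (by positivity)]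
  congr 2
  rw [div_pow]
  ring

theorem glue_tail {A q : ℝ} (hA : 0 ≤ A) (hq : 1 ≤ q) :
    ∑' n : ℤ, (if (2 : ℝ) ^ (n - 1) < A then ENNReal.ofReal (((2 : ℝ) ^ n) ^ q) else 0) ≤
      ENNReal.ofReal (2 * 2 ^ q * A ^ q) := by
  have hq0 : 0 < q := by linarith
  rcases hA.eq_or_lt with h | hw
  · subst h
    have : ∀ n : ℤ, ¬ (2 : ℝ) ^ (n - 1) < 0 := fun n => not_lt.2 (by positivity)
    simp [this]
  obtain ⟨m, hm1, hm2⟩ := exists_mem_Ioc_zpow hw (one_lt_two (α := ℝ))
  have hinj : Function.Injective fun i : ℕ => m + 1 - (i : ℤ) := fun i j h => by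
    simp only at h; omega
  rw [← hinj.tsum_eq]
  swap
  · intro n hn
    have hn' : (2 : ℝ) ^ (n - 1) < A := by
      by_contra h
      exact hn (if_neg h)
    have : n - 1 < m + 1 := (zpow_lt_zpow_iff_right₀ one_lt_two).1 (hn'.trans_le hm2)
    exact ⟨(m + 1 - n).toNat, by simp only; omega⟩
  have hPA : (2 : ℝ) ^ (m + 1) ≤ 2 * A := by
    rw [zpow_add_one₀ two_ne_zero]; linarith
  calc _ ≤ ∑' i : ℕ, ENNReal.ofReal ((2 * A) ^ q) * (2⁻¹ : ℝ≥0∞) ^ i := by
        refine ENNReal.tsum_le_tsum fun i => ?_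
        split_ifs
        swap
        · exact bot_le
        have e : (2⁻¹ : ℝ≥0∞) ^ i = ENNReal.ofReal ((2⁻¹ : ℝ) ^ i) := by
          rw [ENNReal.ofReal_pow (by norm_num), ENNReal.ofReal_inv_of_pos two_pos]
          simp
        rw [e, ← ENNReal.ofReal_mul (by positivity)]
        refine ENNReal.ofReal_le_ofReal ?_
        have e1 : (2 : ℝ) ^ (m + 1 - (i : ℤ)) = 2 ^ (m + 1) * (2⁻¹) ^ i := by
          rw [zpow_sub₀ two_ne_zero, zpow_natCast, inv_pow, div_eq_mul_inv]
        rw [e1, Real.mul_rpow (by positivity) (by positivity)]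
        refine mul_le_mul (Real.rpow_le_rpow (by positivity) hPA hq0.le) ?_ (by positivity)
          (by positivity)
        exact Real.rpow_le_self_of_le_one (by positivity)
          (pow_le_one₀ (by norm_num) (by norm_num)) hq
    _ = ENNReal.ofReal ((2 * A) ^ q) * 2 := by
        rw [ENNReal.tsum_mul_left, ENNReal.tsum_geometric, ENNReal.one_sub_inv_two, inv_inv]
    _ = _ := by
        rw [Real.mul_rpow (by norm_num) hA, mul_assoc 2, ENNReal.ofReal_mul (p := 2) (by norm_num),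
          mul_comm]
        simp

theorem glue (hd : 1 ≤ d) : ∃ C : ℝ, 0 < C ∧ ∀ k g : E d → ℝ, IsKer k → Nice g →
    ∀ (a b : ℤ) (N r q M : ℝ) (V : E d → ℝ≥0∞), 1 ≤ N → 1 + 1 / N ≤ r → 1 ≤ q → 1 ≤ M →
    Measurable V → Flat V a b (M ^ q) →
    ∫⁻ x, ENNReal.ofReal |TT k a b g x| ^ q * V x ≤
      ENNReal.ofReal ((C * M * (N + q * √N)) ^ q) *
        ∫⁻ x, mx a b (fun y => ENNReal.ofReal |g y| ^ r) x ^ (q / r) * V x := by
  obtain ⟨C, hC, H⟩ := glue_lev hd
  refine ⟨176 * C, by positivity, fun k g hk hg a b N r q M V hN hr hq hM hV hF => ?_⟩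
  have hN0 : 0 < N := by linarith
  have hq0 : 0 < q := by linarith
  have hM0 : 0 < M := by linarith
  have hr0 : 0 < r := by
    have : 0 < 1 / N := by positivity
    linarith
  set τ := C * (N + 2 * q * √N) with hτ
  have hτ0 : 0 < τ := by positivity
  set F : E d → ℝ≥0∞ := fun y => ENNReal.ofReal |g y| ^ r with hFdef
  set I := ∫⁻ x, mx a b F x ^ (q / r) * V x with hI
  have hmx := glue_mx_meas a b F
  have hZ : ∀ n : ℤ, Measurable fun x =>
      ENNReal.ofReal |glueT k g a b r n x - glueT k g a b r (n - 1) x| ^ (2 * q) := fun n =>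
    (ENNReal.measurable_ofReal.comp (continuous_abs.measurable.comp
      ((glueT_meas hk hg a b r n).sub (glueT_meas hk hg a b r (n - 1))))).pow_const _
  have hS : ∀ n : ℤ, MeasurableSet {x | ENNReal.ofReal ((2 : ℝ) ^ (n - 1)) ^ r < mx a b F x} :=
    fun n => measurableSet_lt measurable_const hmx
  have lev : ∀ n : ℤ, ∫⁻ x, ENNReal.ofReal (((2 : ℝ) ^ n / ((2 : ℝ) ^ n * τ) ^ 2) ^ q) *
      ENNReal.ofReal |glueT k g a b r n x - glueT k g a b r (n - 1) x| ^ (2 * q) * V x ≤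
      ENNReal.ofReal (M ^ q) * ∫⁻ x, (if (2 : ℝ) ^ (n - 1) < (mx a b F x).toReal ^ (1 / r) then
        ENNReal.ofReal (((2 : ℝ) ^ n) ^ q) else 0) * V x := by
    intro n
    have h := H k g hk hg a b (2 ^ n) N r (2 * q) (M ^ q) V (ENNReal.ofReal ((2 : ℝ) ^ (n - 1)) ^ r)
      (by positivity) hN hr (by linarith) (by positivity) hF
      (ENNReal.rpow_le_rpow (ENNReal.ofReal_le_ofReal
        (zpow_le_zpow_right₀ one_le_two (by omega))) hr0.le)
    have e : ∫⁻ x, (if (2 : ℝ) ^ (n - 1) < (mx a b F x).toReal ^ (1 / r) then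
        ENNReal.ofReal (((2 : ℝ) ^ n) ^ q) else 0) * V x = ENNReal.ofReal (((2 : ℝ) ^ n) ^ q) *
        ∫⁻ x in {x | ENNReal.ofReal ((2 : ℝ) ^ (n - 1)) ^ r < mx a b F x}, V x := by
      rw [← lintegral_const_mul _ hV, ← lintegral_indicator (hS n)]
      refine lintegral_congr fun x => ?_
      have hiff := glue_le_iff (glue_mx_ne_top hg hr0 a b x) hr0
        (s := (2 : ℝ) ^ (n - 1)) (by positivity)
      by_cases hx : (2 : ℝ) ^ (n - 1) < (mx a b F x).toReal ^ (1 / r)
      · rw [if_pos hx, Set.indicator_of_mem]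
        exact not_le.1 fun h' => absurd (hiff.1 h') (not_le.2 hx)
      · rw [if_neg hx, zero_mul, Set.indicator_of_notMem]
        exact fun h' => absurd (hiff.2 (not_lt.1 hx)) (not_le.2 h')
    simp_rw [mul_assoc (ENNReal.ofReal (((2 : ℝ) ^ n / ((2 : ℝ) ^ n * τ) ^ 2) ^ q))]
    rw [lintegral_const_mul' _ _ ENNReal.ofReal_ne_top, e]
    refine (mul_le_mul_right h _).trans (le_of_eq ?_)
    rw [← mul_assoc, ← mul_assoc (ENNReal.ofReal (M ^ q)), ← ENNReal.ofReal_mul (by positivity),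
      ← ENNReal.ofReal_mul (by positivity)]
    congr 2
    have e3 : C * 2 ^ n * (N + 2 * q * √N) = 2 ^ n * τ := by rw [hτ]; ring
    rw [e3, Real.rpow_mul (by positivity), Real.rpow_two, ← mul_assoc,
      ← Real.mul_rpow (by positivity) (by positivity), div_mul_cancel₀ _ (by positivity), mul_comm]
  have hif : ∀ n : ℤ, Measurable fun x => (if (2 : ℝ) ^ (n - 1) < (mx a b F x).toReal ^ (1 / r) then
      ENNReal.ofReal (((2 : ℝ) ^ n) ^ q) else 0) * V x := fun n =>
    (Measurable.ite (measurableSet_lt measurable_const (hmx.ennreal_toReal.pow_const _))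
      measurable_const measurable_const).mul hV
  have tail : ∑' n : ℤ, ∫⁻ x, (if (2 : ℝ) ^ (n - 1) < (mx a b F x).toReal ^ (1 / r) then
      ENNReal.ofReal (((2 : ℝ) ^ n) ^ q) else 0) * V x ≤ ENNReal.ofReal (2 * 2 ^ q) * I := by
    rw [← lintegral_tsum fun n => (hif n).aemeasurable, hI,
      ← lintegral_const_mul' _ _ ENNReal.ofReal_ne_top]
    refine lintegral_mono fun x => ?_
    simp only
    rw [ENNReal.tsum_mul_right, ← mul_assoc, glue_pow_eq (glue_mx_ne_top hg hr0 a b x) hr0 hq0.le,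
      ← ENNReal.ofReal_mul (by positivity)]
    exact mul_le_mul_left (glue_tail (by positivity) hq) _
  have hconst : (11 * τ) ^ q * (1 + M ^ q * (2 * 2 ^ q)) ≤ (176 * C * M * (N + q * √N)) ^ q := by
    have h1 : 1 ≤ (2 * M) ^ q := Real.one_le_rpow (by linarith) hq0.le
    have h2 : (2 * M) ^ q = 2 ^ q * M ^ q := Real.mul_rpow (by norm_num) hM0.le
    have h3 : (4 : ℝ) ≤ 4 ^ q := Real.self_le_rpow_of_one_le (by norm_num) hq
    have h4 : 1 + M ^ q * (2 * 2 ^ q) ≤ (4 * (2 * M)) ^ q := by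
      rw [Real.mul_rpow (by norm_num) (by positivity)]
      nlinarith
    calc (11 * τ) ^ q * (1 + M ^ q * (2 * 2 ^ q)) ≤ (11 * τ) ^ q * (4 * (2 * M)) ^ q := by gcongr
      _ = (11 * τ * (4 * (2 * M))) ^ q := (Real.mul_rpow (by positivity) (by positivity)).symm
      _ ≤ _ := by
        refine Real.rpow_le_rpow (by positivity) ?_ hq0.le
        have : 0 ≤ C * M * N := by positivity
        rw [hτ]
        nlinarith
  calc ∫⁻ x, ENNReal.ofReal |TT k a b g x| ^ q * V x
      ≤ ∫⁻ x, ENNReal.ofReal ((11 * τ) ^ q) * (mx a b F x ^ (q / r) * V x +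
          ∑' n : ℤ, ENNReal.ofReal (((2 : ℝ) ^ n / ((2 : ℝ) ^ n * τ) ^ 2) ^ q) *
          ENNReal.ofReal |glueT k g a b r n x - glueT k g a b r (n - 1) x| ^ (2 * q) * V x) := by
        refine lintegral_mono fun x => ?_
        simp only
        rw [ENNReal.tsum_mul_right, ← add_mul, ← mul_assoc]
        exact mul_le_mul_left (glue_point hk hg a b hr0 hq hτ0 x) _
    _ = ENNReal.ofReal ((11 * τ) ^ q) * (I +
          ∑' n : ℤ, ∫⁻ x, ENNReal.ofReal (((2 : ℝ) ^ n / ((2 : ℝ) ^ n * τ) ^ 2) ^ q) *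
          ENNReal.ofReal |glueT k g a b r n x - glueT k g a b r (n - 1) x| ^ (2 * q) * V x) := by
        rw [lintegral_const_mul' _ _ ENNReal.ofReal_ne_top,
          lintegral_add_left ((hmx.pow_const _).fun_mul hV),
          lintegral_tsum fun n => (((hZ n).const_mul _).fun_mul hV).aemeasurable]
    _ ≤ ENNReal.ofReal ((11 * τ) ^ q) * (I + ENNReal.ofReal (M ^ q) *
          (ENNReal.ofReal (2 * 2 ^ q) * I)) := by
        refine mul_le_mul_right (add_le_add_right ?_ _) _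
        refine (ENNReal.tsum_le_tsum lev).trans ?_
        rw [ENNReal.tsum_mul_left]
        exact mul_le_mul_right tail _
    _ = ENNReal.ofReal ((11 * τ) ^ q * (1 + M ^ q * (2 * 2 ^ q))) * I := by
        rw [ENNReal.ofReal_mul (p := (11 * τ) ^ q) (by positivity),
          ENNReal.ofReal_add zero_le_one (by positivity),
          ENNReal.ofReal_mul (p := M ^ q) (by positivity), ENNReal.ofReal_one]
        ring
    _ ≤ _ := mul_le_mul_left (ENNReal.ofReal_le_ofReal hconst) _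

end Pool.Agent.MP_418f02_an
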