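import Pool.Agent.MP_418f02_an.Lev
import Pool.Agent.MP_418f02_an.Weak

open MeasureTheory Set
open scoped ENNReal RealInnerProductSpace

namespace Pool.Agent.MP_418f02_an

variable {d : ℕ}

/-- the points where the maximal function drops below `t` just above level `κ` -/
def glue1S (b : ℤ) (F : E d → ℝ≥0∞) (t : ℝ≥0∞) (κ : ℤ) : Set (E d) :=
  {x | t < mx κ b F x ∧ mx (κ + 1) b F x ≤ t}

lemma glue1_lm (b : ℤ) (F : E d → ℝ≥0∞) (t : ℝ≥0∞) (κ : ℤ) : LM κ (glue1S b F t κ) := by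
  intro x y e hx
  refine ⟨?_, ?_⟩
  · rw [← mx_congr b F e]; exact hx.1
  · rw [← mx_congr b F (ix_mono (by omega : κ ≤ κ + 1) e)]; exact hx.2

lemma glue1_dj (a b : ℤ) (F : E d → ℝ≥0∞) (t : ℝ≥0∞) :
    (Finset.Icc a b : Set ℤ).PairwiseDisjoint (glue1S b F t) := by
  intro i _ j _ hij
  refine Set.disjoint_left.2 fun x hi hj => ?_
  rcases lt_or_gt_of_ne hij with h | h
  · exact absurd (hj.1.trans_le ((mx_anti (by omega : i + 1 ≤ j) b F x).trans hi.2)) (lt_irrefl _)
  · exact absurd (hi.1.trans_le ((mx_anti (by omega : j + 1 ≤ i) b F x).trans hj.2)) (lt_irrefl _)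

lemma glue1_union (a b : ℤ) (F : E d → ℝ≥0∞) (t : ℝ≥0∞) :
    {x | t < mx a b F x} = ⋃ κ ∈ Finset.Icc a b, glue1S b F t κ := by
  classical
  ext x
  simp only [mem_ofPred_eq, mem_iUnion, Finset.mem_Icc, exists_prop]
  constructor
  · intro hx
    have hab : a ≤ b := by
      by_contra hab
      exact absurd (mx_le_iff.2 fun j h1 h2 => absurd (h1.trans h2) hab) (not_le.2 hx)
    obtain ⟨κ, hκ, hmax⟩ := Finset.exists_max_image
      ((Finset.Icc a b).filter fun j => t < mx j b F x) id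
      ⟨a, by simp [hab, hx]⟩
    simp only [Finset.mem_filter, Finset.mem_Icc, id] at hκ hmax
    refine ⟨κ, hκ.1, hκ.2, ?_⟩
    by_contra hc
    rcases le_or_gt (κ + 1) b with h | h
    · have := hmax (κ + 1) ⟨⟨by omega, h⟩, not_le.1 hc⟩
      omega
    · exact hc (mx_le_iff.2 fun j h1 h2 => by omega)
  · rintro ⟨κ, hκ, hx⟩
    exact hx.1.trans_le (mx_anti hκ.1 b F x)

lemma glue1_off (k g : E d → ℝ) (a b : ℤ) (F : E d → ℝ≥0∞) {t u : ℝ≥0∞} (htu : t ≤ u) {x : E d}
    (hx : mx a b F x ≤ t) :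
    TG k (fun j => {x | mx j b F x ≤ u}) a b g x - TG k (fun j => {x | mx j b F x ≤ t}) a b g x
      = 0 := by
  unfold TG ps
  beta_reduce
  rw [← Finset.sum_sub_distrib]
  refine Finset.sum_eq_zero fun j hj => ?_
  have h1 : mx j b F x ≤ t := (mx_anti (Finset.mem_Icc.1 hj).1 b F x).trans hx
  rw [indicator_of_mem (show x ∈ {x | mx j b F x ≤ u} from h1.trans htu),
    indicator_of_mem (show x ∈ {x | mx j b F x ≤ t} from h1), sub_self]

lemma glue1_on (k g : E d → ℝ) {a b κ : ℤ} (hκ : κ ≤ b) (F : E d → ℝ≥0∞) {t u : ℝ≥0∞}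
    (htu : t ≤ u) {x : E d} (hx : x ∈ glue1S b F t κ) :
    TG k (fun j => {x | mx j b F x ≤ u}) a b g x - TG k (fun j => {x | mx j b F x ≤ t}) a b g x
      = TG k (fun j => {x | mx j b F x ≤ u}) a κ g x := by
  unfold TG ps
  beta_reduce
  rw [← Finset.sum_sub_distrib]
  symm
  refine Finset.sum_subset_zero_on_sdiff (Finset.Icc_subset_Icc_right hκ) ?_ ?_
  · intro j hj
    simp only [Finset.mem_sdiff, Finset.mem_Icc] at hj
    have h1 : mx j b F x ≤ t := (mx_anti (by omega : κ + 1 ≤ j) b F x).trans hx.2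
    rw [indicator_of_mem (show x ∈ {x | mx j b F x ≤ u} from h1.trans htu),
      indicator_of_mem (show x ∈ {x | mx j b F x ≤ t} from h1), sub_self]
  · intro j hj
    have h1 : t < mx j b F x := hx.1.trans_le (mx_anti (Finset.mem_Icc.1 hj).2 b F x)
    rw [indicator_of_notMem (show x ∉ {x | mx j b F x ≤ t} from not_le.2 h1), sub_zero]

theorem glue_lev (hd : 1 ≤ d) : ∃ C : ℝ, 0 < C ∧ ∀ k g : E d → ℝ, IsKer k → Nice g →
    ∀ (a b : ℤ) (μ N r m M : ℝ) (V : E d → ℝ≥0∞) (t : ℝ≥0∞), 0 < μ → 1 ≤ N → 1 + 1 / N ≤ r →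
    1 ≤ m → 0 ≤ M → Flat V a b M → t ≤ ENNReal.ofReal μ ^ r →
    ∫⁻ x, ENNReal.ofReal
      |TG k (fun j => {x | mx j b (fun y => ENNReal.ofReal |g y| ^ r) x ≤ ENNReal.ofReal μ ^ r})
          a b g x -
        TG k (fun j => {x | mx j b (fun y => ENNReal.ofReal |g y| ^ r) x ≤ t}) a b g x| ^ m * V x ≤
      ENNReal.ofReal ((C * μ * (N + m * √N)) ^ m * M) *
        ∫⁻ x in {x | t < mx a b (fun y => ENNReal.ofReal |g y| ^ r) x}, V x := by
  obtain ⟨C, hC, hS⟩ := single_r hd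
  refine ⟨C, hC, ?_⟩
  intro k g hk hg a b μ N r m M V t hμ hN hr hm hM hV ht
  set F : E d → ℝ≥0∞ := fun y => ENNReal.ofReal |g y| ^ r with hF
  set u : ℝ≥0∞ := ENNReal.ofReal μ ^ r with hu
  set B : ℝ := C * μ * (N + m * √N) with hB
  have hB0 : 0 ≤ B := by positivity
  set H : E d → ℝ≥0∞ := fun x => ENNReal.ofReal
    |TG k (fun j => {x | mx j b F x ≤ u}) a b g x -
      TG k (fun j => {x | mx j b F x ≤ t}) a b g x| ^ m * V x with hH
  have hU : MeasurableSet {x | t < mx a b F x} :=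
    measurableSet_lt measurable_const (mx_meas a b F)
  have h1 : ∫⁻ x, H x = ∫⁻ x in {x | t < mx a b F x}, H x := by
    rw [← lintegral_indicator hU]
    congr 1; funext x
    by_cases hx : x ∈ {x | t < mx a b F x}
    · rw [indicator_of_mem hx]
    · rw [indicator_of_notMem hx, hH]
      simp only [glue1_off k g a b F ht (not_lt.1 hx), abs_zero, ENNReal.ofReal_zero]
      rw [ENNReal.zero_rpow_of_pos (by linarith), zero_mul]
  rw [h1, glue1_union, lintegral_biUnion_finset (glue1_dj a b F t)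
    (fun κ _ => (glue1_lm b F t κ).meas), lintegral_biUnion_finset (glue1_dj a b F t)
    (fun κ _ => (glue1_lm b F t κ).meas), Finset.mul_sum]
  refine Finset.sum_le_sum fun κ hκ => ?_
  obtain ⟨hκa, hκb⟩ := Finset.mem_Icc.1 hκ
  rw [← lintegral_const_mul' _ _ ENNReal.ofReal_ne_top]
  refine (glue1_lm b F t κ).lintegral_le fun W hW hWS => ?_
  subst hW
  obtain ⟨β, hβ, hβV⟩ := hV W hκa hκb
  have hst := stop_mx b F u
  have hmom := hS k g hk hg _ hst W a μ N r hμ hN hr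
    (fun j _ hj x _ hx => (av_le_mx le_rfl (hj.trans hκb) F x).trans hx) m hm
  have hme : Measurable fun x => ENNReal.ofReal
      |TG k (fun j => {x | mx j b F x ≤ u}) a W.1 g x| ^ m :=
    ((TG_nice hk hg hst a W.1).meas.abs.ennreal_ofReal).pow_const m
  calc ∫⁻ x in cube W, H x
      ≤ ∫⁻ x in cube W, ENNReal.ofReal
          |TG k (fun j => {x | mx j b F x ≤ u}) a W.1 g x| ^ m * β := by
        refine setLIntegral_mono' (measurableSet_cube W) fun x hx => ?_
        rw [hH]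
        simp only [glue1_on k g hκb F ht (hWS hx)]
        exact mul_le_mul_right (hβ x hx) _
    _ ≤ ENNReal.ofReal (B ^ m * sz d W.1) * β := by
        rw [lintegral_mul_const _ hme]
        exact mul_le_mul_left hmom _
    _ = ENNReal.ofReal (B ^ m) * (β * ENNReal.ofReal (sz d W.1)) := by
        rw [ENNReal.ofReal_mul (by positivity)]; ring
    _ ≤ ENNReal.ofReal (B ^ m) * (ENNReal.ofReal M * ∫⁻ x in cube W, V x) :=
        mul_le_mul_right hβV _
    _ = ∫⁻ x in cube W, ENNReal.ofReal (B ^ m * M) * V x := by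
        rw [lintegral_const_mul' _ _ ENNReal.ofReal_ne_top, ENNReal.ofReal_mul (by positivity),
          mul_assoc]

end Pool.Agent.MP_418f02_an
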