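import Pool.Agent.MP_418f02_an.Ker

open MeasureTheory Set
open scoped ENNReal RealInnerProductSpace

namespace Pool.Agent.MP_418f02_an

variable {d : ℕ}

theorem mom_iff {Y : E d → ℝ} {Q : Cb d} {m B : ℝ} (hm : 0 < m) (hB : 0 ≤ B) :
    Mom Y Q m B ↔ (∫⁻ x in cube Q, ENNReal.ofReal |Y x| ^ m) ^ (1 / m) ≤
      ENNReal.ofReal (B * sz d Q.1 ^ (1 / m)) := by
  have hs := (sz_pos (d := d) Q.1).le
  have e : ENNReal.ofReal (B * sz d Q.1 ^ (1 / m)) =
      ENNReal.ofReal (B ^ m * sz d Q.1) ^ (1 / m) := by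
    rw [ENNReal.ofReal_rpow_of_nonneg (by positivity) (by positivity),
      Real.mul_rpow (by positivity) hs, ← Real.rpow_mul hB, mul_one_div_cancel hm.ne',
      Real.rpow_one]
  rw [e, ENNReal.rpow_le_rpow_iff (by positivity)]
  rfl

theorem Mom.mono {Y Z : E d → ℝ} {Q : Cb d} {m B B' : ℝ} (h : Mom Y Q m B) (hm : 0 ≤ m)
    (hB : 0 ≤ B) (hB' : B ≤ B') (hZ : ∀ x ∈ cube Q, |Z x| ≤ |Y x|) : Mom Z Q m B' := by
  have hs := (sz_pos (d := d) Q.1).le
  refine (setLIntegral_mono' (measurableSet_cube Q) fun x hx =>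
    ENNReal.rpow_le_rpow (ENNReal.ofReal_le_ofReal (hZ x hx)) hm).trans (le_trans h ?_)
  exact ENNReal.ofReal_le_ofReal (mul_le_mul_of_nonneg_right (Real.rpow_le_rpow hB hB' hm) hs)

theorem Mom.const_mul {Y : E d → ℝ} {Q : Cb d} {m B : ℝ} (h : Mom Y Q m B) (hm : 0 ≤ m)
    (hB : 0 ≤ B) {c : ℝ} (hc : 0 ≤ c) : Mom (fun x => c * Y x) Q m (c * B) := by
  have e : ∀ x, ENNReal.ofReal |c * Y x| ^ m =
      ENNReal.ofReal (c ^ m) * ENNReal.ofReal |Y x| ^ m := fun x => by
    rw [abs_mul, abs_of_nonneg hc, ENNReal.ofReal_mul hc, ENNReal.mul_rpow_of_nonneg _ _ hm,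
      ENNReal.ofReal_rpow_of_nonneg hc hm]
  unfold Mom
  simp only [e]
  rw [lintegral_const_mul' _ _ ENNReal.ofReal_ne_top, Real.mul_rpow hc hB, mul_assoc,
    ENNReal.ofReal_mul (by positivity)]
  exact mul_le_mul_right h _

theorem Mom.add {Y Z : E d → ℝ} {Q : Cb d} {m B B' : ℝ} (h : Mom Y Q m B) (h' : Mom Z Q m B')
    (hY : Measurable Y) (hZ : Measurable Z) (hm : 1 ≤ m) (hB : 0 ≤ B) (hB' : 0 ≤ B') :
    Mom (fun x => Y x + Z x) Q m (B + B') := by
  have hm0 : 0 < m := by linarith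
  have hs := (sz_pos (d := d) Q.1).le
  rw [mom_iff hm0 hB] at h
  rw [mom_iff hm0 hB'] at h'
  rw [mom_iff hm0 (add_nonneg hB hB'), add_mul, ENNReal.ofReal_add (by positivity) (by positivity)]
  have k := ENNReal.lintegral_Lp_add_le (μ := volume.restrict (cube Q))
    (f := fun x => ENNReal.ofReal |Y x|) (g := fun x => ENNReal.ofReal |Z x|)
    hY.abs.ennreal_ofReal.aemeasurable hZ.abs.ennreal_ofReal.aemeasurable hm
  refine le_trans ?_ (k.trans (add_le_add h h'))
  refine ENNReal.rpow_le_rpow (lintegral_mono fun x => ENNReal.rpow_le_rpow ?_ hm0.le)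
    (by positivity)
  simp only [Pi.add_apply]
  rw [← ENNReal.ofReal_add (abs_nonneg _) (abs_nonneg _)]
  exact ENNReal.ofReal_le_ofReal (abs_add_le _ _)

theorem mom_zero {Y : E d → ℝ} {Q : Cb d} {m B : ℝ} (hm : 0 < m) (hY : ∀ x ∈ cube Q, Y x = 0) :
    Mom Y Q m B := by
  refine (setLIntegral_mono' (g := fun _ => 0) (measurableSet_cube Q) fun x hx => ?_).trans ?_
  · rw [hY x hx, abs_zero, ENNReal.ofReal_zero, ENNReal.zero_rpow_of_pos hm]
  · simp

theorem mom_sum {ι : Type} {s : Finset ι} {Y : ι → E d → ℝ} {B : ι → ℝ} {Q : Cb d} {m : ℝ}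
    (h : ∀ i ∈ s, Mom (Y i) Q m (B i)) (hY : ∀ i ∈ s, Measurable (Y i)) (hm : 1 ≤ m)
    (hB : ∀ i ∈ s, 0 ≤ B i) : Mom (fun x => ∑ i ∈ s, Y i x) Q m (∑ i ∈ s, B i) := by
  classical
  induction s using Finset.induction_on with
  | empty => exact mom_zero (by linarith) fun x _ => Finset.sum_empty
  | insert a s ha ih =>
    simp only [Finset.sum_insert ha]
    have mem : ∀ i ∈ s, i ∈ insert a s := fun i hi => Finset.mem_insert_of_mem hi
    exact (h a (Finset.mem_insert_self a s)).add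
      (ih (fun i hi => h i (mem i hi)) (fun i hi => hY i (mem i hi)) fun i hi => hB i (mem i hi))
      (hY a (Finset.mem_insert_self a s)) (Finset.measurable_sum _ fun i hi => hY i (mem i hi)) hm
      (hB a (Finset.mem_insert_self a s)) (Finset.sum_nonneg fun i hi => hB i (mem i hi))

theorem Mom.holder {Y : E d → ℝ} {Q : Cb d} {m B v : ℝ} (h : Mom Y Q m B) (hY : Nice Y)
    (hm : 1 ≤ m) (hB : 0 ≤ B) {F : Set (E d)} (hF : MeasurableSet F) (hFQ : F ⊆ cube Q)
    (hv : 0 < v) (hvF : volume F = ENNReal.ofReal v) :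
    ∫ x in F, |Y x| ≤ B * v * (sz d Q.1 / v) ^ (1 / m) := by
  have _ := hF
  have hm0 : 0 < m := by linarith
  have hs := (sz_pos (d := d) Q.1).le
  rw [mom_iff hm0 hB] at h
  have k := eLpNorm'_le_eLpNorm'_mul_rpow_measure_univ (μ := volume.restrict F) (f := Y)
    one_pos hm hY.meas.aestronglyMeasurable
  simp only [eLpNorm'_eq_lintegral_enorm, Real.enorm_eq_ofReal_abs, ENNReal.rpow_one, div_one,
    Measure.restrict_apply_univ, hvF] at k
  have h1 : 0 ≤ 1 - 1 / m := by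
    rw [sub_nonneg, div_le_one hm0]; exact hm
  have k2 : (∫⁻ x in F, ENNReal.ofReal |Y x| ^ m) ^ (1 / m) ≤
      ENNReal.ofReal (B * sz d Q.1 ^ (1 / m)) :=
    (ENNReal.rpow_le_rpow (lintegral_mono_set hFQ) (by positivity)).trans h
  have k3 := k.trans (mul_le_mul_left k2 _)
  rw [ENNReal.ofReal_rpow_of_nonneg hv.le h1, ← ENNReal.ofReal_mul (by positivity)] at k3
  rw [integral_eq_lintegral_of_nonneg_ae (Filter.Eventually.of_forall fun x => abs_nonneg _)
    hY.meas.abs.aestronglyMeasurable]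
  refine (ENNReal.toReal_le_of_le_ofReal (by positivity) k3).trans (le_of_eq ?_)
  rw [Real.div_rpow hs hv.le, Real.rpow_sub hv, Real.rpow_one]
  ring

theorem mom_term {B l m : ℝ} (hB : 0 ≤ B) (hl : 1 ≤ l) (hm : 1 ≤ m) (n : ℕ) :
    ((n + 1) * B) ^ m * Real.exp (-l) ^ n ≤ (4 * B * (1 + m / l)) ^ m * (2 / 3) ^ n := by
  have hm0 : 0 < m := by linarith
  have hl0 : 0 < l := by linarith
  have hn : (0 : ℝ) ≤ n := Nat.cast_nonneg n
  have h1 : (n + 1 : ℝ) ≤ 4 * (1 + m / l) * Real.exp (l * n / (2 * m)) := by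
    have a := Real.add_one_le_exp (l * n / (2 * m))
    have b : m / l * (l * n / (2 * m)) = n / 2 := by field_simp
    have c : 0 ≤ m / l := by positivity
    have e : 0 ≤ l * n / (2 * m) := by positivity
    have f := mul_le_mul_of_nonneg_left a (show 0 ≤ 4 * (1 + m / l) by positivity)
    nlinarith
  have h2 : ((n + 1) * B) ^ m ≤ (4 * B * (1 + m / l)) ^ m * Real.exp (l * n / 2) := by
    have a : (n + 1) * B ≤ 4 * B * (1 + m / l) * Real.exp (l * n / (2 * m)) := by
      nlinarith [mul_le_mul_of_nonneg_right h1 hB]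
    refine (Real.rpow_le_rpow (by positivity) a hm0.le).trans (le_of_eq ?_)
    rw [Real.mul_rpow (by positivity) (by positivity), ← Real.exp_mul]
    congr 2
    field_simp
  have h3 : Real.exp (l * n / 2) * Real.exp (-l) ^ n ≤ (2 / 3) ^ n := by
    have a : Real.exp (l * n / 2) * Real.exp (-l) ^ n = Real.exp (-(l / 2)) ^ n := by
      rw [← Real.exp_nat_mul, ← Real.exp_nat_mul, ← Real.exp_add]
      congr 1
      ring
    rw [a]
    refine pow_le_pow_left₀ (Real.exp_pos _).le ?_ n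
    rw [Real.exp_neg, inv_le_comm₀ (Real.exp_pos _) (by norm_num)]
    linarith [Real.add_one_le_exp (l / 2)]
  calc ((n + 1) * B) ^ m * Real.exp (-l) ^ n
      ≤ (4 * B * (1 + m / l)) ^ m * Real.exp (l * n / 2) * Real.exp (-l) ^ n := by gcongr
    _ = (4 * B * (1 + m / l)) ^ m * (Real.exp (l * n / 2) * Real.exp (-l) ^ n) := by ring
    _ ≤ _ := by gcongr

theorem mom_of_tail {Y : E d → ℝ} {Q : Cb d} {B l m : ℝ} (hB : 0 ≤ B) (hl : 1 ≤ l) (hm : 1 ≤ m)
    (h : ∀ n : ℕ, volume {x ∈ cube Q | n * B < |Y x|} ≤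
      ENNReal.ofReal (Real.exp (-l) ^ n * sz d Q.1)) : Mom Y Q m (12 * B * (1 + m / l)) := by
  have hm0 : 0 < m := by linarith
  have hl0 : 0 < l := by linarith
  have hs := (sz_pos (d := d) Q.1).le
  obtain ⟨S, hS⟩ : ∃ S : ℕ → Set (E d), ∀ n, S n = toMeasurable volume
    {x ∈ cube Q | n * B < |Y x|} := ⟨_, fun _ => rfl⟩
  have mS : ∀ n, MeasurableSet (S n) := fun n => hS n ▸ measurableSet_toMeasurable _ _
  have vS : ∀ n, volume (S n) ≤ ENNReal.ofReal (Real.exp (-l) ^ n * sz d Q.1) := fun n => by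
    rw [hS, measure_toMeasurable]; exact h n
  have null : volume {x | x ∈ cube Q ∧ ∀ n : ℕ, n * B < |Y x|} = 0 := by
    have t : Filter.Tendsto (fun n : ℕ => ENNReal.ofReal (Real.exp (-l) ^ n * sz d Q.1))
        Filter.atTop (nhds (ENNReal.ofReal (0 * sz d Q.1))) :=
      ENNReal.tendsto_ofReal ((tendsto_pow_atTop_nhds_zero_of_lt_one (Real.exp_pos _).le
        (Real.exp_lt_one_iff.2 (by linarith))).mul_const _)
    rw [zero_mul, ENNReal.ofReal_zero] at t
    refine le_zero_iff.1 (ge_of_tendsto' t fun n => le_trans (measure_mono ?_) (h n))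
    exact fun x hx => ⟨hx.1, hx.2 n⟩
  have pt : ∀ᵐ x ∂(volume.restrict (cube Q)), ENNReal.ofReal |Y x| ^ m ≤
      ∑' n : ℕ, (S n).indicator (fun _ => ENNReal.ofReal (((n + 1) * B) ^ m)) x := by
    rw [ae_restrict_iff' (measurableSet_cube Q)]
    filter_upwards [measure_eq_zero_iff_ae_notMem.1 null] with x hx hQ
    have ex : ∃ n : ℕ, |Y x| ≤ n * B := by
      by_contra hc
      push Not at hc
      exact hx ⟨hQ, hc⟩
    classical
    have k1 := Nat.find_spec ex
    rcases e : Nat.find ex with _ | n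
    · rw [e, Nat.cast_zero, zero_mul] at k1
      rw [ENNReal.ofReal_of_nonpos k1, ENNReal.zero_rpow_of_pos hm0]
      exact zero_le
    · have k2 := Nat.find_min ex (m := n) (by omega)
      rw [e] at k1
      push_cast at k1
      refine le_trans ?_ (ENNReal.le_tsum n)
      have mem : x ∈ S n := by
        rw [hS]
        exact subset_toMeasurable _ _ ⟨hQ, not_le.1 k2⟩
      rw [indicator_of_mem mem, ENNReal.ofReal_rpow_of_nonneg (abs_nonneg _) hm0.le]
      exact ENNReal.ofReal_le_ofReal (Real.rpow_le_rpow (abs_nonneg _) k1 hm0.le)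
  refine (lintegral_mono_ae pt).trans ((lintegral_mono' Measure.restrict_le_self le_rfl).trans ?_)
  rw [lintegral_tsum fun n => (measurable_const.indicator (mS n)).aemeasurable]
  obtain ⟨K, hK⟩ : ∃ K, K = (4 * B * (1 + m / l)) ^ m * sz d Q.1 := ⟨_, rfl⟩
  have K0 : 0 ≤ K := by rw [hK]; positivity
  have tm : ∀ n : ℕ, ∫⁻ x, (S n).indicator (fun _ => ENNReal.ofReal (((n + 1) * B) ^ m)) x ≤
      ENNReal.ofReal (K * (2 / 3) ^ n) := fun n => by
    rw [lintegral_indicator_const (mS n)]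
    refine (mul_le_mul_right (vS n) _).trans ?_
    rw [← ENNReal.ofReal_mul (by positivity)]
    refine ENNReal.ofReal_le_ofReal ?_
    have := mul_le_mul_of_nonneg_right (mom_term hB hl hm n) hs
    rw [hK]
    linarith
  refine (ENNReal.tsum_le_tsum tm).trans ?_
  have g := hasSum_geometric_of_lt_one (r := 2 / 3) (by norm_num) (by norm_num)
  rw [← ENNReal.ofReal_tsum_of_nonneg (fun n => by positivity) (g.mul_left K).summable,
    (g.mul_left K).tsum_eq]
  refine ENNReal.ofReal_le_ofReal ?_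
  have a : (3 : ℝ) ≤ 3 ^ m := by
    simpa using Real.rpow_le_rpow_of_exponent_le (by norm_num : (1 : ℝ) ≤ 3) hm
  rw [show 12 * B * (1 + m / l) = 3 * (4 * B * (1 + m / l)) by ring,
    Real.mul_rpow (by norm_num) (by positivity), mul_assoc, ← hK]
  norm_num
  nlinarith

end Pool.Agent.MP_418f02_an
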