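import Pool.Agent.MP_418f02_an.Cube2
import Pool.Agent.MP_418f02_an.Mom

open MeasureTheory Set
open scoped ENNReal RealInnerProductSpace

namespace Pool.Agent.MP_418f02_an

variable {d : ℕ}

theorem jn_ps_zero (φ : ℤ → E d → ℝ) {a b : ℤ} (h : b < a) (x : E d) : ps φ a b x = 0 := by
  rw [ps, Finset.Icc_eq_empty (not_le.2 h), Finset.sum_empty]

theorem jn_ps_succ (φ : ℤ → E d → ℝ) {a b : ℤ} (h : a ≤ b) (x : E d) :
    ps φ a b x = φ a x + ps φ (a + 1) b x := by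
  have : Finset.Icc a b = insert a (Finset.Icc (a + 1) b) := by
    ext j; simp only [Finset.mem_insert, Finset.mem_Icc]; omega
  rw [ps, this, Finset.sum_insert (by simp), ps]

theorem jn_ps_split (φ : ℤ → E d → ℝ) {a r c : ℤ} {L : ℕ} (h1 : a ≤ r + L) (h2 : r + L ≤ c)
    (x : E d) {C₀ : ℝ} (hC : 0 ≤ C₀) (hφ : ∀ j, a ≤ j → j ≤ c → |φ j x| ≤ C₀) :
    |ps φ a c x| ≤ |ps φ a r x| + C₀ * L + |ps φ (r + L + 1) c x| := by
  have e : Finset.Icc a c = (Finset.Icc a r ∪ Finset.Icc (max a (r + 1)) (r + L)) ∪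
      Finset.Icc (r + L + 1) c := by
    ext j; simp only [Finset.mem_union, Finset.mem_Icc]; omega
  have e2 : ps φ a c x = ps φ a r x + ∑ j ∈ Finset.Icc (max a (r + 1)) (r + L), φ j x +
      ps φ (r + L + 1) c x := by
    rw [ps, e, Finset.sum_union, Finset.sum_union, ps, ps] <;>
      (rw [Finset.disjoint_left]; intro j; simp only [Finset.mem_union, Finset.mem_Icc]; omega)
  have e3 : |∑ j ∈ Finset.Icc (max a (r + 1)) (r + L), φ j x| ≤ C₀ * L := by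
    refine (Finset.abs_sum_le_sum_abs _ _).trans
      ((Finset.sum_le_card_nsmul _ _ C₀ fun j hj => ?_).trans ?_)
    · rw [Finset.mem_Icc] at hj
      exact hφ j (by omega) (by omega)
    · rw [nsmul_eq_mul, mul_comm]
      refine mul_le_mul_of_nonneg_left (Nat.cast_le.2 ?_) hC
      rw [Int.card_Icc]; omega
  rw [e2]
  exact (abs_add_three _ _ _).trans (by linarith)

theorem jn_step {φ : ℤ → E d → ℝ} {j₀ : ℤ} {L : ℕ} {A C₀ : ℝ} {c₀ : Cb d}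
    (hA : 0 ≤ A) (hC : 0 ≤ C₀) (hφ : ∀ j, j₀ ≤ j → j ≤ c₀.1 → ∀ x ∈ cube c₀, |φ j x| ≤ C₀) :
    ∃ F N, Bad φ j₀ L A c₀ F ∧ volume N = 0 ∧ ∀ x ∈ cube c₀, x ∉ N → ∀ a, j₀ ≤ a →
      A < |ps φ a c₀.1 x| → ∃ R ∈ F, x ∈ cube R ∧
        |ps φ a c₀.1 x| ≤ |ps φ a R.1 x| + (A + C₀ * L) := by
  let U : Cb d → Set (E d) := fun R => {y ∈ cube R | A < |ps φ (R.1 + L) c₀.1 y|}
  let S : Set (Cb d) :=
    {R | cube R ⊆ cube c₀ ∧ j₀ ≤ R.1 + L ∧ R.1 + L ≤ c₀.1 ∧ 0 < volume (U R)}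
  have hSf : S.Finite := (finite_sub (j₀ - L) c₀).subset fun R hR =>
    ⟨by have := hR.2.1; omega, by have := hR.2.2.1; omega, hR.1.trans (cube_subset_big _)⟩
  obtain ⟨T, hTS, hTd, hcov, hmax⟩ := exists_maximal S c₀.1 fun R hR => by
    have := hR.2.2.1; omega
  have hTf := hSf.subset hTS
  have hpar : ∀ R ∈ T, ∀ x ∈ cube R, cb (R.1 + 1) x ∉ S := fun R hR x hx hm => by
    have := congrArg Prod.fst (hmax R hR _ hm (by simp [cb])
      ((lm_cube _).cube_subset (by simp [cb]) hx (mem_cube_cb _ _)))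
    simp [cb] at this
  have hle : ∀ a x, A < |ps φ a c₀.1 x| → a ≤ c₀.1 := fun a x h => by
    by_contra hc
    rw [jn_ps_zero φ (not_le.1 hc), abs_zero] at h
    exact absurd h (not_lt.2 hA)
  refine ⟨hTf.toFinset, ⋃ R : {R // volume (U R) = 0}, U R, ⟨?_, ?_, ?_, ?_, ?_, ?_⟩,
    measure_iUnion_null fun R => R.2, ?_⟩
  · simpa [Dj] using hTd
  · exact fun R hR => (hTS (hTf.mem_toFinset.1 hR)).2.1
  · exact fun R hR => (hTS (hTf.mem_toFinset.1 hR)).2.2.1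
  · exact fun R hR => (hTS (hTf.mem_toFinset.1 hR)).1
  · intro R hR
    rw [hTf.mem_toFinset] at hR
    obtain ⟨h1, h2, h3, h4⟩ := hTS hR
    by_contra hc
    push Not at hc
    have e : ∀ y ∈ U R, A < |ps φ (R.1 + 1 + L) c₀.1 y| := fun y hy => by
      have := hy.2
      rwa [jn_ps_succ φ h3, hc y hy.1, zero_add, add_right_comm] at this
    obtain ⟨x, hx⟩ := nonempty_of_measure_ne_zero h4.ne'
    have h5 := hle _ _ (e x hx)
    refine hpar R hR x hx.1 ⟨(lm_cube _).cube_subset (by simp only [cb]; omega) (mem_cube_cb _ _)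
      (h1 hx.1), by simp only [cb]; omega, h5, h4.trans_le (measure_mono fun y hy => ⟨?_, e y hy⟩)⟩
    exact (lm_cube _).cube_subset (by simp [cb]) hx.1 (mem_cube_cb _ _) hy.1
  · exact fun R hR => (hTS (hTf.mem_toFinset.1 hR)).2.2.2
  intro x hx hN
  have key : ∀ k : ℤ, j₀ ≤ k + L → A < |ps φ (k + L) c₀.1 x| → cb k x ∈ S := fun k hk h => by
    have h5 := hle _ _ h
    refine ⟨(lm_cube _).cube_subset (by simp only [cb]; omega) (mem_cube_cb _ _) hx, hk, h5,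
      pos_iff_ne_zero.2 fun h0 => hN (mem_iUnion.2 ⟨⟨_, h0⟩, mem_cube_cb _ _, h⟩)⟩
  intro a ha h
  obtain ⟨R, hR, h1, h2⟩ := hcov _ (key (a - L) (by omega) (by rwa [sub_add_cancel]))
  have hxR := h2 (mem_cube_cb _ _)
  obtain ⟨-, h3, h4, -⟩ := hTS hR
  refine ⟨R, hTf.mem_toFinset.2 hR, hxR, ?_⟩
  have h5 : |ps φ (R.1 + L + 1) c₀.1 x| ≤ A := not_lt.1 fun h5 =>
    hpar R hR x hxR (key _ (by omega) (by rwa [add_right_comm]))
  have := jn_ps_split φ (a := a) (by simp only [cb] at h1; omega) h4 x hC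
    fun j h6 h7 => hφ j (ha.trans h6) h7 x hx
  linarith

theorem jn_tail {φ : ℤ → E d → ℝ} {j₀ : ℤ} {L : ℕ} {A δ C₀ : ℝ} {Q : Cb d} (hL : 1 ≤ L)
    (hA : 0 ≤ A) (hδ : 0 ≤ δ) (hC : 0 ≤ C₀)
    (hφ : ∀ j, j₀ ≤ j → j ≤ Q.1 → ∀ x ∈ cube Q, |φ j x| ≤ C₀) (h : OneStep φ j₀ L A δ Q)
    (n : ℕ) : volume {x ∈ cube Q | ∃ a, j₀ ≤ a ∧ n * (A + C₀ * L) < |ps φ a Q.1 x|} ≤
      ENNReal.ofReal (δ ^ n * sz d Q.1) := by
  have hB : 0 ≤ C₀ * L := by positivity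
  suffices H : ∀ c₀ : Cb d, c₀.1 ≤ Q.1 → cube c₀ ⊆ cube Q →
      volume {x ∈ cube c₀ | ∃ a, j₀ ≤ a ∧ n * (A + C₀ * L) < |ps φ a c₀.1 x|} ≤
        ENNReal.ofReal (δ ^ n * sz d c₀.1) from H Q le_rfl subset_rfl
  induction n with
  | zero =>
    intro c₀ _ _
    rw [pow_zero, one_mul, ← volume_cube]
    exact measure_mono fun x hx => hx.1
  | succ n ih =>
    intro c₀ h1 h2
    obtain ⟨F, N, hF, hN, hx⟩ := jn_step (φ := φ) (j₀ := j₀) (L := L) (c₀ := c₀) hA hC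
      fun j h3 h4 x hx => hφ j h3 (h4.trans h1) x (h2 hx)
    have hsub : {x ∈ cube c₀ | ∃ a, j₀ ≤ a ∧ (n + 1 : ℕ) * (A + C₀ * L) < |ps φ a c₀.1 x|} ⊆
        N ∪ ⋃ R ∈ F, {x ∈ cube R | ∃ a, j₀ ≤ a ∧ n * (A + C₀ * L) < |ps φ a R.1 x|} := by
      rintro x ⟨hx0, a, ha, hlt⟩
      by_cases hxN : x ∈ N
      · exact Or.inl hxN
      rw [Nat.cast_succ, add_one_mul] at hlt
      have : 0 ≤ n * (A + C₀ * L) := by positivity
      obtain ⟨R, hR, h3, h4⟩ := hx x hx0 hxN a ha (by linarith)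
      exact Or.inr (mem_iUnion₂.2 ⟨R, hR, h3, a, ha, by linarith⟩)
    refine (measure_mono hsub).trans ((measure_union_le _ _).trans ?_)
    rw [hN, zero_add]
    refine (measure_biUnion_finset_le _ _).trans ((Finset.sum_le_sum fun R hR =>
      ih R (by have := hF.up R hR; omega) ((hF.sub R hR).trans h2)).trans ?_)
    rw [← ENNReal.ofReal_sum_of_nonneg fun R _ => mul_nonneg (pow_nonneg hδ n) (sz_pos _).le,
      ← Finset.mul_sum, pow_succ, mul_assoc]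
    exact ENNReal.ofReal_le_ofReal (mul_le_mul_of_nonneg_left (h c₀ h1 h2 F hF) (pow_nonneg hδ n))

theorem jn_mom {φ : ℤ → E d → ℝ} {j₀ : ℤ} {L : ℕ} {A l C₀ m : ℝ} {Q : Cb d} (hL : 1 ≤ L)
    (hA : 0 ≤ A) (hl : 1 ≤ l) (hC : 0 ≤ C₀) (hm : 1 ≤ m)
    (hφ : ∀ j, j₀ ≤ j → j ≤ Q.1 → ∀ x ∈ cube Q, |φ j x| ≤ C₀)
    (h : OneStep φ j₀ L A (Real.exp (-l)) Q) {Y : E d → ℝ}
    (hY : ∀ x ∈ cube Q, ∃ a, j₀ ≤ a ∧ |Y x| ≤ |ps φ a Q.1 x|) :
    Mom Y Q m (12 * (A + C₀ * L) * (1 + m / l)) := by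
  refine mom_of_tail (by positivity) hl hm fun n => le_trans (measure_mono fun x hx => ?_)
    (jn_tail hL hA (Real.exp_pos _).le hC hφ h n)
  obtain ⟨a, ha, h1⟩ := hY x hx.1
  exact ⟨hx.1, a, ha, hx.2.trans_le h1⟩

end Pool.Agent.MP_418f02_an
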