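import Pool.Agent.MP_418f02_an.Cube

open MeasureTheory Set
open scoped ENNReal RealInnerProductSpace

namespace Pool.Agent.MP_418f02_an

variable {d : ℕ}

theorem nice_zero : Nice (fun _ : E d => (0 : ℝ)) :=
  ⟨measurable_const, ⟨0, fun _ => by simp⟩, ⟨0, fun _ _ => rfl⟩⟩

theorem ker_ball_meas (R : ℝ) : MeasurableSet {y : E d | ‖y‖ ≤ R} :=
  measurableSet_le measurable_norm measurable_const

theorem ker_ball_vol {R : ℝ} (hR : 0 ≤ R) :
    volume {y : E d | ‖y‖ ≤ R} ≤ ENNReal.ofReal ((2 * R) ^ d) := by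
  simpa using volume_norm_le (0 : E d) hR

theorem ker_ball_lt (R : ℝ) : volume {y : E d | ‖y‖ ≤ R} < ∞ := by
  refine lt_of_le_of_lt (measure_mono ?_) (lt_of_le_of_lt (ker_ball_vol (abs_nonneg R))
    ENNReal.ofReal_lt_top)
  intro y hy
  exact le_trans hy (le_abs_self R)

theorem ker_ind_int (R M : ℝ) :
    Integrable ({y : E d | ‖y‖ ≤ R}.indicator fun _ => M) volume :=
  (integrableOn_const (ker_ball_lt R).ne).integrable_indicator (ker_ball_meas R)

theorem ker_le_ind {g : E d → ℝ} {M R : ℝ} (hM : ∀ x, |g x| ≤ M) (hR : ∀ x, R < ‖x‖ → g x = 0)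
    (x : E d) : |g x| ≤ {y : E d | ‖y‖ ≤ R}.indicator (fun _ => M) x := by
  by_cases hx : ‖x‖ ≤ R
  · rw [indicator_of_mem (show x ∈ {y : E d | ‖y‖ ≤ R} from hx)]
    exact hM x
  · rw [indicator_of_notMem (show x ∉ {y : E d | ‖y‖ ≤ R} from hx), hR x (not_le.1 hx)]
    simp

theorem Nice.integrable {g : E d → ℝ} (h : Nice g) : Integrable g := by
  obtain ⟨M, hM⟩ := h.bdd
  obtain ⟨R, hR⟩ := h.supp
  exact (ker_ind_int R M).mono' h.meas.aestronglyMeasurable
    (Filter.Eventually.of_forall fun x => ker_le_ind hM hR x)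

theorem ker_abs_int_le {g : E d → ℝ} (hg : Measurable g) {M R : ℝ} (hM : ∀ x, |g x| ≤ M)
    (hR : ∀ x, R < ‖x‖ → g x = 0) (h0 : 0 ≤ R) : ∫ x, |g x| ≤ M * (2 * R) ^ d := by
  have hn : Nice g := ⟨hg, ⟨M, hM⟩, ⟨R, hR⟩⟩
  have hM0 : 0 ≤ M := le_trans (abs_nonneg _) (hM 0)
  refine le_trans (integral_mono hn.integrable.abs (ker_ind_int R M) (ker_le_ind hM hR)) ?_
  rw [integral_indicator (ker_ball_meas R), setIntegral_const, smul_eq_mul, mul_comm]
  refine mul_le_mul_of_nonneg_left ?_ hM0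
  exact ENNReal.toReal_le_of_le_ofReal (by positivity) (ker_ball_vol h0)

theorem Nice.add {f g : E d → ℝ} (hf : Nice f) (hg : Nice g) : Nice fun x => f x + g x := by
  obtain ⟨M, hM⟩ := hf.bdd
  obtain ⟨R, hR⟩ := hf.supp
  obtain ⟨N, hN⟩ := hg.bdd
  obtain ⟨T, hT⟩ := hg.supp
  refine ⟨hf.meas.add hg.meas, ⟨M + N, fun x => ?_⟩, ⟨max R T, fun x hx => ?_⟩⟩
  · exact le_trans (abs_add_le _ _) (add_le_add (hM x) (hN x))
  · rw [hR x (lt_of_le_of_lt (le_max_left _ _) hx), hT x (lt_of_le_of_lt (le_max_right _ _) hx),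
      add_zero]

theorem Nice.sub {f g : E d → ℝ} (hf : Nice f) (hg : Nice g) : Nice fun x => f x - g x := by
  obtain ⟨M, hM⟩ := hf.bdd
  obtain ⟨R, hR⟩ := hf.supp
  obtain ⟨N, hN⟩ := hg.bdd
  obtain ⟨T, hT⟩ := hg.supp
  refine ⟨hf.meas.sub hg.meas, ⟨M + N, fun x => ?_⟩, ⟨max R T, fun x hx => ?_⟩⟩
  · exact le_trans (abs_sub _ _) (add_le_add (hM x) (hN x))
  · rw [hR x (lt_of_le_of_lt (le_max_left _ _) hx), hT x (lt_of_le_of_lt (le_max_right _ _) hx),
      sub_zero]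

theorem Nice.const_mul {g : E d → ℝ} (h : Nice g) (c : ℝ) : Nice fun x => c * g x := by
  obtain ⟨M, hM⟩ := h.bdd
  obtain ⟨R, hR⟩ := h.supp
  refine ⟨h.meas.const_mul c, ⟨|c| * M, fun x => ?_⟩, ⟨R, fun x hx => ?_⟩⟩
  · rw [abs_mul]
    exact mul_le_mul_of_nonneg_left (hM x) (abs_nonneg c)
  · rw [hR x hx, mul_zero]

theorem Nice.mul {f g : E d → ℝ} (hf : Nice f) (hg : Nice g) : Nice fun x => f x * g x := by
  obtain ⟨M, hM⟩ := hf.bdd
  obtain ⟨R, hR⟩ := hf.supp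
  obtain ⟨N, hN⟩ := hg.bdd
  refine ⟨hf.meas.mul hg.meas, ⟨M * N, fun x => ?_⟩, ⟨R, fun x hx => ?_⟩⟩
  · rw [abs_mul]
    exact mul_le_mul (hM x) (hN x) (abs_nonneg _) (le_trans (abs_nonneg _) (hM x))
  · rw [hR x hx, zero_mul]

theorem Nice.abs {g : E d → ℝ} (h : Nice g) : Nice fun x => |g x| := by
  obtain ⟨M, hM⟩ := h.bdd
  obtain ⟨R, hR⟩ := h.supp
  refine ⟨h.meas.abs, ⟨M, fun x => ?_⟩, ⟨R, fun x hx => ?_⟩⟩
  · rw [abs_abs]
    exact hM x
  · rw [hR x hx, abs_zero]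

theorem Nice.sq {g : E d → ℝ} (h : Nice g) : Nice fun x => g x ^ 2 := by
  simpa only [pow_two] using h.mul h

theorem Nice.indicator {g : E d → ℝ} (h : Nice g) {S : Set (E d)} (hS : MeasurableSet S) :
    Nice (S.indicator g) := by
  obtain ⟨M, hM⟩ := h.bdd
  obtain ⟨R, hR⟩ := h.supp
  refine ⟨h.meas.indicator hS, ⟨M, fun x => ?_⟩, ⟨R, fun x hx => ?_⟩⟩
  · by_cases hx : x ∈ S
    · rw [indicator_of_mem hx]
      exact hM x
    · rw [indicator_of_notMem hx, abs_zero]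
      exact le_trans (abs_nonneg _) (hM x)
  · by_cases hs : x ∈ S
    · rw [indicator_of_mem hs, hR x hx]
    · rw [indicator_of_notMem hs]

theorem Nice.shift {g : E d → ℝ} (h : Nice g) (a : E d) : Nice fun z => g (z - a) := by
  obtain ⟨M, hM⟩ := h.bdd
  obtain ⟨R, hR⟩ := h.supp
  refine ⟨h.meas.comp (measurable_id.sub_const a), ⟨M, fun x => hM _⟩,
    ⟨R + ‖a‖, fun x hx => hR _ ?_⟩⟩
  have := norm_sub_norm_le x a
  linarith

theorem nice_sum {ι : Type} {s : Finset ι} {g : ι → E d → ℝ} (h : ∀ i ∈ s, Nice (g i)) :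
    Nice fun x => ∑ i ∈ s, g i x := by
  classical
  induction s using Finset.induction_on with
  | empty => simpa using nice_zero
  | insert a s ha ih =>
    simp only [Finset.sum_insert ha]
    exact (h a (Finset.mem_insert_self _ _)).add
      (ih fun i hi => h i (Finset.mem_insert_of_mem hi))

theorem nice_indicator {S : Set (E d)} (hS : MeasurableSet S) (hb : Bornology.IsBounded S)
    (c : ℝ) : Nice (S.indicator fun _ => c) := by
  obtain ⟨R, hR⟩ := hb.exists_norm_le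
  refine ⟨measurable_const.indicator hS, ⟨|c|, fun x => ?_⟩, ⟨R, fun x hx => ?_⟩⟩
  · by_cases hx : x ∈ S
    · rw [indicator_of_mem hx]
    · rw [indicator_of_notMem hx, abs_zero]
      exact abs_nonneg c
  · exact indicator_of_notMem (fun hs => absurd (hR x hs) (not_le.2 hx)) _

theorem Nice.cs {f g : E d → ℝ} (hf : Nice f) (hg : Nice g) :
    |∫ x, f x * g x| ≤ √(∫ x, f x ^ 2) * √(∫ x, g x ^ 2) := by
  have hA : 0 ≤ ∫ x, f x ^ 2 := integral_nonneg fun x => sq_nonneg _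
  rw [← Real.sqrt_mul hA]
  refine Real.abs_le_sqrt ?_
  have h := discrim_le_zero (a := ∫ x, g x ^ 2) (b := 2 * ∫ x, f x * g x) (c := ∫ x, f x ^ 2)
    (fun t => by
      have e : (∫ x, g x ^ 2) * (t * t) + (2 * ∫ x, f x * g x) * t + ∫ x, f x ^ 2 =
          ∫ x, (f x + t * g x) ^ 2 := by
        have h1 := (hg.sq.const_mul (t * t)).integrable
        have h2 := ((hf.mul hg).const_mul (2 * t)).integrable
        have h3 := hf.sq.integrable
        have h4 := ((hg.sq.const_mul (t * t)).add ((hf.mul hg).const_mul (2 * t))).integrable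
        have e1 : ∀ x, (f x + t * g x) ^ 2 =
            (t * t * g x ^ 2 + 2 * t * (f x * g x)) + f x ^ 2 := fun x => by ring
        simp only [e1]
        rw [integral_add h4 h3, integral_add h1 h2, integral_const_mul,
          integral_const_mul]
        ring
      rw [e]
      exact integral_nonneg fun x => sq_nonneg _)
  rw [discrim] at h
  nlinarith

theorem IsKer.nice {k : E d → ℝ} (h : IsKer k) : Nice k :=
  ⟨h.meas, ⟨1, h.bdd⟩, ⟨2, h.supp⟩⟩

theorem IsKer.rf {k : E d → ℝ} (h : IsKer k) : IsKer (rf k) := by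
  refine ⟨h.meas.comp measurable_neg, fun y => h.bdd _, fun y hy => h.supp _ ?_, ?_⟩
  · rwa [norm_neg]
  · unfold MP_418f02_an.rf
    rw [integral_neg_eq_self k volume]
    exact h.zero

theorem IsKer.sq_le {k : E d → ℝ} (h : IsKer k) : ∫ y, k y ^ 2 ≤ 4 ^ d := by
  have h1 := ker_abs_int_le (g := fun y => k y ^ 2) (h.meas.pow_const 2) (M := 1) (R := 2)
    (fun x => by
      rw [abs_pow]
      exact pow_le_one₀ (abs_nonneg _) (h.bdd x))
    (fun x hx => by simp [h.supp x hx]) (by norm_num)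
  simp only [abs_pow, sq_abs] at h1
  norm_num at h1
  exact h1

theorem ker_term_le {k : E d → ℝ} (h : IsKer k) {l s : ℝ} (hl : 0 < l) (hs : 1 ≤ s) (y : E d) :
    |((l * s) ^ d)⁻¹ * k ((l * s)⁻¹ • y) / s| ≤ (l ^ d)⁻¹ := by
  have hs0 : 0 < s := lt_of_lt_of_le one_pos hs
  have h1 : ((l * s) ^ d)⁻¹ ≤ (l ^ d)⁻¹ :=
    inv_anti₀ (pow_pos hl d) (pow_le_pow_left₀ hl.le (le_mul_of_one_le_right hl.le hs) d)
  have h0 : 0 ≤ ((l * s) ^ d)⁻¹ := by positivity
  rw [abs_div, abs_mul, abs_of_nonneg h0, abs_of_pos hs0]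
  refine le_trans (div_le_self (by positivity) hs) (le_trans ?_ h1)
  exact mul_le_of_le_one_right h0 (h.bdd _)

theorem ker_term_zero {k : E d → ℝ} (h : IsKer k) {l s : ℝ} (hl : 0 < l) (hs : 1 ≤ s)
    (hs2 : s ≤ 2) {y : E d} (hy : 4 * l < ‖y‖) : k ((l * s)⁻¹ • y) = 0 := by
  have hs0 : 0 < s := lt_of_lt_of_le one_pos hs
  have hp : 0 < l * s := mul_pos hl hs0
  refine h.supp _ ?_
  rw [norm_smul, norm_inv, Real.norm_eq_abs, abs_of_pos hp, inv_mul_eq_div, lt_div_iff₀ hp]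
  nlinarith

theorem ker_int_le {F : ℝ → ℝ} {M : ℝ} (h : ∀ s, 1 ≤ s → s ≤ 2 → |F s| ≤ M) :
    |∫ s in (1 : ℝ)..2, F s| ≤ M := by
  have h1 := intervalIntegral.norm_integral_le_of_norm_le_const (a := (1 : ℝ)) (b := 2) (C := M)
    (f := F) (fun s hs => by
      rw [uIoc_of_le (by norm_num)] at hs
      exact h s hs.1.le hs.2)
  norm_num at h1
  exact h1

theorem ker_int_zero {F : ℝ → ℝ} (h : ∀ s, 1 ≤ s → s ≤ 2 → F s = 0) :
    ∫ s in (1 : ℝ)..2, F s = 0 :=
  abs_nonpos_iff.1 (ker_int_le fun s h1 h2 => by rw [h s h1 h2, abs_zero])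

theorem ker_int_meas {F : E d → ℝ → ℝ} (hF : Measurable (Function.uncurry F)) :
    Measurable fun y => ∫ s in (1 : ℝ)..2, F y s := by
  simp only [intervalIntegral.integral_of_le (show (1 : ℝ) ≤ 2 by norm_num)]
  exact (hF.stronglyMeasurable.integral_prod_right).measurable

/-- Fubini for a bounded function with bounded support -/
theorem ker_swap {F : E d → ℝ → ℝ} (hF : Measurable (Function.uncurry F)) {M R : ℝ}
    (hM : ∀ y s, 1 ≤ s → s ≤ 2 → |F y s| ≤ M)
    (hR : ∀ y s, 1 ≤ s → s ≤ 2 → R < ‖y‖ → F y s = 0) :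
    ∫ y, ∫ s in (1 : ℝ)..2, F y s = ∫ s in (1 : ℝ)..2, ∫ y, F y s := by
  simp only [intervalIntegral.integral_of_le (show (1 : ℝ) ≤ 2 by norm_num)]
  refine integral_integral_swap ?_
  have h1 : Integrable (fun _ : ℝ => (1 : ℝ)) (volume.restrict (Ioc (1 : ℝ) 2)) :=
    integrable_const 1
  have h2 := (ker_ind_int (d := d) R M).mul_prod h1
  refine h2.mono' hF.aestronglyMeasurable ?_
  have h3 : ∀ᵐ p : E d × ℝ ∂(volume.prod (volume.restrict (Ioc (1 : ℝ) 2))),
      p.2 ∈ Ioc (1 : ℝ) 2 :=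
    Measure.quasiMeasurePreserving_snd.ae (ae_restrict_mem measurableSet_Ioc)
  filter_upwards [h3] with p hp
  rw [mul_one]
  exact ker_le_ind (g := fun y => F y p.2) (fun y => hM y _ hp.1.le hp.2)
    (fun y hy => hR y _ hp.1.le hp.2 hy) p.1

theorem ker_term_meas {k : E d → ℝ} (hk : Measurable k) (l : ℝ) :
    Measurable (Function.uncurry fun (y : E d) (s : ℝ) =>
      ((l * s) ^ d)⁻¹ * k ((l * s)⁻¹ • y) / s) := by
  have h1 : Measurable fun p : E d × ℝ => l * p.2 := measurable_snd.const_mul l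
  exact (((h1.pow_const d).inv).mul (hk.comp (h1.inv.smul measurable_fst))).div measurable_snd

theorem ker_dil (g : E d → ℝ) {t : ℝ} (ht : 0 < t) :
    ∫ y, (t ^ d)⁻¹ * g (t⁻¹ • y) = ∫ y, g y := by
  rw [integral_const_mul, Measure.integral_comp_inv_smul_of_nonneg volume g ht.le]
  simp only [finrank_euclideanSpace, Fintype.card_fin, smul_eq_mul]
  rw [← mul_assoc, inv_mul_cancel₀ (pow_pos ht d).ne', one_mul]

theorem KK_le {k : E d → ℝ} (h : IsKer k) {l : ℝ} (hl : 0 < l) (y : E d) :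
    |KK k l y| ≤ (l ^ d)⁻¹ :=
  ker_int_le fun _ hs _ => ker_term_le h hl hs y

theorem KK_supp {k : E d → ℝ} (h : IsKer k) {l : ℝ} (hl : 0 < l) {y : E d} (hy : 4 * l < ‖y‖) :
    KK k l y = 0 :=
  ker_int_zero fun s hs hs2 => by rw [ker_term_zero h hl hs hs2 hy, mul_zero, zero_div]

theorem KK_nice {k : E d → ℝ} (h : IsKer k) {l : ℝ} (hl : 0 < l) : Nice (KK k l) :=
  ⟨ker_int_meas (ker_term_meas h.meas l), ⟨_, KK_le h hl⟩, ⟨4 * l, fun _ hy => KK_supp h hl hy⟩⟩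

theorem KK_zero {k : E d → ℝ} (h : IsKer k) {l : ℝ} (hl : 0 < l) : ∫ y, KK k l y = 0 := by
  unfold KK
  rw [ker_swap (ker_term_meas h.meas l) (fun y s hs _ => ker_term_le h hl hs y) (R := 4 * l)
    (fun y s hs hs2 hy => by rw [ker_term_zero h hl hs hs2 hy, mul_zero, zero_div])]
  refine ker_int_zero fun s hs _ => ?_
  rw [integral_div, ker_dil k (mul_pos hl (lt_of_lt_of_le one_pos hs)), h.zero, zero_div]

theorem KK_l1 {k : E d → ℝ} (h : IsKer k) {l : ℝ} (hl : 0 < l) : ∫ y, |KK k l y| ≤ 8 ^ d := by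
  refine le_trans (ker_abs_int_le (KK_nice h hl).meas (KK_le h hl) (R := 4 * l)
    (fun _ hy => KK_supp h hl hy) (by positivity)) (le_of_eq ?_)
  rw [show 2 * (4 * l) = l * 8 by ring, mul_pow, ← mul_assoc, inv_mul_cancel₀ (pow_pos hl d).ne',
    one_mul]

theorem KK_rf (k : E d → ℝ) (l : ℝ) (y : E d) : KK (rf k) l y = KK k l (-y) := by
  unfold KK MP_418f02_an.rf
  simp only [smul_neg]

theorem KK_scale (k : E d → ℝ) {l : ℝ} (hl : 0 < l) (r : ℝ) (z : E d) :
    KK k (l * r) (l • z) = (l ^ d)⁻¹ * KK k r z := by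
  unfold KK
  rw [← intervalIntegral.integral_const_mul]
  refine intervalIntegral.integral_congr fun s _ => ?_
  have e : (l * r * s)⁻¹ * l = (r * s)⁻¹ := by
    rw [mul_assoc, mul_inv, mul_right_comm, inv_mul_cancel₀ hl.ne', one_mul]
  simp only [smul_smul, e]
  rw [mul_assoc l r s, mul_pow, mul_inv]
  ring

theorem ker_ray_meas {D : E d → ℝ} (h : Measurable D) :
    Measurable (Function.uncurry fun (y : E d) (s : ℝ) => D (s • y) / s) :=
  (h.comp (measurable_snd.smul measurable_fst)).div measurable_snd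

theorem ker_ray_le {D : E d → ℝ} {M : ℝ} (hM : ∀ x, |D x| ≤ M) (y : E d) {s : ℝ} (hs : 1 ≤ s) :
    |D (s • y) / s| ≤ M := by
  rw [abs_div, abs_of_pos (lt_of_lt_of_le one_pos hs)]
  exact le_trans (div_le_self (abs_nonneg _) hs) (hM _)

theorem ray_nice {D : E d → ℝ} (h : Nice D) : Nice (ray D) := by
  obtain ⟨M, hM⟩ := h.bdd
  obtain ⟨R, hR⟩ := h.supp
  refine ⟨ker_int_meas (ker_ray_meas h.meas),
    ⟨M, fun y => ker_int_le fun s hs _ => ker_ray_le hM y hs⟩,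
    ⟨R, fun y hy => ker_int_zero fun s hs _ => ?_⟩⟩
  rw [hR, zero_div]
  rw [norm_smul, Real.norm_eq_abs, abs_of_pos (lt_of_lt_of_le one_pos hs)]
  exact lt_of_lt_of_le hy (le_mul_of_one_le_left (norm_nonneg _) hs)

theorem KK_pair {k D : E d → ℝ} (h : IsKer k) (hD : Nice D) :
    ∫ z, KK k 1 z * D z = ∫ y, k y * ray D y := by
  obtain ⟨M, hM⟩ := hD.bdd
  have hM0 : 0 ≤ M := le_trans (abs_nonneg _) (hM 0)
  unfold KK ray
  simp only [← intervalIntegral.integral_mul_const, ← intervalIntegral.integral_const_mul]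
  rw [ker_swap (F := fun (y : E d) (s : ℝ) =>
      ((1 * s) ^ d)⁻¹ * k ((1 * s)⁻¹ • y) / s * D y)
    ((ker_term_meas h.meas 1).mul (hD.meas.comp measurable_fst)) (M := ((1 : ℝ) ^ d)⁻¹ * M)
    (fun y s hs _ => by
      rw [abs_mul]
      exact mul_le_mul (ker_term_le h one_pos hs y) (hM y) (abs_nonneg _) (by positivity))
    (R := 4 * 1) (fun y s hs hs2 hy => by
      rw [ker_term_zero h one_pos hs hs2 hy, mul_zero, zero_div, zero_mul]),
    ker_swap (F := fun (y : E d) (s : ℝ) => k y * (D (s • y) / s))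
    ((h.meas.comp measurable_fst).mul (ker_ray_meas hD.meas)) (M := 1 * M)
    (fun y s hs _ => by
      rw [abs_mul]
      exact mul_le_mul (h.bdd y) (ker_ray_le hM y hs) (abs_nonneg _) zero_le_one)
    (R := 2) (fun y s _ _ hy => by rw [h.supp y hy, zero_mul])]
  refine intervalIntegral.integral_congr fun s hs => ?_
  rw [uIcc_of_le (by norm_num)] at hs
  have hs0 : 0 < s := lt_of_lt_of_le one_pos hs.1
  simp only [one_mul]
  rw [← ker_dil (fun y => k y * (D (s • y) / s)) hs0]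
  refine integral_congr_ae (Filter.Eventually.of_forall fun y => ?_)
  simp only [smul_smul, mul_inv_cancel₀ hs0.ne', one_smul]
  ring

end Pool.Agent.MP_418f02_an
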