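import Pool.Agent.MP_418f02_an.Defs

open MeasureTheory Set
open scoped ENNReal RealInnerProductSpace

namespace Pool.Agent.MP_418f02_an

variable {d : ℕ}

theorem osc_norm_ee (t : ℝ) : ‖ee t‖ = 1 := Complex.norm_exp_ofReal_mul_I _

theorem osc_ee_add (s t : ℝ) : ee (s + t) = ee s * ee t := by
  unfold ee
  rw [← Complex.exp_add]
  congr 1
  push_cast
  ring

theorem osc_ee_deriv (l t : ℝ) :
    HasDerivAt (fun t : ℝ => ee (l * t)) (((-2 * Real.pi * l : ℝ) : ℂ) * Complex.I * ee (l * t)) t := by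
  have h1 : HasDerivAt (fun t : ℝ => -2 * Real.pi * (l * t)) (-2 * Real.pi * l) t := by
    simpa using ((hasDerivAt_id t).const_mul l).const_mul (-2 * Real.pi)
  have h2 := (h1.ofReal_comp.mul_const Complex.I).cexp
  unfold ee
  convert h2 using 1
  ring

theorem osc_ee_cont (l : ℝ) : Continuous fun t : ℝ => ee (l * t) :=
  continuous_iff_continuousAt.2 fun t => (osc_ee_deriv l t).continuousAt

theorem osc_ee_sub (t : ℝ) : ‖ee t - 1‖ ≤ 2 * Real.pi * |t| := by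
  unfold ee
  rw [mul_comm]
  refine Real.norm_exp_I_mul_ofReal_sub_one_le.trans (le_of_eq ?_)
  rw [Real.norm_eq_abs, abs_mul, abs_mul, abs_neg, abs_of_pos Real.pi_pos]
  norm_num

theorem osc_norm_c (l : ℝ) :
    ‖((-2 * Real.pi * l : ℝ) : ℂ) * Complex.I‖ = 2 * Real.pi * |l| := by
  rw [norm_mul, Complex.norm_I, mul_one, Complex.norm_real, Real.norm_eq_abs, abs_mul, abs_mul,
    abs_neg, abs_of_pos Real.pi_pos]
  norm_num

theorem osc_parts {φ φ' : ℝ → ℂ} {β : ℝ} (hd : ∀ t ∈ Icc (1 / 2 : ℝ) 1, HasDerivAt φ (φ' t) t)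
    (hc : ContinuousOn φ' (Icc (1 / 2 : ℝ) 1)) (h0 : ∀ t ∈ Icc (1 / 2 : ℝ) 1, ‖φ t‖ ≤ β)
    (h1 : ∫ t in (1 / 2 : ℝ)..1, ‖φ' t‖ ≤ β) (l : ℝ) :
    ‖∫ t in (1 / 2 : ℝ)..1, φ t * ee (l * t)‖ ≤ 2 * β * (1 + |l|)⁻¹ := by
  have h12 : (1 / 2 : ℝ) ≤ 1 := by norm_num
  have hβ : 0 ≤ β := (norm_nonneg _).trans (h0 1 ⟨h12, le_rfl⟩)
  have hl0 := abs_nonneg l
  have hpos : 0 < 1 + |l| := by linarith
  rw [← div_eq_mul_inv, le_div_iff₀ hpos]
  by_cases hl : |l| ≤ 3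
  · have h2 : ‖∫ t in (1 / 2 : ℝ)..1, φ t * ee (l * t)‖ ≤ β * |1 - 1 / 2| := by
      refine intervalIntegral.norm_integral_le_of_norm_le_const fun t ht => ?_
      rw [uIoc_of_le h12] at ht
      rw [norm_mul, osc_norm_ee, mul_one]
      exact h0 t (Ioc_subset_Icc_self ht)
    have h3 : |(1 : ℝ) - 1 / 2| = 1 / 2 := by norm_num [abs_of_pos]
    rw [h3] at h2
    calc _ ≤ β * (1 / 2) * (1 + |l|) := by gcongr
      _ ≤ β * (1 / 2) * 4 := by gcongr; linarith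
      _ = 2 * β := by ring
  · push Not at hl
    set c : ℂ := ((-2 * Real.pi * l : ℝ) : ℂ) * Complex.I with hcdef
    have hcn : ‖c‖ = 2 * Real.pi * |l| := osc_norm_c l
    have hI := intervalIntegral.integral_mul_deriv_eq_deriv_mul (a := (1 / 2 : ℝ)) (b := 1)
      (u := φ) (u' := φ') (v := fun t : ℝ => ee (l * t)) (v' := fun t => c * ee (l * t))
      (by rw [uIcc_of_le h12]; exact hd) (fun t _ => osc_ee_deriv l t)
      (hc.intervalIntegrable_of_Icc h12)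
      ((continuous_const.mul (osc_ee_cont l)).intervalIntegrable _ _)
    have hL : ∫ t in (1 / 2 : ℝ)..1, φ t * (c * ee (l * t)) =
        c * ∫ t in (1 / 2 : ℝ)..1, φ t * ee (l * t) := by
      rw [← intervalIntegral.integral_const_mul]
      congr 1; funext t; ring
    rw [hL] at hI
    have h4 : ‖∫ t in (1 / 2 : ℝ)..1, φ' t * ee (l * t)‖ ≤ β := by
      refine (intervalIntegral.norm_integral_le_integral_norm h12).trans ?_
      simpa only [norm_mul, osc_norm_ee, mul_one] using h1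
    have h5 : ‖c * ∫ t in (1 / 2 : ℝ)..1, φ t * ee (l * t)‖ ≤ 3 * β := by
      rw [hI]
      have a1 : ‖φ 1 * ee (l * 1)‖ ≤ β := by
        rw [norm_mul, osc_norm_ee, mul_one]; exact h0 1 ⟨h12, le_rfl⟩
      have a2 : ‖φ (1 / 2) * ee (l * (1 / 2))‖ ≤ β := by
        rw [norm_mul, osc_norm_ee, mul_one]; exact h0 _ ⟨le_rfl, h12⟩
      calc _ ≤ ‖φ 1 * ee (l * 1) - φ (1 / 2) * ee (l * (1 / 2))‖ + _ := norm_sub_le _ _
        _ ≤ (β + β) + β := add_le_add ((norm_sub_le _ _).trans (add_le_add a1 a2)) h4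
        _ = 3 * β := by ring
    rw [norm_mul, hcn] at h5
    have hπ := Real.pi_gt_three
    have hN := norm_nonneg (∫ t in (1 / 2 : ℝ)..1, φ t * ee (l * t))
    set N := ‖∫ t in (1 / 2 : ℝ)..1, φ t * ee (l * t)‖
    have h6 : 6 * |l| * N ≤ 2 * Real.pi * |l| * N := by gcongr; linarith
    nlinarith [mul_nonneg hN (sub_nonneg.2 hl.le)]

/-- the hypotheses of `osc_parts` -/
structure oscGood (φ φ' : ℝ → ℂ) (β : ℝ) : Prop where
  hd : ∀ t ∈ Icc (1 / 2 : ℝ) 1, HasDerivAt φ (φ' t) t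
  hc : ContinuousOn φ' (Icc (1 / 2 : ℝ) 1)
  h0 : ∀ t ∈ Icc (1 / 2 : ℝ) 1, ‖φ t‖ ≤ β
  h1 : ∫ t in (1 / 2 : ℝ)..1, ‖φ' t‖ ≤ β

theorem oscGood.cont {φ φ' : ℝ → ℂ} {β : ℝ} (h : oscGood φ φ' β) :
    ContinuousOn φ (Icc (1 / 2 : ℝ) 1) :=
  fun t ht => (h.hd t ht).continuousAt.continuousWithinAt

theorem oscGood.mul {φ φ' ψ ψ' : ℝ → ℂ} {β γ : ℝ} (h : oscGood φ φ' β)
    (hd : ∀ t ∈ Icc (1 / 2 : ℝ) 1, HasDerivAt ψ (ψ' t) t)
    (hc : ContinuousOn ψ' (Icc (1 / 2 : ℝ) 1)) (h0 : ∀ t ∈ Icc (1 / 2 : ℝ) 1, ‖ψ t‖ ≤ γ)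
    (h1 : ∀ t ∈ Icc (1 / 2 : ℝ) 1, ‖ψ' t‖ ≤ γ) :
    oscGood (fun t => φ t * ψ t) (fun t => φ' t * ψ t + φ t * ψ' t) (2 * β * γ) := by
  have h12 : (1 / 2 : ℝ) ≤ 1 := by norm_num
  have hβ : 0 ≤ β := (norm_nonneg _).trans (h.h0 1 ⟨h12, le_rfl⟩)
  have hγ : 0 ≤ γ := (norm_nonneg _).trans (h0 1 ⟨h12, le_rfl⟩)
  have hψ : ContinuousOn ψ (Icc (1 / 2 : ℝ) 1) :=
    fun t ht => (hd t ht).continuousAt.continuousWithinAt
  have hcc : ContinuousOn (fun t => φ' t * ψ t + φ t * ψ' t) (Icc (1 / 2 : ℝ) 1) :=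
    (h.hc.mul hψ).add (h.cont.mul hc)
  have hbg := mul_nonneg hβ hγ
  refine ⟨fun t ht => (h.hd t ht).mul (hd t ht), hcc, fun t ht => ?_, ?_⟩
  · rw [norm_mul]
    have := mul_le_mul (h.h0 t ht) (h0 t ht) (norm_nonneg _) hβ
    linarith
  · have hi : IntervalIntegrable (fun t => ‖φ' t‖) volume (1 / 2 : ℝ) 1 :=
      h.hc.norm.intervalIntegrable_of_Icc h12
    have h2 : ∫ t in (1 / 2 : ℝ)..1, ‖φ' t * ψ t + φ t * ψ' t‖ ≤
        ∫ t in (1 / 2 : ℝ)..1, (‖φ' t‖ * γ + β * γ) := by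
      refine intervalIntegral.integral_mono_on h12 (hcc.norm.intervalIntegrable_of_Icc h12)
        ((hi.mul_const γ).add intervalIntegrable_const) fun t ht => ?_
      refine (norm_add_le _ _).trans (add_le_add ?_ ?_)
      · rw [norm_mul]; exact mul_le_mul_of_nonneg_left (h0 t ht) (norm_nonneg _)
      · rw [norm_mul]; exact mul_le_mul (h.h0 t ht) (h1 t ht) (norm_nonneg _) hβ
    rw [intervalIntegral.integral_add (hi.mul_const γ) intervalIntegrable_const,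
      intervalIntegral.integral_mul_const, intervalIntegral.integral_const, smul_eq_mul] at h2
    have h3 := mul_le_mul_of_nonneg_right h.h1 hγ
    linarith

theorem osc_kap {u : ℝ → ℂ} (hu : Continuous u) : ∃ κ κ' : ℝ → ℂ,
    oscGood κ κ' (2 * ∫ σ in (1 / 2 : ℝ)..2, ‖u σ‖) ∧
      ∀ t ∈ Icc (1 / 2 : ℝ) 1, ∫ σ in (1 : ℝ)..2, u (σ * t) / σ = κ t := by
  set g : ℝ → ℂ := fun x => u x / ((max x (1 / 2) : ℝ) : ℂ) with hg
  have hm : ∀ x : ℝ, 0 < max x (1 / 2) := fun x => lt_max_of_lt_right (by norm_num)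
  have hgc : Continuous g := by
    refine hu.div (Complex.continuous_ofReal.comp (continuous_id.max continuous_const)) fun x => ?_
    exact_mod_cast (hm x).ne'
  have hgb : ∀ x, ‖g x‖ ≤ 2 * ‖u x‖ := fun x => by
    rw [hg]
    simp only
    rw [norm_div, Complex.norm_real, Real.norm_eq_abs, abs_of_pos (hm x), div_le_iff₀ (hm x)]
    have := le_max_right x (1 / 2 : ℝ)
    nlinarith [norm_nonneg (u x)]
  have hB : ∫ x in (1 / 2 : ℝ)..2, ‖g x‖ ≤ 2 * ∫ σ in (1 / 2 : ℝ)..2, ‖u σ‖ := by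
    rw [← intervalIntegral.integral_const_mul]
    exact intervalIntegral.integral_mono_on (by norm_num) (hgc.norm.intervalIntegrable _ _)
      ((continuous_const.mul hu.norm).intervalIntegrable _ _) fun x _ => hgb x
  set G : ℝ → ℂ := fun t => ∫ x in (0 : ℝ)..t, g x with hG
  have hGd : ∀ t, HasDerivAt G (g t) t := fun t => (hgc.integral_hasStrictDerivAt 0 t).hasDerivAt
  have hGs : ∀ t, G (2 * t) - G t = ∫ x in t..2 * t, g x := fun t =>
    intervalIntegral.integral_interval_sub_left (hgc.intervalIntegrable _ _)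
      (hgc.intervalIntegrable _ _)
  have h2g : Continuous fun t : ℝ => g (2 * t) := hgc.comp (continuous_const.mul continuous_id)
  have h2c : Continuous fun t : ℝ => (2 : ℝ) • g (2 * t) := h2g.const_smul (2 : ℝ)
  have h2n : Continuous fun t : ℝ => (2 : ℝ) • ‖g (2 * t)‖ := h2g.norm.const_smul (2 : ℝ)
  refine ⟨fun t => G (2 * t) - G t, fun t => (2 : ℝ) • g (2 * t) - g t, ⟨fun t _ => ?_, ?_,
    fun t ht => ?_, ?_⟩, fun t ht => ?_⟩
  · have h1 : HasDerivAt (fun t : ℝ => 2 * t) 2 t := by simpa using (hasDerivAt_id t).const_mul 2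
    exact ((hGd (2 * t)).scomp t h1).sub (hGd t)
  · exact (h2c.sub hgc).continuousOn
  · rw [hGs]
    refine (intervalIntegral.norm_integral_le_integral_norm (by linarith [ht.1])).trans
      (le_trans ?_ hB)
    exact intervalIntegral.integral_mono_interval ht.1 (by linarith [ht.1]) (by linarith [ht.2])
      (Filter.Eventually.of_forall fun x => norm_nonneg _) (hgc.norm.intervalIntegrable _ _)
  · refine le_trans ?_ hB
    have h3 : ∫ t in (1 / 2 : ℝ)..1, ‖(2 : ℝ) • g (2 * t) - g t‖ ≤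
        ∫ t in (1 / 2 : ℝ)..1, ((2 : ℝ) • ‖g (2 * t)‖ + ‖g t‖) := by
      refine intervalIntegral.integral_mono_on (by norm_num)
        ((h2c.sub hgc).norm.intervalIntegrable _ _)
        ((h2n.add hgc.norm).intervalIntegrable _ _) fun t _ => ?_
      refine (norm_sub_le _ _).trans (le_of_eq ?_)
      rw [norm_smul]; simp
    refine h3.trans (le_of_eq ?_)
    rw [intervalIntegral.integral_add (h2n.intervalIntegrable _ _)
      (hgc.norm.intervalIntegrable _ _), intervalIntegral.integral_smul,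
      intervalIntegral.smul_integral_comp_mul_left (fun x => ‖g x‖), add_comm]
    have e1 : (2 : ℝ) * (1 / 2) = 1 := by norm_num
    rw [e1, mul_one]
    exact intervalIntegral.integral_add_adjacent_intervals (hgc.norm.intervalIntegrable _ _)
      (hgc.norm.intervalIntegrable _ _)
  · simp only
    rw [hGs]
    have h4 := intervalIntegral.smul_integral_comp_mul_right (a := 1) (b := 2) g t
    rw [one_mul] at h4
    rw [← h4, ← intervalIntegral.integral_smul]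
    refine intervalIntegral.integral_congr fun σ hσ => ?_
    rw [uIcc_of_le (by norm_num)] at hσ
    have ht0 : 0 < t := by linarith [ht.1]
    have hσ0 : 0 < σ := by linarith [hσ.1]
    have h5 : max (σ * t) (1 / 2) = σ * t := max_eq_left (by nlinarith [ht.1, hσ.1])
    simp only [hg, h5, Complex.real_smul]
    have a1 : (t : ℂ) ≠ 0 := by exact_mod_cast ht0.ne'
    have a2 : (σ : ℂ) ≠ 0 := by exact_mod_cast hσ0.ne'
    push_cast
    field_simp

theorem osc_pow (d : ℕ) {κ κ' : ℝ → ℂ} {β : ℝ} (h : oscGood κ κ' β) : ∃ φ' : ℝ → ℂ,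
    oscGood (fun t => κ t * ((t ^ d * t⁻¹ : ℝ) : ℂ)) φ' (2 * β * (2 * d + 4)) := by
  refine ⟨_, h.mul (ψ' := fun t => ((d * t ^ (d - 1) * t⁻¹ + t ^ d * (-(t ^ 2)⁻¹) : ℝ) : ℂ))
    (fun t ht => ?_) ?_ (fun t ht => ?_) fun t ht => ?_⟩
  · have ht0 : t ≠ 0 := by have := ht.1; intro h; rw [h] at this; norm_num at this
    exact ((hasDerivAt_pow d t).mul (hasDerivAt_inv ht0)).ofReal_comp
  · refine Complex.continuous_ofReal.comp_continuousOn ?_
    have ht0 : ∀ t ∈ Icc (1 / 2 : ℝ) 1, t ≠ 0 := fun t ht h => by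
      have := ht.1; rw [h] at this; norm_num at this
    refine ContinuousOn.add (ContinuousOn.mul (by fun_prop) (continuousOn_id.inv₀ ht0))
      (ContinuousOn.mul (by fun_prop) (ContinuousOn.neg (ContinuousOn.inv₀ (by fun_prop) ?_)))
    exact fun t ht => pow_ne_zero _ (ht0 t ht)
  · have ht0 : 0 < t := by linarith [ht.1]
    have a1 : t ^ d ≤ 1 := pow_le_one₀ ht0.le ht.2
    have a2 : t⁻¹ ≤ 2 := by rw [inv_le_comm₀ ht0 (by norm_num)]; linarith [ht.1]
    rw [Complex.norm_real, Real.norm_eq_abs, abs_of_nonneg (by positivity)]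
    have := mul_le_mul a1 a2 (by positivity) zero_le_one
    have : (0 : ℝ) ≤ d := Nat.cast_nonneg d
    linarith
  · have ht0 : 0 < t := by linarith [ht.1]
    have a1 : t ^ d ≤ 1 := pow_le_one₀ ht0.le ht.2
    have a1' : t ^ (d - 1) ≤ 1 := pow_le_one₀ ht0.le ht.2
    have a2 : t⁻¹ ≤ 2 := by rw [inv_le_comm₀ ht0 (by norm_num)]; linarith [ht.1]
    have a3 : (t ^ 2)⁻¹ ≤ 4 := by
      rw [inv_le_comm₀ (by positivity) (by norm_num)]; nlinarith [ht.1]
    have hd0 : (0 : ℝ) ≤ d := Nat.cast_nonneg d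
    have b1 := mul_le_mul a1' a2 (by positivity) zero_le_one
    have b2 := mul_le_mul a1 a3 (by positivity) zero_le_one
    have b3 := mul_le_mul_of_nonneg_left b1 hd0
    have b4 : 0 ≤ d * (t ^ (d - 1) * t⁻¹) := by positivity
    have b5 : 0 ≤ t ^ d * (t ^ 2)⁻¹ := by positivity
    rw [Complex.norm_real, Real.norm_eq_abs, abs_le]
    constructor <;> nlinarith

theorem osc_core (d : ℕ) {φ φ' : ℝ → ℂ} {β : ℝ} (h : oscGood φ φ' β) {r l₀ l₁ : ℝ} (hr : 0 < r)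
    (hl : |l₁ - l₀| ≤ d * r) :
    ‖∫ t in (1 / 2 : ℝ)..1, φ t * (ee (l₁ * t) - ee (l₀ * t))‖ ≤
      (34 * d + 4) * β * (1 + |l₀| / r)⁻¹ := by
  have h12 : (1 / 2 : ℝ) ≤ 1 := by norm_num
  have hβ : 0 ≤ β := (norm_nonneg _).trans (h.h0 1 ⟨h12, le_rfl⟩)
  have hd0 : (0 : ℝ) ≤ d := Nat.cast_nonneg d
  have hl0 := abs_nonneg l₀
  have hl1 := abs_nonneg l₁
  have hx : 0 < 1 + |l₀| / r := by positivity
  rcases le_total 1 r with h1 | h1
  · have hi : ∀ l : ℝ, IntervalIntegrable (fun t => φ t * ee (l * t)) volume (1 / 2 : ℝ) 1 :=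
      fun l => (h.cont.mul (osc_ee_cont l).continuousOn).intervalIntegrable_of_Icc h12
    simp only [mul_sub]
    rw [intervalIntegral.integral_sub (hi l₁) (hi l₀)]
    have a0 := osc_parts h.hd h.hc h.h0 h.h1 l₀
    have a1 := osc_parts h.hd h.hc h.h0 h.h1 l₁
    have b0 : (1 + |l₀|)⁻¹ ≤ (1 + |l₀| / r)⁻¹ := by
      refine inv_anti₀ hx ?_
      have := div_le_self hl0 h1
      linarith
    have b1 : (1 + |l₁|)⁻¹ ≤ (1 + d) * (1 + |l₀| / r)⁻¹ := by
      rw [← div_eq_mul_inv, le_div_iff₀ hx, inv_mul_le_iff₀ (by positivity)]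
      have c1 : |l₀| ≤ |l₁| + d * r := by
        have := abs_sub_abs_le_abs_sub l₀ l₁
        rw [abs_sub_comm] at this
        linarith
      have c2 : |l₀| / r ≤ |l₁| + d := by
        rw [div_le_iff₀ hr]
        nlinarith
      nlinarith [mul_nonneg hl1 hd0]
    have hy : 0 ≤ (1 + |l₀| / r)⁻¹ := by positivity
    set y := (1 + |l₀| / r)⁻¹
    have e0 := mul_le_mul_of_nonneg_left b0 (by positivity : 0 ≤ 2 * β)
    have e1 := mul_le_mul_of_nonneg_left b1 (by positivity : 0 ≤ 2 * β)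
    have e2 : 0 ≤ d * (β * y) := by positivity
    refine (norm_sub_le _ _).trans ?_
    nlinarith
  · set δ := l₁ - l₀ with hδ
    have hg := h.mul (ψ := fun t => ee (δ * t) - 1)
      (ψ' := fun t => ((-2 * Real.pi * δ : ℝ) : ℂ) * Complex.I * ee (δ * t))
      (γ := 2 * Real.pi * |δ|) (fun t _ => (osc_ee_deriv δ t).sub_const 1)
      (continuous_const.mul (osc_ee_cont δ)).continuousOn
      (fun t ht => (osc_ee_sub _).trans (by
        rw [abs_mul, abs_of_nonneg (by linarith [ht.1] : 0 ≤ t)]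
        have := mul_le_of_le_one_right (abs_nonneg δ) ht.2
        have := Real.pi_pos
        gcongr))
      fun t _ => by rw [norm_mul, osc_norm_ee, mul_one, osc_norm_c]
    have a0 := osc_parts hg.hd hg.hc hg.h0 hg.h1 l₀
    have e : ∀ t, φ t * (ee (l₁ * t) - ee (l₀ * t)) = φ t * (ee (δ * t) - 1) * ee (l₀ * t) := by
      intro t
      have : l₁ * t = δ * t + l₀ * t := by rw [hδ]; ring
      rw [this, osc_ee_add]; ring
    simp only [e]
    refine a0.trans ?_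
    have b0 : r * (1 + |l₀|)⁻¹ ≤ (1 + |l₀| / r)⁻¹ := by
      rw [← div_eq_mul_inv, ← one_div, div_le_div_iff₀ (by positivity) hx, mul_add,
        mul_div_cancel₀ _ hr.ne']
      linarith
    have hπ := Real.pi_le_four
    have hz : 0 ≤ (1 + |l₀|)⁻¹ := by positivity
    have hy : 0 ≤ (1 + |l₀| / r)⁻¹ := by positivity
    calc 2 * (2 * β * (2 * Real.pi * |δ|)) * (1 + |l₀|)⁻¹
        ≤ 2 * (2 * β * (2 * 4 * (d * r))) * (1 + |l₀|)⁻¹ := by gcongr
      _ = 32 * d * β * (r * (1 + |l₀|)⁻¹) := by ring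
      _ ≤ (34 * d + 4) * β * (1 + |l₀| / r)⁻¹ := by gcongr; linarith

theorem osc_main (d : ℕ) : ∃ C : ℝ, 0 < C ∧ ∀ u : ℝ → ℂ, Continuous u → ∀ ρ e l₀ l₁ : ℝ,
    0 < ρ → 0 < e → |l₁ - l₀| ≤ d * e * ρ →
    ‖∫ s in (1 : ℝ)..2, ((s ^ d)⁻¹ : ℝ) *
        ((∫ σ in (1 : ℝ)..2, u (σ / s) / σ) * (ee (l₁ / s) - ee (l₀ / s))) / s‖ ≤
      C * (∫ σ in (1 / 2 : ℝ)..2, ‖u σ‖) * (1 + |l₀| / (ρ * e))⁻¹ := by
  refine ⟨(34 * d + 4) * (4 * (2 * d + 4)), by positivity, fun u hu ρ e l₀ l₁ hρ he hl => ?_⟩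
  obtain ⟨κ, κ', hκ, hk⟩ := osc_kap hu
  obtain ⟨φ', hφ⟩ := osc_pow d hκ
  have hc := osc_core d hφ (r := ρ * e) (l₀ := l₀) (l₁ := l₁) (by positivity) (by linarith)
  have hs := intervalIntegral.integral_deriv_smul_comp_of_deriv_nonpos (a := 1) (b := 2)
    (f := fun s : ℝ => s⁻¹) (f' := fun s => -(s ^ 2)⁻¹)
    (g := fun t : ℝ => κ t * ((t ^ d * t⁻¹ : ℝ) : ℂ) * (ee (l₁ * t) - ee (l₀ * t)))
    (continuousOn_id.inv₀ fun s hs => by
      rw [uIcc_of_le (by norm_num)] at hs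
      exact (zero_lt_one.trans_le hs.1).ne')
    (fun s hs => hasDerivAt_inv (by
      have := hs.1
      rw [min_eq_left (by norm_num)] at this
      exact (zero_lt_one.trans this).ne'))
    fun s _ => neg_nonpos.2 (by positivity)
  simp only [inv_one] at hs
  rw [← one_div, intervalIntegral.integral_symm (1 / 2) 1] at hs
  have key : ∫ s in (1 : ℝ)..2, ((s ^ d)⁻¹ : ℝ) *
        ((∫ σ in (1 : ℝ)..2, u (σ / s) / σ) * (ee (l₁ / s) - ee (l₀ / s))) / s =
      ∫ t in (1 / 2 : ℝ)..1, κ t * ((t ^ d * t⁻¹ : ℝ) : ℂ) * (ee (l₁ * t) - ee (l₀ * t)) := by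
    rw [← neg_inj, ← hs, ← intervalIntegral.integral_neg]
    refine intervalIntegral.integral_congr fun s hs => ?_
    rw [uIcc_of_le (by norm_num)] at hs
    have hs0 : 0 < s := zero_lt_one.trans_le hs.1
    have hm : s⁻¹ ∈ Icc (1 / 2 : ℝ) 1 :=
      ⟨by rw [one_div]; exact inv_anti₀ hs0 hs.2, inv_le_one_of_one_le₀ hs.1⟩
    have a1 : (s : ℂ) ≠ 0 := by exact_mod_cast hs0.ne'
    simp only [Function.comp_apply, Complex.real_smul]
    rw [← hk _ hm]
    simp only [← div_eq_mul_inv]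
    push_cast
    rw [inv_pow]
    field_simp
  rw [key]
  refine hc.trans (le_of_eq ?_)
  ring

end Pool.Agent.MP_418f02_an
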