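import Pool.Agent.MP_418f02_an.Four
import Pool.Agent.MP_418f02_an.Geo
import Pool.Agent.MP_418f02_an.Osc

open MeasureTheory Set
open scoped ENNReal RealInnerProductSpace

namespace Pool.Agent.MP_418f02_an

variable {d : ℕ}

lemma l2_ee_norm (t : ℝ) : ‖ee t‖ = 1 := by
  unfold ee
  exact Complex.norm_exp_ofReal_mul_I _

lemma l2_ee_cont : Continuous ee := by
  unfold ee
  fun_prop

lemma l2_ee_sub (t : ℝ) : ‖ee t - 1‖ ≤ 7 * |t| := by
  unfold ee
  rw [mul_comm _ Complex.I]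
  refine Real.norm_exp_I_mul_ofReal_sub_one_le.trans ?_
  rw [Real.norm_eq_abs, abs_mul, abs_mul, abs_of_pos Real.pi_pos]
  have h1 : |(-2 : ℝ)| = 2 := by norm_num
  rw [h1]
  have h2 := Real.pi_lt_d2
  have h3 := abs_nonneg t
  nlinarith

lemma l2_int_ee {f : E d → ℝ} (h : Nice f) (ξ : E d) :
    Integrable fun y : E d => ee ⟪y, ξ⟫ * (f y : ℂ) := by
  have hf : Integrable fun y : E d => (f y : ℂ) := h.integrable.ofReal
  refine hf.bdd_mul (c := 1) ?_ (Filter.Eventually.of_forall fun y => (l2_ee_norm _).le)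
  exact (l2_ee_cont.comp (by fun_prop)).aestronglyMeasurable

theorem mult_low : ∃ C : ℝ, 0 < C ∧ ∀ k : E d → ℝ, IsKer k → ∀ ξ : E d,
    ‖FT (KK k 1) ξ‖ ≤ C * ‖ξ‖ := by
  refine ⟨28 * 8 ^ d, by positivity, fun k hk ξ => ?_⟩
  have hn := KK_nice hk one_pos
  have hf : Integrable fun y : E d => (KK k 1 y : ℂ) := hn.integrable.ofReal
  have h0 : ∫ y, (KK k 1 y : ℂ) = 0 := by
    rw [integral_complex_ofReal, KK_zero hk one_pos]; simp
  have h1 : FT (KK k 1) ξ = ∫ y, (ee ⟪y, ξ⟫ * (KK k 1 y : ℂ) - (KK k 1 y : ℂ)) := by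
    rw [integral_sub (l2_int_ee hn ξ) hf, h0, sub_zero, FT_apply]
  rw [h1]
  have hb : Integrable fun y : E d => 28 * ‖ξ‖ * |KK k 1 y| := hn.abs.integrable.const_mul _
  refine (norm_integral_le_of_norm_le hb (Filter.Eventually.of_forall fun y => ?_)).trans ?_
  · by_cases hy : 4 * 1 < ‖y‖
    · simp [KK_supp hk one_pos hy]
    · have e : ee ⟪y, ξ⟫ * (KK k 1 y : ℂ) - (KK k 1 y : ℂ) = (ee ⟪y, ξ⟫ - 1) * (KK k 1 y : ℂ) := by
        ring
      rw [e, norm_mul, Complex.norm_real, Real.norm_eq_abs]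
      refine mul_le_mul_of_nonneg_right ((l2_ee_sub _).trans ?_) (abs_nonneg _)
      have h2 := abs_real_inner_le_norm y ξ
      have h3 : ‖y‖ * ‖ξ‖ ≤ 4 * ‖ξ‖ := mul_le_mul_of_nonneg_right (by linarith) (norm_nonneg _)
      linarith
  · rw [integral_const_mul]
    have := KK_l1 hk one_pos
    calc 28 * ‖ξ‖ * ∫ y, |KK k 1 y| ≤ 28 * ‖ξ‖ * 8 ^ d := by gcongr
      _ = 28 * 8 ^ d * ‖ξ‖ := by ring

lemma l2_osc (t : ℝ) : ‖∫ s in (1 : ℝ)..2, ee (s * t) / s‖ ≤ 4 * (1 + 2 * |t|)⁻¹ := by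
  have hsub : ∫ s in (1 : ℝ)..2, ee (s * t) / s =
      ∫ u in (1 / 2 : ℝ)..1, ((u : ℂ))⁻¹ * ee (2 * t * u) := by
    have h := intervalIntegral.integral_comp_mul_left (a := 1 / 2) (b := 1)
      (fun s : ℝ => ee (s * t) / s) (c := 2) two_ne_zero
    have e1 : (2 : ℝ) * (1 / 2) = 1 := by norm_num
    rw [e1, mul_one] at h
    have h2 : ∫ u in (1 / 2 : ℝ)..1, ((u : ℂ))⁻¹ * ee (2 * t * u) =
        2 * ∫ x in (1 / 2 : ℝ)..1, ee (2 * x * t) / ((2 * x : ℝ) : ℂ) := by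
      rw [← intervalIntegral.integral_const_mul]
      refine intervalIntegral.integral_congr fun u _ => ?_
      have e : 2 * t * u = 2 * u * t := by ring
      simp only [e]
      push_cast
      by_cases hu : (u : ℂ) = 0
      · simp [hu]
      · field_simp
    rw [h2, h, Complex.real_smul]
    push_cast
    ring
  rw [hsub]
  have hpos : ∀ u ∈ Icc (1 / 2 : ℝ) 1, (u : ℂ) ≠ 0 := fun u hu => by
    have : (0 : ℝ) < u := by linarith [hu.1]
    exact_mod_cast this.ne'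
  have key := osc_parts (φ := fun u : ℝ => ((u : ℂ))⁻¹) (φ' := fun u : ℝ => -((u : ℂ) ^ 2)⁻¹)
    (β := 2) (fun u hu => ?_) ?_ (fun u hu => ?_) ?_ (2 * t)
  · rw [abs_mul, abs_two] at key
    linarith
  · exact (hasDerivAt_inv (hpos u hu)).comp_ofReal
  · refine ContinuousOn.neg (ContinuousOn.inv₀ (by fun_prop) fun u hu => ?_)
    exact pow_ne_zero _ (hpos u hu)
  · have h1 : (0 : ℝ) < u := by linarith [hu.1]
    rw [norm_inv, Complex.norm_real, Real.norm_eq_abs, abs_of_pos h1]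
    rw [inv_le_comm₀ h1 two_pos]
    linarith [hu.1]
  · have hle : ‖∫ u in (1 / 2 : ℝ)..1, ‖-((u : ℂ) ^ 2)⁻¹‖‖ ≤ 4 * |(1 : ℝ) - 1 / 2| := by
      refine intervalIntegral.norm_integral_le_of_norm_le_const fun u hu => ?_
      rw [uIoc_of_le (by norm_num)] at hu
      have h1 : (0 : ℝ) < u := by linarith [hu.1]
      rw [norm_norm, norm_neg, norm_inv, norm_pow, Complex.norm_real, Real.norm_eq_abs,
        abs_of_pos h1, inv_le_comm₀ (by positivity) (by norm_num)]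
      nlinarith [hu.1]
    have := (le_abs_self _).trans hle
    norm_num at this ⊢
    linarith

lemma l2_swap {k : E d → ℝ} (hk : IsKer k) (ξ : E d) :
    FT (KK k 1) ξ = ∫ y, (k y : ℂ) * ∫ s in (1 : ℝ)..2, ee (s * ⟪y, ξ⟫) / s := by
  rw [FT_KK hk one_pos]
  have h1 : ∀ s : ℝ, FT k ((1 * s) • ξ) / s = ∫ y, (k y : ℂ) * (ee (s * ⟪y, ξ⟫) / s) := by
    intro s
    rw [FT_apply, ← integral_div]
    refine integral_congr_ae (Filter.Eventually.of_forall fun y => ?_)
    simp only [one_mul, real_inner_smul_right]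
    ring
  simp only [h1]
  rw [intervalIntegral_integral_swap]
  · simp only [intervalIntegral.integral_const_mul]
  · rw [uIoc_of_le (by norm_num)]
    have hki : Integrable (fun p : ℝ × E d => |k p.2|)
        ((volume.restrict (Ioc (1 : ℝ) 2)).prod volume) := by
      have := (integrable_const (μ := volume.restrict (Ioc (1 : ℝ) 2)) (1 : ℝ)).mul_prod
        hk.nice.abs.integrable
      simpa using this
    refine hki.mono' ?_ ?_
    · have hm := hk.meas
      have he := l2_ee_cont.measurable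
      refine Measurable.aestronglyMeasurable ?_
      unfold Function.uncurry
      fun_prop
    · rw [Measure.ae_prod_iff_ae_ae]
      · filter_upwards [ae_restrict_mem measurableSet_Ioc] with s hs
        refine Filter.Eventually.of_forall fun y => ?_
        simp only [Function.uncurry, norm_mul, norm_div, l2_ee_norm, Complex.norm_real,
          Real.norm_eq_abs]
        have h2 : (0 : ℝ) < s := by linarith [hs.1]
        rw [abs_of_pos h2]
        have h3 : 1 / s ≤ 1 := by rw [div_le_one h2]; exact hs.1.le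
        nlinarith [abs_nonneg (k y)]
      · have hm := hk.meas
        have he := l2_ee_cont.measurable
        refine measurableSet_le ?_ ?_
        · unfold Function.uncurry
          fun_prop
        · fun_prop

theorem mult_high : ∃ C : ℝ, 0 < C ∧ ∀ k : E d → ℝ, IsKer k → ∀ ξ : E d, ξ ≠ 0 →
    ‖FT (KK k 1) ξ‖ ≤ C / √‖ξ‖ := by
  refine ⟨8 * 4 ^ (d - 1) + 2 * 4 ^ d, by positivity, fun k hk ξ hξ => ?_⟩
  have hn : 0 < ‖ξ‖ := norm_pos_iff.mpr hξ
  set r := √‖ξ‖ with hr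
  have hr0 : 0 < r := Real.sqrt_pos.mpr hn
  have hrr : r * r = ‖ξ‖ := Real.mul_self_sqrt hn.le
  set u : E d := ‖ξ‖⁻¹ • ξ with hu
  have hu1 : ‖u‖ = 1 := by
    rw [hu, norm_smul, norm_inv, norm_norm, inv_mul_cancel₀ hn.ne']
  have hin : ∀ y : E d, |⟪y, ξ⟫| = ‖ξ‖ * |⟪y, u⟫| := by
    intro y
    rw [hu, real_inner_smul_right, abs_mul, abs_inv, abs_norm, ← mul_assoc,
      mul_inv_cancel₀ hn.ne', one_mul]
  set S : Set (E d) := {y | ‖y‖ ≤ 2 ∧ |⟪y, u⟫| ≤ r⁻¹} with hS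
  set B : Set (E d) := {y | ‖y - 0‖ ≤ 2} with hB
  have mS : MeasurableSet S := by
    have a1 : MeasurableSet {y : E d | ‖y‖ ≤ 2} := measurableSet_le (by fun_prop) (by fun_prop)
    have a2 : MeasurableSet {y : E d | |⟪y, u⟫| ≤ r⁻¹} :=
      measurableSet_le (by fun_prop) (by fun_prop)
    exact a1.inter a2
  have mB : MeasurableSet B := measurableSet_le (by fun_prop) (by fun_prop)
  have vS := slab_le hu1 (ρ := r⁻¹) (R := 2) (by positivity) (by norm_num)
  have vB := volume_norm_le (0 : E d) (R := 2) (by norm_num)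
  have iS : Integrable (S.indicator fun _ => (4 : ℝ)) :=
    (integrable_indicator_iff mS).mpr (integrableOn_const (vS.trans_lt ENNReal.ofReal_lt_top).ne)
  have iB : Integrable (B.indicator fun _ => (2 / r : ℝ)) :=
    (integrable_indicator_iff mB).mpr (integrableOn_const (vB.trans_lt ENNReal.ofReal_lt_top).ne)
  rw [l2_swap hk]
  refine (norm_integral_le_of_norm_le (iS.add iB) (Filter.Eventually.of_forall fun y => ?_)).trans ?_
  · have p1 : 0 ≤ S.indicator (fun _ => (4 : ℝ)) y := indicator_nonneg (fun _ _ => by norm_num) _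
    have p2 : 0 ≤ B.indicator (fun _ => (2 / r : ℝ)) y :=
      indicator_nonneg (fun _ _ => by positivity) _
    simp only [Pi.add_apply]
    by_cases hy : 2 < ‖y‖
    · simp only [hk.supp y hy, Complex.ofReal_zero, zero_mul, norm_zero]
      linarith
    · have hy2 : ‖y‖ ≤ 2 := not_lt.mp hy
      have hb : ‖(k y : ℂ) * ∫ s in (1 : ℝ)..2, ee (s * ⟪y, ξ⟫) / s‖ ≤
          4 * (1 + 2 * |⟪y, ξ⟫|)⁻¹ := by
        rw [norm_mul, Complex.norm_real, Real.norm_eq_abs]
        have := mul_le_mul (hk.bdd y) (l2_osc ⟪y, ξ⟫) (norm_nonneg _) zero_le_one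
        linarith
      refine hb.trans ?_
      have ha := abs_nonneg ⟪y, ξ⟫
      by_cases hs : |⟪y, u⟫| ≤ r⁻¹
      · have : y ∈ S := ⟨hy2, hs⟩
        rw [indicator_of_mem this]
        have h4 : (1 + 2 * |⟪y, ξ⟫|)⁻¹ ≤ 1 := inv_le_one_of_one_le₀ (by linarith)
        linarith
      · have : y ∈ B := by simpa [hB] using hy2
        rw [indicator_of_mem this]
        have h5 : r ≤ |⟪y, ξ⟫| := by
          rw [hin, ← hrr]
          have h6 : r * r * r⁻¹ ≤ r * r * |⟪y, u⟫| :=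
            mul_le_mul_of_nonneg_left (not_le.mp hs).le (by positivity)
          have h7 : r * r * r⁻¹ = r := by field_simp
          linarith
        have h8 : (1 + 2 * |⟪y, ξ⟫|)⁻¹ ≤ (2 * r)⁻¹ := inv_anti₀ (by positivity) (by linarith)
        have h9 : 4 * (2 * r)⁻¹ = 2 / r := by field_simp; norm_num
        linarith
  · simp only [Pi.add_apply]
    rw [integral_add iS iB, integral_indicator_const _ mS, integral_indicator_const _ mB]
    have wS : volume.real S ≤ 2 * r⁻¹ * (2 * 2) ^ (d - 1) :=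
      ENNReal.toReal_le_of_le_ofReal (by positivity) vS
    have wB : volume.real B ≤ (2 * 2) ^ d := ENNReal.toReal_le_of_le_ofReal (by positivity) vB
    simp only [smul_eq_mul]
    have e4 : (2 * 2 : ℝ) = 4 := by norm_num
    rw [e4] at wS wB
    calc volume.real S * 4 + volume.real B * (2 / r)
        ≤ 2 * r⁻¹ * 4 ^ (d - 1) * 4 + 4 ^ d * (2 / r) := by gcongr
      _ = (8 * 4 ^ (d - 1) + 2 * 4 ^ d) / r := by field_simp; ring

lemma l2_scale {k : E d → ℝ} (hk : IsKer k) {l : ℝ} (hl : 0 < l) (ξ : E d) :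
    FT (KK k l) ξ = FT (KK k 1) (l • ξ) := by
  rw [FT_KK hk hl, FT_KK hk one_pos]
  refine intervalIntegral.integral_congr fun s _ => ?_
  simp only [one_mul, smul_smul, mul_comm s l]

lemma l2_tel (F : ℤ → ℝ) {M : ℝ} (h0 : ∀ j, 0 ≤ F j) (h1 : ∀ j, F j ≤ M) (a b : ℤ) :
    ∑ j ∈ Finset.Icc a b, (F j - F (j + 1)) ≤ M := by
  by_cases hab : b < a
  · rw [Finset.Icc_eq_empty (not_le.mpr hab), Finset.sum_empty]
    exact (h0 0).trans (h1 0)
  · have key : ∀ c, a ≤ c → ∑ j ∈ Finset.Icc a c, (F j - F (j + 1)) = F a - F (c + 1) := by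
      intro c hc
      induction c, hc using Int.leInduction with
      | base => simp
      | succ c hc ih =>
        have e : Finset.Icc a (c + 1) = insert (c + 1) (Finset.Icc a c) := by
          ext x; simp only [Finset.mem_Icc, Finset.mem_insert]; omega
        rw [e, Finset.sum_insert (by simp), ih]
        ring
    rw [key b (not_lt.mp hab)]
    linarith [h0 (b + 1), h1 a]

lemma l2_cmp {x z C : ℝ} (hx : 0 < x) (hC : 0 < C) (h1 : z ≤ C * x) (h2 : z ≤ C / √x) :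
    z ≤ 6 * C * ((1 + √x)⁻¹ - (1 + √(4 * x))⁻¹) := by
  have e4 : √(4 * x) = 2 * √x := by
    rw [Real.sqrt_mul (by norm_num), show (4 : ℝ) = 2 ^ 2 by norm_num, Real.sqrt_sq (by norm_num)]
  rw [e4]
  have ht : 0 < √x := Real.sqrt_pos.mpr hx
  have htt : √x * √x = x := Real.mul_self_sqrt hx.le
  generalize √x = t at *
  have e : (1 + t)⁻¹ - (1 + 2 * t)⁻¹ = t / ((1 + t) * (1 + 2 * t)) := by
    field_simp; ring
  rw [e]
  by_cases h : t ≤ 1
  · refine h1.trans ?_
    have h3 : x ≤ 6 * (t / ((1 + t) * (1 + 2 * t))) := by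
      rw [← mul_div_assoc, le_div_iff₀ (by positivity), ← htt]
      have h4 : (1 + t) * (1 + 2 * t) ≤ 6 := by nlinarith
      have h5 : t * t ≤ t := by nlinarith
      calc t * t * ((1 + t) * (1 + 2 * t)) ≤ t * 6 := by gcongr
        _ = 6 * t := by ring
    nlinarith
  · refine h2.trans ?_
    have h3 : 1 / t ≤ 6 * (t / ((1 + t) * (1 + 2 * t))) := by
      rw [← mul_div_assoc, div_le_div_iff₀ ht (by positivity)]
      nlinarith
    have h4 : C / t = C * (1 / t) := by ring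
    rw [h4]
    nlinarith

lemma l2_mult : ∃ C : ℝ, 0 < C ∧ ∀ k : E d → ℝ, IsKer k → ∀ (a b : ℤ) (ξ : E d),
    ‖∑ j ∈ Finset.Icc a b, FT (KK k (2 ^ (j - 2))) ξ‖ ≤ C := by
  obtain ⟨C₁, p₁, h₁⟩ := mult_low (d := d)
  obtain ⟨C₂, p₂, h₂⟩ := mult_high (d := d)
  refine ⟨6 * (C₁ + C₂) * 2, by positivity, fun k hk a b ξ => ?_⟩
  refine (norm_sum_le _ _).trans ?_
  have hsc : ∀ j : ℤ, FT (KK k (2 ^ (j - 2))) ξ = FT (KK k 1) (((2 : ℝ) ^ (j - 2)) • ξ) :=
    fun j => l2_scale hk (by positivity) ξ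
  simp only [hsc]
  by_cases hξ : ξ = 0
  · have : ‖FT (KK k 1) (0 : E d)‖ = 0 :=
      le_antisymm (by simpa using h₁ k hk 0) (norm_nonneg _)
    simp only [hξ, smul_zero, this, Finset.sum_const_zero]
    positivity
  have hn : 0 < ‖ξ‖ := norm_pos_iff.mpr hξ
  set G : ℤ → ℝ := fun j => (1 + √((2 : ℝ) ^ (j - 2) * ‖ξ‖))⁻¹ with hG
  have G0 : ∀ j, 0 ≤ G j := fun j => by positivity
  have G1 : ∀ j, G j ≤ 1 := fun j =>
    inv_le_one_of_one_le₀ (by linarith [Real.sqrt_nonneg ((2 : ℝ) ^ (j - 2) * ‖ξ‖)])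
  have tel := l2_tel (fun j => G j + G (j + 1)) (M := 2) (fun j => add_nonneg (G0 _) (G0 _))
    (fun j => by linarith [G1 j, G1 (j + 1)]) a b
  refine le_trans ?_ (mul_le_mul_of_nonneg_left tel (by positivity))
  rw [Finset.mul_sum]
  refine Finset.sum_le_sum fun j _ => ?_
  have hp : (0 : ℝ) < 2 ^ (j - 2) := by positivity
  have hnorm : ‖((2 : ℝ) ^ (j - 2)) • ξ‖ = 2 ^ (j - 2) * ‖ξ‖ := by
    rw [norm_smul, Real.norm_eq_abs, abs_of_pos hp]
  have q₁ := h₁ k hk (((2 : ℝ) ^ (j - 2)) • ξ)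
  have q₂ := h₂ k hk (((2 : ℝ) ^ (j - 2)) • ξ) (smul_ne_zero hp.ne' hξ)
  rw [hnorm] at q₁ q₂
  have hx : 0 < (2 : ℝ) ^ (j - 2) * ‖ξ‖ := by positivity
  have c := l2_cmp (C := C₁ + C₂) hx (by positivity) (q₁.trans (by nlinarith))
    (q₂.trans (by gcongr; linarith))
  have e : (4 : ℝ) * (2 ^ (j - 2) * ‖ξ‖) = 2 ^ (j + 1 + 1 - 2) * ‖ξ‖ := by
    rw [show j + 1 + 1 - 2 = (j - 2) + 2 by ring, zpow_add₀ two_ne_zero]
    norm_num
    ring
  rw [e] at c
  refine c.trans (le_of_eq ?_)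
  simp only [hG]
  ring

theorem l2_bound : ∃ C : ℝ, 0 < C ∧ ∀ k g : E d → ℝ, IsKer k → Nice g → ∀ a b : ℤ,
    ∫ x, TT k a b g x ^ 2 ≤ C * ∫ x, g x ^ 2 := by
  obtain ⟨C, p, h⟩ := l2_mult (d := d)
  refine ⟨C ^ 2, by positivity, fun k g hk hg a b => ?_⟩
  obtain ⟨i₁, e₁⟩ := planch (TT_nice hk hg a b)
  obtain ⟨i₂, e₂⟩ := planch hg
  rw [← e₁, ← e₂, ← integral_const_mul]
  refine integral_mono i₁ (i₂.const_mul _) fun ξ => ?_
  have e : FT (TT k a b g) ξ = (∑ j ∈ Finset.Icc a b, FT (KK k (2 ^ (j - 2))) ξ) * FT g ξ := by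
    have := FT_sum (s := Finset.Icc a b) (g := fun j => cv k j g) (fun j _ => cv_nice hk hg j) ξ
    rw [Finset.sum_mul]
    simp only [← FT_cv hk hg]
    exact this
  simp only [e, norm_mul, mul_pow]
  gcongr
  exact h k hk a b ξ

end Pool.Agent.MP_418f02_an
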