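import Pool.Agent.MP_418f02_an.Single

open MeasureTheory Set
open scoped ENNReal RealInnerProductSpace

namespace Pool.Agent.MP_418f02_an

variable {d : ℕ}

/-- the level sets of the height decomposition -/
def levSet (g : E d → ℝ) (μ N : ℝ) (i : ℕ) : Set (E d) :=
  {y | (i = 0 ∨ μ * Real.exp (i * N) < |g y|) ∧ |g y| ≤ μ * Real.exp ((i + 1) * N)}

theorem lev_meas {g : E d → ℝ} (hg : Measurable g) (μ N : ℝ) (i : ℕ) :
    MeasurableSet (levSet g μ N i) :=
  ((MeasurableSet.const _).union (measurableSet_lt measurable_const hg.abs)).inter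
    (measurableSet_le hg.abs measurable_const)

theorem lev_sum (g : E d → ℝ) {μ N : ℝ} (hμ : 0 < μ) (hN : 1 ≤ N) (I : ℕ) (y : E d) :
    ∑ i ∈ Finset.range (I + 1), (levSet g μ N i).indicator g y =
      if |g y| ≤ μ * Real.exp ((I + 1) * N) then g y else 0 := by
  induction I with
  | zero => simp [levSet, indicator]
  | succ I ih =>
    rw [Finset.sum_range_succ, ih]
    have hle : μ * Real.exp ((I + 1) * N) ≤ μ * Real.exp ((((I + 1 : ℕ) : ℝ) + 1) * N) := by
      refine mul_le_mul_of_nonneg_left (Real.exp_le_exp.2 ?_) hμ.le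
      push_cast
      nlinarith
    by_cases h : |g y| ≤ μ * Real.exp ((I + 1) * N)
    · rw [if_pos h, if_pos (le_trans h hle), indicator_of_notMem, add_zero]
      rintro ⟨h1 | h1, -⟩
      · omega
      · push_cast at h1
        linarith
    · rw [if_neg h, zero_add]
      by_cases h2 : |g y| ≤ μ * Real.exp ((((I + 1 : ℕ) : ℝ) + 1) * N)
      · rw [if_pos h2, indicator_of_mem]
        refine ⟨Or.inr ?_, h2⟩
        push_cast
        exact not_le.1 h
      · rw [if_neg h2, indicator_of_notMem]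
        exact fun h3 => h2 h3.2

theorem lev_high {μ N r t : ℝ} (hμ : 0 < μ) (hN : 1 ≤ N) (hr : 1 + 1 / N ≤ r) (i : ℕ)
    (h : μ * Real.exp (i * N) < t) : t ≤ Real.exp (-i) * μ ^ (1 - r) * t ^ r := by
  have hN0 : 0 < N := lt_of_lt_of_le one_pos hN
  have ht : 0 < t := lt_trans (by positivity) h
  have hr1 : 1 ≤ N * (r - 1) := by
    have : 1 / N ≤ r - 1 := by linarith
    rw [div_le_iff₀ hN0] at this
    linarith
  have hr0 : 0 ≤ r - 1 := by
    have : 0 < 1 / N := by positivity
    linarith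
  have h1 : (μ * Real.exp (i * N)) ^ (r - 1) ≤ t ^ (r - 1) :=
    Real.rpow_le_rpow (by positivity) h.le hr0
  rw [Real.mul_rpow hμ.le (Real.exp_pos _).le, ← Real.exp_mul] at h1
  have h2 : Real.exp i ≤ Real.exp (i * N * (r - 1)) := by
    refine Real.exp_le_exp.2 ?_
    have : (0 : ℝ) ≤ i := Nat.cast_nonneg i
    nlinarith
  have h3 : μ ^ (r - 1) * Real.exp i ≤ t ^ (r - 1) :=
    le_trans (mul_le_mul_of_nonneg_left h2 (by positivity)) h1
  have e1 : t ^ r = t ^ (r - 1) * t := by
    rw [← Real.rpow_add_one ht.ne', sub_add_cancel]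
  have e2 : Real.exp (-i) * μ ^ (1 - r) * (μ ^ (r - 1) * Real.exp i) = 1 := by
    rw [mul_assoc, ← mul_assoc (μ ^ (1 - r)), ← Real.rpow_add hμ]
    simp [← Real.exp_add]
  calc t = Real.exp (-i) * μ ^ (1 - r) * (μ ^ (r - 1) * Real.exp i * t) := by
        rw [← mul_assoc, e2, one_mul]
    _ ≤ Real.exp (-i) * μ ^ (1 - r) * t ^ r := by
        rw [e1]
        exact mul_le_mul_of_nonneg_left (mul_le_mul_of_nonneg_right h3 ht.le) (by positivity)

theorem lev_pt (g : E d → ℝ) {μ N r : ℝ} (hμ : 0 < μ) (hN : 1 ≤ N) (hr : 1 + 1 / N ≤ r) (i : ℕ)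
    (y : E d) : |(levSet g μ N i).indicator g y| ≤
      Real.exp (-i) * μ + Real.exp (-i) * μ ^ (1 - r) * |g y| ^ r := by
  have h0 : 0 ≤ Real.exp (-i) * μ ^ (1 - r) * |g y| ^ r := by positivity
  have h1 : 0 ≤ Real.exp (-i) * μ := by positivity
  by_cases hy : y ∈ levSet g μ N i
  · rw [indicator_of_mem hy]
    by_cases h : μ * Real.exp (i * N) < |g y|
    · have := lev_high hμ hN hr i h
      linarith
    · have hi : i = 0 := hy.1.resolve_right h
      subst hi
      simp only [Nat.cast_zero, zero_mul, Real.exp_zero, mul_one, neg_zero, one_mul, not_lt]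
        at h h0 ⊢
      linarith
  · rw [indicator_of_notMem hy, abs_zero]
    linarith

theorem lev_int {g : E d → ℝ} (hg : Nice g) {μ N r : ℝ} (hμ : 0 < μ) (hN : 1 ≤ N)
    (hr : 1 + 1 / N ≤ r) (i : ℕ) {j : ℤ} {x : E d}
    (h : av j (fun y => ENNReal.ofReal |g y| ^ r) x ≤ ENNReal.ofReal μ ^ r) :
    ∫ y in big (cb j x), |(levSet g μ N i).indicator g y| ≤
      2 * μ * Real.exp (-i) * (3 ^ d * sz d j) := by
  have hV : 0 < 3 ^ d * sz d j := mul_pos (by positivity) (sz_pos j)
  have hr0 : 0 ≤ r := by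
    have : 0 < 1 / N := by positivity
    linarith
  unfold av at h
  rw [ENNReal.div_le_iff (by simpa using hV) ENNReal.ofReal_ne_top] at h
  have hp := (hg.indicator (lev_meas hg.meas μ N i)).abs
  rw [integral_eq_lintegral_of_nonneg_ae (Filter.Eventually.of_forall fun y => abs_nonneg _)
    hp.meas.aestronglyMeasurable]
  refine ENNReal.toReal_le_of_le_ofReal (by positivity) ?_
  have h1 : ∀ y, ENNReal.ofReal |(levSet g μ N i).indicator g y| ≤
      ENNReal.ofReal (Real.exp (-i) * μ) +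
        ENNReal.ofReal (Real.exp (-i) * μ ^ (1 - r)) * ENNReal.ofReal |g y| ^ r := fun y => by
    rw [ENNReal.ofReal_rpow_of_nonneg (abs_nonneg _) hr0, ← ENNReal.ofReal_mul (by positivity),
      ← ENNReal.ofReal_add (by positivity) (by positivity)]
    exact ENNReal.ofReal_le_ofReal (lev_pt g hμ hN hr i y)
  refine le_trans (lintegral_mono h1) ?_
  rw [lintegral_add_left measurable_const, lintegral_const_mul' _ _ ENNReal.ofReal_ne_top,
    setLIntegral_const, volume_big]
  refine le_trans (add_le_add le_rfl (mul_le_mul_right h _)) (le_of_eq ?_)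
  rw [ENNReal.ofReal_rpow_of_pos hμ, ← ENNReal.ofReal_mul (by positivity),
    ← ENNReal.ofReal_mul (by positivity), ← ENNReal.ofReal_mul (by positivity),
    ← ENNReal.ofReal_add (by simpa [cb] using (by positivity)) (by positivity)]
  congr 1
  have e : μ ^ (1 - r) * μ ^ r = μ := by
    rw [← Real.rpow_add hμ]
    simp
  simp only [cb]
  calc _ = Real.exp (-i) * μ * (3 ^ d * sz d j) +
        Real.exp (-i) * (μ ^ (1 - r) * μ ^ r) * (3 ^ d * sz d j) := by ring
    _ = _ := by rw [e]; ring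

theorem lev_geom (I : ℕ) : ∑ i ∈ Finset.range I, (2 * (i : ℝ) + 1) * Real.exp (-i) ≤ 6 := by
  have h1 : ∀ I : ℕ, ∑ i ∈ Finset.range I, (2 * (i : ℝ) + 1) * (1 / 2) ^ i =
      6 - (4 * I + 6) * (1 / 2) ^ I := fun I => by
    induction I with
    | zero => simp
    | succ I ih =>
      rw [Finset.sum_range_succ, ih]
      push_cast
      ring
  have h2 : Real.exp (-1) ≤ 1 / 2 := by
    rw [Real.exp_neg, one_div]
    refine inv_anti₀ (by norm_num) ?_
    have := Real.add_one_le_exp 1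
    linarith
  have h3 : ∀ i : ℕ, Real.exp (-i) ≤ (1 / 2) ^ i := fun i => by
    rw [show -(i : ℝ) = i * (-1) by ring, Real.exp_nat_mul]
    exact pow_le_pow_left₀ (Real.exp_pos _).le h2 i
  refine le_trans (Finset.sum_le_sum fun i _ =>
    mul_le_mul_of_nonneg_left (h3 i) (by positivity)) ?_
  rw [h1]
  have : (0 : ℝ) ≤ (4 * I + 6) * (1 / 2) ^ I := by positivity
  linarith

theorem single_r (hd : 1 ≤ d) : ∃ C : ℝ, 0 < C ∧ ∀ k g : E d → ℝ, IsKer k → Nice g →
    ∀ G : ℤ → Set (E d), Stop G → ∀ (W : Cb d) (j₀ : ℤ) (μ N r : ℝ), 0 < μ → 1 ≤ N →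
    1 + 1 / N ≤ r → (∀ j, j₀ ≤ j → j ≤ W.1 → ∀ x ∈ cube W, x ∈ G j →
      av j (fun y => ENNReal.ofReal |g y| ^ r) x ≤ ENNReal.ofReal μ ^ r) → ∀ m : ℝ, 1 ≤ m →
    Mom (TG k G j₀ W.1 g) W m (C * μ * (N + m * √N)) := by
  obtain ⟨C, hC, H⟩ := single hd
  refine ⟨12 * C, by positivity, fun k g hk hg G hG W j₀ μ N r hμ hN hr hav m hm => ?_⟩
  obtain ⟨M, hM⟩ := hg.bdd
  obtain ⟨I, hI⟩ := exists_nat_ge (M / μ)
  have hN0 : 0 < N := lt_of_lt_of_le one_pos hN
  have hm0 : 0 ≤ m := le_trans zero_le_one hm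
  have hI0 : (0 : ℝ) ≤ I := Nat.cast_nonneg I
  have hIM : M ≤ μ * Real.exp ((I + 1) * N) := by
    rw [div_le_iff₀ hμ] at hI
    have := Real.add_one_le_exp ((I + 1) * N)
    have h2 : (I : ℝ) ≤ Real.exp ((I + 1) * N) := by nlinarith
    nlinarith
  have hp : ∀ i, Nice ((levSet g μ N i).indicator g) := fun i =>
    hg.indicator (lev_meas hg.meas μ N i)
  have hsum : g = fun y => ∑ i ∈ Finset.range (I + 1), (levSet g μ N i).indicator g y := by
    funext y
    rw [lev_sum g hμ hN, if_pos (le_trans (hM y) hIM)]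
  have hpiece : ∀ i : ℕ, Mom (TG k G j₀ W.1 ((levSet g μ N i).indicator g)) W m
      (C * (2 * μ * Real.exp (-i)) * ((2 * i + 1) * N + m * √((2 * i + 1) * N))) := fun i => by
    have hi0 : (0 : ℝ) ≤ i := Nat.cast_nonneg i
    refine H k _ hk (hp i) G hG W j₀ _ _ (by positivity) (by nlinarith) (fun x => ?_)
      (fun j h1 h2 x hx hxG => lev_int hg hμ hN hr i (hav j h1 h2 x hx hxG)) m hm
    have h1 : μ * Real.exp ((i + 1) * N) ≤
        2 * μ * Real.exp (-i) * Real.exp ((2 * i + 1) * N) := by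
      rw [mul_assoc (2 * μ), ← Real.exp_add]
      refine mul_le_mul (by linarith) (Real.exp_le_exp.2 ?_) (Real.exp_pos _).le (by positivity)
      nlinarith
    by_cases hx : x ∈ levSet g μ N i
    · rw [indicator_of_mem hx]
      exact le_trans hx.2 h1
    · rw [indicator_of_notMem hx, abs_zero]
      positivity
  have hall := mom_sum (s := Finset.range (I + 1)) (fun i _ => hpiece i)
    (fun i _ => (TG_nice hk (hp i) hG _ _).meas) hm (fun i _ => by positivity)
  refine hall.mono hm0 (Finset.sum_nonneg fun i _ => by positivity) ?_ (fun x _ => ?_)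
  · have h1 : ∀ i ∈ Finset.range (I + 1),
        C * (2 * μ * Real.exp (-i)) * ((2 * i + 1) * N + m * √((2 * i + 1) * N)) ≤
          2 * C * μ * (N + m * √N) * ((2 * (i : ℝ) + 1) * Real.exp (-i)) := fun i _ => by
      have hi0 : (0 : ℝ) ≤ i := Nat.cast_nonneg i
      have h2 : √((2 * i + 1) * N) ≤ (2 * i + 1) * √N := by
        rw [Real.sqrt_mul (by positivity)]
        refine mul_le_mul_of_nonneg_right ?_ (Real.sqrt_nonneg _)
        rw [Real.sqrt_le_left (by positivity)]
        nlinarith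
      have h3 : (2 * i + 1) * N + m * √((2 * i + 1) * N) ≤ (2 * i + 1) * (N + m * √N) := by
        have := mul_le_mul_of_nonneg_left h2 hm0
        nlinarith
      refine le_trans (mul_le_mul_of_nonneg_left h3 (by positivity)) (le_of_eq ?_)
      ring
    refine le_trans (Finset.sum_le_sum h1) ?_
    rw [← Finset.mul_sum]
    refine le_trans (mul_le_mul_of_nonneg_left (lev_geom _) (by positivity)) (le_of_eq ?_)
    ring
  · rw [← TG_sum hk (fun i _ => hp i), ← hsum]

end Pool.Agent.MP_418f02_an
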