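import Pool.Agent.MP_418f02_an.Cv

open MeasureTheory Set
open scoped ENNReal RealInnerProductSpace

namespace Pool.Agent.MP_418f02_an

variable {d : ℕ}

/-- the unit scale kernel of `Ω` -/
noncomputable def kO (Ω : E d → ℝ) (M : ℝ) : E d → ℝ :=
  {y : E d | 1 ≤ ‖y‖ ∧ ‖y‖ ≤ 2}.indicator fun y => Ω (‖y‖⁻¹ • y) / M

theorem lim_meas {Ω : E d → ℝ} (hΩ : Measurable Ω) : Measurable fun y : E d => Ω (‖y‖⁻¹ • y) :=
  hΩ.comp (measurable_norm.inv.smul measurable_id)

theorem isKer_kO {Ω : E d → ℝ} {M : ℝ} (hΩ : Measurable Ω) (hM : 0 < M) (hb : ∀ x, |Ω x| ≤ M)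
    (h0 : ∫ y in {y : E d | 1 ≤ ‖y‖ ∧ ‖y‖ ≤ 2}, Ω (‖y‖⁻¹ • y) = 0) : IsKer (kO Ω M) := by
  have hS : MeasurableSet {y : E d | 1 ≤ ‖y‖ ∧ ‖y‖ ≤ 2} :=
    (measurableSet_le measurable_const measurable_norm).inter
      (measurableSet_le measurable_norm measurable_const)
  refine ⟨((lim_meas hΩ).div_const M).indicator hS, fun y => ?_, fun y hy => ?_, ?_⟩
  · unfold kO
    by_cases hy : y ∈ {y : E d | 1 ≤ ‖y‖ ∧ ‖y‖ ≤ 2}
    · rw [indicator_of_mem hy, abs_div, abs_of_pos hM, div_le_one hM]; exact hb _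
    · rw [indicator_of_notMem hy]; simp
  · exact indicator_of_notMem (fun h => absurd h.2 (not_le.2 hy)) _
  · unfold kO
    rw [integral_indicator hS, integral_div, h0, zero_div]

theorem lim_ind {F g : ℝ → ℝ} {a b : ℝ} (h1 : 1 ≤ a) (hab : a ≤ b) (h2 : b ≤ 2)
    (hF : ∀ t ∈ Ioo a b, F t = g t) (h0 : ∀ t ∈ Icc (1 : ℝ) 2, t < a ∨ b < t → F t = 0) :
    ∫ t in (1 : ℝ)..2, F t = ∫ t in a..b, g t := by
  rw [intervalIntegral.integral_of_le one_le_two, intervalIntegral.integral_of_le hab,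
    integral_Ioc_eq_integral_Ioo, integral_Ioc_eq_integral_Ioo,
    ← setIntegral_congr_fun measurableSet_Ioo hF]
  refine setIntegral_eq_of_subset_of_ae_sdiff_eq_zero measurableSet_Ioo.nullMeasurableSet
    (Ioo_subset_Ioo h1 h2) ?_
  filter_upwards [compl_mem_ae_iff.2 (measure_singleton a),
    compl_mem_ae_iff.2 (measure_singleton b)] with t ha hb ht
  refine h0 t (Ioo_subset_Icc_self ht.1) ?_
  by_contra hc
  push Not at hc
  exact ht.2 ⟨lt_of_le_of_ne hc.1 (Ne.symm ha), lt_of_le_of_ne hc.2 hb⟩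

theorem lim_ab {ρ : ℝ} : ∃ a b : ℝ, 1 ≤ a ∧ a ≤ b ∧ b ≤ 2 ∧ (a = b ∨ a * b = ρ) ∧
    (∀ t ∈ Ioo a b, ρ < 2 * t ∧ t < ρ) ∧
    ∀ t ∈ Icc (1 : ℝ) 2, t < a ∨ b < t → 2 * t < ρ ∨ ρ < t := by
  rcases le_total ρ 1 with h1 | h1
  · exact ⟨1, 1, le_rfl, le_rfl, one_le_two, Or.inl rfl, fun t ht => by
      constructor <;> linarith [ht.1, ht.2], fun t ht h => by
      rcases h with h | h
      · linarith [ht.1]
      · right; linarith⟩
  rcases le_total ρ 2 with h2 | h2
  · exact ⟨1, ρ, le_rfl, h1, h2, Or.inr (one_mul _), fun t ht => by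
      constructor <;> linarith [ht.1, ht.2], fun t ht h => by
      rcases h with h | h
      · linarith [ht.1]
      · right; linarith⟩
  rcases le_total ρ 4 with h4 | h4
  · exact ⟨ρ / 2, 2, by linarith, by linarith, le_rfl, Or.inr (by ring), fun t ht => by
      constructor <;> linarith [ht.1, ht.2], fun t ht h => by
      rcases h with h | h
      · left; linarith
      · linarith [ht.2]⟩
  · exact ⟨2, 2, one_le_two, le_rfl, le_rfl, Or.inl rfl, fun t ht => by
      constructor <;> linarith [ht.1, ht.2], fun t ht h => by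
      rcases h with h | h
      · left; linarith
      · linarith [ht.2]⟩

theorem lim_pow (n : ℕ) {a b : ℝ} (ha : 0 < a) (hab : a ≤ b) :
    ∫ t in a..b, t ^ (n + 1) / t = (b ^ (n + 1) - a ^ (n + 1)) / (n + 1) := by
  rw [← integral_pow]
  refine intervalIntegral.integral_congr fun t ht => ?_
  rw [uIcc_of_le hab] at ht
  have : t ≠ 0 := (ha.trans_le ht.1).ne'
  rw [pow_succ, mul_div_cancel_right₀ _ this]

theorem lim_inv (n : ℕ) {a b : ℝ} (ha : 0 < a) (hab : a ≤ b) :
    ∫ t in a..b, (t ^ (n + 1))⁻¹ / t = (b ^ (n + 1) - a ^ (n + 1)) / (n + 1) / (a * b) ^ (n + 1) := by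
  have hb := ha.trans_le hab
  have h1 : ∫ t in a..b, (t ^ (n + 1))⁻¹ / t = ∫ t in a..b, t ^ (-(n + 2 : ℤ)) := by
    refine intervalIntegral.integral_congr fun t _ => ?_
    rw [zpow_neg, show (n + 2 : ℤ) = ((n + 2 : ℕ) : ℤ) by push_cast; ring, zpow_natCast,
      div_eq_mul_inv, ← mul_inv, ← pow_succ]
  rw [h1, integral_zpow (Or.inr ⟨by omega, by
    rw [uIcc_of_le hab]; exact fun h => absurd h.1 (not_le.2 ha)⟩),
    show -(n + 2 : ℤ) + 1 = -((n + 1 : ℕ) : ℤ) by push_cast; ring, zpow_neg, zpow_neg,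
    zpow_natCast, zpow_natCast]
  push_cast
  have h2 : (-((n : ℝ) + 2) + 1) = -(n + 1) := by ring
  rw [h2, mul_pow]
  field_simp
  ring

theorem KK_kO (Ω : E d → ℝ) (M : ℝ) {l : ℝ} (hl : 0 < l) {y : E d} (hy : y ≠ 0) :
    KK (kO Ω M) l y = Ω (‖y‖⁻¹ • y) / ‖y‖ ^ d / M * ∫ t in (1 : ℝ)..2,
      t ^ d / t * ((if l * t < ‖y‖ then 1 else 0) - if 2 * l * t < ‖y‖ then 1 else 0) := by
  obtain ⟨n, rfl⟩ : ∃ n, d = n + 1 := by
    rcases d with _ | n
    · exact absurd (Subsingleton.elim _ _) hy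
    · exact ⟨n, rfl⟩
  have hy0 : 0 < ‖y‖ := norm_pos_iff.2 hy
  obtain ⟨a, b, h1, hab, h2, h3, h4, h5⟩ := lim_ab (ρ := ‖y‖ / l)
  have ha : 0 < a := one_pos.trans_le h1
  have hn : ∀ s : ℝ, 0 < s → ‖(l * s)⁻¹ • y‖ = ‖y‖ / l / s := fun s hs => by
    rw [norm_smul, norm_inv, Real.norm_of_nonneg (by positivity)]; field_simp
  have e1 : KK (kO Ω M) l y = ∫ s in a..b,
      Ω (‖y‖⁻¹ • y) / M / l ^ (n + 1) * ((s ^ (n + 1))⁻¹ / s) := by
    refine lim_ind h1 hab h2 (fun s hs => ?_) fun s hs h => ?_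
    · have hs0 : 0 < s := ha.trans hs.1
      obtain ⟨k1, k2⟩ := h4 s hs
      have hm : (l * s)⁻¹ • y ∈ {y : E (n + 1) | 1 ≤ ‖y‖ ∧ ‖y‖ ≤ 2} := by
        constructor
        · rw [hn s hs0, le_div_iff₀ hs0]; linarith
        · rw [hn s hs0, div_le_iff₀ hs0]; linarith
      rw [kO, indicator_of_mem hm, hn s hs0, smul_smul,
        show (‖y‖ / l / s)⁻¹ * (l * s)⁻¹ = ‖y‖⁻¹ by field_simp, mul_pow]
      field_simp
    · have hs0 : 0 < s := one_pos.trans_le hs.1
      have hm : (l * s)⁻¹ • y ∉ {y : E (n + 1) | 1 ≤ ‖y‖ ∧ ‖y‖ ≤ 2} := by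
        rintro ⟨k1, k2⟩
        rw [hn s hs0, le_div_iff₀ hs0] at k1
        rw [hn s hs0, div_le_iff₀ hs0] at k2
        rcases h5 s hs h with h | h <;> linarith
      rw [kO, indicator_of_notMem hm]; simp
  have e2 : ∫ t in (1 : ℝ)..2, t ^ (n + 1) / t *
      ((if l * t < ‖y‖ then 1 else 0) - if 2 * l * t < ‖y‖ then 1 else 0) =
      ∫ t in a..b, t ^ (n + 1) / t := by
    refine lim_ind h1 hab h2 (fun s hs => ?_) fun s hs h => ?_
    · obtain ⟨k1, k2⟩ := h4 s hs
      rw [div_lt_iff₀ hl] at k1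
      rw [lt_div_iff₀ hl] at k2
      rw [if_pos (by linarith), if_neg (by linarith)]; simp
    · have hs0 : 0 < l * s := mul_pos hl (one_pos.trans_le hs.1)
      rcases h5 s hs h with k | k
      · rw [lt_div_iff₀ hl] at k
        rw [if_pos (by linarith), if_pos (by linarith)]; simp
      · rw [div_lt_iff₀ hl] at k
        rw [if_neg (by linarith), if_neg (by linarith)]; simp
  rw [e1, e2, intervalIntegral.integral_const_mul, lim_pow n ha hab, lim_inv n ha hab]
  rcases h3 with rfl | h3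
  · simp
  · rw [h3, div_pow]
    field_simp

/-- the integrand of the smoothly truncated integral -/
noncomputable def limH (d : ℕ) (G : E d → ℝ) (l t : ℝ) (y : E d) : ℝ :=
  t ^ d / t * (if l * t < ‖y‖ then 1 else 0) * G y

theorem lim_int {Ω f : E d → ℝ} {M : ℝ} (hΩ : Measurable Ω) (hb : ∀ x, |Ω x| ≤ M) (hf : Nice f)
    (x : E d) {l : ℝ} (hl : 0 < l) :
    Integrable (Function.uncurry (limH d (fun y => Ω (‖y‖⁻¹ • y) / ‖y‖ ^ d * f (x - y)) l))
      ((volume.restrict (Ioc (1 : ℝ) 2)).prod volume) := by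
  have hM : 0 ≤ M := (abs_nonneg _).trans (hb 0)
  have hi : Integrable fun y => |f (x - y)| := (hf.integrable.comp_sub_left x).abs
  have hc : Integrable (fun _ : ℝ => 2 ^ d * (M / l ^ d)) (volume.restrict (Ioc (1 : ℝ) 2)) :=
    integrable_const _
  refine (hc.mul_prod hi).mono' (Measurable.aestronglyMeasurable ?_) ?_
  · refine Measurable.mul (Measurable.mul (by fun_prop) ?_) ?_
    · exact Measurable.ite (measurableSet_lt (by fun_prop) (by fun_prop)) measurable_const
        measurable_const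
    · exact ((((lim_meas hΩ).div (measurable_norm.pow_const d)).mul
        (hf.meas.comp (measurable_const.sub measurable_id))).comp measurable_snd)
  · filter_upwards [Measure.quasiMeasurePreserving_fst.ae (ae_restrict_mem measurableSet_Ioc)]
      with p hp
    obtain ⟨t, y⟩ := p
    have ht0 : 0 < t := one_pos.trans hp.1
    simp only [Function.uncurry_apply_pair, limH]
    split_ifs with h
    · have h1 : l ≤ ‖y‖ := (le_mul_of_one_le_right hl.le hp.1.le).trans h.le
      rw [mul_one, Real.norm_eq_abs, abs_mul, abs_mul, ← mul_assoc, abs_of_pos (by positivity),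
        abs_div, abs_pow, abs_norm]
      have h2 : t ^ d / t ≤ 2 ^ d :=
        (div_le_self (by positivity) hp.1.le).trans (pow_le_pow_left₀ ht0.le hp.2 d)
      gcongr
      exact hb _
    · rw [mul_zero, zero_mul, norm_zero]; positivity

theorem lim_inner (G : E d → ℝ) (l t : ℝ) :
    ∫ y, limH d G l t y = t ^ d / t * ∫ y in {y : E d | l * t < ‖y‖}, G y := by
  rw [← integral_indicator (measurableSet_lt measurable_const measurable_norm),
    ← integral_const_mul]
  refine integral_congr_ae (Filter.Eventually.of_forall fun y => ?_)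
  simp only [limH, indicator, mem_ofPred_eq]
  split_ifs <;> simp

theorem lim_ii (c r : ℝ) : IntervalIntegrable
    (fun t : ℝ => t ^ d / t * if c * t < r then (1 : ℝ) else 0) volume 1 2 := by
  rw [intervalIntegrable_iff_integrableOn_Ioc_of_le one_le_two]
  refine Measure.integrableOn_of_bounded (M := 2 ^ d) measure_Ioc_lt_top.ne
    (Measurable.aestronglyMeasurable ?_) ?_
  · exact Measurable.mul (by fun_prop) (Measurable.ite
      (measurableSet_lt (by fun_prop) measurable_const) measurable_const measurable_const)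
  · filter_upwards [ae_restrict_mem measurableSet_Ioc] with t ht
    have ht0 : 0 < t := one_pos.trans ht.1
    split_ifs
    · rw [mul_one, Real.norm_of_nonneg (by positivity)]
      exact (div_le_self (by positivity) ht.1.le).trans (pow_le_pow_left₀ ht0.le ht.2 d)
    · rw [mul_zero, norm_zero]; positivity

theorem lim_cv (hd : 1 ≤ d) {Ω f : E d → ℝ} {M : ℝ} (hΩ : Measurable Ω) (hb : ∀ x, |Ω x| ≤ M)
    (hf : Nice f) (x : E d) {l : ℝ} (hl : 0 < l) :
    ∫ y, KK (kO Ω M) l (x - y) * f y = M⁻¹ *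
      ((∫ t in Ioc (1 : ℝ) 2, ∫ y, limH d (fun y => Ω (‖y‖⁻¹ • y) / ‖y‖ ^ d * f (x - y)) l t y) -
      ∫ t in Ioc (1 : ℝ) 2, ∫ y,
        limH d (fun y => Ω (‖y‖⁻¹ • y) / ‖y‖ ^ d * f (x - y)) (2 * l) t y) := by
  have i1 := lim_int hΩ hb hf x hl
  have i2 := lim_int hΩ hb hf x (l := 2 * l) (by positivity)
  have : Nonempty (Fin d) := ⟨⟨0, hd⟩⟩
  have j1 := i1.integral_prod_right
  have j2 := i2.integral_prod_right
  simp only [Function.uncurry_apply_pair] at j1 j2
  rw [integral_integral_swap i1, integral_integral_swap i2,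
    ← integral_sub j1 j2, ← integral_const_mul,
    ← integral_sub_left_eq_self _ volume x]
  refine integral_congr_ae ?_
  filter_upwards [compl_mem_ae_iff.2 (measure_singleton (0 : E d))] with y hy
  rw [sub_sub_cancel, KK_kO Ω M hl hy]
  simp only [limH, integral_mul_const, mul_sub]
  rw [intervalIntegral.integral_sub (lim_ii _ _) (lim_ii _ _),
    intervalIntegral.integral_of_le one_le_two, intervalIntegral.integral_of_le one_le_two]
  ring

theorem lim_tele (S : ℤ → ℝ) (J : ℕ) :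
    ∑ j ∈ Finset.Icc (-J : ℤ) J, (S j - S (j + 1)) = S (-J) - S (J + 1) := by
  induction J with
  | zero => simp
  | succ J ih =>
    have : Finset.Icc (-(J + 1 : ℕ) : ℤ) (J + 1 : ℕ) =
        insert (-(J + 1 : ℤ)) (insert (J + 1 : ℤ) (Finset.Icc (-J : ℤ) J)) := by
      ext j; simp only [Finset.mem_Icc, Finset.mem_insert]; omega
    rw [this, Finset.sum_insert (by simp only [Finset.mem_Icc, Finset.mem_insert]; omega),
      Finset.sum_insert (by simp only [Finset.mem_Icc]; omega), ih]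
    push_cast
    rw [show -((J : ℤ) + 1) + 1 = -J by ring]
    ring

theorem TT_tendsto (hd : 1 ≤ d) {Ω f : E d → ℝ} {M T : ℝ} (hΩ : Measurable Ω)
    (hb : ∀ x, |Ω x| ≤ M) (hk : IsKer (kO Ω M)) (hf : Nice f) (x : E d)
    (hT : Filter.Tendsto (fun ε : ℝ => ∫ y in {y : E d | ε < ‖y‖},
      Ω (‖y‖⁻¹ • y) / ‖y‖ ^ d * f (x - y)) (nhdsWithin 0 (Ioi 0)) (nhds T)) :
    Filter.Tendsto (fun J : ℕ => TT (kO Ω M) (-J) J f x) Filter.atTop
      (nhds ((2 ^ d - 1) / d / M * T)) := by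
  have _ := hk
  set G : E d → ℝ := fun y => Ω (‖y‖⁻¹ • y) / ‖y‖ ^ d * f (x - y) with hG
  set S : ℤ → ℝ := fun j => ∫ t in Ioc (1 : ℝ) 2, ∫ y, limH d G (2 ^ (j - 2)) t y with hS
  have e1 : ∀ J : ℕ, TT (kO Ω M) (-J) J f x = M⁻¹ * (S (-J) - S (J + 1)) := fun J => by
    rw [← lim_tele, Finset.mul_sum, TT, ps]
    refine Finset.sum_congr rfl fun j _ => ?_
    rw [cv, lim_cv hd hΩ hb hf x (by positivity), hS]
    simp only
    rw [show j + 1 - 2 = 1 + (j - 2) by ring, zpow_add₀ two_ne_zero, zpow_one]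
  have t1 : Filter.Tendsto (fun J : ℕ => S (J + 1)) Filter.atTop (nhds 0) := by
    obtain ⟨R, hR⟩ := hf.supp
    refine tendsto_const_nhds.congr' ?_
    have h2 : Filter.Tendsto (fun J : ℕ => (2 : ℝ) ^ J) Filter.atTop Filter.atTop :=
      tendsto_pow_atTop_atTop_of_one_lt one_lt_two
    filter_upwards [h2.eventually_ge_atTop (2 * (R + ‖x‖))] with J hJ
    refine (setIntegral_eq_zero_of_forall_eq_zero fun t ht => ?_).symm
    rw [lim_inner, setIntegral_eq_zero_of_forall_eq_zero fun y hy => ?_, mul_zero]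
    have h3 : (2 : ℝ) ^ ((J : ℤ) + 1 - 2) = 2 ^ J / 2 := by
      rw [show (J : ℤ) + 1 - 2 = J - 1 by ring, zpow_sub₀ two_ne_zero, zpow_natCast, zpow_one]
    have h4 : (2 : ℝ) ^ J / 2 < ‖y‖ := by
      have h5 : (2 : ℝ) ^ ((J : ℤ) + 1 - 2) * t < ‖y‖ := hy
      rw [h3] at h5
      exact (le_mul_of_one_le_right (by positivity) ht.1.le).trans_lt h5
    have h6 := norm_sub_norm_le y x
    rw [hG]
    simp only
    rw [hR _ (by rw [norm_sub_rev]; linarith), mul_zero]
  have t2 : Filter.Tendsto (fun J : ℕ => S (-J)) Filter.atTop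
      (nhds (∫ t in Ioc (1 : ℝ) 2, t ^ d / t * T)) := by
    have hl : Filter.Tendsto (fun J : ℕ => (2 : ℝ) ^ (-(J : ℤ) - 2)) Filter.atTop (nhds 0) := by
      have h2 := (tendsto_pow_atTop_nhds_zero_of_lt_one (r := (2 : ℝ)⁻¹) (by norm_num)
        (by norm_num)).div_const 4
      rw [zero_div] at h2
      refine h2.congr fun J => ?_
      rw [zpow_sub₀ two_ne_zero, zpow_neg, zpow_natCast, inv_pow]; norm_num
    refine tendsto_integral_filter_of_dominated_convergence (fun _ => 2 ^ d * (|T| + 1))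
      (Filter.Eventually.of_forall fun J =>
        (lim_int hΩ hb hf x (by positivity)).integral_prod_left.aestronglyMeasurable) ?_
      (integrable_const _) ?_
    · have h1 := hT.eventually (Metric.ball_mem_nhds T one_pos)
      rw [eventually_nhdsWithin_iff, Metric.eventually_nhds_iff] at h1
      obtain ⟨δ, hδ, h1⟩ := h1
      filter_upwards [hl.eventually_lt_const (half_pos hδ)] with J hJ
      filter_upwards [ae_restrict_mem measurableSet_Ioc] with t ht
      have ht0 : 0 < t := one_pos.trans ht.1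
      have hp : (0 : ℝ) < 2 ^ (-(J : ℤ) - 2) := by positivity
      have h3 := h1 (y := 2 ^ (-(J : ℤ) - 2) * t) (by
        rw [Real.dist_eq, sub_zero, abs_of_pos (by positivity)]
        nlinarith [ht.2]) (mul_pos hp ht0)
      rw [lim_inner, norm_mul, Real.norm_of_nonneg (by positivity), Real.norm_eq_abs]
      have h2 : t ^ d / t ≤ 2 ^ d :=
        (div_le_self (by positivity) ht.1.le).trans (pow_le_pow_left₀ ht0.le ht.2 d)
      rw [Real.dist_eq] at h3
      have h4 := abs_sub_abs_le_abs_sub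
        (∫ y in {y : E d | 2 ^ (-(J : ℤ) - 2) * t < ‖y‖}, G y) T
      gcongr
      linarith
    · filter_upwards [ae_restrict_mem measurableSet_Ioc] with t ht
      have ht0 : 0 < t := one_pos.trans ht.1
      simp only [lim_inner]
      refine (hT.comp (tendsto_nhdsWithin_iff.2 ⟨?_, Filter.Eventually.of_forall fun J => ?_⟩)).const_mul _
      · simpa using hl.mul_const t
      · exact mul_pos (by positivity) ht0
  have e2 : (2 ^ d - 1) / d / M * T = M⁻¹ * ((∫ t in Ioc (1 : ℝ) 2, t ^ d / t * T) - 0) := by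
    obtain ⟨n, rfl⟩ : ∃ n, d = n + 1 := ⟨d - 1, by omega⟩
    rw [integral_mul_const, ← intervalIntegral.integral_of_le one_le_two,
      lim_pow n one_pos one_le_two]
    push_cast
    ring
  rw [e2]
  simp only [e1]
  exact (t2.sub t1).const_mul _

end Pool.Agent.MP_418f02_an
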