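import Pool.Agent.MP_418f02_an.Four
import Pool.Agent.MP_418f02_an.Geo
import Pool.Agent.MP_418f02_an.Osc

open MeasureTheory Set
open scoped ENNReal RealInnerProductSpace

namespace Pool.Agent.MP_418f02_an

variable {d : ℕ}

theorem gam_nonneg (k : E d → ℝ) (a : E d) (e : ℝ) : 0 ≤ Gam k a e := by
  unfold Gam
  exact integral_nonneg fun ζ => mul_nonneg (sq_nonneg _) (sq_nonneg _)

theorem psi_le {k : E d → ℝ} (h : IsKer k) {l r : ℝ} (hl : 0 < l) (hr : 0 < r) (a : E d) :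
    |Psi k l r a| ≤ 8 ^ d * (l ^ d)⁻¹ := by
  unfold Psi
  have hn : Nice fun z => KK k r (z - a) := (KK_nice h hr).shift a
  have h1 : |∫ z, KK k l z * KK k r (z - a)| ≤ ∫ z, (l ^ d)⁻¹ * |KK k r (z - a)| := by
    rw [← Real.norm_eq_abs]
    refine norm_integral_le_of_norm_le (hn.abs.const_mul _).integrable
      (Filter.Eventually.of_forall fun z => ?_)
    rw [Real.norm_eq_abs, abs_mul]
    exact mul_le_mul_of_nonneg_right (KK_le h hl z) (abs_nonneg _)
  refine h1.trans ?_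
  rw [integral_const_mul, integral_sub_right_eq_self (fun z => |KK k r z|) a, mul_comm]
  exact mul_le_mul_of_nonneg_right (KK_l1 h hr) (by positivity)

theorem psi_supp {k : E d → ℝ} (h : IsKer k) {l r : ℝ} (hr : 0 < r) (hrl : r ≤ l) {a : E d}
    (ha : 8 * l < ‖a‖) : Psi k l r a = 0 := by
  unfold Psi
  have hl : 0 < l := hr.trans_le hrl
  have : ∀ z : E d, KK k l z * KK k r (z - a) = 0 := by
    intro z
    by_cases hz : 4 * l < ‖z‖
    · rw [KK_supp h hl hz, zero_mul]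
    · have h2 : ‖a‖ ≤ ‖z‖ + ‖z - a‖ := by
        calc ‖a‖ = ‖z - (z - a)‖ := by rw [sub_sub_cancel]
          _ ≤ _ := norm_sub_le _ _
      rw [KK_supp h hr (y := z - a) (by linarith), mul_zero]
  simp [this]

theorem psi_nice {k : E d → ℝ} (h : IsKer k) {l r : ℝ} (hr : 0 < r) (hrl : r ≤ l) :
    Nice (Psi k l r) := by
  have hl : 0 < l := hr.trans_le hrl
  refine ⟨?_, ⟨_, psi_le h hl hr⟩, ⟨8 * l, fun a ha => psi_supp h hr hrl ha⟩⟩
  have hm : Measurable fun p : E d × E d => KK k l p.2 * KK k r (p.2 - p.1) :=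
    ((KK_nice h hl).meas.comp measurable_snd).mul
      ((KK_nice h hr).meas.comp (measurable_snd.sub measurable_fst))
  exact (hm.stronglyMeasurable.integral_prod_right' (ν := volume)).measurable

/-- Cauchy-Schwarz on the interval `[1/2, 2]` -/
theorem psi_cs {f : ℝ → ℝ} (hf : Continuous f) :
    (∫ σ in (1 / 2 : ℝ)..2, f σ) ^ 2 ≤ 3 / 2 * ∫ σ in (1 / 2 : ℝ)..2, f σ ^ 2 := by
  set I := ∫ σ in (1 / 2 : ℝ)..2, f σ with hI
  have h0 : 0 ≤ ∫ σ in (1 / 2 : ℝ)..2, (f σ - 2 / 3 * I) ^ 2 :=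
    intervalIntegral.integral_nonneg (by norm_num) fun _ _ => sq_nonneg _
  have e : ∀ σ, (f σ - 2 / 3 * I) ^ 2 = f σ ^ 2 - (4 / 3 * I) * f σ + 4 / 9 * I ^ 2 := by
    intro σ; ring
  have i1 : IntervalIntegrable (fun σ => f σ ^ 2) volume (1 / 2) 2 :=
    (hf.pow 2).intervalIntegrable _ _
  have i2 : IntervalIntegrable (fun σ => (4 / 3 * I) * f σ) volume (1 / 2) 2 :=
    (continuous_const.mul hf).intervalIntegrable _ _
  simp only [e] at h0
  rw [intervalIntegral.integral_add (i1.sub i2) intervalIntegrable_const,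
    intervalIntegral.integral_sub i1 i2, intervalIntegral.integral_const_mul,
    intervalIntegral.integral_const, ← hI, smul_eq_mul] at h0
  nlinarith

/-- the weight in `Gam` -/
noncomputable def psiWt (a : E d) (e : ℝ) (ζ : E d) : ℝ := (1 + |⟪a, ζ⟫| / (‖ζ‖ * e))⁻¹ ^ 2

theorem psi_wt_smul (a : E d) (e : ℝ) {c : ℝ} (hc : 0 < c) (ζ : E d) :
    psiWt a e (c • ζ) = psiWt a e ζ := by
  unfold psiWt
  rw [real_inner_smul_right, abs_mul, norm_smul, Real.norm_eq_abs, mul_assoc,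
    mul_div_mul_left _ _ (abs_pos.2 hc.ne').ne']

theorem psi_wt_meas (a : E d) (e : ℝ) : Measurable (psiWt a e) := by
  unfold psiWt
  have h1 : Measurable fun ζ : E d => ⟪a, ζ⟫ := (continuous_const.inner continuous_id).measurable
  have h2 : Measurable fun ζ : E d => |⟪a, ζ⟫| := continuous_abs.measurable.comp h1
  exact ((measurable_const.add (h2.div (measurable_norm.mul_const e))).inv).pow_const 2

theorem psi_wt_le (a : E d) {e : ℝ} (he : 0 < e) (ζ : E d) : psiWt a e ζ ≤ 1 := by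
  unfold psiWt
  have h0 : 0 ≤ |⟪a, ζ⟫| / (‖ζ‖ * e) := by positivity
  exact pow_le_one₀ (by positivity) (inv_le_one_of_one_le₀ (by linarith))

theorem psi_G_int {k : E d → ℝ} (h : IsKer k) (a : E d) {e : ℝ} (he : 0 < e) :
    Integrable fun ζ => ‖FT k ζ‖ ^ 2 * psiWt a e ζ := by
  have hm : Measurable fun ζ => ‖FT k ζ‖ ^ 2 * psiWt a e ζ :=
    (((FT_cont h.nice).norm.pow 2).measurable).mul (psi_wt_meas a e)
  refine (planch h.nice).1.mono' hm.aestronglyMeasurable (Filter.Eventually.of_forall fun ζ => ?_)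
  have h0 : 0 ≤ psiWt a e ζ := sq_nonneg _
  rw [Real.norm_eq_abs, abs_of_nonneg (by positivity)]
  exact mul_le_of_le_one_right (sq_nonneg _) (psi_wt_le a he ζ)

/-- Fubini and the change of variables -/
theorem psi_fub {G : E d → ℝ} (hm : Measurable G) (hG : Integrable G) (h0 : ∀ x, 0 ≤ G x)
    {r : ℝ} (hr : 0 < r) :
    Integrable (fun η : E d => ∫ σ in Ioc (1 / 2 : ℝ) 2, G ((r * σ) • η)) ∧
      ∫ η : E d, ∫ σ in Ioc (1 / 2 : ℝ) 2, G ((r * σ) • η) ≤
        3 / 2 * 2 ^ d * (r ^ d)⁻¹ * ∫ x, G x := by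
  have hI : 0 ≤ ∫ x, G x := integral_nonneg h0
  have hH : Measurable fun p : ℝ × E d => G ((r * p.1) • p.2) :=
    hm.comp ((measurable_fst.const_mul r).smul measurable_snd)
  have hval : ∀ σ ∈ Ioc (1 / 2 : ℝ) 2,
      ∫ η : E d, G ((r * σ) • η) ≤ 2 ^ d * (r ^ d)⁻¹ * ∫ x, G x := by
    intro σ hσ
    have hσ0 : 0 < σ := by linarith [hσ.1]
    rw [Measure.integral_comp_smul, finrank_euclideanSpace_fin, smul_eq_mul,
      abs_of_nonneg (by positivity)]
    refine mul_le_mul_of_nonneg_right ?_ hI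
    rw [mul_pow, mul_inv, mul_comm]
    refine mul_le_mul_of_nonneg_right ?_ (by positivity)
    rw [← inv_pow]
    refine pow_le_pow_left₀ (by positivity) ?_ d
    rw [inv_le_comm₀ hσ0 (by norm_num)]
    linarith [hσ.1]
  have hint : Integrable (fun p : ℝ × E d => G ((r * p.1) • p.2))
      ((volume.restrict (Ioc (1 / 2 : ℝ) 2)).prod volume) := by
    rw [integrable_prod_iff hH.aestronglyMeasurable]
    constructor
    · filter_upwards [ae_restrict_mem measurableSet_Ioc] with σ hσ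
      have hσ0 : 0 < σ := by linarith [hσ.1]
      exact hG.comp_smul (by positivity)
    · refine Integrable.of_bound
        (hH.norm.stronglyMeasurable.integral_prod_right' (ν := volume)).aestronglyMeasurable
        (2 ^ d * (r ^ d)⁻¹ * ∫ x, G x) ?_
      filter_upwards [ae_restrict_mem measurableSet_Ioc] with σ hσ
      have e : ∀ η : E d, ‖G ((r * σ) • η)‖ = G ((r * σ) • η) := fun η =>
        Real.norm_of_nonneg (h0 _)
      simp only [e]
      rw [Real.norm_of_nonneg (integral_nonneg fun η => h0 _)]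
      exact hval σ hσ
  refine ⟨hint.integral_prod_right, ?_⟩
  rw [← integral_integral_swap (f := fun (σ : ℝ) (η : E d) => G ((r * σ) • η)) hint]
  have h2 : ∫ σ in Ioc (1 / 2 : ℝ) 2, ∫ η : E d, G ((r * σ) • η) ≤
      ∫ _σ in Ioc (1 / 2 : ℝ) 2, 2 ^ d * (r ^ d)⁻¹ * ∫ x, G x :=
    setIntegral_mono_on hint.integral_prod_left (integrable_const _) measurableSet_Ioc hval
  refine h2.trans (le_of_eq ?_)
  rw [setIntegral_const, smul_eq_mul, Real.volume_real_Ioc_of_le (by norm_num)]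
  ring

theorem psi_FT {k : E d → ℝ} (h : IsKer k) {r : ℝ} (hr : 0 < r) (a a₀ η : E d) :
    FT (ray fun z => KK k r (z - a) - KK k r (z - a₀)) η =
      ∫ s in (1 : ℝ)..2, ((s ^ d)⁻¹ : ℝ) *
        ((∫ σ in (1 : ℝ)..2, FT k ((r * (σ / s)) • η) / σ) *
          (ee (⟪a, η⟫ / s) - ee (⟪a₀, η⟫ / s))) / s := by
  have n1 : Nice fun z => KK k r (z - a) := (KK_nice h hr).shift a
  have n0 : Nice fun z => KK k r (z - a₀) := (KK_nice h hr).shift a₀
  rw [FT_ray (n1.sub n0)]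
  refine intervalIntegral.integral_congr fun s _ => ?_
  have e1 : ∀ b : E d, ⟪b, s⁻¹ • η⟫ = ⟪b, η⟫ / s := fun b => by
    rw [real_inner_smul_right, div_eq_inv_mul]
  have e2 : ∀ σ : ℝ, (r * σ) • s⁻¹ • η = (r * (σ / s)) • η := fun σ => by
    rw [smul_smul, div_eq_mul_inv, mul_assoc]
  rw [FT_sub n1 n0, FT_shift, FT_shift, FT_KK h hr, e1, e1]
  simp only [e2]
  ring

theorem ray_l2 (hd : 1 ≤ d) : ∃ C : ℝ, 0 < C ∧ ∀ k : E d → ℝ, IsKer k → ∀ (r e : ℝ) (a a₀ : E d),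
    0 < r → 0 < e → ‖a - a₀‖ ≤ d * e →
    ∫ y, ray (fun z => KK k r (z - a) - KK k r (z - a₀)) y ^ 2 ≤ C * (r ^ d)⁻¹ * Gam k a₀ e := by
  obtain ⟨C, hC, hosc⟩ := osc_main d
  refine ⟨C ^ 2 * (3 / 2) * (3 / 2 * 2 ^ d), by positivity, fun k h r e a a₀ hr he ha => ?_⟩
  have n1 : Nice fun z => KK k r (z - a) := (KK_nice h hr).shift a
  have n0 : Nice fun z => KK k r (z - a₀) := (KK_nice h hr).shift a₀
  have hm : Measurable fun ζ => ‖FT k ζ‖ ^ 2 * psiWt a₀ e ζ :=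
    (((FT_cont h.nice).norm.pow 2).measurable).mul (psi_wt_meas a₀ e)
  obtain ⟨hi, hle⟩ := psi_fub hm (psi_G_int h a₀ he)
    (fun x => mul_nonneg (sq_nonneg _) (sq_nonneg _)) hr
  rw [← (planch (ray_nice (n1.sub n0))).2]
  have hne : ∀ᵐ η : E d, η ≠ 0 := by
    have : Nonempty (Fin d) := ⟨⟨0, hd⟩⟩
    exact Measure.ae_ne volume 0
  have hpt : ∀ᵐ η : E d, ‖FT (ray fun z => KK k r (z - a) - KK k r (z - a₀)) η‖ ^ 2 ≤
      C ^ 2 * (3 / 2) * ∫ σ in Ioc (1 / 2 : ℝ) 2,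
        ‖FT k ((r * σ) • η)‖ ^ 2 * psiWt a₀ e ((r * σ) • η) := by
    filter_upwards [hne] with η hη
    have hρ : 0 < ‖η‖ := norm_pos_iff.2 hη
    have hu : Continuous fun t : ℝ => FT k ((r * t) • η) :=
      (FT_cont h.nice).comp ((continuous_const.mul continuous_id).smul continuous_const)
    have hl : |⟪a, η⟫ - ⟪a₀, η⟫| ≤ d * e * ‖η‖ := by
      rw [← inner_sub_left]
      exact (abs_real_inner_le_norm _ _).trans (mul_le_mul_of_nonneg_right ha hρ.le)
    have h1 := hosc (fun t => FT k ((r * t) • η)) hu ‖η‖ e ⟪a₀, η⟫ ⟪a, η⟫ hρ he hl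
    rw [← psi_FT h hr] at h1
    have h2 := pow_le_pow_left₀ (norm_nonneg _) h1 2
    refine h2.trans ?_
    have h3 := psi_cs hu.norm
    have h4 : ∫ σ in Ioc (1 / 2 : ℝ) 2, ‖FT k ((r * σ) • η)‖ ^ 2 * psiWt a₀ e ((r * σ) • η) =
        (∫ σ in (1 / 2 : ℝ)..2, ‖FT k ((r * σ) • η)‖ ^ 2) * psiWt a₀ e η := by
      rw [intervalIntegral.integral_of_le (by norm_num), ← integral_mul_const]
      refine setIntegral_congr_fun measurableSet_Ioc fun σ hσ => ?_
      have hσ0 : 0 < σ := by linarith [hσ.1]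
      rw [psi_wt_smul _ _ (by positivity)]
    rw [h4, mul_pow, mul_pow]
    have h5 : 0 ≤ psiWt a₀ e η := sq_nonneg _
    calc C ^ 2 * (∫ σ in (1 / 2 : ℝ)..2, ‖FT k ((r * σ) • η)‖) ^ 2 * psiWt a₀ e η
        ≤ C ^ 2 * (3 / 2 * ∫ σ in (1 / 2 : ℝ)..2, ‖FT k ((r * σ) • η)‖ ^ 2) * psiWt a₀ e η := by
          gcongr
      _ = _ := by ring
  have h6 := integral_mono_ae (planch (ray_nice (n1.sub n0))).1 (hi.const_mul _) hpt
  refine h6.trans ?_
  rw [integral_const_mul]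
  calc _ ≤ C ^ 2 * (3 / 2) * (3 / 2 * 2 ^ d * (r ^ d)⁻¹ *
        ∫ x, ‖FT k x‖ ^ 2 * psiWt a₀ e x) := by gcongr
    _ = _ := by unfold Gam psiWt; ring

theorem psi_scale (k : E d → ℝ) {l : ℝ} (hl : 0 < l) (r : ℝ) (a : E d) :
    Psi k l r a = (l ^ d)⁻¹ * Psi k 1 (r / l) (l⁻¹ • a) := by
  unfold Psi
  have h1 := Measure.integral_comp_smul (volume : Measure (E d))
    (fun z => KK k l z * KK k r (z - a)) l
  rw [finrank_euclideanSpace_fin, smul_eq_mul, abs_of_nonneg (by positivity)] at h1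
  have e : ∀ w : E d, KK k l (l • w) * KK k r (l • w - a) =
      (l ^ d)⁻¹ * ((l ^ d)⁻¹ * (KK k 1 w * KK k (r / l) (w - l⁻¹ • a))) := by
    intro w
    have e1 := KK_scale k hl 1 w
    have e2 := KK_scale k hl (r / l) (w - l⁻¹ • a)
    rw [mul_one] at e1
    rw [mul_div_cancel₀ _ hl.ne', smul_sub, smul_inv_smul₀ hl.ne'] at e2
    rw [e1, e2]; ring
  simp only [e] at h1
  rw [integral_const_mul, integral_const_mul] at h1
  exact (mul_left_cancel₀ (by positivity) h1).symm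

theorem psi_gam_scale (k : E d → ℝ) {l : ℝ} (hl : 0 < l) (a : E d) (e : ℝ) :
    Gam k (l⁻¹ • a) (e / l) = Gam k a e := by
  unfold Gam
  congr 1
  ext ζ
  rw [real_inner_smul_left, abs_mul, abs_of_pos (inv_pos.2 hl), div_eq_inv_mul e l,
    mul_left_comm, mul_div_mul_left _ _ (inv_pos.2 hl).ne']

theorem psi_tube_cpt (a : E d) (ρ : ℝ) :
    IsCompact {y : E d | ∃ s ∈ Icc (1 : ℝ) 2, ‖s • y - a‖ ≤ ρ} := by
  have e : {y : E d | ∃ s ∈ Icc (1 : ℝ) 2, ‖s • y - a‖ ≤ ρ} =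
      (fun p : ℝ × E d => p.1 • p.2) '' (Icc (1 / 2 : ℝ) 1 ×ˢ Metric.closedBall a ρ) := by
    ext y
    constructor
    · rintro ⟨s, hs, h⟩
      have hs0 : 0 < s := by linarith [hs.1]
      refine ⟨(s⁻¹, s • y), ⟨⟨?_, inv_le_one_of_one_le₀ hs.1⟩, ?_⟩, inv_smul_smul₀ hs0.ne' y⟩
      · rw [one_div]; exact inv_anti₀ hs0 hs.2
      · rwa [mem_closedBall_iff_norm]
    · rintro ⟨⟨t, x⟩, ⟨ht, hx⟩, rfl⟩
      have ht0 : 0 < t := by linarith [ht.1]
      refine ⟨t⁻¹, ⟨(one_le_inv₀ ht0).2 ht.2, ?_⟩, ?_⟩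
      · rw [inv_le_comm₀ ht0 (by norm_num)]; linarith [ht.1]
      · rw [inv_smul_smul₀ ht0.ne']; rwa [mem_closedBall_iff_norm] at hx
  rw [e]
  exact (isCompact_Icc.prod (isCompact_closedBall a ρ)).image (continuous_fst.smul continuous_snd)

theorem psi_diff_one (hd : 1 ≤ d) : ∃ C : ℝ, 0 < C ∧ ∀ k : E d → ℝ, IsKer k →
    ∀ (r e : ℝ) (a a₀ : E d), 0 < r → r ≤ 1 → 0 < e → e ≤ 4 * r → ‖a₀‖ ≤ 8 + 4 * d →
    ‖a - a₀‖ ≤ d * e → |Psi k 1 r a - Psi k 1 r a₀| ≤ C * √(Gam k a₀ e / r) := by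
  obtain ⟨C, hC, hray⟩ := ray_l2 hd
  set B : ℝ := 2 * (12 + 8 * d) * (2 * (4 + 4 * d)) ^ (d - 1) with hB
  have hB0 : 0 < B := by positivity
  refine ⟨√(B * C), by positivity, fun k h r e a a₀ hr hr1 he her ha₀ ha => ?_⟩
  have hd0 : (0 : ℝ) ≤ d := Nat.cast_nonneg d
  have n1 : Nice fun z => KK k r (z - a) := (KK_nice h hr).shift a
  have n0 : Nice fun z => KK k r (z - a₀) := (KK_nice h hr).shift a₀
  have nK := KK_nice h one_pos
  set T := {y : E d | ∃ s ∈ Icc (1 : ℝ) 2, ‖s • y - a₀‖ ≤ (4 + 4 * d) * r} with hT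
  have hTc : IsCompact T := psi_tube_cpt _ _
  have hTm : MeasurableSet T := hTc.measurableSet
  have hoff : ∀ y, y ∉ T → ray (fun z => KK k r (z - a) - KK k r (z - a₀)) y = 0 := by
    intro y hy
    unfold ray
    rw [intervalIntegral.integral_congr (g := fun _ => 0), intervalIntegral.integral_zero]
    intro s hs
    rw [uIcc_of_le (by norm_num)] at hs
    have h1 : (4 + 4 * d) * r < ‖s • y - a₀‖ := by
      by_contra hc
      exact hy ⟨s, hs, not_lt.1 hc⟩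
    have h2 : ‖s • y - a₀‖ ≤ ‖s • y - a‖ + ‖a - a₀‖ := norm_sub_le_norm_sub_add_norm_sub _ _ _
    have h3 : d * e ≤ d * (4 * r) := mul_le_mul_of_nonneg_left her hd0
    have h4 : 0 ≤ d * r := by positivity
    simp only []
    rw [KK_supp h hr (y := s • y - a) (by nlinarith), KK_supp h hr (y := s • y - a₀) (by nlinarith)]
    simp
  have e1 : Psi k 1 r a - Psi k 1 r a₀ =
      ∫ y, T.indicator k y * ray (fun z => KK k r (z - a) - KK k r (z - a₀)) y := by
    unfold Psi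
    rw [← integral_sub (nK.mul n1).integrable (nK.mul n0).integrable]
    simp only [← mul_sub]
    rw [KK_pair h (n1.sub n0)]
    congr 1
    ext y
    by_cases hy : y ∈ T
    · rw [indicator_of_mem hy]
    · rw [hoff y hy, mul_zero, mul_zero]
  have e2 : ∫ y, T.indicator k y ^ 2 ≤ B * r ^ (d - 1) := by
    have h1 : ∫ y, T.indicator k y ^ 2 ≤ ∫ y, T.indicator (fun _ => (1 : ℝ)) y := by
      refine integral_mono (h.nice.indicator hTm).sq.integrable
        (nice_indicator hTm hTc.isBounded 1).integrable fun y => ?_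
      by_cases hy : y ∈ T
      · simp only [indicator_of_mem hy]
        exact (sq_le_one_iff_abs_le_one _).2 (h.bdd y)
      · simp [indicator_of_notMem hy]
    refine h1.trans ?_
    rw [integral_indicator hTm, setIntegral_const, smul_eq_mul, mul_one]
    have h2 := tube_le hd a₀ (ρ := (4 + 4 * d) * r) (by positivity)
    have h3 : volume.real T ≤ 2 * (‖a₀‖ + (4 + 4 * d) * r) * (2 * ((4 + 4 * d) * r)) ^ (d - 1) :=
      ENNReal.toReal_le_of_le_ofReal (by positivity) h2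
    refine h3.trans ?_
    rw [hB, ← mul_assoc 2 (4 + 4 * (d : ℝ)) r, mul_pow, ← mul_assoc]
    have h4 : ‖a₀‖ + (4 + 4 * d) * r ≤ 12 + 8 * d := by nlinarith
    gcongr
  have e3 := hray k h r e a a₀ hr he ha
  have hg := gam_nonneg k a₀ e
  rw [e1]
  refine ((h.nice.indicator hTm).cs (ray_nice (n1.sub n0))).trans ?_
  calc _ ≤ √(B * r ^ (d - 1)) * √(C * (r ^ d)⁻¹ * Gam k a₀ e) := by gcongr
    _ = _ := by
      rw [← Real.sqrt_mul (by positivity), ← Real.sqrt_mul (by positivity)]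
      congr 1
      obtain ⟨n, rfl⟩ : ∃ n, d = n + 1 := ⟨d - 1, by omega⟩
      rw [Nat.add_sub_cancel, pow_succ]
      field_simp

theorem psi_diff (hd : 1 ≤ d) : ∃ C : ℝ, 0 < C ∧ ∀ k : E d → ℝ, IsKer k →
    ∀ (l r e : ℝ) (a a₀ : E d), 0 < r → r ≤ l → 0 < e → e ≤ 4 * r → ‖a₀‖ ≤ (8 + 4 * d) * l →
    ‖a - a₀‖ ≤ d * e → |Psi k l r a - Psi k l r a₀| ≤ C * (l ^ d)⁻¹ * √(l * Gam k a₀ e / r) := by
  obtain ⟨C, hC, hone⟩ := psi_diff_one hd
  refine ⟨C, hC, fun k h l r e a a₀ hr hrl he her ha₀ ha => ?_⟩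
  have hl : 0 < l := hr.trans_le hrl
  have h1 := hone k h (r / l) (e / l) (l⁻¹ • a) (l⁻¹ • a₀) (by positivity)
    ((div_le_one hl).2 hrl) (by positivity)
    (by rw [← mul_div_assoc]; gcongr)
    (by rw [norm_smul, Real.norm_of_nonneg (by positivity), inv_mul_le_iff₀ hl, mul_comm]
        exact ha₀)
    (by rw [← smul_sub, norm_smul, Real.norm_of_nonneg (by positivity), ← mul_div_assoc,
          div_eq_inv_mul]
        gcongr)
  rw [psi_gam_scale k hl] at h1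
  rw [psi_scale k hl r a, psi_scale k hl r a₀, ← mul_sub, abs_mul, abs_of_nonneg (by positivity)]
  have e1 : Gam k a₀ e / (r / l) = l * Gam k a₀ e / r := by field_simp
  rw [e1] at h1
  calc _ ≤ (l ^ d)⁻¹ * (C * √(l * Gam k a₀ e / r)) := by gcongr
    _ = _ := by ring

end Pool.Agent.MP_418f02_an
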