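import Pool.Agent.MP_418f02_an.Cube2

open MeasureTheory Set
open scoped ENNReal RealInnerProductSpace

namespace Pool.Agent.MP_418f02_an

variable {d : ℕ}

theorem cube_diff {w : E d → ℝ} (hw : LocallyIntegrable w volume) :
    ∀ᵐ x : E d, Filter.Tendsto (fun n : ℕ => (∫ y in cube (cb (-n) x), w y) / sz d (-n))
      Filter.atTop (nhds (w x)) := by
  filter_upwards [IsUnifLocDoublingMeasure.ae_tendsto_average_norm_sub volume hw 1] with x hx
  have hδ : Filter.Tendsto (fun n : ℕ => ((d : ℝ) + 1) * 2 ^ (-(n : ℤ))) Filter.atTop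
      (nhdsWithin 0 (Ioi 0)) := by
    refine tendsto_nhdsWithin_iff.2 ⟨?_, Filter.Eventually.of_forall fun n => ?_⟩
    · have := (tendsto_pow_atTop_nhds_zero_of_lt_one (r := (2 : ℝ)⁻¹) (by norm_num)
        (by norm_num)).const_mul ((d : ℝ) + 1)
      simpa using this
    · exact mem_Ioi.2 (by positivity)
  have h1 := (hx (fun _ => x) _ hδ (Filter.Eventually.of_forall fun n =>
    Metric.mem_closedBall_self (by positivity))).const_mul ((2 * ((d : ℝ) + 1)) ^ d)
  rw [mul_zero] at h1
  rw [tendsto_iff_norm_sub_tendsto_zero]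
  refine squeeze_zero (fun _ => norm_nonneg _) (fun n => ?_) h1
  set ρ : ℝ := ((d : ℝ) + 1) * 2 ^ (-(n : ℤ)) with hρ
  have hρ0 : 0 < ρ := by positivity
  have hs := sz_pos (d := d) (-(n : ℤ))
  have hsub : cube (cb (-(n : ℤ)) x) ⊆ Metric.closedBall x ρ := fun y hy => by
    have := norm_sub_le_of_cube hy (mem_cube_cb _ x)
    rw [mem_closedBall_iff_norm]
    refine this.trans ?_
    simp only [cb, hρ]
    gcongr
    linarith
  have hi : IntegrableOn w (Metric.closedBall x ρ) :=
    hw.integrableOn_isCompact (isCompact_closedBall x ρ)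
  have hc : IntegrableOn (fun _ => w x) (Metric.closedBall x ρ) :=
    integrableOn_const measure_closedBall_lt_top.ne
  have hv : volume.real (cube (cb (-(n : ℤ)) x)) = sz d (-(n : ℤ)) := by
    rw [Measure.real, volume_cube, ENNReal.toReal_ofReal (sz_pos _).le]
    rfl
  have hb0 : 0 < volume.real (Metric.closedBall x ρ) :=
    ENNReal.toReal_pos (Metric.measure_closedBall_pos _ _ hρ0).ne' measure_closedBall_lt_top.ne
  have hb1 : volume.real (Metric.closedBall x ρ) ≤ (2 * ((d : ℝ) + 1)) ^ d * sz d (-(n : ℤ)) := by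
    refine ENNReal.toReal_le_of_le_ofReal (by positivity) ?_
    have := volume_norm_le x hρ0.le
    rw [sz, ← mul_pow, mul_assoc]
    simpa only [Metric.closedBall, dist_eq_norm] using this
  have e1 : (∫ y in cube (cb (-(n : ℤ)) x), w y) / sz d (-(n : ℤ)) - w x =
      (∫ y in cube (cb (-(n : ℤ)) x), (w y - w x)) / sz d (-(n : ℤ)) := by
    rw [integral_sub (hi.mono_set hsub) (hc.mono_set hsub), setIntegral_const, hv, smul_eq_mul]
    field_simp
  have e2 : ‖∫ y in cube (cb (-(n : ℤ)) x), (w y - w x)‖ ≤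
      ∫ y in Metric.closedBall x ρ, ‖w y - w x‖ :=
    (norm_integral_le_integral_norm _).trans (setIntegral_mono_set (hi.sub hc).norm
      (Filter.Eventually.of_forall fun _ => norm_nonneg _) hsub.eventuallyLE)
  have e3 : 0 ≤ ∫ y in Metric.closedBall x ρ, ‖w y - w x‖ := integral_nonneg fun _ => norm_nonneg _
  rw [e1, norm_div, Real.norm_of_nonneg hs.le, setAverage_eq, smul_eq_mul, div_le_iff₀ hs]
  refine e2.trans ?_
  calc _ = volume.real (Metric.closedBall x ρ) * ((volume.real (Metric.closedBall x ρ))⁻¹ *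
        ∫ y in Metric.closedBall x ρ, ‖w y - w x‖) := by field_simp
    _ ≤ (2 * ((d : ℝ) + 1)) ^ d * sz d (-(n : ℤ)) * ((volume.real (Metric.closedBall x ρ))⁻¹ *
        ∫ y in Metric.closedBall x ρ, ‖w y - w x‖) := by gcongr
    _ = _ := by ring

theorem rh_int {w : E d → ℝ} {A : ℝ} (h : A1 w A) (c : Cb d) {S : Set (E d)} (hS : S ⊆ big c) :
    IntegrableOn w S :=
  (h.loc.integrableOn_isCompact (isBounded_big c).isCompact_closure).mono_set
    (hS.trans subset_closure)

theorem rh_ofReal {w : E d → ℝ} {A : ℝ} (h : A1 w A) (c : Cb d) :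
    ENNReal.ofReal (∫ x in cube c, w x) = ∫⁻ x in cube c, ENNReal.ofReal (w x) :=
  ofReal_integral_eq_lintegral_ofReal (rh_int h c (cube_subset_big c))
    (Filter.Eventually.of_forall fun y => (h.pos y).le)

theorem rh_level {w : E d → ℝ} {A : ℝ} (h : A1 w A) (c : Cb d) {t : ℝ}
    (ht : ∫ x in cube c, w x ≤ t * sz d c.1) :
    ∫⁻ x in {x ∈ cube c | t < w x}, ENNReal.ofReal (w x) ≤
      ENNReal.ofReal (2 ^ d * t) * volume {x ∈ cube c | t < A * w x} := by
  obtain ⟨T, hTS, hdj, hcov, hmax⟩ := exists_maximal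
    {P : Cb d | P.1 ≤ c.1 ∧ cube P ⊆ cube c ∧ t * sz d P.1 < ∫ x in cube P, w x} c.1
    fun P hP => hP.1
  have hTc : T.Countable := T.to_countable
  have h1 : {x ∈ cube c | t < w x} ≤ᵐ[volume] ⋃ P ∈ T, cube P := by
    filter_upwards [cube_diff h.loc] with x hx hxc
    obtain ⟨n, hn1, hn2⟩ := ((hx.eventually (lt_mem_nhds hxc.2)).and
      (Filter.eventually_ge_atTop (-c.1).toNat)).exists
    have hl : -(n : ℤ) ≤ c.1 := by omega
    obtain ⟨P, hP, -, hsub⟩ := hcov (cb (-n) x)
      ⟨hl, (lm_cube c).cube_subset hl (mem_cube_cb _ x) hxc.1, (lt_div_iff₀ (sz_pos _)).1 hn1⟩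
    exact mem_biUnion hP (hsub (mem_cube_cb _ x))
  have h2 : ∀ P ∈ T, ∫ x in cube P, w x ≤ 2 ^ d * t * sz d P.1 := fun P hP => by
    obtain ⟨x, hx⟩ := cube_nonempty P
    obtain ⟨l1, l2, l3⟩ := hTS hP
    have hlt : P.1 + 1 ≤ c.1 := by
      refine lt_of_le_of_ne l1 fun e => ?_
      have : P = c := by rw [← cb_eq_of_mem hx, e, cb_eq_of_mem (l2 hx)]
      rw [this] at l3
      exact l3.not_ge ht
    have hsub : cube P ⊆ cube (cb (P.1 + 1) x) :=
      (lm_cube (cb (P.1 + 1) x)).cube_subset (by simp [cb]) hx (mem_cube_cb _ x)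
    have hn : ∫ y in cube (cb (P.1 + 1) x), w y ≤ t * sz d (P.1 + 1) := by
      by_contra hn
      have := hmax P hP (cb (P.1 + 1) x) ⟨hlt, (lm_cube c).cube_subset hlt (mem_cube_cb _ x) (l2 hx),
        not_le.1 hn⟩ (by simp [cb]) hsub
      have := congrArg Prod.fst this
      simp [cb] at this
    have e := sz_add (d := d) P.1 1
    rw [Nat.cast_one, pow_one] at e
    refine (setIntegral_mono_set (rh_int h _ (cube_subset_big _))
      (Filter.Eventually.of_forall fun y => (h.pos y).le) hsub.eventuallyLE).trans (hn.trans_eq ?_)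
    rw [e]
    ring
  have h3 : (⋃ P ∈ T, cube P) ≤ᵐ[volume] {x ∈ cube c | t < A * w x} := by
    filter_upwards [ae_all_iff.2 h.le] with x hx hxT
    obtain ⟨P, hP, hxP⟩ := mem_iUnion₂.1 hxT
    obtain ⟨-, l2, l3⟩ := hTS hP
    refine ⟨l2 hxP, lt_of_mul_lt_mul_right ?_ (sz_pos (d := d) P.1).le⟩
    have e := hx P.1
    rw [cb_eq_of_mem hxP] at e
    have := setIntegral_mono_set (rh_int h P subset_rfl)
      (Filter.Eventually.of_forall fun y => (h.pos y).le) (cube_subset_big P).eventuallyLE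
    linarith
  have ht0 : 0 ≤ t := by
    have := (integral_nonneg fun y => (h.pos y).le).trans ht
    exact nonneg_of_mul_nonneg_left this (sz_pos _)
  calc _ ≤ ∫⁻ x in ⋃ P ∈ T, cube P, ENNReal.ofReal (w x) := lintegral_mono_set' h1
    _ = ∑' P : T, ∫⁻ x in cube P.1, ENNReal.ofReal (w x) :=
        lintegral_biUnion hTc (fun P _ => measurableSet_cube P) hdj _
    _ ≤ ∑' P : T, ENNReal.ofReal (2 ^ d * t) * volume (cube P.1) := by
        refine ENNReal.tsum_le_tsum fun P => ?_
        rw [← rh_ofReal h, volume_cube, ← ENNReal.ofReal_mul (by positivity)]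
        exact ENNReal.ofReal_le_ofReal (h2 P.1 P.2)
    _ = ENNReal.ofReal (2 ^ d * t) * volume (⋃ P ∈ T, cube P) := by
        rw [ENNReal.tsum_mul_left, measure_biUnion hTc hdj fun P _ => measurableSet_cube P]
    _ ≤ _ := mul_le_mul_right (measure_mono_ae h3) _

theorem rh_const {A : ℝ} (hA : 1 ≤ A) :
    1 / (2 ^ (d + 2) * A) * 2 ^ d * A ^ (1 + 1 / (2 ^ (d + 2) * A)) ≤ 1 / 2 := by
  have h0 : 0 < A := zero_lt_one.trans_le hA
  have h1 : A ^ (1 / (2 ^ (d + 2) * A)) ≤ 2 := by
    have e1 : Real.log A * (1 / (2 ^ (d + 2) * A)) ≤ 1 / 2 := by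
      rw [mul_one_div, div_le_iff₀ (by positivity)]
      have := Real.log_le_sub_one_of_pos h0
      have h2 : (1 : ℝ) ≤ 2 ^ d := one_le_pow₀ one_le_two
      rw [pow_add]
      nlinarith
    rw [Real.rpow_def_of_pos h0]
    refine (Real.exp_le_exp.2 e1).trans ?_
    have := Real.exp_one_lt_d9
    have e2 : Real.exp (1 / 2) * Real.exp (1 / 2) = Real.exp 1 := by
      rw [← Real.exp_add]
      norm_num
    nlinarith [Real.exp_pos (1 / 2)]
  rw [Real.rpow_add h0, Real.rpow_one]
  calc _ = A ^ (1 / (2 ^ (d + 2) * A)) / 4 := by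
        field_simp
        ring
    _ ≤ _ := by linarith

theorem rh_trunc {w : E d → ℝ} {A : ℝ} (h : A1 w A) (c : Cb d) {M : ℝ} (hM : 0 ≤ M) :
    ∫⁻ x in cube c, ENNReal.ofReal (w x) * ENNReal.ofReal (min (w x) M ^ (1 / (2 ^ (d + 2) * A))) ≤
      ENNReal.ofReal
        (2 * ((∫ x in cube c, w x) / sz d c.1) ^ (1 + 1 / (2 ^ (d + 2) * A)) * sz d c.1) := by
  have hA : 0 < A := zero_lt_one.trans_le h.one_le
  have hc := rh_const (d := d) h.one_le
  set ε : ℝ := 1 / (2 ^ (d + 2) * A) with hε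
  have hε0 : 0 < ε := by positivity
  have hs := sz_pos (d := d) c.1
  set a : ℝ := (∫ x in cube c, w x) / sz d c.1 with ha
  have ha0 : 0 ≤ a := div_nonneg (integral_nonneg fun y => (h.pos y).le) hs.le
  have haw : ∫ x in cube c, w x = a * sz d c.1 := (div_mul_cancel₀ _ hs.ne').symm
  have hwm := h.meas.ennreal_ofReal
  set ν : Measure (E d) := volume.restrict (cube c) with hν
  set μ : Measure (E d) := ν.withDensity fun x => ENNReal.ofReal (w x) with hμ
  have hμu : μ univ = ENNReal.ofReal (a * sz d c.1) := by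
    rw [hμ, withDensity_apply _ MeasurableSet.univ, Measure.restrict_univ, ← rh_ofReal h, haw]
  have hm1 : Measurable fun x => min (w x) M := h.meas.min measurable_const
  have hm2 : Measurable fun x => min (A * w x) M := (h.meas.const_mul A).min measurable_const
  have hp1 : ∀ x, 0 ≤ min (w x) M := fun x => le_min (h.pos x).le hM
  have hp2 : ∀ x, 0 ≤ min (A * w x) M := fun x => le_min (mul_pos hA (h.pos x)).le hM
  set J := ∫⁻ x, ENNReal.ofReal (w x) * ENNReal.ofReal (min (w x) M ^ ε) ∂ν with hJ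
  have hJμ : J = ∫⁻ x, ENNReal.ofReal (min (w x) M ^ ε) ∂μ :=
    (lintegral_withDensity_eq_lintegral_mul _ hwm (hm1.pow_const _).ennreal_ofReal).symm
  have hJt : J ≠ ∞ := by
    refine ne_top_of_le_ne_top (b := ∫⁻ _, ENNReal.ofReal (M ^ ε) ∂μ) ?_ ?_
    · rw [lintegral_const, hμu]
      exact ENNReal.mul_ne_top ENNReal.ofReal_ne_top ENNReal.ofReal_ne_top
    · rw [hJμ]
      exact lintegral_mono fun x => ENNReal.ofReal_le_ofReal
        (Real.rpow_le_rpow (hp1 x) (min_le_right _ _) hε0.le)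
  have l1 := lintegral_rpow_eq_lintegral_meas_lt_mul μ (Filter.Eventually.of_forall hp1)
    hm1.aemeasurable hε0
  have l2 := lintegral_rpow_eq_lintegral_meas_lt_mul μ (f := fun _ => a)
    (Filter.Eventually.of_forall fun _ => ha0) aemeasurable_const hε0
  have l3 := lintegral_rpow_eq_lintegral_meas_lt_mul ν (Filter.Eventually.of_forall hp2)
    hm2.aemeasurable (p := 1 + ε) (by linarith)
  have key : ∀ t ∈ Ioi (0 : ℝ), μ {x | t < min (w x) M} * ENNReal.ofReal (t ^ (ε - 1)) ≤
      μ {_x | t < a} * ENNReal.ofReal (t ^ (ε - 1)) + ENNReal.ofReal (2 ^ d) *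
        (ν {x | t < min (A * w x) M} * ENNReal.ofReal (t ^ (1 + ε - 1))) := fun t ht => by
    have ht0 : 0 < t := ht
    rcases lt_or_ge t a with h1 | h1
    · refine le_add_right (mul_le_mul_left (measure_mono fun x _ => h1) _)
    rcases lt_or_ge t M with h2 | h2
    · have e1 := rh_level h c (t := t) (haw ▸ mul_le_mul_of_nonneg_right h1 hs.le)
      have e2 : μ {x | t < min (w x) M} =
          ∫⁻ x in {x ∈ cube c | t < w x}, ENNReal.ofReal (w x) := by
        rw [hμ, withDensity_apply _ (measurableSet_lt measurable_const hm1), hν,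
          Measure.restrict_restrict (measurableSet_lt measurable_const hm1)]
        congr 2
        ext x
        simp [h2, and_comm]
      have e3 : ν {x | t < min (A * w x) M} = volume {x ∈ cube c | t < A * w x} := by
        rw [hν, Measure.restrict_apply (measurableSet_lt measurable_const hm2)]
        congr 1
        ext x
        simp [h2, and_comm]
      have e4 : ENNReal.ofReal (t ^ (1 + ε - 1)) = ENNReal.ofReal t * ENNReal.ofReal (t ^ (ε - 1)) := by
        rw [← ENNReal.ofReal_mul ht0.le, show 1 + ε - 1 = 1 + (ε - 1) by ring, Real.rpow_add ht0,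
          Real.rpow_one]
      refine le_add_left ?_
      rw [e2, e3, e4]
      refine (mul_le_mul_left e1 _).trans_eq ?_
      rw [ENNReal.ofReal_mul (by positivity)]
      ring
    · have : {x | t < min (w x) M} = ∅ :=
        eq_empty_of_forall_notMem fun x hx => (lt_min_iff.1 hx).2.not_ge h2
      rw [this, measure_empty, zero_mul]
      exact zero_le
  have l4 : ∫⁻ x, ENNReal.ofReal (min (A * w x) M ^ (1 + ε)) ∂ν ≤
      ENNReal.ofReal (A ^ (1 + ε)) * J := by
    rw [hJ, ← lintegral_const_mul' _ _ ENNReal.ofReal_ne_top]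
    refine lintegral_mono fun x => ?_
    rw [← ENNReal.ofReal_mul (h.pos x).le, ← ENNReal.ofReal_mul (by positivity)]
    refine ENNReal.ofReal_le_ofReal ?_
    have e1 : min (A * w x) M ≤ A * min (w x) M := by
      rw [mul_min_of_nonneg _ _ hA.le]
      exact min_le_min le_rfl (le_mul_of_one_le_left hM h.one_le)
    rw [Real.rpow_add' (hp2 x) (by linarith), Real.rpow_add hA, Real.rpow_one, Real.rpow_one]
    calc _ ≤ A * w x * (A * min (w x) M) ^ ε :=
          mul_le_mul (min_le_left _ _) (Real.rpow_le_rpow (hp2 x) e1 hε0.le)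
            (Real.rpow_nonneg (hp2 x) _) (mul_pos hA (h.pos x)).le
      _ = _ := by
          rw [Real.mul_rpow hA.le (hp1 x)]
          ring
  have l5 : J ≤ ENNReal.ofReal (a ^ (1 + ε) * sz d c.1) + ENNReal.ofReal (1 / 2) * J := by
    have hma : Measurable fun t : ℝ => μ {_x | t < a} * ENNReal.ofReal (t ^ (ε - 1)) := by
      refine Measurable.mul (Antitone.measurable fun s t hst => measure_mono fun x hx => ?_)
        (measurable_id.pow_const _).ennreal_ofReal
      exact lt_of_le_of_lt hst hx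
    calc J = _ := hJμ
      _ = _ := l1
      _ ≤ ENNReal.ofReal ε * ∫⁻ t in Ioi (0 : ℝ), (μ {_x | t < a} * ENNReal.ofReal (t ^ (ε - 1)) +
          ENNReal.ofReal (2 ^ d) *
            (ν {x | t < min (A * w x) M} * ENNReal.ofReal (t ^ (1 + ε - 1)))) :=
          mul_le_mul_right (setLIntegral_mono' measurableSet_Ioi key) _
      _ = ∫⁻ _, ENNReal.ofReal (a ^ ε) ∂μ + ENNReal.ofReal ε * ENNReal.ofReal (2 ^ d) *
          ∫⁻ t in Ioi (0 : ℝ), ν {x | t < min (A * w x) M} * ENNReal.ofReal (t ^ (1 + ε - 1)) := by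
          rw [lintegral_add_left hma, lintegral_const_mul' _ _ ENNReal.ofReal_ne_top, mul_add, l2,
            mul_assoc]
      _ ≤ ENNReal.ofReal (a ^ (1 + ε) * sz d c.1) + ENNReal.ofReal ε * ENNReal.ofReal (2 ^ d) *
          (ENNReal.ofReal (A ^ (1 + ε)) * J) := by
          refine add_le_add (le_of_eq ?_) (mul_le_mul_right (le_trans ?_ l4) _)
          · rw [lintegral_const, hμu, ← ENNReal.ofReal_mul (Real.rpow_nonneg ha0 _),
              Real.rpow_add' ha0 (by linarith), Real.rpow_one]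
            congr 1
            ring
          · rw [l3]
            exact le_mul_of_one_le_left' (ENNReal.one_le_ofReal.2 (by linarith))
      _ ≤ _ := by
          rw [← mul_assoc, ← ENNReal.ofReal_mul hε0.le, ← ENNReal.ofReal_mul (by positivity)]
          exact add_le_add le_rfl (mul_le_mul_left (ENNReal.ofReal_le_ofReal hc) _)
  have l6 := ENNReal.toReal_mono (ENNReal.add_ne_top.2 ⟨ENNReal.ofReal_ne_top,
    ENNReal.mul_ne_top ENNReal.ofReal_ne_top hJt⟩) l5
  rw [ENNReal.toReal_add ENNReal.ofReal_ne_top (ENNReal.mul_ne_top ENNReal.ofReal_ne_top hJt),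
    ENNReal.toReal_mul, ENNReal.toReal_ofReal (by positivity),
    ENNReal.toReal_ofReal (by norm_num)] at l6
  rw [← ENNReal.ofReal_toReal hJt]
  exact ENNReal.ofReal_le_ofReal (by linarith)

theorem rh {w : E d → ℝ} {A : ℝ} (h : A1 w A) (c : Cb d) :
    ∫⁻ x in cube c, ENNReal.ofReal (w x) ^ (1 + 1 / (2 ^ (d + 2) * A)) ≤ ENNReal.ofReal
      (2 * ((∫ x in cube c, w x) / sz d c.1) ^ (1 + 1 / (2 ^ (d + 2) * A)) * sz d c.1) := by
  have hA : 0 < A := zero_lt_one.trans_le h.one_le
  have e : ∀ x, ENNReal.ofReal (w x) ^ (1 + 1 / (2 ^ (d + 2) * A)) = Filter.liminf (fun n : ℕ =>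
      ENNReal.ofReal (w x) * ENNReal.ofReal (min (w x) n ^ (1 / (2 ^ (d + 2) * A))))
      Filter.atTop := fun x => by
    refine (Filter.Tendsto.liminf_eq (tendsto_const_nhds.congr' ?_)).symm
    filter_upwards [Filter.eventually_ge_atTop ⌈w x⌉₊] with n hn
    rw [min_eq_left (Nat.ceil_le.1 hn), ENNReal.ofReal_rpow_of_pos (h.pos x),
      Real.rpow_add (h.pos x), Real.rpow_one, ENNReal.ofReal_mul (h.pos x).le]
  simp only [e]
  refine (lintegral_liminf_le fun n => ?_).trans (Filter.liminf_le_of_frequently_le'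
    (Filter.Frequently.of_forall fun n => rh_trunc h c (Nat.cast_nonneg n)))
  exact h.meas.ennreal_ofReal.mul ((h.meas.min measurable_const).pow_const _).ennreal_ofReal

end Pool.Agent.MP_418f02_an
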