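import Pool.Agent.MP_418f02_an.Step
import Pool.Agent.MP_418f02_an.Bdry
import Pool.Agent.MP_418f02_an.JN
import Pool.Agent.MP_418f02_an.L2

open MeasureTheory Set
open scoped ENNReal RealInnerProductSpace

namespace Pool.Agent.MP_418f02_an

variable {d : ℕ}

theorem run1_isBounded_cube (c : Cb d) : Bornology.IsBounded (cube c) :=
  (isBounded_big c).subset (cube_subset_big c)

theorem run1_real_cube (c : Cb d) : (volume : Measure (E d)).real (cube c) = sz d c.1 := by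
  rw [Measure.real, volume_cube, ENNReal.toReal_ofReal (sz_pos _).le]

theorem run1_real_big (c : Cb d) :
    (volume : Measure (E d)).real (big c) = 3 ^ d * sz d c.1 := by
  rw [Measure.real, volume_big, ENNReal.toReal_ofReal (by have := sz_pos (d := d) c.1; positivity)]

theorem run1_set_le {γ : E d → ℝ} (hγ : Nice γ) (h1 : ∀ x, |γ x| ≤ 1) {S : Set (E d)}
    (hS : volume S ≠ ∞) : ∫ x in S, |γ x| ≤ (volume : Measure (E d)).real S := by
  have h2 : ∫ x in S, |γ x| ≤ ∫ _x in S, (1 : ℝ) := by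
    refine integral_mono hγ.abs.integrable.integrableOn ?_ h1
    exact integrableOn_const hS
  simpa using h2

theorem run1_cv_le {k γ : E d → ℝ} (hk : IsKer k) (hγ : Nice γ) (h1 : ∀ x, |γ x| ≤ 1) (j : ℤ)
    (x : E d) : |cv k j γ x| ≤ 12 ^ d := by
  have h2 := cv_le hk hγ j x
  have h3 := run1_set_le hγ h1 (S := big (cb j x)) (by rw [volume_big]; exact ENNReal.ofReal_ne_top)
  rw [run1_real_big] at h3
  have h4 : 0 < sz d j := sz_pos j
  have h5 : (cb j x).1 = j := rfl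
  rw [h5] at h3
  calc |cv k j γ x| ≤ 4 ^ d / sz d j * (3 ^ d * sz d j) :=
        h2.trans (mul_le_mul_of_nonneg_left h3 (by positivity))
    _ = 12 ^ d := by
        rw [show (12 : ℝ) = 4 * 3 by norm_num, mul_pow]
        field_simp

theorem run1_psi_nice (F : Finset (Cb d)) (σ : Cb d → ℝ) :
    Nice fun x => ∑ R ∈ F, (cube R).indicator (fun _ => σ R) x :=
  nice_sum fun R _ => nice_indicator (measurableSet_cube R) (run1_isBounded_cube R) (σ R)

theorem run1_psi_sq {F : Finset (Cb d)} (hF : Dj F) {σ : Cb d → ℝ} (hσ : ∀ R, |σ R| ≤ 1) :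
    ∫ x, (∑ R ∈ F, (cube R).indicator (fun _ => σ R) x) ^ 2 ≤ ∑ R ∈ F, sz d R.1 := by
  have h1 : ∫ x, (∑ R ∈ F, (cube R).indicator (fun _ => σ R) x) ^ 2 ≤
      ∫ x, ∑ R ∈ F, (cube R).indicator (fun _ => (1 : ℝ)) x := by
    refine integral_mono (run1_psi_nice F σ).sq.integrable
      (run1_psi_nice F fun _ => 1).integrable fun x => ?_
    dsimp only
    by_cases hx : ∃ R ∈ F, x ∈ cube R
    · obtain ⟨R, hR, hxR⟩ := hx
      have hn : ∀ R' ∈ F, R' ≠ R → x ∉ cube R' := fun R' hR' hne hx' =>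
        Set.disjoint_left.1 (hF (Finset.mem_coe.2 hR') (Finset.mem_coe.2 hR) hne) hx' hxR
      rw [Finset.sum_eq_single_of_mem R hR fun R' hR' hne => indicator_of_notMem (hn R' hR' hne) _,
        Finset.sum_eq_single_of_mem R hR fun R' hR' hne => indicator_of_notMem (hn R' hR' hne) _,
        indicator_of_mem hxR, indicator_of_mem hxR]
      have := hσ R
      rw [← sq_abs]
      nlinarith [abs_nonneg (σ R)]
    · push Not at hx
      rw [Finset.sum_eq_zero fun R hR => indicator_of_notMem (hx R hR) _,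
        Finset.sum_eq_zero fun R hR => indicator_of_notMem (hx R hR) _]
      simp
  refine h1.trans (le_of_eq ?_)
  rw [integral_finsetSum _ fun R _ =>
    (nice_indicator (measurableSet_cube R) (run1_isBounded_cube R) 1).integrable]
  refine Finset.sum_congr rfl fun R _ => ?_
  rw [integral_indicator (measurableSet_cube R)]
  simp [run1_real_cube]

theorem run1_ind_sq {γ : E d → ℝ} (hγ : Nice γ) (h1 : ∀ x, |γ x| ≤ 1) (c : Cb d) :
    ∫ x, ((big c).indicator γ x) ^ 2 ≤ 3 ^ d * sz d c.1 := by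
  have h2 : ∫ x, ((big c).indicator γ x) ^ 2 ≤ ∫ x, (big c).indicator (fun _ => (1 : ℝ)) x := by
    refine integral_mono (hγ.indicator (measurableSet_big c)).sq.integrable
      (nice_indicator (measurableSet_big c) (isBounded_big c) 1).integrable fun x => ?_
    dsimp only
    by_cases hx : x ∈ big c
    · rw [indicator_of_mem hx, indicator_of_mem hx, ← sq_abs]
      nlinarith [abs_nonneg (γ x), h1 x]
    · rw [indicator_of_notMem hx, indicator_of_notMem hx]
      simp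
  refine h2.trans (le_of_eq ?_)
  rw [integral_indicator (measurableSet_big c)]
  simp [run1_real_big]

theorem run1_main {k γ : E d → ℝ} (hk : IsKer k) (hγ : Nice γ) (h1 : ∀ x, |γ x| ≤ 1) {Cl : ℝ}
    (hCl : 0 < Cl) (hl : ∀ g : E d → ℝ, Nice g → ∀ a b : ℤ,
      ∫ x, TT k a b g x ^ 2 ≤ Cl * ∫ x, g x ^ 2) {c₀ : Cb d} {F : Finset (Cb d)} (hF : Dj F)
    (hs : ∀ R ∈ F, cube R ⊆ cube c₀) {σ : Cb d → ℝ} (hσ : ∀ R, |σ R| ≤ 1) (j₀ : ℤ) :
    ∫ x, (∑ R ∈ F, (cube R).indicator (fun _ => σ R) x) * TT k j₀ c₀.1 γ x ≤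
      √(Cl * 3 ^ d) * (√(sz d c₀.1) * √(∑ R ∈ F, sz d R.1)) := by
  have hg : Nice ((big c₀).indicator γ) := hγ.indicator (measurableSet_big c₀)
  have e1 : ∀ x, (∑ R ∈ F, (cube R).indicator (fun _ => σ R) x) * TT k j₀ c₀.1 γ x =
      (∑ R ∈ F, (cube R).indicator (fun _ => σ R) x) *
        TT k j₀ c₀.1 ((big c₀).indicator γ) x := by
    intro x
    by_cases hx : x ∈ cube c₀
    · congr 1
      unfold TT ps
      refine Finset.sum_congr rfl fun j hj => cv_congr hk fun y hy => ?_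
      rw [indicator_of_mem (big_subset_big (Finset.mem_Icc.1 hj).2 hx hy)]
    · rw [Finset.sum_eq_zero fun R hR => indicator_of_notMem (fun h => hx (hs R hR h)) _]
      simp
  simp_rw [e1]
  refine (le_abs_self _).trans (((run1_psi_nice F σ).cs (TT_nice hk hg j₀ c₀.1)).trans ?_)
  have h2 : √(∫ x, (∑ R ∈ F, (cube R).indicator (fun _ => σ R) x) ^ 2) ≤
      √(∑ R ∈ F, sz d R.1) := Real.sqrt_le_sqrt (run1_psi_sq hF hσ)
  have h3 : √(∫ x, TT k j₀ c₀.1 ((big c₀).indicator γ) x ^ 2) ≤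
      √(Cl * 3 ^ d) * √(sz d c₀.1) := by
    rw [← Real.sqrt_mul (by positivity)]
    refine Real.sqrt_le_sqrt ((hl _ hg _ _).trans ?_)
    rw [mul_assoc]
    exact mul_le_mul_of_nonneg_left (run1_ind_sq hγ h1 c₀) hCl.le
  calc _ ≤ √(∑ R ∈ F, sz d R.1) * (√(Cl * 3 ^ d) * √(sz d c₀.1)) :=
        mul_le_mul h2 h3 (Real.sqrt_nonneg _) (Real.sqrt_nonneg _)
    _ = _ := by ring

theorem run1_alg {C v z : ℝ} (hC : 0 < C) (hv : 0 ≤ v) (hz : 0 ≤ z)
    (h : 2 * C * v ≤ C * (√z * √v)) : v ≤ Real.exp (-1) * z := by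
  have h1 : 2 * v ≤ √z * √v := by
    have : C * (2 * v) ≤ C * (√z * √v) := by linarith
    exact le_of_mul_le_mul_left this hC
  have h2 := Real.mul_self_sqrt hv
  have h3 := Real.mul_self_sqrt hz
  have h4 : v ≤ z / 4 := by nlinarith [sq_nonneg (√z - 2 * √v), sq_nonneg (√z - 4 * √v)]
  have h5 : (1 : ℝ) / 4 ≤ Real.exp (-1) := by
    rw [Real.exp_neg, one_div]
    exact inv_anti₀ (Real.exp_pos 1) (by linarith [Real.exp_one_lt_d9])
  nlinarith

theorem run1 (hd : 1 ≤ d) : ∃ C : ℝ, 0 < C ∧ ∀ k γ : E d → ℝ, IsKer k → Nice γ →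
    (∀ x, |γ x| ≤ 1) → ∀ G : ℤ → Set (E d), Stop G → ∀ (W : Cb d) (j₀ : ℤ) (m : ℝ), 1 ≤ m →
    Mom (TG k G j₀ W.1 γ) W m (C * m) := by
  obtain ⟨Co, hCo, ho⟩ := osc_step hd
  obtain ⟨Cb', hCb, hb⟩ := bdry (d := d)
  obtain ⟨Cl, hCl, hl⟩ := l2_bound (d := d)
  set C1 : ℝ := √(Cl * 3 ^ d) + Co with hC1
  have hC1p : 0 < C1 := by positivity
  set A : ℝ := 2 * Cb' + 2 * C1 with hA
  have hAp : 0 < A := by positivity
  refine ⟨24 * (A + 12 ^ d), by positivity, fun k γ hk hγ h1 G hG W j₀ m hm => ?_⟩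
  have hstep : OneStep (fun j => cv k j γ) j₀ 1 A (Real.exp (-1)) W := by
    intro c₀ _ _ F hF
    have hv : 0 ≤ ∑ R ∈ F, sz d R.1 := Finset.sum_nonneg fun R _ => (sz_pos _).le
    have hz : 0 ≤ sz d c₀.1 := (sz_pos _).le
    obtain ⟨σ, hσ, h2⟩ := ho k γ hk hγ 1 h1 c₀ F 1 A hF.dj hF.up hF.sub hF.pos
    have h3 := split_sum (φ := fun j => cv k j γ) (fun j => cv_nice hk hγ j) F σ hF.low hF.up
    have h4 := run1_main hk hγ h1 hCl (fun g hg => hl k g hk hg) hF.dj hF.sub hσ j₀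
    have h5 : -∑ R ∈ F, σ R * ∑ j ∈ Finset.Ico j₀ (R.1 + (1 : ℕ)), ∫ x in cube R, cv k j γ x ≤
        2 * Cb' * ∑ R ∈ F, sz d R.1 := by
      rw [← Finset.sum_neg_distrib, Finset.mul_sum]
      refine Finset.sum_le_sum fun R _ => (neg_le_abs _).trans ?_
      have h6 := hb k hk (fun _ => γ) 1 (fun _ => hγ) zero_le_one (fun Q => by
        have := run1_set_le hγ h1 (S := cube Q) (by rw [volume_cube]; exact ENNReal.ofReal_ne_top)
        rw [run1_real_cube] at this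
        simpa using this) R j₀ 1
      rw [abs_mul]
      calc _ ≤ 1 * (Cb' * 1 * (((1 : ℕ) : ℝ) + 1) * sz d R.1) :=
            mul_le_mul (hσ R) h6 (abs_nonneg _) zero_le_one
        _ = _ := by push_cast; ring
    have h7 : Co * 1 * (9 / 10) ^ 1 * √(sz d c₀.1) * √(∑ R ∈ F, sz d R.1) ≤
        Co * (√(sz d c₀.1) * √(∑ R ∈ F, sz d R.1)) := by
      have : 0 ≤ Co * (√(sz d c₀.1) * √(∑ R ∈ F, sz d R.1)) := by positivity
      nlinarith
    refine run1_alg hC1p hv hz ?_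
    unfold TT at h2 h4
    rw [h3] at h2
    rw [hA] at h2
    rw [hC1] at h2 ⊢
    rw [sub_eq_add_neg] at h2
    have h8 := h2.trans (add_le_add (add_le_add h4 h5) h7)
    linarith
  have hm' := jn_mom (φ := fun j => cv k j γ) (C₀ := 12 ^ d) (m := m) (Y := TG k G j₀ W.1 γ)
    le_rfl hAp.le le_rfl (by positivity) hm (fun j _ _ x _ => run1_cv_le hk hγ h1 j x) hstep
    (fun x _ => by
      obtain ⟨a, ha, e⟩ := TG_eq_TT k γ hG j₀ W.1 x
      exact ⟨a, ha, le_of_eq (by rw [e]; rfl)⟩)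
  refine hm'.mono (by linarith) (by positivity) ?_ fun x _ => le_rfl
  have : 0 < A + 12 ^ d := by positivity
  push_cast
  nlinarith

end Pool.Agent.MP_418f02_an
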