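import Pool.Agent.MP_418f02_an.Atom
import Pool.Agent.MP_418f02_an.JN

open MeasureTheory Set
open scoped ENNReal RealInnerProductSpace

namespace Pool.Agent.MP_418f02_an

variable {d : ℕ}

open scoped Classical

/-- the local mass of the atoms in a window of levels -/
noncomputable def run2f (P : Finset (Cb d)) (b : Cb d → E d → ℝ) (s : ℕ) (j : ℤ) (x : E d) : ℝ :=
  4 ^ d / sz d j * ∫ y in big (cb j x), |Bw P b (j - s) j y|

theorem run2f_nonneg (P : Finset (Cb d)) (b : Cb d → E d → ℝ) (s : ℕ) (j : ℤ) (x : E d) :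
    0 ≤ run2f P b s j x :=
  mul_nonneg (div_nonneg (by positivity) (sz_pos j).le) (integral_nonneg fun _ => abs_nonneg _)

theorem run2f_congr (P : Finset (Cb d)) (b : Cb d → E d → ℝ) (s : ℕ) {j : ℤ} {x y : E d}
    (e : ix j x = ix j y) : run2f P b s j x = run2f P b s j y := by
  unfold run2f cb
  rw [e]

theorem run2_mass {P : Finset (Cb d)} {b : Cb d → E d → ℝ} (h : Atoms P b 1) (a : ℤ) {j : ℤ}
    {c : Cb d} (hj : j ≤ c.1) : ∫ y in big c, |Bw P b a j y| ≤
      ∑ Q ∈ P with (Q.1 ≤ c.1 ∧ (cube Q ∩ big c).Nonempty),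
        if a ≤ Q.1 ∧ Q.1 < j then sz d Q.1 else 0 := by
  have h1 := (h.subset (Finset.filter_subset (fun Q => a ≤ Q.1 ∧ Q.1 < j) P)).mass_lm
    zero_le_one (lm_big c) (fun Q hQ => ((Finset.mem_filter.mp hQ).2.2.le.trans hj))
  rw [one_mul] at h1
  refine h1.trans (le_of_eq ?_)
  rw [← Finset.sum_filter]
  refine Finset.sum_congr ?_ fun _ _ => rfl
  ext Q
  simp only [Finset.mem_filter]
  constructor
  · rintro ⟨⟨h2, h3, h4⟩, h5⟩
    exact ⟨⟨h2, h4.le.trans hj, h5⟩, h3, h4⟩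
  · rintro ⟨⟨h2, -, h5⟩, h3, h4⟩
    exact ⟨⟨h2, h3, h4⟩, h5⟩

theorem run2_tot {P : Finset (Cb d)} (h : Dj P) (c : Cb d) :
    ∑ Q ∈ P with (Q.1 ≤ c.1 ∧ (cube Q ∩ big c).Nonempty), sz d Q.1 ≤ 3 ^ d * sz d c.1 := by
  refine (h.subset (Finset.filter_subset _ P)).sum_le (S := big c)
    (mul_nonneg (by positivity) (sz_pos _).le) (volume_big c).le fun Q hQ => ?_
  obtain ⟨-, h1, x, h2, h3⟩ := Finset.mem_filter.mp hQ
  exact (lm_big c).cube_subset h1 h2 h3

theorem run2f_le {P : Finset (Cb d)} {b : Cb d → E d → ℝ} (h : Atoms P b 1) (s : ℕ) (j : ℤ)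
    (x : E d) : run2f P b s j x ≤ 12 ^ d := by
  have h1 := run2_mass h (j - s) (j := j) (c := cb j x) le_rfl
  have h2 := run2_tot h.dj (cb j x)
  have h3 : ∫ y in big (cb j x), |Bw P b (j - s) j y| ≤ 3 ^ d * sz d j := by
    refine h1.trans (le_trans (Finset.sum_le_sum fun Q _ => ?_) h2)
    split_ifs
    · exact le_rfl
    · exact (sz_pos _).le
  have h4 := sz_pos (d := d) j
  unfold run2f
  calc 4 ^ d / sz d j * ∫ y in big (cb j x), |Bw P b (j - s) j y|
      ≤ 4 ^ d / sz d j * (3 ^ d * sz d j) :=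
        mul_le_mul_of_nonneg_left h3 (div_nonneg (by positivity) h4.le)
    _ = 12 ^ d := by
        rw [show (12 : ℝ) = 4 * 3 by norm_num, mul_pow]
        field_simp

theorem run2_set (j : ℤ) : MeasurableSet {p : E d × E d | p.2 ∈ big (cb j p.1)} := by
  have hm : Measurable (ix (d := d) j) := measurable_of_ix (k := j) fun _ _ e => e
  have h1 : Measurable fun p : E d × E d => (ix j p.1, ix j p.2) :=
    (hm.comp measurable_fst).prodMk (hm.comp measurable_snd)
  exact h1 (t := {q : (Fin d → ℤ) × (Fin d → ℤ) | ∀ i, |q.2 i - q.1 i| ≤ 1})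
    (Set.to_countable _).measurableSet

/-- averaging over neighbourhoods costs only the volume of a neighbourhood -/
theorem run2_ton {G : E d → ℝ≥0∞} (hG : Measurable G) {j : ℤ} {c : Cb d} (hj : j ≤ c.1) :
    ∫⁻ x in cube c, ∫⁻ y in big (cb j x), G y ≤
      ENNReal.ofReal (3 ^ d * sz d j) * ∫⁻ y in big c, G y := by
  obtain ⟨H, hH, e1⟩ : ∃ H : E d × E d → ℝ≥0∞, Measurable H ∧
      ∀ x y, H (x, y) = if y ∈ big (cb j x) then G y else 0 :=
    ⟨fun p => if p.2 ∈ big (cb j p.1) then G p.2 else 0,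
      Measurable.ite (run2_set j) (hG.comp measurable_snd) measurable_const, fun _ _ => rfl⟩
  have h1 : ∫⁻ x in cube c, ∫⁻ y in big (cb j x), G y =
      ∫⁻ x in cube c, ∫⁻ y in big c, H (x, y) := by
    refine setLIntegral_congr_fun (measurableSet_cube c) fun x hx => ?_
    have e : ∀ y, H (x, y) = (big (cb j x)).indicator G y := by
      intro y
      rw [e1, indicator_apply]
    show _ = ∫⁻ y in big c, H (x, y)
    simp only [e]
    rw [lintegral_indicator (measurableSet_big _),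
      Measure.restrict_restrict (measurableSet_big _),
      inter_eq_left.mpr (big_subset_big hj hx)]
  rw [h1, lintegral_lintegral_swap (f := fun x y => H (x, y)) hH.aemeasurable,
    ← lintegral_const_mul _ hG]
  refine lintegral_mono fun y => ?_
  have e : ∀ x, H (x, y) = (big (cb j y)).indicator (fun _ => G y) x := by
    intro x
    rw [e1, indicator_apply]
    exact if_congr mem_big_symm rfl rfl
  show ∫⁻ x in cube c, H (x, y) ≤ _
  simp only [e]
  refine (setLIntegral_le_lintegral _ _).trans (le_of_eq ?_)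
  rw [lintegral_indicator_const (measurableSet_big _), volume_big, mul_comm]
  rfl

theorem run2_abs {g : E d → ℝ} (hg : Nice g) (S : Set (E d)) :
    ENNReal.ofReal (∫ y in S, |g y|) = ∫⁻ y in S, ENNReal.ofReal |g y| :=
  ofReal_integral_eq_lintegral_ofReal hg.integrable.abs.integrableOn
    (Filter.Eventually.of_forall fun _ => abs_nonneg _)

theorem run2_one {P : Finset (Cb d)} {b : Cb d → E d → ℝ} (h : Atoms P b 1) (s : ℕ) {j : ℤ}
    {c : Cb d} (hj : j ≤ c.1) : ∫⁻ x in cube c, ENNReal.ofReal (run2f P b s j x) ≤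
      ENNReal.ofReal (12 ^ d * ∑ Q ∈ P with (Q.1 ≤ c.1 ∧ (cube Q ∩ big c).Nonempty),
        if j - s ≤ Q.1 ∧ Q.1 < j then sz d Q.1 else 0) := by
  have hg := h.nice_Bw (j - s) j
  have h4 := sz_pos (d := d) j
  have h5 : (0 : ℝ) ≤ 4 ^ d / sz d j := div_nonneg (by positivity) h4.le
  have h6 : (0 : ℝ) ≤ 3 ^ d * sz d j := mul_nonneg (by positivity) h4.le
  have hG : Measurable fun y => ENNReal.ofReal |Bw P b (j - s) j y| :=
    hg.abs.meas.ennreal_ofReal
  unfold run2f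
  simp only [ENNReal.ofReal_mul h5, run2_abs hg]
  rw [lintegral_const_mul' _ _ ENNReal.ofReal_ne_top]
  refine (mul_le_mul_right (run2_ton hG hj) _).trans ?_
  rw [← run2_abs hg, ← ENNReal.ofReal_mul h6, ← ENNReal.ofReal_mul h5]
  refine ENNReal.ofReal_le_ofReal ?_
  rw [← mul_assoc]
  have e : (4 : ℝ) ^ d / sz d j * (3 ^ d * sz d j) = 12 ^ d := by
    rw [show (12 : ℝ) = 4 * 3 by norm_num, mul_pow]
    field_simp
  rw [e]
  exact mul_le_mul_of_nonneg_left (run2_mass h (j - s) hj) (by positivity)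

theorem run2_count (T : Finset (Cb d)) (I : Finset ℤ) (s : ℕ) :
    ∑ j ∈ I, ∑ Q ∈ T, (if j - s ≤ Q.1 ∧ Q.1 < j then sz d Q.1 else 0) ≤
      s * ∑ Q ∈ T, sz d Q.1 := by
  rw [Finset.sum_comm, Finset.mul_sum]
  refine Finset.sum_le_sum fun Q _ => ?_
  rw [← Finset.sum_filter, Finset.sum_const, nsmul_eq_mul]
  refine mul_le_mul_of_nonneg_right ?_ (sz_pos _).le
  have h1 : I.filter (fun j => j - s ≤ Q.1 ∧ Q.1 < j) ⊆ Finset.Icc (Q.1 + 1) (Q.1 + s) := by
    intro j hj
    obtain ⟨-, h2, h3⟩ := Finset.mem_filter.mp hj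
    rw [Finset.mem_Icc]
    constructor <;> omega
  have h2 := Finset.card_le_card h1
  rw [Int.card_Icc] at h2
  have h3 : (Q.1 + s + 1 - (Q.1 + 1)).toNat = s := by
    rw [show Q.1 + s + 1 - (Q.1 + 1) = (s : ℤ) by ring]
    exact Int.toNat_natCast s
  rw [h3] at h2
  exact_mod_cast h2

theorem run2_all {P : Finset (Cb d)} {b : Cb d → E d → ℝ} (h : Atoms P b 1) (s : ℕ) (a : ℤ)
    (c : Cb d) : ∫⁻ x in cube c, ENNReal.ofReal (ps (run2f P b s) a c.1 x) ≤
      ENNReal.ofReal (36 ^ d * s * sz d c.1) := by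
  unfold ps
  have h1 : ∀ x, ENNReal.ofReal (∑ j ∈ Finset.Icc a c.1, run2f P b s j x) =
      ∑ j ∈ Finset.Icc a c.1, ENNReal.ofReal (run2f P b s j x) :=
    fun x => ENNReal.ofReal_sum_of_nonneg fun j _ => run2f_nonneg P b s j x
  simp only [h1]
  rw [lintegral_finsetSum _ fun j _ =>
    (measurable_of_ix (k := j) fun _ _ e => run2f_congr P b s e).ennreal_ofReal]
  refine (Finset.sum_le_sum fun j hj => run2_one h s (Finset.mem_Icc.mp hj).2).trans ?_
  rw [← ENNReal.ofReal_sum_of_nonneg fun j _ => mul_nonneg (by positivity)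
    (Finset.sum_nonneg fun Q _ => by
      split_ifs
      · exact (sz_pos _).le
      · exact le_rfl)]
  refine ENNReal.ofReal_le_ofReal ?_
  rw [← Finset.mul_sum]
  have h2 := run2_count (P.filter fun Q => Q.1 ≤ c.1 ∧ (cube Q ∩ big c).Nonempty)
    (Finset.Icc a c.1) s
  have h3 := mul_le_mul_of_nonneg_left (run2_tot h.dj c) (Nat.cast_nonneg (α := ℝ) s)
  calc _ ≤ (12 : ℝ) ^ d * (s * (3 ^ d * sz d c.1)) :=
        mul_le_mul_of_nonneg_left (h2.trans h3) (by positivity)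
    _ = 36 ^ d * s * sz d c.1 := by
        rw [show (36 : ℝ) = 12 * 3 by norm_num, mul_pow]
        ring

theorem run2_step {P : Finset (Cb d)} {b : Cb d → E d → ℝ} (h : Atoms P b 1) (s : ℕ) (a : ℤ)
    (W : Cb d) : OneStep (run2f P b s) a 1 (3 * 36 ^ d * (s + 1)) (Real.exp (-1)) W := by
  intro c _ _ F hF
  have hz := sz_pos (d := d) c.1
  have hA : (0 : ℝ) < 3 * 36 ^ d * (s + 1) := by positivity
  have hv : 0 ≤ ∑ R ∈ F, sz d R.1 := Finset.sum_nonneg fun R _ => (sz_pos _).le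
  have hU : (⋃ R ∈ F, cube R) ⊆ cube c := iUnion₂_subset fun R hR => hF.sub R hR
  have hUm : MeasurableSet (⋃ R ∈ F, cube R) :=
    Finset.measurableSet_biUnion F fun R _ => measurableSet_cube R
  have h1 : ∀ x ∈ ⋃ R ∈ F, cube R, 3 * 36 ^ d * (s + 1) ≤ ps (run2f P b s) a c.1 x := by
    intro x hx
    obtain ⟨R, hR, hxR⟩ := mem_iUnion₂.mp hx
    obtain ⟨y, hy, hyA⟩ := nonempty_of_measure_ne_zero (hF.pos R hR).ne'
    have h2 : ps (run2f P b s) (R.1 + (1 : ℕ)) c.1 y = ps (run2f P b s) (R.1 + (1 : ℕ)) c.1 x := by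
      unfold ps
      refine Finset.sum_congr rfl fun j hj => run2f_congr P b s ?_
      have h3 := (Finset.mem_Icc.mp hj).1
      have h4 : ix R.1 y = ix R.1 x := Eq.trans hy (Eq.symm hxR)
      exact ix_mono (by push_cast at h3; omega) h4
    have h5 : 0 ≤ ps (run2f P b s) (R.1 + (1 : ℕ)) c.1 x :=
      Finset.sum_nonneg fun j _ => run2f_nonneg P b s j x
    rw [h2, abs_of_nonneg h5] at hyA
    refine hyA.le.trans ?_
    exact Finset.sum_le_sum_of_subset_of_nonneg (Finset.Icc_subset_Icc_left (hF.low R hR))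
      fun j _ _ => run2f_nonneg P b s j x
  have h6 : ENNReal.ofReal (3 * 36 ^ d * (s + 1) * ∑ R ∈ F, sz d R.1) ≤
      ENNReal.ofReal (36 ^ d * s * sz d c.1) := by
    rw [ENNReal.ofReal_mul hA.le, hF.dj.sum_sz, ← setLIntegral_const]
    refine le_trans ?_ (run2_all h s a c)
    refine le_trans ?_ (lintegral_mono_set hU)
    exact setLIntegral_mono' hUm fun x hx => ENNReal.ofReal_le_ofReal (h1 x hx)
  rw [ENNReal.ofReal_le_ofReal_iff (by positivity)] at h6
  have h7 : (1 : ℝ) / 3 ≤ Real.exp (-1) := by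
    rw [Real.exp_neg, one_div]
    exact inv_anti₀ (Real.exp_pos 1) (by linarith [Real.exp_one_lt_d9])
  have h8 : ∑ R ∈ F, sz d R.1 ≤ 1 / 3 * sz d c.1 := by
    have h9 : (0 : ℝ) < 36 ^ d := by positivity
    have h10 : (36 : ℝ) ^ d * s * sz d c.1 ≤ 3 * 36 ^ d * (s + 1) * (1 / 3 * sz d c.1) := by
      nlinarith [mul_pos h9 hz]
    exact le_of_mul_le_mul_left (h6.trans h10) hA
  exact h8.trans (mul_le_mul_of_nonneg_right h7 hz.le)

theorem run2 : ∃ C : ℝ, 0 < C ∧ ∀ k : E d → ℝ, IsKer k →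
    ∀ (P : Finset (Cb d)) (b : Cb d → E d → ℝ), Atoms P b 1 →
    ∀ (s₀ : ℕ) (W : Cb d) (j₀ : ℤ) (m : ℝ), 1 ≤ m →
    Mom (ps (fun j x => |cv k j (Bw P b (j - s₀) j) x|) j₀ W.1) W m (C * (s₀ + 1) * m) := by
  refine ⟨24 * (3 * 36 ^ d + 12 ^ d), by positivity, fun k hk P b h s W a m hm => ?_⟩
  have h1 := jn_mom (φ := run2f P b s) (j₀ := a) (L := 1) (A := 3 * 36 ^ d * (s + 1)) (l := 1)
    (C₀ := 12 ^ d) (m := m) (Q := W) le_rfl (by positivity) le_rfl (by positivity) hm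
    (fun j _ _ x _ => by
      rw [abs_of_nonneg (run2f_nonneg P b s j x)]
      exact run2f_le h s j x)
    (run2_step h s a W) (Y := ps (fun j x => |cv k j (Bw P b (j - s) j) x|) a W.1)
    (fun x _ => ⟨a, le_rfl, by
      unfold ps
      rw [abs_of_nonneg (Finset.sum_nonneg fun j _ => abs_nonneg _),
        abs_of_nonneg (Finset.sum_nonneg fun j _ => run2f_nonneg P b s j x)]
      exact Finset.sum_le_sum fun j _ => cv_le hk (h.nice_Bw _ _) j x⟩)
  refine h1.mono (by linarith) (by positivity) ?_ fun _ _ => le_rfl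
  have h2 : (0 : ℝ) ≤ s := Nat.cast_nonneg s
  have h3 : (0 : ℝ) < 36 ^ d := by positivity
  have h4 : (0 : ℝ) < 12 ^ d := by positivity
  have h5 : (3 : ℝ) * 36 ^ d * (s + 1) + 12 ^ d * ((1 : ℕ) : ℝ) ≤
      (3 * 36 ^ d + 12 ^ d) * (s + 1) := by
    push_cast
    nlinarith [mul_nonneg h4.le h2]
  have h6 : 1 + m / 1 ≤ 2 * m := by
    rw [div_one]
    linarith
  calc _ ≤ 12 * ((3 * 36 ^ d + 12 ^ d) * (s + 1)) * (2 * m) :=
        mul_le_mul (mul_le_mul_of_nonneg_left h5 (by norm_num)) h6 (by positivity)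
          (by positivity)
    _ = _ := by ring

end Pool.Agent.MP_418f02_an
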