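import Pool.Agent.MP_418f02_an.Step
import Pool.Agent.MP_418f02_an.Bdry
import Pool.Agent.MP_418f02_an.Run2

open MeasureTheory Set
open scoped ENNReal RealInnerProductSpace

namespace Pool.Agent.MP_418f02_an

variable {d : ℕ}

theorem run3_pow (n : ℕ) {t : ℝ} (h : 10 * t ≤ n) : (9 / 10 : ℝ) ^ n ≤ Real.exp (-t) := by
  have h1 : (9 / 10 : ℝ) ≤ Real.exp (-(1 / 10)) := by
    have := Real.add_one_le_exp (-(1 / 10) : ℝ)
    linarith
  calc (9 / 10 : ℝ) ^ n ≤ Real.exp (-(1 / 10)) ^ n := pow_le_pow_left₀ (by norm_num) h1 n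
    _ = Real.exp (n * -(1 / 10)) := (Real.exp_nat_mul _ _).symm
    _ ≤ Real.exp (-t) := Real.exp_le_exp.2 (by linarith)

theorem run3_psi_nice (F : Finset (Cb d)) (σ : Cb d → ℝ) :
    Nice fun x => ∑ R ∈ F, (cube R).indicator (fun _ => σ R) x :=
  nice_sum fun R _ => nice_indicator (measurableSet_cube R)
    ((isBounded_big R).subset (cube_subset_big R)) _

theorem run3_psi_le {F : Finset (Cb d)} (hF : Dj F) {σ : Cb d → ℝ} (hσ : ∀ R, |σ R| ≤ 1)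
    (x : E d) : |∑ R ∈ F, (cube R).indicator (fun _ => σ R) x| ≤ 1 := by
  by_cases h : ∃ R ∈ F, x ∈ cube R
  · obtain ⟨R, hR, hx⟩ := h
    rw [Finset.sum_eq_single R]
    · rw [indicator_of_mem hx]; exact hσ R
    · intro R' hR' hne
      apply indicator_of_notMem
      intro hx'
      exact Set.disjoint_left.1 (hF (Finset.mem_coe.2 hR') (Finset.mem_coe.2 hR) hne) hx' hx
    · intro h; exact absurd hR h
  · push Not at h
    rw [Finset.sum_eq_zero fun R hR => indicator_of_notMem (h R hR) _]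
    simp

/-- the part of the sum that comes from atoms of nearby level -/
theorem run3_near : ∃ C : ℝ, 0 < C ∧ ∀ k : E d → ℝ, IsKer k →
    ∀ (P : Finset (Cb d)) (b : Cb d → E d → ℝ), Atoms P b 1 → ∀ (s₀ L : ℕ) (c₀ : Cb d) (j₀ : ℤ)
    (F : Finset (Cb d)) (σ : Cb d → ℝ) (l : ℝ), 1 ≤ l → Dj F → (∀ R ∈ F, j₀ ≤ R.1 + L) →
    (∀ R ∈ F, cube R ⊆ cube c₀) → (∀ R, |σ R| ≤ 1) →
    Real.exp (-l) * sz d c₀.1 < ∑ R ∈ F, sz d R.1 →
    ∑ R ∈ F, σ R * (∫ x in cube R,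
      ps (fun j => cv k j (Bw P b (j - s₀) j)) (R.1 + L) c₀.1 x) ≤
      C * (s₀ + 1) * l * ∑ R ∈ F, sz d R.1 := by
  obtain ⟨C, hC, h2⟩ := run2 (d := d)
  refine ⟨3 * C, by positivity, ?_⟩
  intro k hk P b hP s₀ L c₀ j₀ F σ l hl hF hlow hsub hσ hv
  set v := ∑ R ∈ F, sz d R.1 with hvdef
  have hz := sz_pos (d := d) c₀.1
  have hv0 : 0 < v := lt_trans (by positivity) hv
  set Y := ps (fun j x => |cv k j (Bw P b (j - s₀) j) x|) j₀ c₀.1 with hY
  have hn : ∀ j : ℤ, Nice (cv k j (Bw P b (j - s₀) j)) := fun j => cv_nice hk (hP.nice_Bw _ _) j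
  have hYn : Nice Y := ps_nice (fun j => (hn j).abs) _ _
  have h3 := (h2 k hk P b hP s₀ c₀ j₀ l hl).holder hYn hl (by positivity)
    (F := ⋃ R ∈ F, cube R) (Finset.measurableSet_biUnion _ fun R _ => measurableSet_cube R)
    (iUnion₂_subset hsub) hv0 hF.sum_sz.symm
  rw [integral_biUnion_finset F (fun R _ => measurableSet_cube R) hF
    (fun R _ => hYn.abs.integrable.integrableOn)] at h3
  have h4 : (sz d c₀.1 / v) ^ (1 / l) ≤ 3 := by
    have h5 : sz d c₀.1 / v ≤ Real.exp l := by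
      rw [div_le_iff₀ hv0]
      have h6 : Real.exp l * Real.exp (-l) = 1 := by rw [← Real.exp_add]; simp
      calc sz d c₀.1 = Real.exp l * (Real.exp (-l) * sz d c₀.1) := by rw [← mul_assoc, h6, one_mul]
        _ ≤ Real.exp l * v := mul_le_mul_of_nonneg_left hv.le (Real.exp_pos _).le
    calc (sz d c₀.1 / v) ^ (1 / l) ≤ Real.exp l ^ (1 / l) :=
          Real.rpow_le_rpow (by positivity) h5 (by positivity)
      _ = Real.exp 1 := by
          rw [← Real.exp_mul]; congr 1; field_simp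
      _ ≤ 3 := by have := Real.exp_one_lt_d9; linarith
  calc _ ≤ ∑ R ∈ F, ∫ x in cube R, |Y x| := by
        refine Finset.sum_le_sum fun R hR => ?_
        refine (le_abs_self _).trans ?_
        rw [abs_mul]
        refine (mul_le_of_le_one_left (abs_nonneg _) (hσ R)).trans ?_
        refine (abs_integral_le_integral_abs).trans ?_
        refine integral_mono (ps_nice hn _ _).abs.integrable.integrableOn
          hYn.abs.integrable.integrableOn fun x => ?_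
        refine le_trans ?_ (le_abs_self _)
        refine (Finset.abs_sum_le_sum_abs _ _).trans ?_
        exact Finset.sum_le_sum_of_subset_of_nonneg
          (Finset.Icc_subset_Icc_left (hlow R hR)) fun _ _ _ => abs_nonneg _
    _ ≤ C * (s₀ + 1) * l * v * (sz d c₀.1 / v) ^ (1 / l) := h3
    _ ≤ C * (s₀ + 1) * l * v * 3 := mul_le_mul_of_nonneg_left h4 (by positivity)
    _ = 3 * C * (s₀ + 1) * l * v := by ring

/-- the part of the sum that comes from small atoms -/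
theorem run3_far (hd : 1 ≤ d) : ∃ C : ℝ, 0 < C ∧ ∀ k : E d → ℝ, IsKer k →
    ∀ (P : Finset (Cb d)) (b : Cb d → E d → ℝ), Atoms P b 1 → ∀ (s₀ L : ℕ) (c₀ : Cb d) (j₀ : ℤ)
    (F : Finset (Cb d)) (σ : Cb d → ℝ), Dj F → (∀ R ∈ F, j₀ ≤ R.1 + L) →
    (∀ R ∈ F, R.1 + L ≤ c₀.1) → (∀ R ∈ F, cube R ⊆ cube c₀) → (∀ R, |σ R| ≤ 1) →
    ∑ R ∈ F, σ R * (∫ x in cube R,
      ps (fun j => cv k j (Bl P b (j - s₀))) (R.1 + L) c₀.1 x) ≤
      C * (9 / 10) ^ s₀ * sz d c₀.1 + C * (L + 1) * ∑ R ∈ F, sz d R.1 := by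
  obtain ⟨C₁, hC₁, h1⟩ := far_sum hd
  obtain ⟨C₂, hC₂, h2⟩ := bdry (d := d)
  refine ⟨C₁ + C₂, by positivity, ?_⟩
  intro k hk P b hP s₀ L c₀ j₀ F σ hF hlow hup hsub hσ
  have hz := sz_pos (d := d) c₀.1
  have hv : 0 ≤ ∑ R ∈ F, sz d R.1 := Finset.sum_nonneg fun R _ => (sz_pos _).le
  rw [split_sum (fun j => cv_nice hk (hP.nice_Bl _) j) F σ hlow hup]
  have h3 := h1 k hk P b hP s₀ c₀ j₀ _ (run3_psi_nice F σ) (run3_psi_le hF hσ) fun x hx =>
    Finset.sum_eq_zero fun R hR => indicator_of_notMem (fun h => hx (hsub R hR h)) _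
  have h4 : |∑ R ∈ F, σ R * ∑ j ∈ Finset.Ico j₀ (R.1 + L),
      ∫ x in cube R, cv k j (Bl P b (j - s₀)) x| ≤ C₂ * (L + 1) * ∑ R ∈ F, sz d R.1 := by
    refine (Finset.abs_sum_le_sum_abs _ _).trans ?_
    rw [Finset.mul_sum]
    refine Finset.sum_le_sum fun R _ => ?_
    rw [abs_mul]
    refine (mul_le_of_le_one_left (abs_nonneg _) (hσ R)).trans ?_
    have := h2 k hk (fun j => Bl P b (j - s₀)) 1 (fun j => hP.nice_Bl _) zero_le_one
      (fun Q => hP.mass_Bl zero_le_one (by simp)) R j₀ L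
    rwa [mul_one] at this
  have h5 := (le_abs_self _).trans h3
  have h6 := (neg_le_abs _).trans h4
  have h7 : 0 ≤ C₂ * (9 / 10) ^ s₀ * sz d c₀.1 := by positivity
  have h8 : 0 ≤ C₁ * (L + 1) * ∑ R ∈ F, sz d R.1 := by positivity
  nlinarith

theorem run3_step (hd : 1 ≤ d) : ∃ C : ℝ, 0 < C ∧ ∀ k : E d → ℝ, IsKer k →
    ∀ (P : Finset (Cb d)) (b : Cb d → E d → ℝ), Atoms P b 1 → ∀ D : ℝ, 1 ≤ D →
    (∀ Q ∈ P, ∀ x, |b Q x| ≤ Real.exp D) → ∀ G : ℤ → Set (E d), Stop G →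
    ∀ (W : Cb d) (j₀ : ℤ), (∀ j, j₀ ≤ j → j ≤ W.1 → ∀ x ∈ cube W, x ∈ G j → ∀ Q ∈ P,
      (cube Q ∩ big (cb j x)).Nonempty → Q.1 < j) →
    OneStep (fun j => (G j).indicator (cv k j fun x => ∑ Q ∈ P, b Q x)) j₀ ⌈20 * D⌉₊ (C * D)
      (Real.exp (-√D)) W := by
  obtain ⟨C₁, hC₁, h1⟩ := osc_step hd
  obtain ⟨C₂, hC₂, h2⟩ := run3_near (d := d)
  obtain ⟨C₃, hC₃, h3⟩ := run3_far hd
  refine ⟨C₁ + 12 * C₂ + 23 * C₃ + 1, by positivity, ?_⟩
  intro k hk P b hP D hD hb G hG W j₀ H c₀ hc₀ hcW F hF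
  by_contra hv
  push Not at hv
  set L := ⌈20 * D⌉₊ with hL
  set s₀ := ⌈10 * √D⌉₊ with hs₀
  set B : E d → ℝ := fun x => ∑ Q ∈ P, b Q x with hB
  have hBn : Nice B := nice_sum hP.nice
  have hz := sz_pos (d := d) c₀.1
  have hr1 : 1 ≤ √D := Real.one_le_sqrt.2 hD
  have hr2 : √D * √D = D := Real.mul_self_sqrt (by linarith)
  have hr3 : √D ≤ D := by nlinarith
  have hG' : ∀ R ∈ F, ∀ j, R.1 + L ≤ j → cube R ⊆ G j := fun R hR j hj => by
    obtain ⟨y, hy, hy'⟩ := hF.ne R hR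
    have hy2 : y ∈ G (R.1 + L) := by
      by_contra h
      exact hy' (indicator_of_notMem h _)
    exact ((hG.lm _).cube_subset (by simp) hy hy2).trans (hG.mono _ _ hj)
  have e1 : ∀ R ∈ F, ∀ y ∈ cube R, ps (fun j => (G j).indicator (cv k j B)) (R.1 + L) c₀.1 y =
      TT k (R.1 + L) c₀.1 B y := fun R hR y hy =>
    Finset.sum_congr rfl fun j hj => indicator_of_mem (hG' R hR j (Finset.mem_Icc.1 hj).1 hy) _
  have e2 : ∀ R ∈ F, ∀ y ∈ cube R, TT k (R.1 + L) c₀.1 B y =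
      ps (fun j => cv k j (Bw P b (j - s₀) j)) (R.1 + L) c₀.1 y +
        ps (fun j => cv k j (Bl P b (j - s₀))) (R.1 + L) c₀.1 y := fun R hR y hy => by
    unfold TT ps
    rw [← Finset.sum_add_distrib]
    refine Finset.sum_congr rfl fun j hj => ?_
    obtain ⟨hj1, hj2⟩ := Finset.mem_Icc.1 hj
    beta_reduce
    rw [hP.cv_eq_Bl hk (H j ((hF.low R hR).trans hj1) (hj2.trans hc₀) y (hcW (hF.sub R hR hy))
      (hG' R hR j hj1 hy)), ← cv_add hk (hP.nice_Bw _ _) (hP.nice_Bl _)]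
    congr 1
    funext x
    exact Bl_split P b (by simp) x
  obtain ⟨σ, hσ, h4⟩ := h1 k B hk hBn (Real.exp D) (hP.abs_sum_le (Real.exp_pos D).le hb) c₀ F L
    ((C₁ + 12 * C₂ + 23 * C₃ + 1) * D) hF.dj hF.up hF.sub fun R hR => by
      refine lt_of_lt_of_eq (hF.pos R hR) ?_
      congr 1
      ext y
      constructor
      · rintro ⟨hy, h⟩
        exact ⟨hy, by rwa [← e1 R hR y hy]⟩
      · rintro ⟨hy, h⟩
        exact ⟨hy, by rwa [e1 R hR y hy]⟩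
  have h5 := h2 k hk P b hP s₀ L c₀ j₀ F σ (√D) hr1 hF.dj hF.low hF.sub hσ hv
  have h6 := h3 k hk P b hP s₀ L c₀ j₀ F σ hF.dj hF.low hF.up hF.sub hσ
  have e3 : ∑ R ∈ F, σ R * (∫ x in cube R, TT k (R.1 + L) c₀.1 B x) =
      ∑ R ∈ F, σ R * (∫ x in cube R,
        ps (fun j => cv k j (Bw P b (j - s₀) j)) (R.1 + L) c₀.1 x) +
      ∑ R ∈ F, σ R * (∫ x in cube R,
        ps (fun j => cv k j (Bl P b (j - s₀))) (R.1 + L) c₀.1 x) := by
    rw [← Finset.sum_add_distrib]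
    refine Finset.sum_congr rfl fun R hR => ?_
    rw [← mul_add, ← integral_add
      (ps_nice (fun j => cv_nice hk (hP.nice_Bw _ _) j) _ _).integrable.integrableOn
      (ps_nice (fun j => cv_nice hk (hP.nice_Bl _) j) _ _).integrable.integrableOn,
      setIntegral_congr_fun (measurableSet_cube R) (e2 R hR)]
  rw [e3] at h4
  set v := ∑ R ∈ F, sz d R.1 with hvdef
  have hv0 : 0 < v := lt_trans (by positivity) hv
  have hvz : v ≤ sz d c₀.1 := hF.dj.sum_le hz.le (volume_cube c₀).le hF.sub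
  have hL1 : (L : ℝ) + 1 ≤ 22 * D := by
    have := Nat.ceil_lt_add_one (show (0 : ℝ) ≤ 20 * D by linarith)
    linarith
  have hs1 : (s₀ : ℝ) + 1 ≤ 12 * √D := by
    have := Nat.ceil_lt_add_one (show (0 : ℝ) ≤ 10 * √D by linarith)
    linarith
  have p1 : (9 / 10 : ℝ) ^ s₀ ≤ Real.exp (-√D) := run3_pow _ (Nat.le_ceil _)
  have p2 : Real.exp D * (9 / 10 : ℝ) ^ L ≤ Real.exp (-√D) := by
    have : (9 / 10 : ℝ) ^ L ≤ Real.exp (-(2 * D)) :=
      run3_pow _ (le_trans (by linarith) (Nat.le_ceil (20 * D)))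
    calc _ ≤ Real.exp D * Real.exp (-(2 * D)) :=
          mul_le_mul_of_nonneg_left this (Real.exp_pos _).le
      _ = Real.exp (-D) := by rw [← Real.exp_add]; congr 1; ring
      _ ≤ _ := Real.exp_le_exp.2 (by linarith)
  have p3 : √(sz d c₀.1) * √v ≤ sz d c₀.1 := by
    calc _ ≤ √(sz d c₀.1) * √(sz d c₀.1) :=
          mul_le_mul_of_nonneg_left (Real.sqrt_le_sqrt hvz) (Real.sqrt_nonneg _)
      _ = _ := Real.mul_self_sqrt hz.le
  have hDv : v ≤ D * v := le_mul_of_one_le_left hv0.le hD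
  have q1 : C₁ * Real.exp D * (9 / 10) ^ L * √(sz d c₀.1) * √v ≤ C₁ * (D * v) := by
    calc _ = C₁ * ((Real.exp D * (9 / 10) ^ L) * (√(sz d c₀.1) * √v)) := by ring
      _ ≤ C₁ * (Real.exp (-√D) * sz d c₀.1) := by gcongr
      _ ≤ C₁ * (D * v) := mul_le_mul_of_nonneg_left (hv.le.trans hDv) hC₁.le
  have q2 : C₂ * (s₀ + 1) * √D * v ≤ 12 * C₂ * (D * v) := by
    calc _ ≤ C₂ * (12 * √D) * √D * v := by gcongr
      _ = 12 * C₂ * ((√D * √D) * v) := by ring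
      _ = _ := by rw [hr2]
  have q3 : C₃ * (9 / 10) ^ s₀ * sz d c₀.1 ≤ C₃ * (D * v) := by
    calc _ = C₃ * ((9 / 10) ^ s₀ * sz d c₀.1) := by ring
      _ ≤ C₃ * (Real.exp (-√D) * sz d c₀.1) := by gcongr
      _ ≤ C₃ * (D * v) := mul_le_mul_of_nonneg_left (hv.le.trans hDv) hC₃.le
  have q4 : C₃ * (L + 1) * v ≤ 22 * C₃ * (D * v) := by
    calc _ ≤ C₃ * (22 * D) * v := by gcongr
      _ = _ := by ring
  have q5 : 0 < D * v := by positivity
  nlinarith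

theorem run3 (hd : 1 ≤ d) : ∃ C : ℝ, 0 < C ∧ ∀ k : E d → ℝ, IsKer k →
    ∀ (P : Finset (Cb d)) (b : Cb d → E d → ℝ), Atoms P b 1 → ∀ D : ℝ, 1 ≤ D →
    (∀ Q ∈ P, ∀ x, |b Q x| ≤ Real.exp D) → ∀ G : ℤ → Set (E d), Stop G →
    ∀ (W : Cb d) (j₀ : ℤ), (∀ j, j₀ ≤ j → j ≤ W.1 → ∀ x ∈ cube W, x ∈ G j → ∀ Q ∈ P,
      (cube Q ∩ big (cb j x)).Nonempty → Q.1 < j) → ∀ m : ℝ, 1 ≤ m →
    Mom (TG k G j₀ W.1 fun x => ∑ Q ∈ P, b Q x) W m (C * (D + m * √D)) := by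
  obtain ⟨C, hC, h⟩ := run3_step hd
  refine ⟨12 * (C + 12 ^ d * 21), by positivity, ?_⟩
  intro k hk P b hP D hD hb G hG W j₀ H m hm
  have hr1 : 1 ≤ √D := Real.one_le_sqrt.2 hD
  have hr2 : √D * √D = D := Real.mul_self_sqrt (by linarith)
  have hL0 : 1 ≤ ⌈20 * D⌉₊ := Nat.one_le_ceil_iff.2 (by linarith)
  have hL1 : (⌈20 * D⌉₊ : ℝ) ≤ 21 * D := by
    have := Nat.ceil_lt_add_one (show (0 : ℝ) ≤ 20 * D by linarith)
    linarith
  have h1 := jn_mom (C₀ := 12 ^ d) (m := m) hL0 (by positivity) hr1 (by positivity) hm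
    (fun j h0 h1 x hx => by
      by_cases hx' : x ∈ G j
      · rw [indicator_of_mem hx', hP.cv_eq_Bl hk (H j h0 h1 x hx hx')]
        have := hP.cv_Bl_le zero_le_one hk (le_refl j) x
        rwa [mul_one] at this
      · rw [indicator_of_notMem hx', abs_zero]
        positivity)
    (h k hk P b hP D hD hb G hG W j₀ H)
    (Y := TG k G j₀ W.1 fun x => ∑ Q ∈ P, b Q x) fun x _ => ⟨j₀, le_rfl, le_rfl⟩
  refine h1.mono (by linarith) (by positivity) ?_ fun x _ => le_rfl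
  have e1 : D * (1 + m / √D) = D + m * √D := by
    have : √D ≠ 0 := by positivity
    field_simp
    linear_combination (-m) * hr2
  calc 12 * (C * D + 12 ^ d * (⌈20 * D⌉₊ : ℝ)) * (1 + m / √D)
      ≤ 12 * (C * D + 12 ^ d * (21 * D)) * (1 + m / √D) := by gcongr
    _ = 12 * (C + 12 ^ d * 21) * (D * (1 + m / √D)) := by ring
    _ = _ := by rw [e1]

end Pool.Agent.MP_418f02_an
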