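import Pool.Agent.MP_418f02_an.Psi
import Pool.Agent.MP_418f02_an.Gam
import Pool.Agent.MP_418f02_an.Atom

open MeasureTheory Set
open scoped ENNReal RealInnerProductSpace

namespace Pool.Agent.MP_418f02_an

variable {d : ℕ}

/-- pairing of a mean zero atom with a function that is nearly constant on the cube -/
theorem seeger_atom {P : Finset (Cb d)} {b : Cb d → E d → ℝ} {c : ℝ} (h : Atoms P b c)
    {Q : Cb d} (hQ : Q ∈ P) {F : E d → ℝ} (hF : Nice F) {v M : ℝ} (hM : 0 ≤ M)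
    (hb : ∀ a ∈ cube Q, |F a - v| ≤ M) : |∫ a, b Q a * F a| ≤ M * (c * sz d Q.1) := by
  have hn := h.nice Q hQ
  have h1 : ∫ a, b Q a * F a = ∫ a, b Q a * (F a - v) := by
    have e : (fun a => b Q a * (F a - v)) = fun a => b Q a * F a - v * b Q a := by
      funext a; ring
    rw [e, integral_sub (hn.mul hF).integrable (hn.const_mul v).integrable, integral_const_mul,
      h.zero Q hQ]
    ring
  rw [h1]
  calc |∫ a, b Q a * (F a - v)| ≤ ∫ a, M * |b Q a| := by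
        rw [← Real.norm_eq_abs]
        refine norm_integral_le_of_norm_le (hn.abs.const_mul M).integrable
          (Filter.Eventually.of_forall fun a => ?_)
        rw [Real.norm_eq_abs, abs_mul]
        by_cases ha : a ∈ cube Q
        · rw [mul_comm]
          exact mul_le_mul_of_nonneg_right (hb a ha) (abs_nonneg _)
        · simp [h.supp Q hQ a ha]
    _ = M * ∫ a, |b Q a| := integral_const_mul _ _
    _ ≤ M * (c * sz d Q.1) := mul_le_mul_of_nonneg_left (h.mass Q hQ) hM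

theorem seeger_sqrt (s : ℕ) (q : ℤ) {l g : ℝ} (hl : 0 < l)
    (hg : g ≤ (5 / 4) ^ s * 2 ^ q / l) : √(l * g / 2 ^ (q + s - 2)) ≤ 2 * (4 / 5) ^ s := by
  have hq : (0 : ℝ) < 2 ^ q := by positivity
  have e : (2 : ℝ) ^ (q + s - 2) = 2 ^ q * 2 ^ s / 4 := by
    rw [zpow_sub₀ (by norm_num), zpow_add₀ (by norm_num), zpow_natCast]
    norm_num
  have h1 : l * g ≤ (5 / 4) ^ s * 2 ^ q := by
    rw [le_div_iff₀ hl] at hg
    linarith
  have h2 : ((5 : ℝ) / 4) ^ s ≤ ((4 / 5) ^ s) ^ 2 * 2 ^ s := by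
    rw [← pow_mul, mul_comm s 2, pow_mul, ← mul_pow]
    exact pow_le_pow_left₀ (by norm_num) (by norm_num) s
  rw [Real.sqrt_le_left (by positivity), e, div_le_iff₀ (by positivity)]
  calc l * g ≤ (5 / 4) ^ s * 2 ^ q := h1
    _ ≤ (((4 / 5) ^ s) ^ 2 * 2 ^ s) * 2 ^ q := mul_le_mul_of_nonneg_right h2 hq.le
    _ = (2 * (4 / 5) ^ s) ^ 2 * (2 ^ q * 2 ^ s / 4) := by ring

open scoped Classical in
theorem seeger_sum_le {P : Finset (Cb d)} (h : Dj P) {S : Set (E d)} {v : ℝ} (hv : 0 ≤ v)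
    (hS : volume S ≤ ENNReal.ofReal v) (p : Cb d → Prop) [DecidablePred p] {α : ℝ} (hα : 0 ≤ α) :
    ∑ Q ∈ P with p Q, (if cube Q ⊆ S then α else 0) * sz d Q.1 ≤ α * v := by
  have h1 : ∑ Q ∈ P with p Q, (if cube Q ⊆ S then α else 0) * sz d Q.1 =
      α * ∑ Q ∈ (P.filter p).filter fun Q => cube Q ⊆ S, sz d Q.1 := by
    rw [Finset.mul_sum, Finset.sum_filter (s := P.filter p)]
    refine Finset.sum_congr rfl fun Q _ => ?_
    split_ifs <;> simp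
  rw [h1]
  refine mul_le_mul_of_nonneg_left ?_ hα
  refine (h.subset ((Finset.filter_subset _ _).trans (Finset.filter_subset _ _))).sum_le hv hS ?_
  intro Q hQ
  exact (Finset.mem_filter.1 hQ).2

theorem see_key (hd : 1 ≤ d) : ∃ C : ℝ, 0 < C ∧ ∀ k : E d → ℝ, IsKer k →
    ∀ (P : Finset (Cb d)) (b : Cb d → E d → ℝ) (c : ℝ), 0 ≤ c → Atoms P b c →
    ∀ (s : ℕ) (j : ℤ) (x : E d), ∑ Q ∈ P with Q.1 + s ≤ j,
      |∫ a, b Q a * Psi k (2 ^ (j - 2)) (2 ^ (Q.1 + s - 2)) (a - x)| ≤ C * c * (4 / 5) ^ s := by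
  classical
  obtain ⟨C₁, hC₁, H₁⟩ := gam_bad hd
  obtain ⟨C₂, hC₂, H₂⟩ := psi_diff hd
  refine ⟨8 ^ d * C₁ + 2 * C₂ * (2 * (8 + 4 * d)) ^ d, by positivity, ?_⟩
  intro k hk P b c hc hA s j x
  obtain ⟨m, hm⟩ : ∃ m : ℤ, ∀ Q ∈ P, m ≤ Q.1 := by
    obtain ⟨m, hm⟩ := (P.finite_toSet.image Prod.fst).bddBelow
    exact ⟨m, fun Q hQ => hm ⟨Q, hQ, rfl⟩⟩
  obtain ⟨l, hl⟩ : ∃ l : ℝ, l = 2 ^ (j - 2) := ⟨_, rfl⟩
  have hl0 : 0 < l := by rw [hl]; positivity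
  have hl4 : (2 : ℝ) ^ j = 4 * l := by
    rw [hl, zpow_sub₀ (by norm_num)]
    norm_num
    ring
  rw [← hl]
  have ht : (0 : ℝ) < (5 / 4) ^ s := by positivity
  obtain ⟨B, hB⟩ : ∃ B : Set (E d), B = {a : E d | ‖a‖ ≤ (8 + 4 * d) * l ∧
      ∃ e, (2 : ℝ) ^ m ≤ e ∧ (5 / 4) ^ s * e / l < Gam k a e} := ⟨_, rfl⟩
  have hBv : volume B ≤ ENNReal.ofReal (C₁ * l ^ d / (5 / 4) ^ s) := by
    rw [hB]
    exact H₁ k hk l _ _ hl0 ht (by positivity)
  have hS₁ : volume ((fun a => a - x) ⁻¹' B) ≤ ENNReal.ofReal (C₁ * l ^ d / (5 / 4) ^ s) := by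
    simp_rw [sub_eq_add_neg]
    rw [measure_preimage_add_right]
    exact hBv
  have hR : (0 : ℝ) ≤ (8 + 4 * d) * l := by positivity
  have hS₂ := volume_norm_le x hR
  have hα : (0 : ℝ) ≤ 8 ^ d * (l ^ d)⁻¹ := by positivity
  have hβ : (0 : ℝ) ≤ C₂ * (l ^ d)⁻¹ * (2 * (4 / 5) ^ s) := by positivity
  have key : ∀ Q ∈ P.filter fun Q => Q.1 + s ≤ j,
      |∫ a, b Q a * Psi k l (2 ^ (Q.1 + s - 2)) (a - x)| ≤
        c * ((if cube Q ⊆ (fun a => a - x) ⁻¹' B then 8 ^ d * (l ^ d)⁻¹ else 0) * sz d Q.1) +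
        c * ((if cube Q ⊆ {y : E d | ‖y - x‖ ≤ (8 + 4 * d) * l} then
          C₂ * (l ^ d)⁻¹ * (2 * (4 / 5) ^ s) else 0) * sz d Q.1) := by
    intro Q hQ
    obtain ⟨hQP, hQj⟩ := Finset.mem_filter.1 hQ
    have hr : (0 : ℝ) < 2 ^ (Q.1 + s - 2) := by positivity
    have hrl : (2 : ℝ) ^ (Q.1 + s - 2) ≤ l := by
      rw [hl]
      exact zpow_le_zpow_right₀ (by norm_num) (by omega)
    have hN : Nice fun a => Psi k l (2 ^ (Q.1 + s - 2)) (a - x) := (psi_nice hk hr hrl).shift x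
    have hsz := (sz_pos (d := d) Q.1).le
    have n₁ : 0 ≤ c * ((if cube Q ⊆ (fun a => a - x) ⁻¹' B then 8 ^ d * (l ^ d)⁻¹ else 0) *
        sz d Q.1) := by
      refine mul_nonneg hc (mul_nonneg ?_ hsz)
      split_ifs
      · exact hα
      · exact le_rfl
    have n₂ : 0 ≤ c * ((if cube Q ⊆ {y : E d | ‖y - x‖ ≤ (8 + 4 * d) * l} then
        C₂ * (l ^ d)⁻¹ * (2 * (4 / 5) ^ s) else 0) * sz d Q.1) := by
      refine mul_nonneg hc (mul_nonneg ?_ hsz)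
      split_ifs
      · exact hβ
      · exact le_rfl
    by_cases h₀ : ∀ a ∈ cube Q, 8 * l < ‖a - x‖
    · have := seeger_atom hA hQP hN (v := 0) (M := 0) le_rfl fun a ha => by
        rw [psi_supp hk hr hrl (h₀ a ha)]
        simp
      linarith
    by_cases h₁ : cube Q ⊆ (fun a => a - x) ⁻¹' B
    · have := seeger_atom hA hQP hN (v := 0) hα fun a _ => by
        rw [sub_zero]
        exact psi_le hk hl0 hr _
      rw [if_pos h₁]
      linarith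
    push Not at h₀
    obtain ⟨a₁, ha₁, ha₁x⟩ := h₀
    have he : (2 : ℝ) ^ Q.1 ≤ 4 * l := by
      rw [← hl4]
      exact zpow_le_zpow_right₀ (by norm_num) (by omega)
    have h₂ : cube Q ⊆ {y : E d | ‖y - x‖ ≤ (8 + 4 * d) * l} := by
      intro a ha
      have u₁ := norm_sub_le_of_cube ha ha₁
      have u₂ : ‖a - x‖ ≤ ‖a - a₁‖ + ‖a₁ - x‖ := norm_sub_le_norm_sub_add_norm_sub _ _ _
      have u₃ : (d : ℝ) * 2 ^ Q.1 ≤ d * (4 * l) := mul_le_mul_of_nonneg_left he (by positivity)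
      show ‖a - x‖ ≤ (8 + 4 * d) * l
      linarith
    obtain ⟨a₀, ha₀, ha₀B⟩ := Set.not_subset.1 h₁
    have ha₀x : ‖a₀ - x‖ ≤ (8 + 4 * d) * l := h₂ ha₀
    have hg : Gam k (a₀ - x) (2 ^ Q.1) ≤ (5 / 4) ^ s * 2 ^ Q.1 / l := by
      by_contra hcon
      apply ha₀B
      rw [hB]
      exact ⟨ha₀x, 2 ^ Q.1, zpow_le_zpow_right₀ (by norm_num) (hm Q hQP), lt_of_not_ge hcon⟩
    have her : (2 : ℝ) ^ Q.1 ≤ 4 * 2 ^ (Q.1 + s - 2) := by
      have e : (4 : ℝ) * 2 ^ (Q.1 + s - 2) = 2 ^ (Q.1 + s) := by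
        rw [zpow_sub₀ (by norm_num)]
        norm_num
        ring
      rw [e]
      exact zpow_le_zpow_right₀ (by norm_num) (by omega)
    have := seeger_atom hA hQP hN (v := Psi k l (2 ^ (Q.1 + s - 2)) (a₀ - x)) hβ fun a ha => by
      refine (H₂ k hk l _ (2 ^ Q.1) (a - x) (a₀ - x) hr hrl (by positivity) her ha₀x ?_).trans ?_
      · rw [sub_sub_sub_cancel_right]
        exact norm_sub_le_of_cube ha ha₀
      · exact mul_le_mul_of_nonneg_left (seeger_sqrt s Q.1 hl0 hg) (by positivity)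
    rw [if_pos h₂]
    linarith
  refine (Finset.sum_le_sum key).trans ?_
  rw [Finset.sum_add_distrib, ← Finset.mul_sum, ← Finset.mul_sum]
  have b₁ := seeger_sum_le hA.dj (by positivity) hS₁ (fun Q => Q.1 + s ≤ j) hα
  have b₂ := seeger_sum_le hA.dj (by positivity) hS₂ (fun Q => Q.1 + s ≤ j) hβ
  have e₁ : 8 ^ d * (l ^ d)⁻¹ * (C₁ * l ^ d / (5 / 4) ^ s) = 8 ^ d * C₁ * (4 / 5) ^ s := by
    have : ((4 : ℝ) / 5) ^ s = ((5 / 4) ^ s)⁻¹ := by
      rw [← inv_pow]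
      norm_num
    rw [this]
    field_simp
  have e₂ : C₂ * (l ^ d)⁻¹ * (2 * (4 / 5) ^ s) * (2 * ((8 + 4 * d) * l)) ^ d =
      2 * C₂ * (2 * (8 + 4 * d)) ^ d * (4 / 5) ^ s := by
    rw [← mul_assoc 2 _ l, mul_pow _ l]
    field_simp
  rw [e₁] at b₁
  rw [e₂] at b₂
  have c₁ := mul_le_mul_of_nonneg_left b₁ hc
  have c₂ := mul_le_mul_of_nonneg_left b₂ hc
  linarith

theorem seeger_meas {g F : E d → ℝ} (hg : Measurable g) (hF : Measurable F) :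
    Measurable fun x => ∫ a, g a * F (a - x) := by
  have : Measurable fun p : E d × E d => g p.2 * F (p.2 - p.1) :=
    (hg.comp measurable_snd).mul (hF.comp (measurable_snd.sub measurable_fst))
  exact (this.stronglyMeasurable.integral_prod_right' (ν := volume)).measurable

theorem seeger_symm {ι : Type} (P : Finset ι) (v : ι → ℤ) (J : ι → ι → ℝ)
    (hJ : ∀ a b, J a b = J b a) :
    ∑ a ∈ P, ∑ b ∈ P, J a b ≤ 2 * ∑ a ∈ P, ∑ b ∈ P with v b ≤ v a, |J a b| := by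
  have h1 : ∑ a ∈ P, ∑ b ∈ P with v b ≤ v a, |J a b| =
      ∑ a ∈ P, ∑ b ∈ P, if v b ≤ v a then |J a b| else 0 :=
    Finset.sum_congr rfl fun a _ => Finset.sum_filter _ _
  have h2 : ∑ a ∈ P, ∑ b ∈ P, (if v b ≤ v a then |J a b| else 0) =
      ∑ a ∈ P, ∑ b ∈ P, if v a ≤ v b then |J a b| else 0 := by
    rw [Finset.sum_comm]
    exact Finset.sum_congr rfl fun a _ => Finset.sum_congr rfl fun b _ => by rw [hJ b a]
  rw [two_mul, h1]
  nth_rewrite 2 [h2]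
  rw [← Finset.sum_add_distrib]
  refine Finset.sum_le_sum fun a _ => ?_
  rw [← Finset.sum_add_distrib]
  refine Finset.sum_le_sum fun b _ => ?_
  have := le_abs_self (J a b)
  have := abs_nonneg (J a b)
  split_ifs with u w w
  · linarith
  · linarith
  · linarith
  · omega

theorem seeger (hd : 1 ≤ d) : ∃ C : ℝ, 0 < C ∧ ∀ k : E d → ℝ, IsKer k →
    ∀ (P : Finset (Cb d)) (b : Cb d → E d → ℝ) (c : ℝ), 0 ≤ c → Atoms P b c → ∀ s : ℕ,
    ∫ x, (∑ Q ∈ P, cv k (Q.1 + s) (b Q) x) ^ 2 ≤ C * c ^ 2 * (4 / 5) ^ s * ∑ Q ∈ P, sz d Q.1 := by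
  obtain ⟨C, hC, H⟩ := see_key hd
  refine ⟨2 * C, by positivity, ?_⟩
  intro k hk P b c hc hA s
  have hu : ∀ Q ∈ P, Nice (cv k (Q.1 + s) (b Q)) := fun Q hQ => cv_nice hk (hA.nice Q hQ) _
  have h1 : ∫ x, (∑ Q ∈ P, cv k (Q.1 + s) (b Q) x) ^ 2 =
      ∑ Q ∈ P, ∑ R ∈ P, ∫ x, cv k (Q.1 + s) (b Q) x * cv k (R.1 + s) (b R) x := by
    simp_rw [pow_two, Finset.sum_mul_sum]
    rw [integral_finsetSum _ fun Q hQ =>
      integrable_finsetSum _ fun R hR => ((hu Q hQ).mul (hu R hR)).integrable]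
    exact Finset.sum_congr rfl fun Q hQ =>
      integral_finsetSum _ fun R hR => ((hu Q hQ).mul (hu R hR)).integrable
  rw [h1]
  refine (seeger_symm P Prod.fst _ fun Q R => by simp_rw [mul_comm]).trans ?_
  have hK : 0 ≤ C * c * (4 / 5) ^ s := by positivity
  have key : ∀ Q ∈ P, ∑ R ∈ P with R.1 ≤ Q.1,
      |∫ x, cv k (Q.1 + s) (b Q) x * cv k (R.1 + s) (b R) x| ≤
        C * c * (4 / 5) ^ s * (c * sz d Q.1) := by
    intro Q hQ
    have hn := hA.nice Q hQ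
    have hf : P.filter (fun R => R.1 ≤ Q.1) = P.filter fun R => R.1 + s ≤ Q.1 + s :=
      Finset.filter_congr fun R _ => by omega
    have H' := fun x => H k hk P b c hc hA s (Q.1 + s) x
    rw [← hf] at H'
    have hI : ∀ R ∈ P.filter (fun R => R.1 ≤ Q.1), Integrable fun x => |b Q x| *
        |∫ a, b R a * Psi k (2 ^ (Q.1 + s - 2)) (2 ^ (R.1 + s - 2)) (a - x)| := by
      intro R hR
      obtain ⟨hRP, hRQ⟩ := Finset.mem_filter.1 hR
      have hP : Nice (Psi k (2 ^ (Q.1 + s - 2)) (2 ^ (R.1 + s - 2))) :=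
        psi_nice hk (by positivity) (zpow_le_zpow_right₀ (by norm_num) (by omega))
      refine hn.abs.integrable.mul_bdd (c := C * c * (4 / 5) ^ s)
        (seeger_meas (hA.nice R hRP).meas hP.meas).abs.aestronglyMeasurable
        (Filter.Eventually.of_forall fun x => ?_)
      rw [Real.norm_eq_abs, abs_abs]
      refine le_trans ?_ (H' x)
      exact Finset.single_le_sum (f := fun R : Cb d =>
        |∫ a, b R a * Psi k (2 ^ (Q.1 + s - 2)) (2 ^ (R.1 + s - 2)) (a - x)|)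
        (fun _ _ => abs_nonneg _) hR
    calc ∑ R ∈ P with R.1 ≤ Q.1, |∫ x, cv k (Q.1 + s) (b Q) x * cv k (R.1 + s) (b R) x|
        ≤ ∑ R ∈ P with R.1 ≤ Q.1, ∫ x, |b Q x| *
          |∫ a, b R a * Psi k (2 ^ (Q.1 + s - 2)) (2 ^ (R.1 + s - 2)) (a - x)| := by
          refine Finset.sum_le_sum fun R hR => ?_
          rw [cv_inner hk hn (hA.nice R (Finset.mem_filter.1 hR).1)]
          refine abs_integral_le_integral_abs.trans (le_of_eq ?_)
          simp_rw [abs_mul]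
      _ = ∫ x, ∑ R ∈ P with R.1 ≤ Q.1, |b Q x| *
          |∫ a, b R a * Psi k (2 ^ (Q.1 + s - 2)) (2 ^ (R.1 + s - 2)) (a - x)| :=
          (integral_finsetSum _ hI).symm
      _ ≤ ∫ x, C * c * (4 / 5) ^ s * |b Q x| := by
          refine integral_mono (integrable_finsetSum _ hI) (hn.abs.const_mul _).integrable
            fun x => ?_
          simp only
          rw [← Finset.mul_sum, mul_comm]
          exact mul_le_mul_of_nonneg_right (H' x) (abs_nonneg _)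
      _ = C * c * (4 / 5) ^ s * ∫ x, |b Q x| := integral_const_mul _ _
      _ ≤ _ := mul_le_mul_of_nonneg_left (hA.mass Q hQ) hK
  calc 2 * ∑ Q ∈ P, ∑ R ∈ P with R.1 ≤ Q.1,
        |∫ x, cv k (Q.1 + s) (b Q) x * cv k (R.1 + s) (b R) x|
      ≤ 2 * ∑ Q ∈ P, C * c * (4 / 5) ^ s * (c * sz d Q.1) :=
        mul_le_mul_of_nonneg_left (Finset.sum_le_sum key) (by norm_num)
    _ = 2 * C * c ^ 2 * (4 / 5) ^ s * ∑ Q ∈ P, sz d Q.1 := by
        rw [← Finset.mul_sum, ← Finset.mul_sum]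
        ring

theorem seeger_pair (hd : 1 ≤ d) : ∃ C : ℝ, 0 < C ∧ ∀ k : E d → ℝ, IsKer k →
    ∀ (P : Finset (Cb d)) (b : Cb d → E d → ℝ) (c : ℝ), 0 ≤ c → Atoms P b c → ∀ s : ℕ,
    ∀ h : E d → ℝ, Nice h → |∑ Q ∈ P, ∫ x, h x * cv k (Q.1 + s) (b Q) x| ≤
      C * c * (9 / 10) ^ s * √(∫ x, h x ^ 2) * √(∑ Q ∈ P, sz d Q.1) := by
  obtain ⟨C, hC, H⟩ := seeger hd
  refine ⟨√C, Real.sqrt_pos.2 hC, ?_⟩
  intro k hk P b c hc hA s h hh
  have hu : ∀ Q ∈ P, Nice (cv k (Q.1 + s) (b Q)) := fun Q hQ => cv_nice hk (hA.nice Q hQ) _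
  have h1 : ∑ Q ∈ P, ∫ x, h x * cv k (Q.1 + s) (b Q) x =
      ∫ x, h x * ∑ Q ∈ P, cv k (Q.1 + s) (b Q) x := by
    simp_rw [Finset.mul_sum]
    exact (integral_finsetSum _ fun Q hQ => (hh.mul (hu Q hQ)).integrable).symm
  have hS : 0 ≤ ∑ Q ∈ P, sz d Q.1 := Finset.sum_nonneg fun Q _ => (sz_pos _).le
  have h2 : √(∫ x, (∑ Q ∈ P, cv k (Q.1 + s) (b Q) x) ^ 2) ≤
      √C * c * (9 / 10) ^ s * √(∑ Q ∈ P, sz d Q.1) := by
    rw [Real.sqrt_le_left (by positivity)]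
    refine (H k hk P b c hc hA s).trans ?_
    have e : (√C * c * (9 / 10) ^ s * √(∑ Q ∈ P, sz d Q.1)) ^ 2 =
        C * c ^ 2 * ((9 / 10) ^ s) ^ 2 * ∑ Q ∈ P, sz d Q.1 := by
      rw [mul_pow, mul_pow, mul_pow, Real.sq_sqrt hC.le, Real.sq_sqrt hS]
    have h3 : ((4 : ℝ) / 5) ^ s ≤ ((9 / 10) ^ s) ^ 2 := by
      rw [← pow_mul, mul_comm s 2, pow_mul]
      exact pow_le_pow_left₀ (by norm_num) (by norm_num) s
    rw [e]
    exact mul_le_mul_of_nonneg_right (mul_le_mul_of_nonneg_left h3 (by positivity)) hS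
  rw [h1]
  refine (hh.cs (nice_sum hu)).trans ?_
  calc √(∫ x, h x ^ 2) * √(∫ x, (∑ Q ∈ P, cv k (Q.1 + s) (b Q) x) ^ 2)
      ≤ √(∫ x, h x ^ 2) * (√C * c * (9 / 10) ^ s * √(∑ Q ∈ P, sz d Q.1)) :=
        mul_le_mul_of_nonneg_left h2 (Real.sqrt_nonneg _)
    _ = _ := by ring

end Pool.Agent.MP_418f02_an
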