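import Pool.Agent.MP_418f02_an.Run1
import Pool.Agent.MP_418f02_an.Run3

open MeasureTheory Set
open scoped ENNReal RealInnerProductSpace

namespace Pool.Agent.MP_418f02_an

variable {d : ℕ}

theorem single_real (c : Cb d) : volume.real (cube c) = sz d c.1 := by
  rw [Measure.real, volume_cube, ENNReal.toReal_ofReal (sz_pos _).le]

theorem single_const (c : Cb d) (a : ℝ) : Nice ((cube c).indicator fun _ => a) :=
  nice_indicator (measurableSet_cube c) ((isBounded_big c).subset (cube_subset_big c)) a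

theorem single_sum {P : Finset (Cb d)} (h : Dj P) (f : Cb d → E d → ℝ) {Q : Cb d} (hQ : Q ∈ P)
    {x : E d} (hx : x ∈ cube Q) : ∑ R ∈ P, (cube R).indicator (f R) x = f Q x := by
  rw [Finset.sum_eq_single_of_mem Q hQ, indicator_of_mem hx]
  intro R hR hne
  exact indicator_of_notMem (fun hR' => Set.disjoint_left.1 (h hR hQ hne) hR' hx) _

theorem single_abs {P : Finset (Cb d)} (h : Dj P) (a : Cb d → ℝ) (ha : ∀ Q ∈ P, |a Q| ≤ 1)
    (x : E d) : |∑ R ∈ P, (cube R).indicator (fun _ => a R) x| ≤ 1 := by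
  by_cases hx : ∃ Q ∈ P, x ∈ cube Q
  · obtain ⟨Q, hQ, hx⟩ := hx
    rw [single_sum h (fun R _ => a R) hQ hx]
    exact ha Q hQ
  · rw [Finset.sum_eq_zero fun R hR => indicator_of_notMem (fun h' => hx ⟨R, hR, h'⟩) _]
    simp

theorem single_mean {g : E d → ℝ} {Q : Cb d} {M : ℝ}
    (h : ∫ x in cube Q, |g x| ≤ M * sz d Q.1) : |(∫ x in cube Q, g x) / sz d Q.1| ≤ M := by
  rw [abs_div, abs_of_pos (sz_pos _), div_le_iff₀ (sz_pos _)]
  exact abs_integral_le_integral_abs.trans h

theorem single_atoms {g : E d → ℝ} (hg : Nice g) {P : Finset (Cb d)} (hP : Dj P) {M : ℝ}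
    (hM : 0 < M) (h : ∀ Q ∈ P, ∫ x in cube Q, |g x| ≤ M * sz d Q.1) :
    Atoms P (fun Q => (cube Q).indicator
      fun x => (2 * M)⁻¹ * (g x - (∫ y in cube Q, g y) / sz d Q.1)) 1 := by
  have hfin : ∀ Q : Cb d, volume (cube Q) ≠ ∞ := fun Q => by
    rw [volume_cube]; exact ENNReal.ofReal_ne_top
  refine ⟨hP, fun Q _ => ?_, fun Q _ x hx => indicator_of_notMem hx _, fun Q _ => ?_,
    fun Q hQ => ?_⟩
  · have h1 := ((hg.indicator (measurableSet_cube Q)).sub
      (single_const Q ((∫ y in cube Q, g y) / sz d Q.1))).const_mul (2 * M)⁻¹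
    convert h1 using 1
    ext x
    by_cases hx : x ∈ cube Q <;> simp [hx]
  · rw [integral_indicator (measurableSet_cube Q), integral_const_mul,
      integral_sub hg.integrable.integrableOn (integrableOn_const (hfin Q)), setIntegral_const,
      single_real, smul_eq_mul, mul_div_cancel₀ _ (sz_pos _).ne', sub_self, mul_zero]
  · have h1 : (fun x => |(cube Q).indicator
        (fun x => (2 * M)⁻¹ * (g x - (∫ y in cube Q, g y) / sz d Q.1)) x|) =
        (cube Q).indicator
          fun x => |(2 * M)⁻¹ * (g x - (∫ y in cube Q, g y) / sz d Q.1)| := by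
      ext x
      by_cases hx : x ∈ cube Q <;> simp [hx]
    have h2 : IntegrableOn (fun x => |g x|) (cube Q) := hg.abs.integrable.integrableOn
    have h3 : IntegrableOn (fun _ => M) (cube Q) := integrableOn_const (hfin Q)
    rw [h1, integral_indicator (measurableSet_cube Q)]
    calc _ ≤ ∫ x in cube Q, (2 * M)⁻¹ * (|g x| + M) := by
          refine integral_mono_of_nonneg (Filter.Eventually.of_forall fun x => abs_nonneg _)
            ((h2.add h3).const_mul _) (Filter.Eventually.of_forall fun x => ?_)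
          have h4 := single_mean (h Q hQ)
          have h5 := abs_sub (g x) ((∫ y in cube Q, g y) / sz d Q.1)
          simp only
          rw [abs_mul, abs_of_pos (by positivity : 0 < (2 * M)⁻¹)]
          exact mul_le_mul_of_nonneg_left (by linarith) (by positivity)
      _ = (2 * M)⁻¹ * ((∫ x in cube Q, |g x|) + M * sz d Q.1) := by
          rw [integral_const_mul, integral_add h2 h3, setIntegral_const, single_real, smul_eq_mul,
            mul_comm (sz d Q.1) M]
      _ ≤ (2 * M)⁻¹ * (M * sz d Q.1 + M * sz d Q.1) := by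
          have := h Q hQ
          gcongr
      _ = 1 * sz d Q.1 := by field_simp; ring

theorem single (hd : 1 ≤ d) : ∃ C : ℝ, 0 < C ∧ ∀ k g : E d → ℝ, IsKer k → Nice g →
    ∀ G : ℤ → Set (E d), Stop G → ∀ (W : Cb d) (j₀ : ℤ) (μ D : ℝ), 0 < μ → 1 ≤ D →
    (∀ x, |g x| ≤ μ * Real.exp D) → (∀ j, j₀ ≤ j → j ≤ W.1 → ∀ x ∈ cube W, x ∈ G j →
      ∫ y in big (cb j x), |g y| ≤ μ * (3 ^ d * sz d j)) → ∀ m : ℝ, 1 ≤ m →
    Mom (TG k G j₀ W.1 g) W m (C * μ * (D + m * √D)) := by
  obtain ⟨C₁, hC₁, r1⟩ := run1 hd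
  obtain ⟨C₃, hC₃, r3⟩ := run3 hd
  refine ⟨6 ^ d * (C₁ + 2 * C₃), by positivity, ?_⟩
  intro k g hk hg G hG W j₀ μ D hμ hD hgb hav m hm
  by_cases hx : j₀ ≤ W.1 ∧ ∃ x ∈ cube W, x ∈ G W.1
  swap
  · refine mom_zero (by linarith) fun x hxW => ?_
    unfold TG ps
    refine Finset.sum_eq_zero fun j hj => ?_
    rw [Finset.mem_Icc] at hj
    exact indicator_of_notMem (fun h => hx ⟨hj.1.trans hj.2, x, hxW, hG.mono _ _ hj.2 h⟩) _
  obtain ⟨hj, x₀, hx₀, hx₀G⟩ := hx
  have hW := hav W.1 hj le_rfl x₀ hx₀ hx₀G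
  rw [cb_eq_of_mem hx₀] at hW
  obtain ⟨P, hP, hPW, hPm, hPl⟩ := cz hg hj hμ hW
  have h6 : (1 : ℝ) ≤ 6 ^ d := one_le_pow₀ (by norm_num)
  set M : ℝ := 6 ^ d * μ with hMdef
  have hM : 0 < M := by positivity
  have hμM : μ ≤ M := le_mul_of_one_le_left hμ.le h6
  have hA := single_atoms hg hP hM hPm
  set a : Cb d → ℝ := fun Q => (∫ y in cube Q, g y) / sz d Q.1 with hadef
  have ha : ∀ Q ∈ P, |a Q| ≤ M := fun Q hQ => single_mean (hPm Q hQ)
  set b : Cb d → E d → ℝ := fun Q => (cube Q).indicator fun x => (2 * M)⁻¹ * (g x - a Q)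
    with hbdef
  set γ : E d → ℝ := fun x => ∑ R ∈ P, (cube R).indicator (fun _ => a R / M) x with hγdef
  have hγn : Nice γ := nice_sum fun R _ => single_const R _
  have hbn : Nice fun x => ∑ Q ∈ P, b Q x := nice_sum hA.nice
  have hγ1 : ∀ x, |γ x| ≤ 1 := single_abs hP _ fun Q hQ => by
    rw [abs_div, abs_of_pos hM, div_le_one hM]; exact ha Q hQ
  have he : 1 ≤ Real.exp D := Real.one_le_exp (by linarith)
  have hbb : ∀ Q ∈ P, ∀ x, |b Q x| ≤ Real.exp D := by
    intro Q hQ x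
    by_cases hx : x ∈ cube Q
    · simp only [hbdef, indicator_of_mem hx]
      rw [abs_mul, abs_of_pos (by positivity : 0 < (2 * M)⁻¹), inv_mul_le_iff₀ (by positivity)]
      have h1 := abs_sub (g x) (a Q)
      have h2 := hgb x
      have h3 := ha Q hQ
      have h4 : μ * Real.exp D ≤ M * Real.exp D := by gcongr
      have h5 : M ≤ M * Real.exp D := le_mul_of_one_le_right hM.le he
      linarith
    · simp only [hbdef, indicator_of_notMem hx, abs_zero]
      linarith
  have hcomp : ∀ j, j₀ ≤ j → j ≤ W.1 → ∀ x ∈ cube W, x ∈ G j → ∀ Q ∈ P,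
      (cube Q ∩ big (cb j x)).Nonempty → Q.1 < j := by
    intro j hj₀ _ x hxW hxG Q hQ ⟨y, hyQ, hy⟩
    by_contra hlt
    have hle : j ≤ Q.1 := not_lt.1 hlt
    have h1 := hav Q.1 (hj₀.trans hle) (hPl Q hQ).1.le x hxW (hG.mono _ _ hle hxG)
    have h2 : cube Q ⊆ big (cb Q.1 x) :=
      (lm_big (cb Q.1 x)).cube_subset le_rfl hyQ (big_mono hle x hy)
    have h3 : ∫ y in cube Q, |g y| ≤ ∫ y in big (cb Q.1 x), |g y| :=
      setIntegral_mono_set hg.abs.integrable.integrableOn
        (Filter.Eventually.of_forall fun x => abs_nonneg _) h2.eventuallyLE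
    have h4 := (hPl Q hQ).2 (hj₀.trans hle)
    linarith
  have m1 := (r1 k γ hk hγn hγ1 G hG W j₀ m hm).const_mul (by linarith) (by positivity) hM.le
  have hs : 1 ≤ √D := Real.one_le_sqrt.2 hD
  have hpos : 0 ≤ D + m * √D := by positivity
  have m3 := (r3 k hk P b hA D hD hbb G hG W j₀ hcomp m hm).const_mul (by linarith)
    (by positivity) (by positivity : 0 ≤ 2 * M)
  have m4 := m1.add m3 ((TG_nice hk hγn hG _ _).const_mul M).meas
    ((TG_nice hk hbn hG _ _).const_mul (2 * M)).meas hm (by positivity) (by positivity)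
  refine m4.mono (by linarith) (by positivity) ?_ fun x hx => le_of_eq ?_
  · have h1 : m ≤ D + m * √D := by
      have := le_mul_of_one_le_right (by linarith : 0 ≤ m) hs
      linarith
    calc M * (C₁ * m) + 2 * M * (C₃ * (D + m * √D))
        ≤ M * (C₁ * (D + m * √D)) + 2 * M * (C₃ * (D + m * √D)) := by gcongr
      _ = 6 ^ d * (C₁ + 2 * C₃) * μ * (D + m * √D) := by rw [hMdef]; ring
  · rw [← TG_const_mul, ← TG_const_mul, ← TG_add hk (hγn.const_mul M) (hbn.const_mul (2 * M))]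
    congr 1
    refine TG_congr hk G j₀ hx fun y hy => ?_
    rw [hPW] at hy
    simp only [mem_iUnion] at hy
    obtain ⟨Q, hQ, hyQ⟩ := hy
    simp only [hγdef, hbdef]
    rw [single_sum hP (fun R _ => a R / M) hQ hyQ,
      single_sum hP (fun R x => (2 * M)⁻¹ * (g x - a R)) hQ hyQ]
    field_simp
    ring

end Pool.Agent.MP_418f02_an
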