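import Pool.Agent.MP_418f02_an.Seeger

open MeasureTheory Set
open scoped ENNReal RealInnerProductSpace

namespace Pool.Agent.MP_418f02_an

variable {d : ℕ}

lemma step_real_cube (c : Cb d) : volume.real (cube c) = sz d c.1 := by
  rw [Measure.real, volume_cube, ENNReal.toReal_ofReal (sz_pos _).le]

lemma step_bdd_cube (c : Cb d) : Bornology.IsBounded (cube c) :=
  (isBounded_big c).subset (cube_subset_big c)

/-- the atom attached to a set of positive measure on which `T` is large -/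
lemma step_atom {T : E d → ℝ} (hT : Nice T) (R : Cb d) (A : ℝ)
    (h : 0 < volume {y ∈ cube R | A < T y}) :
    ∃ μ : E d → ℝ, Nice μ ∧ (∀ x, x ∉ cube R → μ x = 0) ∧ ∫ x, μ x = 0 ∧
      ∫ x, |μ x| ≤ 2 * sz d R.1 ∧ A * sz d R.1 ≤ (∫ x in cube R, T x) + ∫ x, T x * μ x := by
  set S : Set (E d) := {y ∈ cube R | A < T y} with hS
  have hsub : S ⊆ cube R := fun y hy => hy.1
  have hm : MeasurableSet S := (measurableSet_cube R).inter (measurableSet_lt measurable_const hT.meas)
  have hfin : volume S ≠ ∞ := by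
    refine ne_top_of_le_ne_top ?_ (measure_mono hsub)
    rw [volume_cube]; exact ENNReal.ofReal_ne_top
  have hv : 0 < volume.real S := ENNReal.toReal_pos h.ne' hfin
  have hz := sz_pos (d := d) R.1
  have n1 : Nice (S.indicator fun _ => sz d R.1 / volume.real S) :=
    nice_indicator hm ((step_bdd_cube R).subset hsub) _
  have n2 : Nice ((cube R).indicator fun _ => (1 : ℝ)) :=
    nice_indicator (measurableSet_cube R) (step_bdd_cube R) _
  have i1 : ∫ x, S.indicator (fun _ => sz d R.1 / volume.real S) x = sz d R.1 := by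
    rw [integral_indicator_const _ hm, smul_eq_mul]; field_simp
  have i2 : ∫ x, (cube R).indicator (fun _ => (1 : ℝ)) x = sz d R.1 := by
    rw [integral_indicator_const _ (measurableSet_cube R), smul_eq_mul, step_real_cube, mul_one]
  refine ⟨fun x => S.indicator (fun _ => sz d R.1 / volume.real S) x -
    (cube R).indicator (fun _ => (1 : ℝ)) x, n1.sub n2, ?_, ?_, ?_, ?_⟩
  · intro x hx
    beta_reduce
    rw [indicator_of_notMem (fun h => hx (hsub h)), indicator_of_notMem hx, sub_zero]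
  · rw [integral_sub n1.integrable n2.integrable, i1, i2, sub_self]
  · calc _ ≤ ∫ x, (S.indicator (fun _ => sz d R.1 / volume.real S) x +
          (cube R).indicator (fun _ => (1 : ℝ)) x) := by
          refine integral_mono (n1.sub n2).abs.integrable (n1.add n2).integrable fun x => ?_
          have a1 : 0 ≤ S.indicator (fun _ => sz d R.1 / volume.real S) x :=
            indicator_nonneg (fun _ _ => by positivity) x
          have a2 : 0 ≤ (cube R).indicator (fun _ => (1 : ℝ)) x :=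
            indicator_nonneg (fun _ _ => by positivity) x
          exact abs_le.2 ⟨by linarith, by linarith⟩
      _ = 2 * sz d R.1 := by rw [integral_add n1.integrable n2.integrable, i1, i2]; ring
  · simp only [mul_sub]
    rw [integral_sub (hT.mul n1).integrable (hT.mul n2).integrable]
    have e1 : ∫ x, T x * (cube R).indicator (fun _ => (1 : ℝ)) x = ∫ x in cube R, T x := by
      rw [← integral_indicator (measurableSet_cube R)]
      congr 1; funext x
      by_cases hx : x ∈ cube R <;> simp [hx]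
    have e2 : ∫ x, T x * S.indicator (fun _ => sz d R.1 / volume.real S) x =
        (∫ x in S, T x) * (sz d R.1 / volume.real S) := by
      rw [← integral_indicator hm, ← integral_mul_const]
      congr 1; funext x
      by_cases hx : x ∈ S <;> simp [hx]
    have e3 : A * volume.real S ≤ ∫ x in S, T x := by
      have := setIntegral_mono_on (μ := volume) (f := fun _ => A) (g := T) (s := S)
        (integrableOn_const hfin) hT.integrable.integrableOn hm fun x hx => hx.2.le
      rwa [setIntegral_const, smul_eq_mul, mul_comm] at this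
    rw [e1, e2]
    have : A * sz d R.1 = A * volume.real S * (sz d R.1 / volume.real S) := by field_simp
    have := mul_le_mul_of_nonneg_right e3 (by positivity : 0 ≤ sz d R.1 / volume.real S)
    linarith

lemma step_atom' {T : E d → ℝ} (hT : Nice T) (R : Cb d) (A : ℝ)
    (h : 0 < volume {y ∈ cube R | A < |T y|}) :
    ∃ (σ : ℝ) (μ : E d → ℝ), |σ| ≤ 1 ∧ Nice μ ∧ (∀ x, x ∉ cube R → μ x = 0) ∧ ∫ x, μ x = 0 ∧
      ∫ x, |μ x| ≤ 2 * sz d R.1 ∧
      A * sz d R.1 ≤ σ * (∫ x in cube R, T x) + ∫ x, T x * μ x := by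
  by_cases h1 : 0 < volume {y ∈ cube R | A < T y}
  · obtain ⟨μ, a, b, c, e, f⟩ := step_atom hT R A h1
    exact ⟨1, μ, by simp, a, b, c, e, by simpa using f⟩
  · have h2 : 0 < volume {y ∈ cube R | A < -1 * T y} := by
      by_contra h2
      rw [not_lt, nonpos_iff_eq_zero] at h1 h2
      refine h.ne' (measure_mono_null (fun y hy => ?_) (measure_union_null h1 h2))
      rcases lt_abs.1 hy.2 with h3 | h3
      · exact Or.inl ⟨hy.1, h3⟩
      · exact Or.inr ⟨hy.1, by simpa using h3⟩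
    obtain ⟨μ, a, b, c, e, f⟩ := step_atom (hT.const_mul (-1)) R A h2
    refine ⟨-1, fun x => -1 * μ x, by simp, a.const_mul _, fun x hx => by simp [b x hx], ?_, ?_, ?_⟩
    · rw [integral_const_mul, c, mul_zero]
    · simpa using e
    · rw [integral_const_mul] at f
      simpa using f

lemma step_reindex (f : ℤ → ℝ) (a b : ℤ) (L U : ℕ) (hU : b ≤ a + U) :
    ∑ j ∈ Finset.Icc (a + L) b, f j =
      ∑ u ∈ (Finset.Icc L U).filter (fun u : ℕ => a + (u : ℤ) ≤ b), f (a + (u : ℕ)) := by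
  symm
  refine Finset.sum_bij (fun (u : ℕ) _ => a + (u : ℤ)) ?_ ?_ ?_ (fun _ _ => rfl)
  · intro u hu
    simp only [Finset.mem_filter, Finset.mem_Icc] at hu ⊢
    omega
  · intro u _ v _ h
    omega
  · intro j hj
    simp only [Finset.mem_filter, Finset.mem_Icc] at hj ⊢
    exact ⟨(j - a).toNat, by omega, by omega⟩

lemma step_geom (L U : ℕ) : ∑ u ∈ Finset.Icc L U, (9 / 10 : ℝ) ^ u ≤ 10 * (9 / 10) ^ L := by
  rw [← Finset.Ico_add_one_right_eq_Icc]
  have := geom_sum_Ico_le_of_lt_one (x := (9 / 10 : ℝ)) (m := L) (n := U + 1) (by norm_num)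
    (by norm_num)
  refine this.trans (le_of_eq ?_)
  ring

lemma step_sq {g : E d → ℝ} (hg : Nice g) {Λ : ℝ} (hΛ : ∀ x, |g x| ≤ Λ) (c : Cb d) :
    √(∫ x, (big c).indicator g x ^ 2) ≤ Λ * √(3 ^ d) * √(sz d c.1) := by
  have h0 : 0 ≤ Λ := (abs_nonneg _).trans (hΛ 0)
  have hz := sz_pos (d := d) c.1
  have : ∫ x, (big c).indicator g x ^ 2 ≤ Λ ^ 2 * (3 ^ d * sz d c.1) := by
    calc _ ≤ ∫ x, (big c).indicator (fun _ => Λ ^ 2) x := by
          refine integral_mono (hg.indicator (measurableSet_big c)).sq.integrable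
            (nice_indicator (measurableSet_big c) (isBounded_big c) _).integrable fun x => ?_
          by_cases hx : x ∈ big c
          · simp only [indicator_of_mem hx]
            rw [← sq_abs]
            exact pow_le_pow_left₀ (abs_nonneg _) (hΛ x) 2
          · simp [hx]
      _ = _ := by
          rw [integral_indicator_const _ (measurableSet_big c), smul_eq_mul, Measure.real,
            volume_big, ENNReal.toReal_ofReal (by positivity), mul_comm]
  refine (Real.sqrt_le_sqrt this).trans (le_of_eq ?_)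
  rw [Real.sqrt_mul (by positivity), Real.sqrt_mul (by positivity), Real.sqrt_sq h0, mul_assoc]

lemma step_pair {k g μ : E d → ℝ} (hk : IsKer k) (hg : Nice g) (hμ : Nice μ) {c₀ : Cb d}
    (hs : ∀ x, x ∉ cube c₀ → μ x = 0) (a : ℤ) :
    ∫ x, TT k a c₀.1 g x * μ x =
      ∑ j ∈ Finset.Icc a c₀.1, ∫ y, (big c₀).indicator g y * cv (rf k) j μ y := by
  have hg' := hg.indicator (measurableSet_big c₀)
  simp only [TT, ps, Finset.sum_mul]
  rw [integral_finsetSum _ fun j _ => ((cv_nice hk hg j).mul hμ).integrable]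
  refine Finset.sum_congr rfl fun j hj => ?_
  rw [← cv_dual hk hg' hμ]
  congr 1; funext x
  by_cases hx : x ∈ cube c₀
  · congr 1
    refine cv_congr hk fun y hy => ?_
    rw [indicator_of_mem (big_subset_big (Finset.mem_Icc.1 hj).2 hx hy)]
  · simp [hs x hx]

theorem osc_step (hd : 1 ≤ d) : ∃ C : ℝ, 0 < C ∧ ∀ k g : E d → ℝ, IsKer k → Nice g →
    ∀ Λ : ℝ, (∀ x, |g x| ≤ Λ) → ∀ (c₀ : Cb d) (F : Finset (Cb d)) (L : ℕ) (A : ℝ), Dj F →
    (∀ R ∈ F, R.1 + L ≤ c₀.1) → (∀ R ∈ F, cube R ⊆ cube c₀) →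
    (∀ R ∈ F, 0 < volume {y ∈ cube R | A < |TT k (R.1 + L) c₀.1 g y|}) →
    ∃ σ : Cb d → ℝ, (∀ R, |σ R| ≤ 1) ∧ A * ∑ R ∈ F, sz d R.1 ≤
      ∑ R ∈ F, σ R * (∫ x in cube R, TT k (R.1 + L) c₀.1 g x) +
        C * Λ * (9 / 10) ^ L * √(sz d c₀.1) * √(∑ R ∈ F, sz d R.1) := by
  obtain ⟨C, hC, hS⟩ := seeger_pair hd
  refine ⟨C * 2 * √(3 ^ d) * 10, by positivity, ?_⟩
  intro k g hk hg Λ hΛ c₀ F L A hF _ hsub hpos
  have h0 : 0 ≤ Λ := (abs_nonneg _).trans (hΛ 0)
  have key : ∀ R : Cb d, ∃ (σ : ℝ) (μ : E d → ℝ), |σ| ≤ 1 ∧ (R ∈ F → Nice μ ∧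
      (∀ x, x ∉ cube R → μ x = 0) ∧ ∫ x, μ x = 0 ∧ ∫ x, |μ x| ≤ 2 * sz d R.1 ∧
      A * sz d R.1 ≤ σ * (∫ x in cube R, TT k (R.1 + L) c₀.1 g x) +
        ∫ x, TT k (R.1 + L) c₀.1 g x * μ x) := by
    intro R
    by_cases hR : R ∈ F
    · obtain ⟨σ, μ, a, b⟩ := step_atom' (TT_nice hk hg _ _) R A (hpos R hR)
      exact ⟨σ, μ, a, fun _ => b⟩
    · exact ⟨0, 0, by simp, fun h => absurd h hR⟩
  choose σ μ hσ hμ using key
  refine ⟨σ, hσ, ?_⟩
  have hA : Atoms F μ 2 := ⟨hF, fun Q h => (hμ Q h).1, fun Q h => (hμ Q h).2.1,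
    fun Q h => (hμ Q h).2.2.1, fun Q h => (hμ Q h).2.2.2.1⟩
  obtain ⟨U, hU⟩ : ∃ U : ℕ, ∀ R ∈ F, c₀.1 ≤ R.1 + U := by
    refine ⟨F.sup fun R => (c₀.1 - R.1).toNat, fun R hR => ?_⟩
    have := Finset.le_sup (f := fun R : Cb d => (c₀.1 - R.1).toNat) hR
    omega
  have hg' := hg.indicator (measurableSet_big c₀)
  have main : ∑ R ∈ F, ∫ x, TT k (R.1 + L) c₀.1 g x * μ R x ≤
      C * 2 * √(3 ^ d) * 10 * Λ * (9 / 10) ^ L * √(sz d c₀.1) * √(∑ R ∈ F, sz d R.1) := by
    have e : ∑ R ∈ F, ∫ x, TT k (R.1 + L) c₀.1 g x * μ R x = ∑ u ∈ Finset.Icc L U,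
        ∑ R ∈ F with R.1 + u ≤ c₀.1,
          ∫ y, (big c₀).indicator g y * cv (rf k) (R.1 + u) (μ R) y := by
      simp only [Finset.sum_filter]
      rw [Finset.sum_comm]
      refine Finset.sum_congr rfl fun R hR => ?_
      rw [step_pair hk hg (hμ R hR).1 (fun x hx => (hμ R hR).2.1 x fun h => hx (hsub R hR h)),
        step_reindex _ _ _ L U (hU R hR), Finset.sum_filter]
    rw [e]
    calc _ ≤ ∑ u ∈ Finset.Icc L U, C * 2 * (9 / 10) ^ u * (Λ * √(3 ^ d) * √(sz d c₀.1)) *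
          √(∑ R ∈ F, sz d R.1) := by
          refine Finset.sum_le_sum fun u _ => ?_
          refine (le_abs_self _).trans ((hS _ hk.rf _ μ 2 (by norm_num)
            (hA.subset (Finset.filter_subset _ _)) u _ hg').trans ?_)
          have a1 := step_sq hg hΛ c₀
          have a2 : ∑ R ∈ F with R.1 + u ≤ c₀.1, sz d R.1 ≤ ∑ R ∈ F, sz d R.1 :=
            Finset.sum_le_sum_of_subset_of_nonneg (Finset.filter_subset _ _)
              fun R _ _ => (sz_pos _).le
          gcongr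
      _ = (∑ u ∈ Finset.Icc L U, (9 / 10 : ℝ) ^ u) * (C * 2 * (Λ * √(3 ^ d) * √(sz d c₀.1)) *
          √(∑ R ∈ F, sz d R.1)) := by
          rw [Finset.sum_mul]
          exact Finset.sum_congr rfl fun u _ => by ring
      _ ≤ (10 * (9 / 10) ^ L) * (C * 2 * (Λ * √(3 ^ d) * √(sz d c₀.1)) *
          √(∑ R ∈ F, sz d R.1)) :=
          mul_le_mul_of_nonneg_right (step_geom L U) (by positivity)
      _ = _ := by ring
  calc A * ∑ R ∈ F, sz d R.1 = ∑ R ∈ F, A * sz d R.1 := Finset.mul_sum _ _ _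
    _ ≤ ∑ R ∈ F, (σ R * (∫ x in cube R, TT k (R.1 + L) c₀.1 g x) +
        ∫ x, TT k (R.1 + L) c₀.1 g x * μ R x) :=
        Finset.sum_le_sum fun R hR => (hμ R hR).2.2.2.2
    _ ≤ _ := by rw [Finset.sum_add_distrib]; linarith

end Pool.Agent.MP_418f02_an
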