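import Pool.Agent.MP_418f02_an.Weak

open MeasureTheory Set
open scoped ENNReal RealInnerProductSpace

namespace Pool.Agent.MP_418f02_an

variable {d : ℕ}

theorem wt1_anti {x y : ℝ≥0∞} {s : ℝ} (hs : 0 ≤ s) (h : x ≤ y) : y ^ (-s) ≤ x ^ (-s) := by
  rw [ENNReal.rpow_neg, ENNReal.rpow_neg]
  exact ENNReal.inv_le_inv.2 (ENNReal.rpow_le_rpow h hs)

theorem wt1_intOn {w : E d → ℝ} (h : LocallyIntegrable w volume) {S : Set (E d)}
    (hS : Bornology.IsBounded S) : IntegrableOn w S volume :=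
  (h.integrableOn_isCompact hS.isCompact_closure).mono_set subset_closure

theorem wt1_den_pos (j : ℤ) : (0 : ℝ) < 3 ^ d * sz d j := mul_pos (by positivity) (sz_pos j)

theorem wt1_lint {w : E d → ℝ} {A : ℝ} (h : A1 w A) (c : Cb d) :
    ∫⁻ y in big c, ENNReal.ofReal (w y) = ENNReal.ofReal (∫ y in big c, w y) :=
  (ofReal_integral_eq_lintegral_ofReal (wt1_intOn h.loc (isBounded_big c))
    (Filter.Eventually.of_forall fun y => (h.pos y).le)).symm

theorem wt1_av_ne_top {w : E d → ℝ} {A : ℝ} (h : A1 w A) (j : ℤ) (x : E d) :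
    av j (fun y => ENNReal.ofReal (w y)) x ≠ ∞ := by
  unfold av
  rw [wt1_lint h]
  exact ENNReal.div_ne_top ENNReal.ofReal_ne_top
    (ENNReal.ofReal_pos.2 (wt1_den_pos j)).ne'

theorem wt1_av_pos {w : E d → ℝ} {A : ℝ} (h : A1 w A) (j : ℤ) (x : E d) :
    0 < av j (fun y => ENNReal.ofReal (w y)) x := by
  unfold av
  refine ENNReal.div_pos ?_ ENNReal.ofReal_ne_top
  intro h0
  rw [lintegral_eq_zero_iff (h.meas.ennreal_ofReal)] at h0
  have h1 : ∀ᵐ y ∂(volume.restrict (big (cb j x))), False := by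
    filter_upwards [h0] with y hy
    have := ENNReal.ofReal_pos.2 (h.pos y)
    simp only [Pi.zero_apply] at hy
    exact this.ne' hy
  rw [Filter.eventually_false_iff_eq_bot, ae_eq_bot, Measure.restrict_eq_zero, volume_big] at h1
  exact (ENNReal.ofReal_pos.2 (wt1_den_pos _)).ne' h1

theorem wt1_mx_ne_top {w : E d → ℝ} {A : ℝ} (h : A1 w A) (a b : ℤ) (x : E d) :
    mx a b (fun y => ENNReal.ofReal (w y)) x ≠ ∞ := by
  have h1 : mx a b (fun y => ENNReal.ofReal (w y)) x ≤
      ∑ j ∈ Finset.Icc a b, av j (fun y => ENNReal.ofReal (w y)) x := by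
    rw [mx_le_iff]
    intro j ha hb
    exact Finset.single_le_sum (f := fun j => av j (fun y => ENNReal.ofReal (w y)) x)
      (fun _ _ => zero_le) (Finset.mem_Icc.2 ⟨ha, hb⟩)
  exact ne_top_of_le_ne_top (ENNReal.sum_ne_top.2 fun j _ => wt1_av_ne_top h j x) h1

theorem wt1_bad {F : E d → ℝ≥0∞} {a b : ℤ} {W : Cb d} (hb : W.1 ≤ b) {x0 : E d}
    (hx0 : x0 ∈ cube W) (h0 : mx W.1 b F x0 ≠ 0) (ht : mx W.1 b F x0 ≠ ∞) :
    volume {x | x ∈ cube W ∧ 2 * 9 ^ d * mx W.1 b F x0 < mx a b F x} ≤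
      ENNReal.ofReal (sz d W.1) / 2 := by
  set b0 := mx W.1 b F x0 with hb0
  have hT : (1 : ℝ≥0∞) ≤ 2 * 9 ^ d :=
    one_le_mul_of_one_le_of_one_le (by norm_num) (one_le_pow₀ (by norm_num))
  have hsub : {x | x ∈ cube W ∧ 2 * 9 ^ d * b0 < mx a b F x} ⊆
      {x | 2 * 9 ^ d * b0 < mx a b ((big W).indicator F) x} := by
    rintro x ⟨hx, hlt⟩
    by_contra hc
    simp only [mem_ofPred_eq, not_lt] at hc
    refine absurd hlt (not_lt.2 ?_)
    rw [mx_le_iff]
    intro j haj hjb
    rcases le_total W.1 j with hj | hj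
    · have e : mx W.1 b F x = b0 := mx_congr b F (by
        have h1 : ix W.1 x = W.2 := hx
        have h2 : ix W.1 x0 = W.2 := hx0
        rw [h1, h2])
      calc av j F x ≤ mx W.1 b F x := av_le_mx hj hjb F x
        _ = 1 * b0 := by rw [e, one_mul]
        _ ≤ 2 * 9 ^ d * b0 := by gcongr
    · have e : av j F x = av j ((big W).indicator F) x := by
        unfold av
        congr 1
        refine setLIntegral_congr_fun (measurableSet_big _) ?_
        intro y hy
        rw [indicator_of_mem (big_subset_big hj hx hy)]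
      rw [e]
      exact (av_le_mx haj hjb _ x).trans hc
  have hw := mx_weak a b ((big W).indicator F) (2 * 9 ^ d * b0)
  rw [lintegral_indicator (measurableSet_big W)] at hw
  have hden : ENNReal.ofReal (3 ^ d * sz d W.1) ≠ 0 :=
    (ENNReal.ofReal_pos.2 (wt1_den_pos _)).ne'
  have hI : ∫⁻ y in big W, F y ≤ b0 * ENNReal.ofReal (3 ^ d * sz d W.1) := by
    have h1 : av W.1 F x0 ≤ b0 := av_le_mx le_rfl hb F x0
    unfold av at h1
    rw [cb_eq_of_mem hx0] at h1
    exact (ENNReal.div_le_iff hden ENNReal.ofReal_ne_top).1 h1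
  have h3 : ENNReal.ofReal (3 ^ d * sz d W.1) = 3 ^ d * ENNReal.ofReal (sz d W.1) := by
    rw [ENNReal.ofReal_mul (by positivity), ENNReal.ofReal_pow (by norm_num)]
    norm_num
  have h9 : (9 : ℝ≥0∞) ^ d = 3 ^ d * 3 ^ d := by
    rw [← mul_pow]; norm_num
  have key : (9 ^ d * b0) * (volume {x | x ∈ cube W ∧ 2 * 9 ^ d * b0 < mx a b F x} * 2) ≤
      (9 ^ d * b0) * ENNReal.ofReal (sz d W.1) := by
    calc (9 ^ d * b0) * (volume {x | x ∈ cube W ∧ 2 * 9 ^ d * b0 < mx a b F x} * 2)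
        = 2 * 9 ^ d * b0 * volume {x | x ∈ cube W ∧ 2 * 9 ^ d * b0 < mx a b F x} := by ring
      _ ≤ 2 * 9 ^ d * b0 * volume {x | 2 * 9 ^ d * b0 < mx a b ((big W).indicator F) x} := by
          gcongr
      _ ≤ 3 ^ d * ∫⁻ y in big W, F y := hw
      _ ≤ 3 ^ d * (b0 * ENNReal.ofReal (3 ^ d * sz d W.1)) := by gcongr
      _ = (9 ^ d * b0) * ENNReal.ofReal (sz d W.1) := by rw [h3, h9]; ring
  have hn0 : (9 : ℝ≥0∞) ^ d * b0 ≠ 0 := mul_ne_zero (pow_ne_zero _ (by norm_num)) h0
  have hnt : (9 : ℝ≥0∞) ^ d * b0 ≠ ∞ :=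
    ENNReal.mul_ne_top (ENNReal.pow_ne_top (by norm_num)) ht
  rw [ENNReal.le_div_iff_mul_le (Or.inl (by norm_num)) (Or.inl (by norm_num))]
  exact (ENNReal.mul_le_mul_iff_right hn0 hnt).1 key

theorem flat_mx : ∃ M : ℝ, 1 ≤ M ∧ ∀ (w : E d → ℝ) (A : ℝ), A1 w A → ∀ (a b : ℤ) (q : ℝ), 1 < q →
    Flat (fun x => mx a b (fun y => ENNReal.ofReal (w y)) x ^ (-(q - 1))) a b (M ^ q) := by
  have h9 : (1 : ℝ) ≤ 9 ^ d := one_le_pow₀ (by norm_num)
  refine ⟨2 * (2 * 9 ^ d), by linarith, ?_⟩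
  intro w A h a b q hq W ha hb
  obtain ⟨x0, hx0⟩ := cube_nonempty W
  set F : E d → ℝ≥0∞ := fun y => ENNReal.ofReal (w y) with hF
  set b0 := mx W.1 b F x0 with hb0
  have hs : 0 ≤ q - 1 := by linarith
  have h0 : b0 ≠ 0 := ((wt1_av_pos h W.1 x0).trans_le (av_le_mx le_rfl hb F x0)).ne'
  have ht : b0 ≠ ∞ := wt1_mx_ne_top h _ _ _
  refine ⟨b0 ^ (-(q - 1)), ?_, ?_⟩
  · intro x hx
    refine wt1_anti hs ?_
    have e : mx W.1 b F x = b0 := mx_congr b F (by
      have h1 : ix W.1 x = W.2 := hx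
      have h2 : ix W.1 x0 = W.2 := hx0
      rw [h1, h2])
    rw [← e]
    exact mx_anti ha b F x
  · set T : ℝ≥0∞ := 2 * 9 ^ d with hT
    have hT0 : T ≠ 0 := mul_ne_zero (by norm_num) (pow_ne_zero _ (by norm_num))
    have hTt : T ≠ ∞ := ENNReal.mul_ne_top (by norm_num) (ENNReal.pow_ne_top (by norm_num))
    have hbad := wt1_bad (a := a) hb hx0 h0 ht
    rw [← hb0, ← hT] at hbad
    set G : Set (E d) := {x | x ∈ cube W ∧ mx a b F x ≤ T * b0} with hG
    have hGm : MeasurableSet G :=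
      (measurableSet_cube W).inter (measurableSet_le (mx_meas a b F) measurable_const)
    have hvol : ENNReal.ofReal (sz d W.1) ≤ 2 * volume G := by
      have h1 : ENNReal.ofReal (sz d W.1) ≤ volume G + ENNReal.ofReal (sz d W.1) / 2 := by
        calc ENNReal.ofReal (sz d W.1) = volume (cube W) := (volume_cube W).symm
          _ ≤ volume (G ∪ {x | x ∈ cube W ∧ T * b0 < mx a b F x}) := by
              refine measure_mono fun x hx => ?_
              rcases le_or_gt (mx a b F x) (T * b0) with h2 | h2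
              · exact Or.inl ⟨hx, h2⟩
              · exact Or.inr ⟨hx, h2⟩
          _ ≤ volume G + volume {x | x ∈ cube W ∧ T * b0 < mx a b F x} := measure_union_le _ _
          _ ≤ _ := by gcongr
      have h2 : ENNReal.ofReal (sz d W.1) / 2 ≤ volume G := by
        have hne : ENNReal.ofReal (sz d W.1) / 2 ≠ ∞ :=
          ENNReal.div_ne_top ENNReal.ofReal_ne_top (by norm_num)
        rw [← ENNReal.add_halves (ENNReal.ofReal (sz d W.1))] at h1
        rw [ENNReal.add_halves] at h1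
        have h3 : ENNReal.ofReal (sz d W.1) / 2 + ENNReal.ofReal (sz d W.1) / 2 ≤
            volume G + ENNReal.ofReal (sz d W.1) / 2 := by
          rw [ENNReal.add_halves]; exact h1
        exact (ENNReal.add_le_add_iff_right hne).1 h3
      rw [ENNReal.div_le_iff (by norm_num) (by norm_num)] at h2
      rwa [mul_comm]
    have hint : (T * b0) ^ (-(q - 1)) * volume G ≤
        ∫⁻ x in cube W, mx a b F x ^ (-(q - 1)) := by
      calc (T * b0) ^ (-(q - 1)) * volume G = ∫⁻ _ in G, (T * b0) ^ (-(q - 1)) := by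
            rw [setLIntegral_const]
        _ ≤ ∫⁻ x in G, mx a b F x ^ (-(q - 1)) :=
            setLIntegral_mono' hGm fun x hx => wt1_anti hs hx.2
        _ ≤ _ := lintegral_mono_set fun x hx => hx.1
    have hβ : b0 ^ (-(q - 1)) = T ^ (q - 1) * (T * b0) ^ (-(q - 1)) := by
      rw [ENNReal.mul_rpow_of_ne_top hTt ht, ← mul_assoc, ← ENNReal.rpow_add _ _ hT0 hTt]
      simp
    have hM : 2 * T ^ (q - 1) ≤ ENNReal.ofReal ((2 * (2 * 9 ^ d)) ^ q) := by
      have e1 : T = ENNReal.ofReal (2 * 9 ^ d) := by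
        rw [hT, ENNReal.ofReal_mul (by norm_num), ENNReal.ofReal_pow (by norm_num)]
        norm_num
      have e2 : (2 : ℝ≥0∞) = ENNReal.ofReal 2 := by norm_num
      rw [e1, ENNReal.ofReal_rpow_of_nonneg (by positivity) hs, e2,
        ← ENNReal.ofReal_mul (by norm_num)]
      refine ENNReal.ofReal_le_ofReal ?_
      rw [Real.mul_rpow (x := 2) (y := 2 * 9 ^ d) (by norm_num) (by positivity)]
      have h1 : (2 : ℝ) ≤ 2 ^ q := by
        calc (2 : ℝ) = 2 ^ (1 : ℝ) := by norm_num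
          _ ≤ 2 ^ q := Real.rpow_le_rpow_of_exponent_le (by norm_num) hq.le
      have h2 : ((2 : ℝ) * 9 ^ d) ^ (q - 1) ≤ (2 * 9 ^ d) ^ q :=
        Real.rpow_le_rpow_of_exponent_le (by linarith) (by linarith)
      exact mul_le_mul h1 h2 (by positivity) (by positivity)
    calc b0 ^ (-(q - 1)) * ENNReal.ofReal (sz d W.1)
        ≤ T ^ (q - 1) * (T * b0) ^ (-(q - 1)) * (2 * volume G) := by rw [hβ]; gcongr
      _ = 2 * T ^ (q - 1) * ((T * b0) ^ (-(q - 1)) * volume G) := by ring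
      _ ≤ _ := by gcongr

theorem w_le_mx {w : E d → ℝ} {A : ℝ} (h : A1 w A) (a b : ℤ) {q : ℝ} (hq : 1 < q) :
    ∀ᵐ x, ENNReal.ofReal (w x) ^ (-(q - 1)) ≤
      ENNReal.ofReal (A ^ (q - 1)) * mx a b (fun y => ENNReal.ofReal (w y)) x ^ (-(q - 1)) := by
  have hs : 0 ≤ q - 1 := by linarith
  have hA : 0 < A := lt_of_lt_of_le one_pos h.one_le
  filter_upwards [ae_all_iff.2 h.le] with x hx
  have h1 : mx a b (fun y => ENNReal.ofReal (w y)) x ≤
      ENNReal.ofReal A * ENNReal.ofReal (w x) := by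
    rw [mx_le_iff]
    intro j _ _
    unfold av
    rw [wt1_lint h, ENNReal.div_le_iff (ENNReal.ofReal_pos.2 (wt1_den_pos j)).ne'
      ENNReal.ofReal_ne_top, ← ENNReal.ofReal_mul hA.le,
      ← ENNReal.ofReal_mul (mul_pos hA (h.pos x)).le]
    refine ENNReal.ofReal_le_ofReal ((hx j).trans ?_)
    have h3 : (1 : ℝ) ≤ 3 ^ d := one_le_pow₀ (by norm_num)
    have h4 : 0 < A * sz d j * w x := mul_pos (mul_pos hA (sz_pos j)) (h.pos x)
    nlinarith
  have hA0 : ENNReal.ofReal A ≠ 0 := (ENNReal.ofReal_pos.2 hA).ne'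
  calc ENNReal.ofReal (w x) ^ (-(q - 1))
      = ENNReal.ofReal A ^ (q - 1) *
          (ENNReal.ofReal A * ENNReal.ofReal (w x)) ^ (-(q - 1)) := by
        rw [ENNReal.mul_rpow_of_ne_top ENNReal.ofReal_ne_top ENNReal.ofReal_ne_top, ← mul_assoc,
          ← ENNReal.rpow_add _ _ hA0 ENNReal.ofReal_ne_top]
        simp
    _ ≤ _ := by
        rw [ENNReal.ofReal_rpow_of_nonneg hA.le hs]
        exact mul_le_mul_right (wt1_anti hs h1) _

theorem a1_of_ball : ∃ C : ℝ, 1 ≤ C ∧ ∀ (w : E d → ℝ) (A : ℝ), LocallyIntegrable w volume →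
    (∀ᵐ x, 0 < w x) → (∀ (c : E d) (r : ℝ), 0 < r → ∀ᵐ x : E d,
      x ∈ Metric.ball c r → (⨍ y in Metric.ball c r, w y) ≤ A * w x) →
    1 ≤ A ∧ ∃ w' : E d → ℝ, w' =ᵐ[volume] w ∧ A1 w' (C * A) := by
  have hC : (1 : ℝ) ≤ (2 * (2 * d + 1)) ^ d :=
    one_le_pow₀ (by have : (0 : ℝ) ≤ d := Nat.cast_nonneg d; linarith)
  refine ⟨(2 * (2 * d + 1)) ^ d, hC, ?_⟩
  intro w A hloc hpos hball
  have hnn : 0 ≤ᵐ[volume] w := by
    filter_upwards [hpos] with x hx using hx.le
  have hA : 1 ≤ A := by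
    have hI : IntegrableOn w (Metric.ball (0 : E d) 1) volume :=
      wt1_intOn hloc Metric.isBounded_ball
    have hv0 : volume (Metric.ball (0 : E d) 1) ≠ 0 := (Metric.measure_ball_pos _ _ one_pos).ne'
    have hvt : volume (Metric.ball (0 : E d) 1) ≠ ∞ := measure_ball_lt_top.ne
    have hp : 0 < ∫ y in Metric.ball (0 : E d) 1, w y := by
      rw [setIntegral_pos_iff_support_of_nonneg_ae (ae_restrict_of_ae hnn) hI]
      have : (Function.support w ∩ Metric.ball (0 : E d) 1 : Set (E d)) =ᵐ[volume]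
          Metric.ball (0 : E d) 1 := by
        filter_upwards [hpos] with x hx
        exact propext ⟨fun h => h.2, fun h => ⟨hx.ne', h⟩⟩
      rw [measure_congr this]
      exact pos_iff_ne_zero.2 hv0
    have hle : ∫ _ in Metric.ball (0 : E d) 1, (⨍ y in Metric.ball (0 : E d) 1, w y) ≤
        ∫ x in Metric.ball (0 : E d) 1, A * w x := by
      refine setIntegral_mono_on_ae (integrableOn_const hvt) (hI.const_mul A)
        measurableSet_ball (hball 0 1 one_pos)
    rw [setIntegral_const, measure_smul_setAverage (h := hvt), integral_const_mul] at hle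
    by_contra hc
    push Not at hc
    nlinarith
  refine ⟨hA, ?_⟩
  have hm : AEMeasurable w volume := hloc.aestronglyMeasurable.aemeasurable
  classical
  set w' : E d → ℝ := fun x => if 0 < hm.mk w x then hm.mk w x else 1 with hw'
  have he : w' =ᵐ[volume] w := by
    filter_upwards [hpos, hm.ae_eq_mk] with x hx hx2
    simp only [hw']
    rw [← hx2, if_pos hx]
  refine ⟨w', he, ?_, ?_, ?_, ?_, ?_⟩
  · exact Measurable.ite (measurableSet_lt measurable_const hm.measurable_mk) hm.measurable_mk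
      measurable_const
  · intro x
    simp only [hw']
    split_ifs with h1
    · exact h1
    · exact one_pos
  · exact hloc.congr he.symm
  · exact one_le_mul_of_one_le_of_one_le hC hA
  · intro j
    choose p hp using fun n : Fin d → ℤ => cube_nonempty (d := d) (j, n)
    set r : ℝ := (2 * d + 1) * 2 ^ j with hr
    have h2j : (0 : ℝ) < 2 ^ j := zpow_pos (by norm_num) j
    have hr0 : 0 < r := by positivity
    filter_upwards [ae_all_iff.2 fun n : Fin d → ℤ => hball (p n) r hr0, he, hpos] with x hx hx2 hx3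
    have hsub : big (cb j x) ⊆ Metric.ball (p (ix j x)) r := by
      intro y hy
      have h1 := norm_sub_le_of_big (c := cb j x) (hp (ix j x)) hy
      rw [Metric.mem_ball, dist_comm, dist_eq_norm]
      have e : (cb j x).1 = j := rfl
      rw [e] at h1
      rw [hr]
      linarith
    have h1 := hx (ix j x) (hsub (cube_subset_big _ (mem_cube_cb j x)))
    have hI : IntegrableOn w (Metric.ball (p (ix j x)) r) volume :=
      wt1_intOn hloc Metric.isBounded_ball
    have hvt : volume (Metric.ball (p (ix j x)) r) ≠ ∞ := measure_ball_lt_top.ne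
    have hv : volume.real (Metric.ball (p (ix j x)) r) ≤ (2 * r) ^ d := by
      refine ENNReal.toReal_le_of_le_ofReal (by positivity) ?_
      refine le_trans (measure_mono ?_) (volume_norm_le (p (ix j x)) hr0.le)
      intro y hy
      rw [Metric.mem_ball, dist_eq_norm] at hy
      exact hy.le
    have hAw : 0 ≤ A * w x := mul_nonneg (by linarith) hx3.le
    calc ∫ y in big (cb j x), w' y = ∫ y in big (cb j x), w y :=
          integral_congr_ae (ae_restrict_of_ae he)
      _ ≤ ∫ y in Metric.ball (p (ix j x)) r, w y :=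
          setIntegral_mono_set hI (ae_restrict_of_ae hnn) hsub.eventuallyLE
      _ = volume.real (Metric.ball (p (ix j x)) r) *
            ⨍ y in Metric.ball (p (ix j x)) r, w y := by
          rw [← smul_eq_mul, measure_smul_setAverage (h := hvt)]
      _ ≤ volume.real (Metric.ball (p (ix j x)) r) * (A * w x) := by
          gcongr
      _ ≤ (2 * r) ^ d * (A * w x) := by gcongr
      _ = (2 * (2 * d + 1)) ^ d * A * sz d j * w' x := by
          rw [hx2, hr, sz, ← mul_assoc 2, mul_pow]; ring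

end Pool.Agent.MP_418f02_an
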