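import Pool.Agent.MP_418f02_an.Weak
import Pool.Agent.MP_418f02_an.RH

open MeasureTheory Set
open scoped ENNReal RealInnerProductSpace

namespace Pool.Agent.MP_418f02_an

variable {d : ℕ}

theorem wt2_vol_pos (j : ℤ) : (0 : ℝ) < 3 ^ d * sz d j := mul_pos (by positivity) (sz_pos j)

theorem wt2_holder {F H : E d → ℝ≥0∞} (hF : Measurable F) (hH : Measurable H) {p q : ℝ}
    (hpq : p.HolderConjugate q) (j : ℤ) (x : E d) :
    av j (fun y => F y * H y) x ≤
      av j (fun y => F y ^ p) x ^ (1 / p) * av j (fun y => H y ^ q) x ^ (1 / q) := by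
  unfold av
  set V : ℝ≥0∞ := ENNReal.ofReal (3 ^ d * sz d j) with hV
  have hV0 : V ≠ 0 := by
    rw [hV]; exact (ENNReal.ofReal_pos.2 (wt2_vol_pos j)).ne'
  have hVt : V ≠ ∞ := ENNReal.ofReal_ne_top
  have hp : 0 ≤ 1 / p := by have := hpq.pos; positivity
  have hq : 0 ≤ 1 / q := by have := hpq.symm.pos; positivity
  have h := ENNReal.lintegral_mul_le_Lp_mul_Lq (volume.restrict (big (cb j x))) hpq
    hF.aemeasurable hH.aemeasurable
  have hVV : V ^ (1 / p) * V ^ (1 / q) = V := by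
    rw [← ENNReal.rpow_add _ _ hV0 hVt, one_div, one_div, hpq.inv_add_inv_eq_one,
      ENNReal.rpow_one]
  rw [ENNReal.div_rpow_of_nonneg _ _ hp, ENNReal.div_rpow_of_nonneg _ _ hq]
  have h1 : V ^ (1 / p) ≠ 0 := (ENNReal.rpow_pos (pos_iff_ne_zero.2 hV0) hVt).ne'
  have h2 : V ^ (1 / p) ≠ ∞ := ENNReal.rpow_ne_top_of_nonneg hp hVt
  generalize (1 / p) = a at *
  generalize (1 / q) = b at *
  rw [div_eq_mul_inv, div_eq_mul_inv, div_eq_mul_inv, mul_mul_mul_comm,
    ← ENNReal.mul_inv (Or.inl h1) (Or.inl h2), hVV]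
  exact mul_le_mul_left h _

theorem wt2_av_w {w : E d → ℝ} {A : ℝ} (h : A1 w A) (j : ℤ) (x : E d) :
    av j (fun y => ENNReal.ofReal (w y) ^ (1 + 1 / (2 ^ (d + 2) * A))) x ≤
      2 * (3 ^ d * av j (fun y => ENNReal.ofReal (w y)) x) ^ (1 + 1 / (2 ^ (d + 2) * A)) := by
  have hA : 0 < A := lt_of_lt_of_le one_pos h.one_le
  set γ : ℝ := 1 + 1 / (2 ^ (d + 2) * A) with hγ
  have hγ0 : 0 ≤ γ := by positivity
  have hint : IntegrableOn w (big (cb j x)) volume :=
    (h.loc.integrableOn_isCompact (isBounded_big (cb j x)).isCompact_closure).mono_set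
      subset_closure
  set I : ℝ := ∫ y in big (cb j x), w y with hI
  have hI0 : 0 ≤ I := integral_nonneg fun y => (h.pos y).le
  have hs := sz_pos (d := d) j
  have hl : ∫⁻ y in big (cb j x), ENNReal.ofReal (w y) = ENNReal.ofReal I :=
    (ofReal_integral_eq_lintegral_ofReal hint
      (Filter.Eventually.of_forall fun y => (h.pos y).le)).symm
  have hav : 3 ^ d * av j (fun y => ENNReal.ofReal (w y)) x = ENNReal.ofReal (I / sz d j) := by
    unfold av
    rw [hl, ← ENNReal.ofReal_div_of_pos (wt2_vol_pos j)]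
    have : (3 : ℝ≥0∞) ^ d = ENNReal.ofReal (3 ^ d) := by
      rw [ENNReal.ofReal_pow (by norm_num)]; norm_num
    rw [this, ← ENNReal.ofReal_mul (by positivity)]
    congr 1
    field_simp
  obtain ⟨N, hc, -, hlev, hb⟩ := exists_nbrs (cb j x)
  have hlev' : ∀ c ∈ N, c.1 = j := hlev
  have hsum : ∫⁻ y in big (cb j x), ENNReal.ofReal (w y) ^ γ ≤
      ∑ c ∈ N, ∫⁻ y in cube c, ENNReal.ofReal (w y) ^ γ := by
    rw [hb]
    have e : (⋃ c ∈ N, cube c) = ⋃ c : N, cube (c : Cb d) := by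
      ext y; simp
    rw [e]
    refine (lintegral_iUnion_le _ _).trans ?_
    rw [tsum_fintype, Finset.sum_coe_sort N
      (fun c => ∫⁻ y in cube c, ENNReal.ofReal (w y) ^ γ)]
  have hone : ∀ c ∈ N, ∫⁻ y in cube c, ENNReal.ofReal (w y) ^ γ ≤
      ENNReal.ofReal (2 * (I / sz d j) ^ γ * sz d j) := by
    intro c hcN
    refine (rh h c).trans (ENNReal.ofReal_le_ofReal ?_)
    rw [hlev' c hcN]
    have hsub : cube c ⊆ big (cb j x) := by
      rw [hb]; exact subset_biUnion_of_mem (u := fun c => cube c) (Finset.mem_coe.2 hcN)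
    have hle : ∫ y in cube c, w y ≤ I :=
      setIntegral_mono_set hint (Filter.Eventually.of_forall fun y => (h.pos y).le)
        hsub.eventuallyLE
    have h0 : 0 ≤ ∫ y in cube c, w y := integral_nonneg fun y => (h.pos y).le
    gcongr
  have htot := hsum.trans (Finset.sum_le_card_nsmul N _ _ hone)
  rw [hc] at htot
  rw [hav, ENNReal.ofReal_rpow_of_nonneg (by positivity) hγ0]
  unfold av
  have hV0 : ENNReal.ofReal (3 ^ d * sz d j) ≠ 0 := (ENNReal.ofReal_pos.2 (wt2_vol_pos j)).ne'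
  refine ENNReal.div_le_of_le_mul (htot.trans (le_of_eq ?_))
  have e2 : (2 : ℝ≥0∞) = ENNReal.ofReal 2 := by norm_num
  rw [nsmul_eq_mul, e2, ← ENNReal.ofReal_natCast, ← ENNReal.ofReal_mul (by positivity),
    ← ENNReal.ofReal_mul (by positivity), ← ENNReal.ofReal_mul (by positivity)]
  congr 1
  push_cast
  ring

theorem wt2_cancel (M : ℝ≥0∞) {y : ℝ} (hy : 0 < y) : M ^ y * M ^ (-y) ≤ 1 := by
  rcases eq_or_ne M 0 with rfl | h0
  · rw [ENNReal.zero_rpow_of_pos hy]; simp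
  rcases eq_or_ne M ∞ with rfl | ht
  · rw [ENNReal.top_rpow_of_neg (neg_lt_zero.2 hy)]; simp
  rw [← ENNReal.rpow_add _ _ h0 ht]; simp

/-- the pointwise estimate -/
theorem wt2_point {w : E d → ℝ} {A : ℝ} (h : A1 w A) {g : E d → ℝ} (hg : Measurable g)
    {q u v κ γ : ℝ} (hq : 1 < q) (hu : 0 < u) (hv : 0 < v)
    (hγ : γ = 1 + 1 / (2 ^ (d + 2) * A)) (hκ : κ = v * γ) (hκq : κ * q = q - 1)
    (a b : ℤ) (x : E d) :
    mx a b (fun y => ENNReal.ofReal |g y| ^ (u + v)⁻¹) x ^ (q / (u + v)⁻¹) *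
        mx a b (fun y => ENNReal.ofReal (w y)) x ^ (-(q - 1)) ≤
      (2 ^ (v * q) * (3 ^ d) ^ (q - 1)) *
        mx a b (fun y => (ENNReal.ofReal |g y| * ENNReal.ofReal (w y) ^ (-κ)) ^ u⁻¹) x ^
          (u * q) := by
  have hA : 0 < A := lt_of_lt_of_le one_pos h.one_le
  have hγ0 : 0 < γ := by rw [hγ]; positivity
  have hρ : 0 < u + v := by positivity
  set G : E d → ℝ≥0∞ := fun y => ENNReal.ofReal |g y| * ENNReal.ofReal (w y) ^ (-κ) with hG
  have hw : Measurable fun y => ENNReal.ofReal (w y) := h.meas.ennreal_ofReal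
  have hGm : Measurable G := (hg.abs.ennreal_ofReal).mul (hw.pow_const _)
  set M := mx a b (fun y => ENNReal.ofReal (w y)) x with hM
  set X := mx a b (fun y => G y ^ u⁻¹) x with hX
  have hconj : ((u + v) / u).HolderConjugate ((u + v) / v) := by
    rw [Real.holderConjugate_iff]
    refine ⟨(one_lt_div hu).2 (by linarith), ?_⟩
    field_simp
  have hsplit : (fun y => ENNReal.ofReal |g y| ^ (u + v)⁻¹) =
      fun y => G y ^ (u + v)⁻¹ * (ENNReal.ofReal (w y) ^ κ) ^ (u + v)⁻¹ := by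
    funext y
    have h0 : ENNReal.ofReal (w y) ≠ 0 := (ENNReal.ofReal_pos.2 (h.pos y)).ne'
    rw [← ENNReal.mul_rpow_of_nonneg _ _ (by positivity), hG]
    dsimp only
    rw [mul_assoc, ← ENNReal.rpow_add _ _ h0 ENNReal.ofReal_ne_top]
    simp
  have hbound : mx a b (fun y => ENNReal.ofReal |g y| ^ (u + v)⁻¹) x ≤
      X ^ (u / (u + v)) * (2 * (3 ^ d * M) ^ γ) ^ (v / (u + v)) := by
    rw [mx_le_iff]
    intro j ha hb
    rw [hsplit]
    refine (wt2_holder (hGm.pow_const _) ((hw.pow_const _).pow_const _) hconj j x).trans ?_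
    have e1 : (fun y => (G y ^ (u + v)⁻¹) ^ ((u + v) / u)) = fun y => G y ^ u⁻¹ := by
      funext y
      rw [← ENNReal.rpow_mul]
      congr 1
      field_simp
    have e2 : (fun y => ((ENNReal.ofReal (w y) ^ κ) ^ (u + v)⁻¹) ^ ((u + v) / v)) =
        fun y => ENNReal.ofReal (w y) ^ γ := by
      funext y
      rw [← ENNReal.rpow_mul, ← ENNReal.rpow_mul, hκ]
      congr 1
      field_simp
    rw [e1, e2, one_div_div, one_div_div]
    have h1 := av_le_mx ha hb (fun y => G y ^ u⁻¹) x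
    have h2 := av_le_mx ha hb (fun y => ENNReal.ofReal (w y)) x
    have h3 := wt2_av_w h j x
    rw [← hγ] at h3
    have h4 : av j (fun y => ENNReal.ofReal (w y) ^ γ) x ≤ 2 * (3 ^ d * M) ^ γ := by
      refine h3.trans ?_
      gcongr
    gcongr
  have hq0 : 0 ≤ q / (u + v)⁻¹ := by positivity
  have hpow : mx a b (fun y => ENNReal.ofReal |g y| ^ (u + v)⁻¹) x ^ (q / (u + v)⁻¹) ≤
      X ^ (u * q) * (2 ^ (v * q) * ((3 ^ d) ^ (q - 1) * M ^ (q - 1))) := by
    refine (ENNReal.rpow_le_rpow hbound hq0).trans (le_of_eq ?_)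
    have e1 : u / (u + v) * (q / (u + v)⁻¹) = u * q := by field_simp
    have e2 : v / (u + v) * (q / (u + v)⁻¹) = v * q := by field_simp
    have e3 : γ * (v * q) = q - 1 := by rw [← hκq, hκ]; ring
    rw [ENNReal.mul_rpow_of_nonneg _ _ hq0, ← ENNReal.rpow_mul, ← ENNReal.rpow_mul, e1, e2,
      ENNReal.mul_rpow_of_nonneg _ _ (by positivity), ← ENNReal.rpow_mul, e3,
      ENNReal.mul_rpow_of_nonneg _ _ (by linarith)]
  calc _ ≤ X ^ (u * q) * (2 ^ (v * q) * ((3 ^ d) ^ (q - 1) * M ^ (q - 1))) * M ^ (-(q - 1)) :=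
        mul_le_mul_left hpow _
    _ = (2 ^ (v * q) * (3 ^ d) ^ (q - 1)) * X ^ (u * q) * (M ^ (q - 1) * M ^ (-(q - 1))) := by
        ring
    _ ≤ (2 ^ (v * q) * (3 ^ d) ^ (q - 1)) * X ^ (u * q) * 1 :=
        mul_le_mul_right (wt2_cancel M (by linarith)) _
    _ = _ := mul_one _

theorem mx_chain : ∃ C : ℝ, 0 < C ∧ ∀ (w : E d → ℝ) (A q : ℝ), A1 w A → 2 ≤ q →
    ∃ N r : ℝ, 1 ≤ N ∧ N ≤ C * A ∧ 1 + 1 / N ≤ r ∧ ∀ g : E d → ℝ, Measurable g → ∀ a b : ℤ,
    ∫⁻ x, mx a b (fun y => ENNReal.ofReal |g y| ^ r) x ^ (q / r) *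
        mx a b (fun y => ENNReal.ofReal (w y)) x ^ (-(q - 1)) ≤
      ENNReal.ofReal (C ^ q * A) *
        ∫⁻ x, ENNReal.ofReal |g x| ^ q * ENNReal.ofReal (w x) ^ (-(q - 1)) := by
  set T : ℝ := 2 ^ (d + 2) with hT
  set S : ℝ := 3 ^ d with hS
  have hT1 : 1 ≤ T := one_le_pow₀ (by norm_num)
  have hS1 : 1 ≤ S := one_le_pow₀ (by norm_num)
  set D : ℝ := S * (3 + 2 * T) with hD
  have hD1 : 1 ≤ D := by nlinarith
  refine ⟨4 * S * D, by positivity, fun w A q h hq => ?_⟩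
  have hA1 := h.one_le
  set B : ℝ := T * A with hB
  have hB1 : 1 ≤ B := by nlinarith
  have hq0 : 0 < q := by linarith
  -- eta = 1 / (B + 1)
  set η : ℝ := 1 / (B + 1) with hη
  have hη0 : 0 < η := by positivity
  have hη1 : η ≤ 1 / 2 := by
    rw [hη]; exact one_div_le_one_div_of_le (by norm_num) (by linarith)
  have hηB : η * (B + 1) = 1 := by rw [hη]; field_simp
  set u : ℝ := (1 + η * (3 * q / 4 - 1)) / q with hu
  set v : ℝ := (q - 1) / q * (1 - η) with hv
  have huq : u * q = 1 + η * (3 * q / 4 - 1) := by rw [hu]; field_simp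
  have hvq : v * q = (q - 1) * (1 - η) := by rw [hv]; field_simp
  have hs1 : 1 + η / 2 ≤ u * q := by rw [huq]; nlinarith
  have hs2 : u * q ≤ q := by rw [huq]; nlinarith
  have hu0 : 0 < u := by
    rw [hu]; apply div_pos _ hq0; nlinarith
  have hv0 : 0 < v := by
    rw [hv]; apply mul_pos (div_pos (by linarith) hq0); linarith
  have huv : u + v = 1 - η / 4 := by rw [hu, hv]; field_simp; ring
  have hκ : (q - 1) / q = v * (1 + 1 / (2 ^ (d + 2) * A)) := by
    rw [hv, ← hT, ← hB, hη]; field_simp; ring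
  refine ⟨8 * B, (u + v)⁻¹, by linarith, ?_, ?_, fun g hg a b => ?_⟩
  · have : 2 * T ≤ S * D := by nlinarith
    nlinarith
  · rw [huv, le_inv_comm₀ (by positivity) (by linarith), inv_eq_one_div,
      le_div_iff₀ (by positivity)]
    have e : 1 / (8 * B) ≤ η / 4 := by
      rw [hη, div_div, one_div_le_one_div (by positivity) (by positivity)]; linarith
    have e0 : 0 < 1 / (8 * B) := by positivity
    nlinarith
  set κ : ℝ := (q - 1) / q with hκd
  have hκq : κ * q = q - 1 := by rw [hκd]; field_simp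
  set F : E d → ℝ≥0∞ :=
    fun y => (ENNReal.ofReal |g y| * ENNReal.ofReal (w y) ^ (-κ)) ^ u⁻¹ with hF
  have hFm : Measurable F :=
    ((hg.abs.ennreal_ofReal).mul (h.meas.ennreal_ofReal.pow_const _)).pow_const _
  have hs : 1 < u * q := by linarith
  have hFs : ∀ y, F y ^ (u * q) = ENNReal.ofReal |g y| ^ q * ENNReal.ofReal (w y) ^ (-(q - 1)) := by
    intro y
    rw [hF]
    dsimp only
    rw [← ENNReal.rpow_mul, show u⁻¹ * (u * q) = q by field_simp,
      ENNReal.mul_rpow_of_nonneg _ _ hq0.le, ← ENNReal.rpow_mul, neg_mul, hκq]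
  have hK : (2 : ℝ≥0∞) ^ (v * q) * (3 ^ d) ^ (q - 1) = ENNReal.ofReal (2 ^ (v * q) * S ^ (q - 1)) := by
    have e2 : (2 : ℝ≥0∞) = ENNReal.ofReal 2 := by norm_num
    have e3 : (3 : ℝ≥0∞) ^ d = ENNReal.ofReal S := by
      rw [hS, ENNReal.ofReal_pow (by norm_num)]; norm_num
    rw [e2, e3, ENNReal.ofReal_rpow_of_pos (by norm_num), ENNReal.ofReal_rpow_of_pos (by linarith),
      ← ENNReal.ofReal_mul (by positivity)]
  have hconst : 2 ^ (v * q) * S ^ (q - 1) * (3 ^ d * 2 ^ (u * q) * (u * q / (u * q - 1))) ≤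
      (4 * S * D) ^ q * A := by
    have h1 : (2 : ℝ) ^ (v * q) ≤ 2 ^ q :=
      Real.rpow_le_rpow_of_exponent_le (by norm_num) (by rw [hvq]; nlinarith)
    have h2 : S ^ (q - 1) ≤ S ^ q := Real.rpow_le_rpow_of_exponent_le hS1 (by linarith)
    have h3 : (2 : ℝ) ^ (u * q) ≤ 2 ^ q := Real.rpow_le_rpow_of_exponent_le (by norm_num) hs2
    have h4 : u * q / (u * q - 1) ≤ (3 + 2 * T) * A := by
      rw [div_le_iff₀ (by linarith)]
      have h5 : 2 * B + 3 ≤ (3 + 2 * T) * A := by rw [hB]; nlinarith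
      have h6 : (2 * B + 3) * (u * q - 1) ≤ (3 + 2 * T) * A * (u * q - 1) :=
        mul_le_mul_of_nonneg_right h5 (by linarith)
      have h7 : (B + 1) * η ≤ (B + 1) * (2 * (u * q - 1)) :=
        mul_le_mul_of_nonneg_left (by linarith) (by linarith)
      nlinarith
    have h5 : D ≤ D ^ q := by
      conv_lhs => rw [← Real.rpow_one D]
      exact Real.rpow_le_rpow_of_exponent_le hD1 (by linarith)
    have h6 : (4 * S * D) ^ q = 2 ^ q * 2 ^ q * S ^ q * D ^ q := by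
      rw [← Real.mul_rpow (by norm_num) (by norm_num), ← Real.mul_rpow (by norm_num) (by linarith),
        ← Real.mul_rpow (by positivity) (by linarith)]
      norm_num
    have h7 : 0 ≤ u * q / (u * q - 1) := div_nonneg (by linarith) (by linarith)
    calc _ ≤ 2 ^ q * S ^ q * (S * 2 ^ q * ((3 + 2 * T) * A)) := by gcongr
      _ = 2 ^ q * 2 ^ q * S ^ q * D * A := by rw [hD]; ring
      _ ≤ 2 ^ q * 2 ^ q * S ^ q * D ^ q * A := by gcongr
      _ = _ := by rw [h6]
  calc _ ≤ ∫⁻ x, ENNReal.ofReal (2 ^ (v * q) * S ^ (q - 1)) * mx a b F x ^ (u * q) := by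
        refine lintegral_mono fun x => ?_
        rw [← hK]
        exact wt2_point h hg (by linarith) hu0 hv0 rfl hκ hκq a b x
    _ = ENNReal.ofReal (2 ^ (v * q) * S ^ (q - 1)) * ∫⁻ x, mx a b F x ^ (u * q) :=
        lintegral_const_mul' _ _ ENNReal.ofReal_ne_top
    _ ≤ ENNReal.ofReal (2 ^ (v * q) * S ^ (q - 1)) *
          (ENNReal.ofReal (3 ^ d * 2 ^ (u * q) * (u * q / (u * q - 1))) * ∫⁻ x, F x ^ (u * q)) :=
        mul_le_mul_right (mx_strong a b hFm hs) _
    _ ≤ _ := by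
        rw [← mul_assoc, ← ENNReal.ofReal_mul (by positivity)]
        simp only [hFs]
        exact mul_le_mul_left (ENNReal.ofReal_le_ofReal hconst) _

end Pool.Agent.MP_418f02_an
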