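import Pool.Agent.MP_418f02_an.Glue
import Pool.Agent.MP_418f02_an.Wt1
import Pool.Agent.MP_418f02_an.Wt2
import Pool.Agent.MP_418f02_an.Dual

open MeasureTheory Set
open scoped ENNReal

namespace Pool.Agent.MP_418f02_an

variable {d : ℕ}

theorem wt_bound (hd : 1 ≤ d) : ∃ C : ℝ, 0 < C ∧ ∀ (k g w : E d → ℝ) (A q : ℝ) (a b : ℤ),
    IsKer k → Nice g → A1 w A → 2 ≤ q →
    ∫⁻ x, ENNReal.ofReal |TT k a b g x| ^ q * ENNReal.ofReal (w x) ^ (-(q - 1)) ≤
      ENNReal.ofReal ((C * (q * (A * √A) + A ^ 2)) ^ q) *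
        ∫⁻ x, ENNReal.ofReal |g x| ^ q * ENNReal.ofReal (w x) ^ (-(q - 1)) := by
  obtain ⟨C₁, hC₁, h1⟩ := glue hd
  obtain ⟨M, hM, h2⟩ := flat_mx (d := d)
  obtain ⟨C₂, hC₂, h3⟩ := mx_chain (d := d)
  refine ⟨C₁ * M * C₂ * (C₂ + √C₂), by positivity, fun k g w A q a b hk hg hw hq => ?_⟩
  obtain ⟨N, r, hN, hNA, hr, h4⟩ := h3 w A q hw hq
  have hA : 0 < A := zero_lt_one.trans_le hw.one_le
  have hq1 : 1 < q := by linarith
  have hV : Measurable fun x => mx a b (fun y => ENNReal.ofReal (w y)) x ^ (-(q - 1)) :=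
    (mx_meas _ _ _).pow_const _
  have h5 := h1 k g hk hg a b N r q M _ hN hr hq1.le hM hV (h2 w A hw a b q hq1)
  have h6 : A * (N + q * √N) ≤ (C₂ + √C₂) * (q * (A * √A) + A ^ 2) := by
    have e1 : √N ≤ √C₂ * √A := by
      rw [← Real.sqrt_mul hC₂.le]
      exact Real.sqrt_le_sqrt hNA
    have e2 : A * (q * √N) ≤ A * (q * (√C₂ * √A)) := by gcongr
    have e3 : A * N ≤ A * (C₂ * A) := by gcongr
    have e4 : 0 ≤ C₂ * (q * (A * √A)) := by positivity
    have e5 : 0 ≤ √C₂ * A ^ 2 := by positivity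
    nlinarith
  have h7 : A ^ (q - 1) * ((C₁ * M * (N + q * √N)) ^ q * (C₂ ^ q * A)) ≤
      (C₁ * M * C₂ * (C₂ + √C₂) * (q * (A * √A) + A ^ 2)) ^ q := by
    have e1 : A ^ (q - 1) * A = A ^ q := by
      rw [Real.rpow_sub_one hA.ne', div_mul_cancel₀ _ hA.ne']
    calc _ = A ^ (q - 1) * A * (C₁ * M * (N + q * √N)) ^ q * C₂ ^ q := by ring
      _ = (A * (C₁ * M * (N + q * √N)) * C₂) ^ q := by
          rw [e1, Real.mul_rpow (by positivity) hC₂.le, Real.mul_rpow hA.le (by positivity)]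
      _ ≤ _ := by
          refine Real.rpow_le_rpow (by positivity) ?_ (by positivity)
          calc _ = C₁ * M * C₂ * (A * (N + q * √N)) := by ring
            _ ≤ C₁ * M * C₂ * ((C₂ + √C₂) * (q * (A * √A) + A ^ 2)) := by gcongr
            _ = _ := by ring
  calc _ ≤ ∫⁻ x, ENNReal.ofReal (A ^ (q - 1)) * (ENNReal.ofReal |TT k a b g x| ^ q *
        mx a b (fun y => ENNReal.ofReal (w y)) x ^ (-(q - 1))) := by
        refine lintegral_mono_ae ((w_le_mx hw a b hq1).mono fun x hx => ?_)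
        rw [mul_left_comm]
        exact mul_le_mul_right hx _
    _ = ENNReal.ofReal (A ^ (q - 1)) * ∫⁻ x, ENNReal.ofReal |TT k a b g x| ^ q *
        mx a b (fun y => ENNReal.ofReal (w y)) x ^ (-(q - 1)) :=
        lintegral_const_mul' _ _ ENNReal.ofReal_ne_top
    _ ≤ ENNReal.ofReal (A ^ (q - 1)) * (ENNReal.ofReal ((C₁ * M * (N + q * √N)) ^ q) *
        (ENNReal.ofReal (C₂ ^ q * A) *
          ∫⁻ x, ENNReal.ofReal |g x| ^ q * ENNReal.ofReal (w x) ^ (-(q - 1)))) :=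
        mul_le_mul_right (h5.trans (mul_le_mul_right (h4 g hg.meas a b) _)) _
    _ ≤ _ := by
        rw [← mul_assoc, ← mul_assoc, mul_assoc (ENNReal.ofReal (A ^ (q - 1))),
          ← ENNReal.ofReal_mul (by positivity), ← ENNReal.ofReal_mul (by positivity)]
        exact mul_le_mul_left (ENNReal.ofReal_le_ofReal h7) _

theorem lp_bound (hd : 1 ≤ d) : ∃ C : ℝ, 0 < C ∧ ∀ (k f w : E d → ℝ) (A p : ℝ) (a b : ℤ),
    IsKer k → Nice f → A1 w A → 1 < p → p ≤ 2 →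
    ∫⁻ x, ENNReal.ofReal |TT k a b f x| ^ p * ENNReal.ofReal (w x) ≤
      ENNReal.ofReal ((C * (p / (p - 1) * (A * √A) + A ^ 2)) ^ p) *
        ∫⁻ x, ENNReal.ofReal |f x| ^ p * ENNReal.ofReal (w x) := by
  obtain ⟨C, hC, h⟩ := wt_bound hd
  refine ⟨C, hC, fun k f w A p a b hk hf hw hp hp2 => ?_⟩
  have hA : 0 < A := zero_lt_one.trans_le hw.one_le
  have h1 : 0 < p - 1 := sub_pos.2 hp
  have hq : 2 ≤ p / (p - 1) := by
    rw [le_div_iff₀ h1]
    linarith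
  exact dual_bound hk hw hp (by positivity) a b (fun g hg => h _ g w A _ a b hk.rf hg hw hq) hf

end Pool.Agent.MP_418f02_an
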